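import Pool.Agent.P.MP_785924_gt.B.IfaceB

/-! Step CLS of the free boundary annulus project. -/

namespace Pool.Agent.P.MP_785924_gt

open scoped ContDiff
open Set Filter Topology

namespace CLSAux

variable {T P : ℝ} {u : ℝ × ℝ → ℝ}

theorem shift (h : Per P u) {p q : ℝ × ℝ} (hj : JoinedIn (UZ T u) p q) (n : ℤ) :
    JoinedIn (UZ T u) (p.1, p.2 + n * P) (q.1, q.2 + n * P) := by
  refine (hj.map (f := fun z : ℝ × ℝ => (z.1, z.2 + n * P)) (by fun_prop)).mono ?_
  rintro _ ⟨z, hz, rfl⟩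
  exact ⟨hz.1, by rw [h.int]; exact hz.2⟩

theorem of_joined {U : Set (ℝ × ℝ)} {p q : ℝ × ℝ} (hj : JoinedIn U p q) : Rel P U p q :=
  ⟨0, by simpa using hj⟩

theorem symm (h : Per P u) {p q : ℝ × ℝ} (hr : Rel P (UZ T u) p q) : Rel P (UZ T u) q p := by
  obtain ⟨n, hn⟩ := hr
  exact ⟨-n, by simpa using (shift h hn (-n)).symm⟩

theorem trans (h : Per P u) {p q r : ℝ × ℝ} (h1 : Rel P (UZ T u) p q) (h2 : Rel P (UZ T u) q r) :
    Rel P (UZ T u) p r := by
  obtain ⟨n, hn⟩ := h1
  obtain ⟨m, hm⟩ := h2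
  refine ⟨m + n, hn.trans ?_⟩
  have := shift h hm n
  simpa [add_mul, add_assoc] using this

theorem per_iff {U : Set (ℝ × ℝ)} (p : ℝ × ℝ) (t s : ℝ) :
    Rel P U p (t, s + P) ↔ Rel P U p (t, s) := by
  constructor
  · rintro ⟨n, hn⟩
    refine ⟨n + 1, ?_⟩
    have e : s + ((n + 1 : ℤ) : ℝ) * P = s + P + n * P := by push_cast; ring
    simpa only [e] using hn
  · rintro ⟨n, hn⟩
    refine ⟨n - 1, ?_⟩
    have e : s + P + ((n - 1 : ℤ) : ℝ) * P = s + n * P := by push_cast; ring
    simpa only [e] using hn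

theorem sign (hc : Continuous u) {p q : ℝ × ℝ} (hj : JoinedIn (UZ T u) p q) : 0 < u p * u q := by
  obtain ⟨γ, hγ⟩ := hj
  have c : Continuous fun t => u p * u (γ t) := continuous_const.mul (hc.comp γ.continuous)
  by_contra hn
  have h0 : u p ≠ 0 := by simpa using (hγ 0).2
  obtain ⟨t, ht⟩ := intermediate_value_univ 1 0 c (show (0 : ℝ) ∈ Icc _ _ from
    ⟨by simpa using hn, by simpa using mul_self_nonneg (u p)⟩)
  exact mul_ne_zero h0 (hγ t).2 ht

theorem near (hc : Continuous u) {p : ℝ × ℝ} (hp : p ∈ UZ T u) :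
    ∀ᶠ q in 𝓝[strip T] p, Rel P (UZ T u) p q := by
  obtain ⟨r, hr, h⟩ := Metric.eventually_nhds_iff_ball.1 (hc.continuousAt.eventually_ne hp.2)
  filter_upwards [self_mem_nhdsWithin, mem_nhdsWithin_of_mem_nhds (Metric.ball_mem_nhds p hr)]
    with q h1 h2
  refine of_joined (JoinedIn.of_segment_subset fun z hz => ⟨?_, h z ?_⟩)
  · exact (convex_strip T).segment_subset hp.1 h1 hz
  · exact (convex_ball p r).segment_subset (Metric.mem_ball_self hr) h2 hz

theorem vert {t a b : ℝ} (ht : t ∈ Icc (-T) T) (hab : a ≤ b) (h : ∀ s ∈ Icc a b, u (t, s) ≠ 0) :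
    Rel P (UZ T u) (t, a) (t, b) := by
  refine of_joined (((JoinedIn.of_segment_subset (segment_eq_Icc hab).subset).map
    (f := fun s : ℝ => (t, s)) (by fun_prop)).mono ?_)
  rintro _ ⟨s, hs, rfl⟩
  exact ⟨mem_strip_of_Icc ht s, h s hs⟩

theorem near_level (hc : Continuous u) {e : ℝ × ℝ} (he : e ∈ strip T) {b : ℝ}
    (hb : u (e.1, b) ≠ 0) : ∀ᶠ q in 𝓝[strip T] e, Rel P (UZ T u) (e.1, b) (q.1, b) := by
  have t : Tendsto (fun q : ℝ × ℝ => (q.1, b)) (𝓝[strip T] e) (𝓝[strip T] (e.1, b)) :=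
    ContinuousWithinAt.tendsto_nhdsWithin (f := fun q : ℝ × ℝ => (q.1, b)) (by fun_prop)
      fun q hq => hq
  exact t.eventually (near hc (p := (e.1, b)) ⟨he, hb⟩)

end CLSAux

open CLSAux in
theorem p_CLS :
    S_CLS := by
  intro T P u _ _ hu
  have hc := hu.cont
  refine ⟨fun p hp => of_joined (JoinedIn.refl hp), fun p q => symm hu.2, fun p q r => trans hu.2,
    ?_, per_iff, fun p hp => near hc hp, fun r => ⟨⟨1, fun p => ?_⟩, fun t s => ?_, ?_⟩,
    fun t ht a b => vert ht, ?_⟩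
  · rintro p q ⟨n, hn⟩
    have e := hu.2.int q.1 q.2 n
    refine ⟨hn.source_mem, ⟨hn.target_mem.1, ?_⟩, ?_⟩
    · have := hn.target_mem.2
      rwa [e] at this
    · have := sign hc hn
      rwa [e] at this
  · unfold ind; split_ifs <;> simp
  · unfold ind; rw [propext (per_iff r t s)]
  · intro p hp h0
    filter_upwards [near (P := P) hc (p := p) ⟨hp, h0⟩] with q hq
    have : Rel P (UZ T u) r q ↔ Rel P (UZ T u) r p :=
      ⟨fun h => trans hu.2 h (symm hu.2 hq), fun h => trans hu.2 h hq⟩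
    unfold ind; rw [propext this]
  · intro e he h0 hd η hη
    set g := dS u e with hg
    have hv := hu.cmul g
    have hpos : ∀ᶠ q in 𝓝 e, 0 < g * dS u q :=
      (continuous_const.mul hu.dS.cont).continuousAt.eventually
        (lt_mem_nhds (mul_self_pos.2 hd))
    obtain ⟨r, hr, h⟩ := Metric.eventually_nhds_iff.1 hpos
    set δ := min η r / 2 with hδ
    have m0 : 0 < min η r := lt_min hη hr
    have δ0 : 0 < δ := by linarith
    have δr : δ < r := by linarith [min_le_right η r]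
    have mono : ∀ t, dist t e.1 < r →
        StrictMonoOn (fun s => g * u (t, s)) (Icc (e.2 - δ) (e.2 + δ)) := by
      intro t ht
      refine strictMonoOn_of_deriv_pos (convex_Icc _ _) (by fun_prop) fun s hs => ?_
      rw [interior_Icc] at hs
      rw [((hasS (hu.diff (t, s))).const_mul g).deriv]
      refine h ?_
      rw [Prod.dist_eq, max_lt_iff, Real.dist_eq s, abs_lt]
      exact ⟨ht, by linarith [hs.1], by linarith [hs.2]⟩
    have mid : e.2 ∈ Icc (e.2 - δ) (e.2 + δ) := ⟨by linarith, by linarith⟩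
    have hi : e.2 + δ ∈ Icc (e.2 - δ) (e.2 + δ) := ⟨by linarith, le_rfl⟩
    have lo : e.2 - δ ∈ Icc (e.2 - δ) (e.2 + δ) := ⟨le_rfl, by linarith⟩
    have p1 : 0 < g * u (e.1, e.2 + δ) := by
      have := mono e.1 (by simpa using hr) mid hi (by linarith)
      simpa [h0] using this
    have p2 : g * u (e.1, e.2 - δ) < 0 := by
      have := mono e.1 (by simpa using hr) lo mid (by linarith)
      simpa [h0] using this
    have g2 : 0 < g * g := mul_self_pos.2 hd
    refine ⟨δ, δ0, by linarith [min_le_left η r], ?_, ?_⟩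
    · have := mul_neg_of_pos_of_neg p1 p2
      by_contra hn
      nlinarith [mul_nonneg g2.le (not_lt.1 hn)]
    · filter_upwards [self_mem_nhdsWithin,
        mem_nhdsWithin_of_mem_nhds (Metric.ball_mem_nhds e δ0),
        near_level (P := P) hc he (right_ne_zero_of_mul p1.ne'),
        near_level (P := P) hc he (right_ne_zero_of_mul p2.ne)] with q h1 h2 h3 h4
      rw [Metric.mem_ball, Prod.dist_eq, max_lt_iff, Real.dist_eq q.2, abs_lt] at h2
      have hm := (mono q.1 (h2.1.trans δr)).monotoneOn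
      have hq : q.2 ∈ Icc (e.2 - δ) (e.2 + δ) := ⟨by linarith [h2.2.1], by linarith [h2.2.2]⟩
      constructor
      · intro hs
        have a : 0 < g * u q := by
          by_contra hn
          nlinarith [mul_pos g2 hs, mul_nonpos_of_nonpos_of_nonneg (not_lt.1 hn) p1.le]
        refine trans hu.2 h3 (symm hu.2 (vert (t := q.1) h1 hq.2 fun s hs' => ?_))
        exact right_ne_zero_of_mul (a.trans_le (hm hq ⟨hq.1.trans hs'.1, hs'.2⟩ hs'.1)).ne'
      · intro hs
        have a : g * u q < 0 := by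
          by_contra hn
          nlinarith [mul_pos g2 hs, mul_nonpos_of_nonneg_of_nonpos (not_lt.1 hn) p2.le]
        refine trans hu.2 h4 (vert (t := q.1) h1 hq.1 fun s hs' => ?_)
        exact right_ne_zero_of_mul ((hm ⟨hs'.1, hs'.2.trans hq.2⟩ hq hs'.2).trans_lt a).ne

end Pool.Agent.P.MP_785924_gt
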