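import Pool.Agent.P.MP_785924_gt.B.IfaceB

/-! Step CURVE of the free boundary annulus project. -/

namespace Pool.Agent.P.MP_785924_gt

open scoped ContDiff
open Set Filter Topology

namespace CURVEAux

/-- The boundary data on either circle, with a sign. -/
theorem bdry {c ρ C0 T P σ : ℝ} {w : ℝ × ℝ → ℝ} {x e1 e2 ν : Fin 4 → ℝ × ℝ → ℝ}
    (h : Frame c ρ C0 T P w x e1 e2 ν) (hσ : σ = T ∨ σ = -T) :
    ∃ ε : ℝ, ε * ε = 1 ∧ ∀ s, (σ, s) ∈ strip T ∧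
      dT w (σ, s) = ε * (C0 / ρ * Real.exp (w (σ, s))) ∧ x 0 (σ, s) = C0 ∧ ν 0 (σ, s) = 0 ∧
      e2 0 (σ, s) = 0 ∧ ∀ i : Fin 3, e1 i.succ (σ, s) = ε * (C0 / ρ * x i.succ (σ, s)) := by
  rcases hσ with rfl | rfl
  · refine ⟨1, by norm_num, fun s => ?_⟩
    obtain ⟨a1, a2, a3, _, a5⟩ := h.alg.top s
    exact ⟨top_mem h.intr.hT s, by rw [h.intr.top s, one_mul], a1, a2, a3,
      fun i => by rw [a5 i, one_mul]⟩
  · refine ⟨-1, by norm_num, fun s => ?_⟩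
    obtain ⟨a1, a2, a3, _, a5⟩ := h.alg.bot s
    exact ⟨bot_mem h.intr.hT s, by rw [h.intr.bot s, neg_one_mul], a1, a2, a3,
      fun i => by rw [a5 i, neg_one_mul]⟩

theorem key {c ρ C0 : ℝ} (hρ : 0 < ρ) (h : C0 ^ 2 + c * ρ ^ 2 = 1) :
    C0 / ρ * (C0 / ρ) + c = 1 / ρ ^ 2 := by
  field_simp
  linarith

end CURVEAux

theorem p_CURVE :
    S_CURVE := by
  intro c ρ C0 T P σ w x e1 e2 ν h hσ
  obtain ⟨ε, hε, hb⟩ := CURVEAux.bdry h hσ
  have hρ := h.intr.hρ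
  have hk := CURVEAux.key hρ h.intr.hCρ
  have hcc : c * c = 1 := by rcases h.intr.hc with e | e <;> rw [e] <;> norm_num
  have hCρ := h.intr.hCρ
  refine ⟨hρ, h.intr.hP, h.intr.sm.lev σ, fun i => (h.alg.smx i.succ).lev σ,
    fun i => (h.alg.smν i.succ).lev σ, fun i => (h.alg.sm2 i.succ).lev σ, fun i θ => ?_,
    fun i θ => ?_, fun i θ => ?_, fun θ => ?_, fun θ => ?_, fun θ => ?_, fun θ => ?_,
    fun θ => ?_, fun θ => ?_, fun θ i j => ?_⟩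
  · exact (hasLev (h.sys i.succ).sf σ θ).congr_deriv ((h.sys i.succ).eS _ (hb θ).1).1
  · exact (hasLev (h.sys i.succ).sg σ θ).congr_deriv ((h.sys i.succ).eS _ (hb θ).1).2.1
  · refine (hasLev (h.sys i.succ).s2 σ θ).congr_deriv ?_
    obtain ⟨b0, b1, -, -, -, b5⟩ := hb θ
    rw [((h.sys i.succ).eS _ b0).2.2.2, b1, b5 i]
    simp only [lev, lev3]
    have e : Real.exp (w (σ, θ)) * x i.succ (σ, θ) / ρ ^ 2
        = Real.exp (w (σ, θ)) * x i.succ (σ, θ) * (1 / ρ ^ 2) := by ring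
    rw [e, ← hk]
    linear_combination (-(C0 / ρ * (C0 / ρ) * Real.exp (w (σ, θ)) * x i.succ (σ, θ))) * hε
  · obtain ⟨b0, -, b2, -, -, -⟩ := hb θ
    have o := (h.alg.orth _ b0).1
    simp only [ip, vec, b2] at o
    change x 1 (σ, θ) ^ 2 + x 2 (σ, θ) ^ 2 + x 3 (σ, θ) ^ 2 = ρ ^ 2
    linear_combination o - c * hCρ + ρ ^ 2 * hcc
  · obtain ⟨b0, -, -, b3, -, -⟩ := hb θ
    have o := (h.alg.orth _ b0).2.2.2.1
    simp only [ip, vec, b3] at o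
    change ν 1 (σ, θ) ^ 2 + ν 2 (σ, θ) ^ 2 + ν 3 (σ, θ) ^ 2 = 1
    linear_combination o
  · obtain ⟨b0, -, -, -, b4, -⟩ := hb θ
    have o := (h.alg.orth _ b0).2.2.1
    simp only [ip, vec, b4] at o
    change e2 1 (σ, θ) ^ 2 + e2 2 (σ, θ) ^ 2 + e2 3 (σ, θ) ^ 2 = 1
    linear_combination o
  · obtain ⟨b0, -, -, b3, -, -⟩ := hb θ
    have o := (h.alg.orth _ b0).2.2.2.2.2.2.1
    simp only [ip, vec, b3] at o
    change x 1 (σ, θ) * ν 1 (σ, θ) + x 2 (σ, θ) * ν 2 (σ, θ) + x 3 (σ, θ) * ν 3 (σ, θ) = 0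
    linear_combination o
  · obtain ⟨b0, -, -, -, b4, -⟩ := hb θ
    have o := (h.alg.orth _ b0).2.2.2.2.2.1
    simp only [ip, vec, b4] at o
    change x 1 (σ, θ) * e2 1 (σ, θ) + x 2 (σ, θ) * e2 2 (σ, θ) + x 3 (σ, θ) * e2 3 (σ, θ) = 0
    linear_combination o
  · obtain ⟨b0, -, -, b3, -, -⟩ := hb θ
    have o := (h.alg.orth _ b0).2.2.2.2.2.2.2.2.2
    simp only [ip, vec, b3] at o
    change ν 1 (σ, θ) * e2 1 (σ, θ) + ν 2 (σ, θ) * e2 2 (σ, θ) + ν 3 (σ, θ) * e2 3 (σ, θ) = 0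
    linear_combination o
  · obtain ⟨b0, -, -, -, -, b5⟩ := hb θ
    have o := h.alg.compl _ b0 i.succ j.succ
    rw [b5 i, b5 j] at o
    have e0 : (if i.succ = j.succ then (if i.succ = (0 : Fin 4) then c else 1) else 0)
        = if i = j then (1 : ℝ) else 0 := by
      simp [Fin.succ_ne_zero]
    rw [e0] at o
    simp only [lev3]
    have e : x i.succ (σ, θ) * x j.succ (σ, θ) / ρ ^ 2
        = x i.succ (σ, θ) * x j.succ (σ, θ) * (1 / ρ ^ 2) := by ring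
    rw [e, ← hk, ← o]
    linear_combination (-(C0 / ρ * (C0 / ρ) * x i.succ (σ, θ) * x j.succ (σ, θ))) * hε

end Pool.Agent.P.MP_785924_gt
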