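import Pool.Agent.P.MP_785924_gt.B.IfaceB

/-! Step CUT of the free boundary annulus project. -/

namespace Pool.Agent.P.MP_785924_gt

open scoped ContDiff
open Set Filter Topology

namespace CutAux

theorem lip {G g : ℝ → ℝ} (hG : ∀ x, HasDerivAt G (g x) x) {s : Set ℝ} (hs : Convex ℝ s) {C : ℝ}
    (hb : ∀ x ∈ s, |g x| ≤ C) {x y : ℝ} (hx : x ∈ s) (hy : y ∈ s) : |G y - G x| ≤ C * |y - x| :=
  hs.norm_image_sub_le_of_norm_hasDerivWithin_le (fun z _ => (hG z).hasDerivWithinAt) hb hx hy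

theorem near {F h : ℝ → ℝ} {ε : ℝ} (hε : 0 < ε) (hF : ∀ x, HasDerivAt F (h x) x) (h0 : F 0 = 0)
    (h1 : ∀ x, 0 ≤ h x ∧ h x ≤ 1) (h2 : ∀ x, 2 * ε ≤ |x| → h x = 1) (r : ℝ) :
    |F r - r| ≤ 2 * ε := by
  have hG : ∀ x, HasDerivAt (fun x => F x - x) (h x - 1) x := fun x => (hF x).fun_sub (hasDerivAt_id' x)
  have a : ∀ x, |x| ≤ 2 * ε → |F x - x| ≤ 2 * ε := by
    intro x hx
    have := lip hG convex_univ (C := 1) (fun z _ => abs_le.2 ⟨by linarith [h1 z], by linarith [h1 z]⟩)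
      (mem_univ 0) (mem_univ x)
    simp only [h0, sub_zero, one_mul] at this
    exact this.trans hx
  rcases le_total r (2 * ε) with c | c
  · rcases le_total (-(2 * ε)) r with d | d
    · exact a r (abs_le.2 ⟨d, c⟩)
    · have := lip hG (convex_Iic (-(2 * ε))) (C := 0) (fun z hz => by
        rw [h2 z (le_abs.2 (Or.inr (by linarith [mem_Iic.1 hz])))]; simp) self_mem_Iic d
      rw [zero_mul, abs_nonpos_iff, sub_eq_zero] at this
      rw [this]
      exact a _ (by rw [abs_neg, abs_of_pos (by linarith)])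
  · have := lip hG (convex_Ici (2 * ε)) (C := 0) (fun z hz => by
      rw [h2 z (le_abs.2 (Or.inl hz))]; simp) self_mem_Ici c
    rw [zero_mul, abs_nonpos_iff, sub_eq_zero] at this
    rw [this]
    exact a _ (by rw [abs_of_pos (by linarith)])

theorem prim {g : ℝ → ℝ} (hg : ContDiff ℝ ∞ g) :
    ∃ F : ℝ → ℝ, ContDiff ℝ ∞ F ∧ F 0 = 0 ∧ ∀ x, HasDerivAt F (g x) x := by
  have h : ∀ x, HasDerivAt (fun r => ∫ t in (0 : ℝ)..r, g t) (g x) x := fun x =>
    (hg.continuous.integral_hasStrictDerivAt 0 x).hasDerivAt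
  refine ⟨fun r => ∫ t in (0 : ℝ)..r, g t, ?_, by simp, h⟩
  rw [contDiff_infty_iff_deriv]
  refine ⟨fun x => (h x).differentiableAt, ?_⟩
  rw [show deriv (fun r => ∫ t in (0 : ℝ)..r, g t) = g from funext fun x => (h x).deriv]
  exact hg

end CutAux

open CutAux in
theorem p_CUT :
    S_CUT := by
  intro ε hε
  set g : ℝ → ℝ := fun r => Real.smoothTransition (r / ε - 1) with hg
  have gs : ContDiff ℝ ∞ g :=
    Real.smoothTransition.contDiff.comp ((contDiff_id.div_const ε).sub contDiff_const)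
  have g0 : ∀ r, r ≤ ε → g r = 0 := fun r hr =>
    Real.smoothTransition.zero_of_nonpos (by rw [sub_nonpos, div_le_one hε]; exact hr)
  have g1 : ∀ r, 2 * ε ≤ r → g r = 1 := fun r hr =>
    Real.smoothTransition.one_of_one_le (by rw [le_sub_iff_add_le, le_div_iff₀ hε]; linarith)
  have gb : ∀ r, 0 ≤ g r ∧ g r ≤ 1 := fun r =>
    ⟨Real.smoothTransition.nonneg _, Real.smoothTransition.le_one _⟩
  have gm : Monotone g := fun a b h => Real.smoothTransition.monotone
    (sub_le_sub_right (div_le_div_of_nonneg_right h hε.le) 1)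
  obtain ⟨φ, φs, φ0, φd⟩ := prim gs
  have dφ : deriv φ = g := funext fun x => (φd x).deriv
  have φz : ∀ r, r ≤ ε → φ r = 0 := fun r hr => by
    have := lip φd (convex_Iic ε) (C := 0) (fun z hz => by rw [g0 z hz]; simp)
      (mem_Iic.2 hε.le) hr
    rwa [zero_mul, abs_nonpos_iff, φ0, sub_zero] at this
  have od : ∀ x, HasDerivAt (odd φ) (g x + g (-x)) x := fun x =>
    ((φd x).fun_sub ((φd (-x)).comp x (hasDerivAt_neg x))).congr_deriv (by ring)
  have ob : ∀ x, 0 ≤ g x + g (-x) ∧ g x + g (-x) ≤ 1 := fun x => by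
    refine ⟨add_nonneg (gb _).1 (gb _).1, ?_⟩
    rcases le_total x 0 with c | c
    · rw [g0 x (by linarith), zero_add]; exact (gb _).2
    · rw [g0 (-x) (by linarith), add_zero]; exact (gb _).2
  have o1 : ∀ x, 2 * ε ≤ |x| → g x + g (-x) = 1 := fun x hx => by
    rcases le_abs.1 hx with c | c
    · rw [g1 x c, g0 (-x) (by linarith), add_zero]
    · rw [g1 (-x) c, g0 x (by linarith), zero_add]
  have on := near hε od (by simp [odd]) ob o1
  obtain ⟨ψ, ψs, ψ0, ψd⟩ := prim (g := fun x => (g x + g (-x)) ^ 2)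
    ((gs.add (gs.comp contDiff_neg)).pow 2)
  refine ⟨φ, ψ, φs, ψs, φz, fun r => ?_, fun r hr => ?_, fun r => ?_, on, fun r => ?_,
    fun r hr => ?_, near hε ψd ψ0 (fun x => ⟨sq_nonneg _, pow_le_one₀ (ob x).1 (ob x).2⟩)
      fun x hx => by rw [o1 x hx, one_pow]⟩
  · rw [dφ]; exact gm.deriv_nonneg
  · rw [dφ]; exact g1 r hr
  · rw [dφ]
    rcases le_total r ε with c | c
    · rw [φz r c, g0 r c]; simp [hε.le]
    rcases le_total r (2 * ε) with d | d
    · have hG : ∀ x, HasDerivAt (fun x => φ x - x / 2) (g x - 1 / 2) x := fun x =>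
        (φd x).fun_sub ((hasDerivAt_id' x).div_const 2)
      have h1 := lip hG convex_univ (C := 1 / 2)
        (fun z _ => abs_le.2 ⟨by linarith [gb z], by linarith [gb z]⟩) (mem_univ 0) (mem_univ r)
      simp only [φ0, zero_div, sub_zero] at h1
      have r0 : 0 ≤ r := by linarith
      rw [abs_of_nonneg r0, abs_le] at h1
      have h2 := mul_nonneg r0 (gb r).1
      have h3 := mul_le_mul_of_nonneg_left (gb r).2 r0
      exact abs_le.2 ⟨by linarith [h1.1], by linarith [h1.2]⟩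
    · have := on r
      rw [odd, φz (-r) (by linarith), sub_zero] at this
      rwa [g1 r d, mul_one]
  · rw [(ψd r).deriv, (od r).deriv]
  · have := lip ψd (convex_Icc (-ε) ε) (C := 0) (fun z hz => by
      rw [g0 z hz.2, g0 (-z) (by linarith [hz.1])]; simp) (x := 0) ⟨by linarith, hε.le⟩ (abs_le.1 hr)
    rwa [zero_mul, abs_nonpos_iff, ψ0, sub_zero] at this

end Pool.Agent.P.MP_785924_gt
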