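import Pool.Agent.P.MP_785924_gt.B.IfaceB

/-! Step ETA of the free boundary annulus project. -/

namespace Pool.Agent.P.MP_785924_gt

open scoped ContDiff
open Set Filter Topology

namespace EtaAux

theorem maxp {F F' F'' : ℝ → ℝ} {T : ℝ} (h1 : ∀ t, HasDerivAt F (F' t) t)
    (h2 : ∀ t, HasDerivAt F' (F'' t) t) (ha : F (-T) = 0) (hb : F T = 0)
    (h : ∀ t ∈ Ioo (-T) T, 0 ≤ F t → 0 < F'' t) : ∀ t ∈ Ioo (-T) T, F t < 0 := by
  intro t1 ht1
  by_contra h0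
  rw [not_lt] at h0
  have hc : Continuous F := continuous_iff_continuousAt.2 fun t => (h1 t).continuousAt
  obtain ⟨t2, m1, m2, m3⟩ : ∃ t2 ∈ Ioo (-T) T, 0 ≤ F t2 ∧ IsMaxOn F (Icc (-T) T) t2 := by
    obtain ⟨t0, m1, m2⟩ := isCompact_Icc.exists_isMaxOn ⟨t1, Ioo_subset_Icc_self ht1⟩ hc.continuousOn
    by_cases e : 0 < F t0
    · refine ⟨t0, ⟨m1.1.lt_of_ne ?_, m1.2.lt_of_ne ?_⟩, e.le, m2⟩
      · rintro rfl
        exact e.ne' ha
      · rintro rfl
        exact e.ne' hb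
    · exact ⟨t1, ht1, h0, fun t ht => (m2 ht).trans ((not_lt.1 e).trans h0)⟩
  have m4 : IsLocalMax F t2 := m3.isLocalMax (Icc_mem_nhds m1.1 m1.2)
  have e1 : deriv F = F' := funext fun t => (h1 t).deriv
  have e2 : 0 < deriv (deriv F) t2 := by rw [e1, (h2 t2).deriv]; exact h t2 m1 m2
  have m5 := isLocalMin_of_deriv_deriv_pos e2 m4.deriv_eq_zero hc.continuousAt
  have m6 : F =ᶠ[𝓝 t2] fun _ => F t2 := eventuallyEq_of_isMinFilter_of_isMaxFilter m5 m4
  rw [m6.deriv.deriv_eq] at e2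
  simp at e2

theorem ends {f : ℝ → ℝ} {a b d d' : ℝ} (hab : a < b) (ha : HasDerivAt f d a)
    (hb : HasDerivAt f d' b) (ea : f a = 0) (eb : f b = 0) (h : ∀ s ∈ Ioo a b, 0 < f s) :
    0 ≤ d ∧ d' ≤ 0 := by
  constructor
  · refine ge_of_tendsto ha.tendsto_slope_zero_right ?_
    filter_upwards [Ioo_mem_nhdsGT (sub_pos.2 hab)] with t ht
    rw [ea, sub_zero]
    exact mul_nonneg (inv_nonneg.2 ht.1.le) (h _ ⟨by linarith [ht.1], by linarith [ht.2]⟩).le
  · refine le_of_tendsto hb.tendsto_slope_zero_left ?_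
    filter_upwards [Ioo_mem_nhdsLT (sub_neg.2 hab)] with t ht
    rw [eb, sub_zero]
    exact mul_nonpos_of_nonpos_of_nonneg (inv_nonpos.2 ht.2.le)
      (h _ ⟨by linarith [ht.1], by linarith [ht.2]⟩).le

end EtaAux

open EtaAux

theorem p_ETA (hWEN1 : S_WEN1) (hLINE : S_LINE) (hJACX : S_JACX) :
    S_ETA := by
  intro ρ C0 T P w x e1 e2 ν b hF hK hG ⟨z, z1, _, z3, z4⟩
  have hT := hF.intr.hT
  have hw := hF.intr.sm
  have hx := hF.alg.smx 0
  have hy := hF.alg.sm2 0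
  have hL := hLINE _ _ _ _ _ _ _ _ _ _ b hF hK (-T) T le_rfl le_rfl hG
  have hb : -T ∈ Icc (-T) T := ⟨le_rfl, by linarith⟩
  have hab : z 0 < z 1 := z1 (by decide)
  obtain ⟨m, hm⟩ : ∃ m, m ∈ Ioo (z 0) (z 1) := nonempty_Ioo.2 hab
  have u0 : ∀ t ∈ Icc (-T) T, ∀ i, dS w (t, z i) = 0 := fun t ht i => hL _ _ hb t ht (z3 i)
  have u1 : ∀ t ∈ Icc (-T) T, ∀ s ∈ Ioo (z 0) (z 1), dS w (t, s) ≠ 0 := fun t ht s hs e =>
    z4 0 s hs (hL _ t ht _ hb e)
  obtain ⟨σ, hσ⟩ : ∃ σ : ℝ, ∀ t ∈ Icc (-T) T, ∀ s ∈ Ioo (z 0) (z 1), 0 < σ * dS w (t, s) :=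
    ⟨dS w (-T, m), fun t ht s hs => (isPreconnected_Icc.prod isPreconnected_Ioo).lt_of_ne
      (f := fun p => dS w (-T, m) * dS w p) (continuous_const.mul hw.dS.cont).continuousOn
      (fun p hp => mul_ne_zero (u1 _ hb m hm) (u1 _ hp.1 _ hp.2))
      ⟨(-T, m), ⟨hb, hm⟩, mul_self_pos.2 (u1 _ hb m hm)⟩ (x := (t, s)) ⟨ht, hs⟩⟩
  have key : ∀ t ∈ Icc (-T) T, ∃ η : ℝ, (∀ s, e2 0 (t, s) = η * dS w (t, s)) ∧
      0 < σ * (Real.exp (w (t, z 1)) - Real.exp (w (t, z 0))) ∧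
      x 0 (t, z 1) - x 0 (t, z 0) = η * (Real.exp (w (t, z 1)) - Real.exp (w (t, z 0))) := by
    intro t ht
    have k1 : ∀ s, e2 0 (t, s) = e2 0 (t, m) / dS w (t, m) * dS w (t, s) := fun s => by
      rw [div_mul_eq_mul_div, eq_div_iff (u1 t ht m hm)]
      exact ((hWEN1 _ _ _ _ _ _ _ _ _ _ b hF hK t ht).1 m s).1
    have k2 : ∀ s, HasDerivAt (fun s => Real.exp (w (t, s)))
        (Real.exp (w (t, s)) * dS w (t, s)) s := fun s => (hasS (hw.diff _)).exp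
    refine ⟨_, k1, ?_, ?_⟩
    · obtain ⟨ξ, h1, h2⟩ := exists_hasDerivAt_eq_slope _ _ hab
        (fun s _ => (k2 s).continuousAt.continuousWithinAt) fun s _ => k2 s
      rw [eq_div_iff (sub_pos.2 hab).ne'] at h2
      rw [← h2, mul_assoc, mul_left_comm, ← mul_assoc σ]
      exact mul_pos (Real.exp_pos _) (mul_pos (hσ t ht ξ h1) (sub_pos.2 hab))
    · have k3 : ∀ s, HasDerivAt (fun s => x 0 (t, s) - e2 0 (t, m) / dS w (t, m) *
          Real.exp (w (t, s))) 0 s := fun s =>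
        ((hasS (hx.diff _)).fun_sub ((k2 s).const_mul _)).congr_deriv (by
          rw [((hF.sys 0).eS (t, s) ht).1, k1 s]
          ring)
      have := is_const_of_deriv_eq_zero (fun s => (k3 s).differentiableAt) (fun s => (k3 s).deriv)
        (z 1) (z 0)
      linear_combination this
  have main := maxp (T := T) (F := fun t => σ * (x 0 (t, z 1) - x 0 (t, z 0)))
    (fun t => ((hasT (hx.diff _)).fun_sub (hasT (hx.diff _))).const_mul σ)
    (fun t => ((hasT (hx.dT.diff _)).fun_sub (hasT (hx.dT.diff _))).const_mul σ)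
    (by simp [(hF.alg.bot _).1]) (by simp [(hF.alg.top _).1]) fun t ht h0 => by
      replace ht := Ioo_subset_Icc_self ht
      obtain ⟨η, k1, k2, k3⟩ := key t ht
      have k4 : 0 ≤ η := by
        rw [k3, mul_left_comm] at h0
        exact nonneg_of_mul_nonneg_left h0 k2
      have k5 : ∀ i, dT (dT (x 0)) (t, z i) = 2 * Real.exp (w (t, z i)) ^ 2 * x 0 (t, z i)
          - Real.exp (w (t, z i)) * (η * dS (dS w) (t, z i)) := fun i => by
        have j1 := (hJACX _ _ _ _ _ _ _ _ _ _ hF).1 0 (t, z i) ht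
        rw [dS_congr_lev (hx.dS.diff _) ((hw.exp.mul hy).diff _)
          fun s => ((hF.sys 0).eS (t, s) ht).1, dS_mul (hw.exp.diff _) (hy.diff _),
          dS_exp (hw.diff _), u0 t ht, dS_congr_lev (hy.diff _) ((hw.dS.cmul η).diff _) k1,
          dS_cmul η (hw.dS.diff _), W0] at j1
        linear_combination j1
      obtain ⟨k6, k7⟩ := ends (f := fun s => σ * dS w (t, s)) hab
        ((hasS (hw.dS.diff _)).const_mul σ) ((hasS (hw.dS.diff _)).const_mul σ)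
        (by simp [u0 t ht]) (by simp [u0 t ht]) (hσ t ht)
      have p0 := Real.exp_pos (w (t, z 0))
      have p1 := Real.exp_pos (w (t, z 1))
      have q1 := mul_pos (mul_pos k2 (add_pos p0 p1)) (hF.alg.pos (t, z 1) ht)
      have q2 := mul_nonneg (sq_nonneg (Real.exp (w (t, z 0)))) h0
      have q3 := mul_nonneg (mul_nonneg p0.le k4) k6
      have q4 := mul_nonneg (mul_nonneg p1.le k4) (neg_nonneg.2 k7)
      rw [k5, k5]
      linarith
  intro t ht s hs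
  obtain ⟨η, k1, k2, k3⟩ := key t (Ioo_subset_Icc_self ht)
  have k4 := main t ht
  rw [k3, mul_left_comm] at k4
  rw [k1, mul_assoc]
  exact mul_neg_of_neg_of_pos (neg_of_mul_neg_left k4 k2.le) (mul_self_pos.2 hs)

end Pool.Agent.P.MP_785924_gt
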