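import Pool.Agent.P.MP_785924_gt.B.IfaceB

/-! Step F1 of the free boundary annulus project. -/

namespace Pool.Agent.P.MP_785924_gt

open scoped ContDiff
open Set Filter Topology

namespace F1Aux

open Classical in
/-- Indicator of the periodic arc `(z, z')` over the set `J` of levels. -/
noncomputable def arc (P : ℝ) (J : Set ℝ) (z z' : ℝ) (q : ℝ × ℝ) : ℝ :=
  if q.1 ∈ J ∧ ∃ n : ℤ, q.2 + n * P ∈ Ioo z z' then 1 else 0

theorem int_zero {P : ℝ} (hP : 0 < P) {n : ℤ} (h1 : -P < n * P) (h2 : n * P < P) : n = 0 := by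
  have a : (-1 : ℝ) < n := by nlinarith
  have b : (n : ℝ) < 1 := by nlinarith
  have a' : (-1 : ℤ) < n := by exact_mod_cast a
  have b' : n < 1 := by exact_mod_cast b
  omega

theorem arc_out {P : ℝ} {J : Set ℝ} {z z' : ℝ} {q : ℝ × ℝ} (h : q.1 ∉ J) : arc P J z z' q = 0 := by
  unfold arc
  rw [if_neg]
  exact fun hh => h hh.1

theorem arc_in {P : ℝ} {J : Set ℝ} {z z' : ℝ} {q : ℝ × ℝ} (h : q.1 ∈ J) (h2 : q.2 ∈ Ioo z z') :
    arc P J z z' q = 1 := by
  unfold arc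
  rw [if_pos]
  exact ⟨h, 0, by simpa using h2⟩

theorem arc_off {P c : ℝ} (hP : 0 < P) {J : Set ℝ} {z z' : ℝ} {q : ℝ × ℝ} (h1 : c ≤ z)
    (h2 : z' ≤ c + P) (h3 : q.2 ∈ Ioo c (c + P)) (h4 : q.2 ∉ Ioo z z') : arc P J z z' q = 0 := by
  unfold arc
  rw [if_neg]
  rintro ⟨-, n, hn⟩
  have : n = 0 := int_zero hP (by linarith [hn.1, h3.2]) (by linarith [hn.2, h3.1])
  subst this
  exact h4 (by simpa using hn)

theorem adm_arc {T P : ℝ} {u : ℝ × ℝ → ℝ} (hP : 0 < P) (hu : Per P u) {J : Set ℝ} (hJo : IsOpen J)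
    (hJ : ∀ p ∈ strip T, u p ≠ 0 → p.1 ∈ J ∨ ∀ᶠ t in 𝓝 p.1, t ∉ J) {z z' : ℝ}
    (hz : ∀ t ∈ Icc (-T) T, t ∈ J → u (t, z) = 0 ∧ u (t, z') = 0) (hzz : z' ≤ z + P) :
    Adm T P u (arc P J z z') := by
  refine ⟨⟨1, fun p => ?_⟩, fun t s => ?_, fun p hp hup => ?_⟩
  · unfold arc
    split_ifs <;> simp
  · unfold arc
    have : (∃ n : ℤ, s + P + n * P ∈ Ioo z z') ↔ ∃ n : ℤ, s + n * P ∈ Ioo z z' := by
      constructor
      · rintro ⟨n, hn⟩
        exact ⟨n + 1, by push_cast; convert hn using 1; ring⟩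
      · rintro ⟨n, hn⟩
        exact ⟨n - 1, by push_cast; convert hn using 1; ring⟩
    by_cases hh : t ∈ J ∧ ∃ n : ℤ, s + n * P ∈ Ioo z z'
    · rw [if_pos hh, if_pos ⟨hh.1, this.2 hh.2⟩]
    · rw [if_neg hh, if_neg fun h => hh ⟨h.1, this.1 h.2⟩]
  · apply Filter.Eventually.filter_mono nhdsWithin_le_nhds
    obtain ⟨t, s⟩ := p
    rcases hJ _ hp hup with h | h
    · have e1 : ∀ᶠ q : ℝ × ℝ in 𝓝 (t, s), q.1 ∈ J :=
        continuous_fst.continuousAt.eventually (hJo.mem_nhds h)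
      by_cases hA : ∃ n : ℤ, s + n * P ∈ Ioo z z'
      · obtain ⟨n, hn⟩ := hA
        have e2 : ∀ᶠ q : ℝ × ℝ in 𝓝 (t, s), q.2 + n * P ∈ Ioo z z' :=
          ContinuousAt.eventually_mem (f := fun q : ℝ × ℝ => q.2 + n * P)
            (continuous_snd.add continuous_const).continuousAt (isOpen_Ioo.mem_nhds hn)
        filter_upwards [e1, e2] with q h1 h2
        unfold arc
        rw [if_pos ⟨h1, n, h2⟩, if_pos ⟨h, n, hn⟩]
      · obtain ⟨n, hn, -⟩ := existsUnique_add_zsmul_mem_Ico hP s z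
        rw [zsmul_eq_mul] at hn
        have hz1 := hz t hp h
        have n1 : s + n * P ≠ z := fun hh => hup (by rw [← hu.int t s n, hh]; exact hz1.1)
        have n2 : s + n * P ≠ z' := fun hh => hup (by rw [← hu.int t s n, hh]; exact hz1.2)
        have n3 : z' < s + n * P := by
          by_contra hc
          exact hA ⟨n, lt_of_le_of_ne hn.1 n1.symm, lt_of_le_of_ne (not_lt.1 hc) n2⟩
        have e2 : ∀ᶠ q : ℝ × ℝ in 𝓝 (t, s), q.2 + n * P ∈ Ioo z' (z + P) :=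
          ContinuousAt.eventually_mem (f := fun q : ℝ × ℝ => q.2 + n * P)
            (continuous_snd.add continuous_const).continuousAt (isOpen_Ioo.mem_nhds ⟨n3, hn.2⟩)
        filter_upwards [e2] with q h2
        unfold arc
        rw [if_neg, if_neg (fun hh => hA hh.2)]
        rintro ⟨-, m, hm⟩
        have a : (0 : ℝ) < ((n - m : ℤ) : ℝ) := by
          push_cast
          nlinarith [h2.1, hm.2]
        have b : ((n - m : ℤ) : ℝ) < 1 := by
          push_cast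
          nlinarith [h2.2, hm.1]
        have a' : (0 : ℤ) < n - m := by exact_mod_cast a
        have b' : n - m < 1 := by exact_mod_cast b
        omega
    · have e1 : ∀ᶠ q : ℝ × ℝ in 𝓝 (t, s), q.1 ∉ J := continuous_fst.continuousAt.eventually h
      filter_upwards [e1] with q h1
      rw [arc_out h1, arc_out (q := (t, s)) h.self_of_nhds]

theorem edge {u : ℝ × ℝ → ℝ} (hu : ContDiff ℝ ∞ u) {σ z : ℝ} (hd : dS u (σ, z) ≠ 0) :
    ∀ᶠ q in 𝓝 ((σ, z) : ℝ × ℝ), u (q.1, z) = 0 →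
      ∃ d, 0 < d * dS u (σ, z) ∧ u q = d * (q.2 - z) := by
  have hc : Continuous fun q => dS u q * dS u (σ, z) := (cd_dS hu).continuous.mul continuous_const
  have h0 : ∀ᶠ q in 𝓝 ((σ, z) : ℝ × ℝ), 0 < dS u q * dS u (σ, z) :=
    hc.continuousAt.eventually (lt_mem_nhds (mul_self_pos.2 hd))
  obtain ⟨δ, hδ, hb⟩ := Metric.eventually_nhds_iff.1 h0
  filter_upwards [Metric.ball_mem_nhds ((σ, z) : ℝ × ℝ) hδ] with q hq hq0
  obtain ⟨t, s⟩ := q
  rw [Metric.mem_ball, Prod.dist_eq, max_lt_iff] at hq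
  simp only at hq hq0 ⊢
  have hder : ∀ x, HasDerivAt (fun τ => u (t, τ)) (dS u (t, x)) x := fun x => hasS (cd_diff hu _)
  have hcont : Continuous fun τ => u (t, τ) := hu.continuous.comp (Continuous.prodMk_right t)
  have key : ∀ ξ, |ξ - z| < δ → 0 < dS u (t, ξ) * dS u (σ, z) := fun ξ hξ =>
    hb (by rw [Prod.dist_eq, max_lt_iff]; exact ⟨hq.1, by rwa [Real.dist_eq]⟩)
  have hs : |s - z| < δ := by have := hq.2; rwa [Real.dist_eq] at this
  rw [abs_lt] at hs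
  rcases lt_trichotomy s z with h | h | h
  · obtain ⟨ξ, hξ, he⟩ := exists_hasDerivAt_eq_slope (fun τ => u (t, τ)) (fun x => dS u (t, x)) h
      hcont.continuousOn (fun x _ => hder x)
    refine ⟨dS u (t, ξ), key ξ (by rw [abs_lt]; constructor <;> linarith [hξ.1, hξ.2]), ?_⟩
    rw [he, hq0]
    have : z - s ≠ 0 := by linarith
    field_simp
    ring
  · subst h
    exact ⟨dS u (σ, s), mul_self_pos.2 hd, by rw [hq0]; ring⟩
  · obtain ⟨ξ, hξ, he⟩ := exists_hasDerivAt_eq_slope (fun τ => u (t, τ)) (fun x => dS u (t, x)) h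
      hcont.continuousOn (fun x _ => hder x)
    refine ⟨dS u (t, ξ), key ξ (by rw [abs_lt]; constructor <;> linarith [hξ.1, hξ.2]), ?_⟩
    rw [he, hq0]
    have : s - z ≠ 0 := by linarith
    field_simp
    ring

theorem arc_val {P : ℝ} (hP : 0 < P) {J : Set ℝ} {z : Fin 5 → ℝ} (hm : StrictMono z)
    (h4 : z 4 ≤ z 0 + P) {q : ℝ × ℝ} (hq : q.1 ∈ J) (i j : Fin 4)
    (hj : q.2 ∈ Ioo (z j.castSucc) (z j.succ)) :
    arc P J (z i.castSucc) (z i.succ) q = if i = j then 1 else 0 := by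
  have lo : ∀ a, z 0 ≤ z a := fun a => hm.monotone (Fin.zero_le a)
  have hi : ∀ a, z a ≤ z 0 + P := fun a => (hm.monotone (Fin.le_last a)).trans h4
  split_ifs with h
  · subst h
    exact arc_in hq hj
  · refine arc_off (c := z 0) hP (lo _) (hi _) ⟨(lo _).trans_lt hj.1, hj.2.trans_le (hi _)⟩ ?_
    intro hh
    have a := hm.lt_iff_lt.1 (hh.1.trans hj.2)
    have b := hm.lt_iff_lt.1 (hj.1.trans hh.2)
    apply h
    rw [Fin.lt_def] at a b
    simp only [Fin.val_castSucc, Fin.val_succ] at a b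
    apply Fin.ext
    omega

theorem side {T P σ : ℝ} {u : ℝ × ℝ → ℝ} (hP : 0 < P) (hu : Sm P u) {J : Set ℝ} (hJo : IsOpen J)
    (hσ : σ ∈ J) (hJ : ∀ p ∈ strip T, u p ≠ 0 → p.1 ∈ J ∨ ∀ᶠ t in 𝓝 p.1, t ∉ J)
    {z : Fin 5 → ℝ} (hm : StrictMono z) (h4 : z 4 ≤ z 0 + P)
    (hz : ∀ t ∈ Icc (-T) T, t ∈ J → ∀ i, u (t, z i) = 0) (hd : ∀ i, dS u (σ, z i) ≠ 0) :
    ∃ (k : Fin 4 → ℝ × ℝ → ℝ) (r l : Fin 3 → Fin 4), (∀ i, Adm T P u (k i)) ∧
      (∀ i q, q.1 ∉ J → k i q = 0) ∧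
      ∀ j : Fin 3, ((r j = j.succ ∧ l j = j.castSucc) ∨ (r j = j.castSucc ∧ l j = j.succ)) ∧
        ∀ᶠ q in 𝓝[strip T] ((σ, z j.succ.castSucc) : ℝ × ℝ), q.1 ∈ J ∧ ∀ i,
          (0 < u q → k i q = if i = r j then 1 else 0) ∧
          (u q < 0 → k i q = if i = l j then 1 else 0) := by
  have lo : ∀ a, z 0 ≤ z a := fun a => hm.monotone (Fin.zero_le a)
  have hi : ∀ a, z a ≤ z 0 + P := fun a => (hm.monotone (Fin.le_last a)).trans h4
  refine ⟨fun i => arc P J (z i.castSucc) (z i.succ),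
    fun j => if 0 < dS u (σ, z j.succ.castSucc) then j.succ else j.castSucc,
    fun j => if 0 < dS u (σ, z j.succ.castSucc) then j.castSucc else j.succ,
    fun i => adm_arc hP hu.2 hJo hJ (fun t ht h => ⟨hz t ht h _, hz t ht h _⟩)
      (by linarith [lo i.castSucc, hi i.succ]), fun i q hq => arc_out hq, fun j => ⟨?_, ?_⟩⟩
  · by_cases h : 0 < dS u (σ, z j.succ.castSucc)
    · exact Or.inl ⟨if_pos h, if_pos h⟩
    · exact Or.inr ⟨if_neg h, if_neg h⟩
  · have e0 := edge hu.1 (hd j.succ.castSucc)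
    have e1 : ∀ᶠ q : ℝ × ℝ in 𝓝 (σ, z j.succ.castSucc), q.1 ∈ J :=
      continuous_fst.continuousAt.eventually (hJo.mem_nhds hσ)
    have a1 : z j.castSucc.castSucc < z j.succ.castSucc := hm (by rw [Fin.lt_def]; simp)
    have a2 : z j.succ.castSucc < z j.succ.succ := hm (by rw [Fin.lt_def]; simp)
    have e2 : ∀ᶠ q : ℝ × ℝ in 𝓝 (σ, z j.succ.castSucc),
        q.2 ∈ Ioo (z j.castSucc.castSucc) (z j.succ.succ) :=
      continuous_snd.continuousAt.eventually (isOpen_Ioo.mem_nhds ⟨a1, a2⟩)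
    filter_upwards [nhdsWithin_le_nhds e0, nhdsWithin_le_nhds e1, nhdsWithin_le_nhds e2,
      self_mem_nhdsWithin] with q h0 h1 h2 h3
    obtain ⟨d, hd1, hd2⟩ := h0 (hz q.1 h3 h1 _)
    have right : z j.succ.castSucc < q.2 → ∀ i : Fin 4,
        arc P J (z i.castSucc) (z i.succ) q = if i = j.succ then 1 else 0 :=
      fun h i => arc_val hP hm h4 h1 i j.succ ⟨h, h2.2⟩
    have left : q.2 < z j.succ.castSucc → ∀ i : Fin 4,
        arc P J (z i.castSucc) (z i.succ) q = if i = j.castSucc then 1 else 0 :=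
      fun h i => arc_val hP hm h4 h1 i j.castSucc ⟨h2.1, h⟩
    refine ⟨h1, fun i => ?_⟩
    by_cases h : 0 < dS u (σ, z j.succ.castSucc)
    · have hdp : 0 < d := by
        by_contra hc
        nlinarith [not_lt.1 hc]
      simp only [h, if_true]
      exact ⟨fun hq => right (by nlinarith) i, fun hq => left (by nlinarith) i⟩
    · have hdp : d < 0 := by
        by_contra hc
        nlinarith [not_lt.1 hc, not_lt.1 h]
      simp only [h, if_false]
      exact ⟨fun hq => left (by nlinarith) i, fun hq => right (by nlinarith) i⟩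

end F1Aux

open F1Aux in
theorem p_F1 (hWEN1 : S_WEN1) (hLINE : S_LINE) (hNEG1 : S_NEG1) (hJACX : S_JACX) :
    S_F1 := by
  intro c ρ C0 T P w x e1 e2 ν b hF hN hK hZt hZb t0 ht0
  by_contra hbad
  apply hN
  have hT := hF.intr.hT
  have hP := hF.intr.hP
  have hw := hF.intr.sm
  have hu : Sm P (dS w) := hw.dS
  have hJac := (hJACX c ρ C0 T P w x e1 e2 ν hF).2.2
  obtain ⟨z, hzm, hz4, hz0, hzn⟩ := hZb
  obtain ⟨y, hym, hy4, hy0, hyn⟩ := hZt
  set B : Set ℝ := {t | t ∈ Icc (-T) T ∧ ∀ s, dS w (t, s) = 0} with hB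
  have hgood : ∀ t ∈ Icc (-T) T, t ∉ B → Good w t := fun t ht h => by
    by_contra hc
    exact h ⟨ht, fun s => by_contra fun hs => hc ⟨s, hs⟩⟩
  have hBc : IsClosed B := by
    have : B = Icc (-T) T ∩ ⋂ s, {t | dS w (t, s) = 0} := by
      ext t; simp [hB]
    rw [this]
    exact isClosed_Icc.inter (isClosed_iInter fun s =>
      isClosed_eq (hu.cont.comp (Continuous.prodMk_left s)) continuous_const)
  have hBne : B.Nonempty := ⟨t0, by
    by_contra hc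
    exact hbad (hgood t0 ht0 hc)⟩
  have hbb : BddBelow B := ⟨-T, fun t ht => ht.1.1⟩
  have hba : BddAbove B := ⟨T, fun t ht => ht.1.2⟩
  have hb1 : sInf B ∈ B := hBc.csInf_mem hBne hbb
  have hb2 : sSup B ∈ B := hBc.csSup_mem hBne hba
  have hle : sInf B ≤ sSup B := csInf_le hbb hb2
  have gb : Good w (-T) := by
    have a : z (0 : Fin 4).castSucc < z (0 : Fin 4).succ := hzm (by decide)
    exact ⟨_, hzn 0 ((z (0 : Fin 4).castSucc + z (0 : Fin 4).succ) / 2) ⟨by linarith, by linarith⟩⟩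
  have gt : Good w T := by
    have a : y (0 : Fin 4).castSucc < y (0 : Fin 4).succ := hym (by decide)
    exact ⟨_, hyn 0 ((y (0 : Fin 4).castSucc + y (0 : Fin 4).succ) / 2) ⟨by linarith, by linarith⟩⟩
  have lb : -T < sInf B := lt_of_le_of_ne hb1.1.1 fun h => by
    obtain ⟨s, hs⟩ := gb
    exact hs (by rw [h]; exact hb1.2 s)
  have lt : sSup B < T := lt_of_le_of_ne hb2.1.2 fun h => by
    obtain ⟨s, hs⟩ := gt
    exact hs (by rw [← h]; exact hb2.2 s)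
  have mb : -T ∈ Icc (-T) T := ⟨le_rfl, by linarith⟩
  have mt : T ∈ Icc (-T) T := ⟨by linarith, le_rfl⟩
  have dzb : ∀ i, dS (dS w) (-T, z i) ≠ 0 := fun i =>
    (hWEN1 c ρ C0 T P w x e1 e2 ν b hF hK (-T) mb).2 gb _ (hz0 i)
  have dzt : ∀ i, dS (dS w) (T, y i) ≠ 0 := fun i =>
    (hWEN1 c ρ C0 T P w x e1 e2 ν b hF hK T mt).2 gt _ (hy0 i)
  obtain ⟨kb, rb, lb', ab, ob, eb⟩ := side (T := T) (σ := -T) hP hu (J := Iio (sInf B)) isOpen_Iio lb
    (fun p hp hup => by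
      rcases lt_trichotomy p.1 (sInf B) with h | h | h
      · exact Or.inl h
      · exact absurd (by have := hb1.2 p.2; rw [← h] at this; exact this) hup
      · right
        filter_upwards [lt_mem_nhds h] with t ht using not_lt.2 ht.le)
    hzm hz4
    (fun t ht h i => hLINE c ρ C0 T P w x e1 e2 ν b hF hK (-T) t le_rfl ht.2
      (fun τ hτ => hgood τ ⟨hτ.1, hτ.2.trans ht.2⟩ fun hc =>
        absurd (csInf_le hbb hc) (not_le.2 (hτ.2.trans_lt h)))
      (z i) (-T) ⟨le_rfl, ht.1⟩ t ⟨ht.1, le_rfl⟩ (hz0 i)) dzb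
  obtain ⟨kt, rt, lt', at', ot, et⟩ := side (T := T) (σ := T) hP hu (J := Ioi (sSup B)) isOpen_Ioi lt
    (fun p hp hup => by
      rcases lt_trichotomy p.1 (sSup B) with h | h | h
      · right
        filter_upwards [gt_mem_nhds h] with t ht using not_lt.2 ht.le
      · exact absurd (by have := hb2.2 p.2; rw [← h] at this; exact this) hup
      · exact Or.inl h)
    hym hy4
    (fun t ht h i => hLINE c ρ C0 T P w x e1 e2 ν b hF hK t T ht.1 le_rfl
      (fun τ hτ => hgood τ ⟨ht.1.trans hτ.1, hτ.2⟩ fun hc =>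
        absurd (le_csSup hba hc) (not_le.2 (lt_of_lt_of_le h hτ.1)))
      (y i) T ⟨ht.2, le_rfl⟩ t ⟨le_rfl, ht.2⟩ (hy0 i)) dzt
  have d1 : ∀ q : ℝ × ℝ, q.1 ∈ Iio (sInf B) → q.1 ∉ Ioi (sSup B) := fun q h h' => by
    have a : q.1 < sInf B := h
    have a' : sSup B < q.1 := h'
    linarith
  have d2 : ∀ q : ℝ × ℝ, q.1 ∈ Ioi (sSup B) → q.1 ∉ Iio (sInf B) := fun q h h' => d1 q h' h
  let vb : Fin 4 → Fin 5 → ℝ := fun m =>
    ![if 0 = m then 1 else 0, if 1 = m then 1 else 0, if 2 = m then 1 else 0, 0, 0]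
  let vt : Fin 4 → Fin 5 → ℝ := fun m =>
    ![0, 0, 0, if 0 = m then 1 else 0, if 1 = m then 1 else 0]
  have hb : ∀ j : Fin 3, ∀ᶠ q in 𝓝[strip T] ((-T, z j.succ.castSucc) : ℝ × ℝ), ∀ i : Fin 5,
      (0 < dS w q → ![kb 0, kb 1, kb 2, kt 0, kt 1] i q = vb (rb j) i) ∧
      (dS w q < 0 → ![kb 0, kb 1, kb 2, kt 0, kt 1] i q = vb (lb' j) i) := fun j => by
    filter_upwards [(eb j).2] with q hq i
    have o := fun i => ot i q (d1 q hq.1)
    fin_cases i
    · exact hq.2 0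
    · exact hq.2 1
    · exact hq.2 2
    · exact ⟨fun _ => o 0, fun _ => o 0⟩
    · exact ⟨fun _ => o 1, fun _ => o 1⟩
  have ht : ∀ j : Fin 3, ∀ᶠ q in 𝓝[strip T] ((T, y j.succ.castSucc) : ℝ × ℝ), ∀ i : Fin 5,
      (0 < dS w q → ![kb 0, kb 1, kb 2, kt 0, kt 1] i q = vt (rt j) i) ∧
      (dS w q < 0 → ![kb 0, kb 1, kb 2, kt 0, kt 1] i q = vt (lt' j) i) := fun j => by
    filter_upwards [(et j).2] with q hq i
    have o := fun i => ob i q (d2 q hq.1)
    fin_cases i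
    · exact ⟨fun _ => o 0, fun _ => o 0⟩
    · exact ⟨fun _ => o 1, fun _ => o 1⟩
    · exact ⟨fun _ => o 2, fun _ => o 2⟩
    · exact hq.2 0
    · exact hq.2 1
  refine hNEG1 T P (WJ c w) (KB ρ C0 w) (dS w) ![kb 0, kb 1, kb 2, kt 0, kt 1] 5
    ![(-T, z (0 : Fin 3).succ.castSucc), (-T, z (1 : Fin 3).succ.castSucc),
      (-T, z (2 : Fin 3).succ.castSucc), (T, y (0 : Fin 3).succ.castSucc),
      (T, y (1 : Fin 3).succ.castSucc)]
    ![vb (rb 0), vb (rb 1), vb (rb 2), vt (rt 0), vt (rt 1)]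
    ![vb (lb' 0), vb (lb' 1), vb (lb' 2), vt (lt' 0), vt (lt' 1)]
    hT hP (sm_WJ hw c) (sm_KB hw ρ C0) hJac (fun i => ?_) (fun j => ?_) (fun a ha => ?_)
  · fin_cases i
    exacts [ab 0, ab 1, ab 2, at' 0, at' 1]
  · fin_cases j
    · exact ⟨bot_mem hT _, hz0 _, dzb _, hb 0⟩
    · exact ⟨bot_mem hT _, hz0 _, dzb _, hb 1⟩
    · exact ⟨bot_mem hT _, hz0 _, dzb _, hb 2⟩
    · exact ⟨top_mem hT _, hy0 _, dzt _, ht 0⟩
    · exact ⟨top_mem hT _, hy0 _, dzt _, ht 1⟩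
  · have sb : ∀ j : Fin 3, ∑ i, a i * vb (rb j) i = ∑ i, a i * vb (lb' j) i →
        ∑ i, a i * vb j.succ i = ∑ i, a i * vb j.castSucc i := fun j h => by
      rcases (eb j).1 with ⟨h1, h2⟩ | ⟨h1, h2⟩
      · rwa [h1, h2] at h
      · rw [h1, h2] at h
        exact h.symm
    have st : ∀ j : Fin 3, ∑ i, a i * vt (rt j) i = ∑ i, a i * vt (lt' j) i →
        ∑ i, a i * vt j.succ i = ∑ i, a i * vt j.castSucc i := fun j h => by
      rcases (et j).1 with ⟨h1, h2⟩ | ⟨h1, h2⟩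
      · rwa [h1, h2] at h
      · rw [h1, h2] at h
        exact h.symm
    have q0 := sb 0 (ha 0)
    have q1 := sb 1 (ha 1)
    have q2 := sb 2 (ha 2)
    have q3 := st 0 (ha 3)
    have q4 := st 1 (ha 4)
    simp [Fin.sum_univ_five, vb, vt] at q0 q1 q2 q3 q4
    funext i
    fin_cases i <;> simp <;> linarith

end Pool.Agent.P.MP_785924_gt
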