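import Pool.Agent.P.MP_785924_gt.B.IfaceB

/-! Step FLIP of the free boundary annulus project. -/

namespace Pool.Agent.P.MP_785924_gt

open scoped ContDiff
open Set Filter Topology

namespace FlipAux

theorem Bf_fl {u : ℝ × ℝ → ℝ} (hu : ContDiff ℝ ∞ u) (T P : ℝ) (W K : ℝ × ℝ → ℝ) :
    Bf T P W K (fl u) (fl u) = Bf T P (fl W) (fl K) u u := by
  unfold Bf
  have h1 : (∫ t in (-T)..T, ∫ s in (0 : ℝ)..P,
      (dT (fl u) (t, s) * dT (fl u) (t, s) + dS (fl u) (t, s) * dS (fl u) (t, s)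
        + W (t, s) * (fl u (t, s) * fl u (t, s))))
      = ∫ t in (-T)..T, (fun τ => ∫ s in (0 : ℝ)..P,
      (dT u (τ, s) * dT u (τ, s) + dS u (τ, s) * dS u (τ, s)
        + fl W (τ, s) * (u (τ, s) * u (τ, s)))) (-t) := by
    refine intervalIntegral.integral_congr fun t _ => ?_
    refine intervalIntegral.integral_congr fun s _ => ?_
    simp only [dT_fl hu, dS_fl hu, fl, neg_neg]
    ring
  rw [h1, intervalIntegral.integral_comp_neg (fun τ => ∫ s in (0 : ℝ)..P,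
      (dT u (τ, s) * dT u (τ, s) + dS u (τ, s) * dS u (τ, s)
        + fl W (τ, s) * (u (τ, s) * u (τ, s)))), neg_neg]
  congr 1
  refine intervalIntegral.integral_congr fun s _ => ?_
  simp only [fl, neg_neg]
  ring

end FlipAux

theorem p_FLIP :
    S_FLIP := by
  intro c ρ C0 T P w h
  have hw := h.sm.1
  have e1 : dT (fl w) = fun p => -(fl (dT w) p) := funext fun p => dT_fl hw p
  have e2 : dS (fl w) = fl (dS w) := funext fun p => dS_fl hw p
  refine ⟨⟨h.hc, h.hρ, h.hC, h.hCρ, h.hT, h.hP, h.sm.fl, ?_, ?_, ?_⟩, ?_⟩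
  · intro p hp
    rw [e1, e2, dT_neg, dT_fl (cd_dT hw), dS_fl (cd_dS hw), neg_neg]
    exact h.gauss _ (fl_mem hp)
  · intro s
    rw [e1]
    simp only [fl]
    rw [h.bot s, neg_neg]
  · intro s
    rw [e1]
    simp only [fl, neg_neg]
    rw [h.top s]
  · rintro ⟨v, hv, hneg⟩
    refine ⟨fun i => fl (v i), fun i => (hv i).fl, fun a ha => ?_⟩
    have h1 := FlipAux.Bf_fl (Sm.lin hv a).1 T P (WJ c w) (KB ρ C0 w)
    exact lt_of_eq_of_lt h1 (hneg a ha)

end Pool.Agent.P.MP_785924_gt
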