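import Pool.Agent.P.MP_785924_gt.B.IfaceB

/-! Step FR1A of the free boundary annulus project. -/

namespace Pool.Agent.P.MP_785924_gt

open scoped ContDiff
open Set Filter Topology

namespace Fr1aAux

variable {P T c : ℝ} {y z : Fin 4 → ℝ × ℝ → ℝ} {p : ℝ × ℝ}

theorem ip_comm (c : ℝ) (u v : Fin 4 → ℝ) : ip c u v = ip c v u := by unfold ip; ring

theorem sm_ip (hy : ∀ a, Sm P (y a)) (hz : ∀ a, Sm P (z a)) (c : ℝ) :
    Sm P (fun q => ip c (vec y q) (vec z q)) :=
  (((((hy 0).mul (hz 0)).cmul c).add ((hy 1).mul (hz 1))).add ((hy 2).mul (hz 2))).add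
    ((hy 3).mul (hz 3))

theorem dT_ip (hy : ∀ a, Sm P (y a)) (hz : ∀ a, Sm P (z a)) (c : ℝ) (p : ℝ × ℝ) :
    dT (fun q => ip c (vec y q) (vec z q)) p
      = ip c (vec (vT y) p) (vec z p) + ip c (vec y p) (vec (vT z) p) := by
  obtain ⟨t, s⟩ := p
  refine dT_eq ((sm_ip hy hz c).diff _) ?_
  have a := fun i => (hasT ((hy i).diff (t, s))).fun_mul (hasT ((hz i).diff (t, s)))
  exact (((((a 0).const_mul c).fun_add (a 1)).fun_add (a 2)).fun_add (a 3)).congr_deriv
    (by simp only [ip, vec, vT]; ring)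

theorem dS_ip (hy : ∀ a, Sm P (y a)) (hz : ∀ a, Sm P (z a)) (c : ℝ) (p : ℝ × ℝ) :
    dS (fun q => ip c (vec y q) (vec z q)) p
      = ip c (vec (vS y) p) (vec z p) + ip c (vec y p) (vec (vS z) p) := by
  obtain ⟨t, s⟩ := p
  refine dS_eq ((sm_ip hy hz c).diff _) ?_
  have a := fun i => (hasS ((hy i).diff (t, s))).fun_mul (hasS ((hz i).diff (t, s)))
  exact (((((a 0).const_mul c).fun_add (a 1)).fun_add (a 2)).fun_add (a 3)).congr_deriv
    (by simp only [ip, vec, vS]; ring)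

/-- Differentiation of a constant inner product. -/
theorem dconst (hT : 0 < T) (hy : ∀ a, Sm P (y a)) (hz : ∀ a, Sm P (z a)) {k : ℝ}
    (h : ∀ q ∈ strip T, ip c (vec y q) (vec z q) = k) (hp : p ∈ strip T) :
    ip c (vec (vT y) p) (vec z p) + ip c (vec y p) (vec (vT z) p) = 0 ∧
    ip c (vec (vS y) p) (vec z p) + ip c (vec y p) (vec (vS z) p) = 0 := by
  rw [← dT_ip hy hz, ← dS_ip hy hz,
    dT_congr hT hp ((sm_ip hy hz c).diff p) (differentiableAt_const k) h,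
    dS_congr hT hp ((sm_ip hy hz c).diff p) (differentiableAt_const k) h, dT_const, dS_const]
  exact ⟨rfl, rfl⟩

/-- Completeness relation of an orthonormal frame. -/
theorem compl4 (hc : c * c = 1) {x e1 e2 n : Fin 4 → ℝ}
    (h : ip c x x = c ∧ ip c e1 e1 = 1 ∧ ip c e2 e2 = 1 ∧ ip c n n = 1 ∧ ip c x e1 = 0 ∧
      ip c x e2 = 0 ∧ ip c x n = 0 ∧ ip c e1 e2 = 0 ∧ ip c e1 n = 0 ∧ ip c e2 n = 0) (a b : Fin 4) :
    c * (x a * x b) + e1 a * e1 b + e2 a * e2 b + n a * n b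
      = if a = b then (if a = 0 then c else 1) else 0 := by
  obtain ⟨h1, h2, h3, h4, h5, h6, h7, h8, h9, h10⟩ := h
  have g5 := (ip_comm c e1 x).trans h5
  have g6 := (ip_comm c e2 x).trans h6
  have g7 := (ip_comm c n x).trans h7
  have g8 := (ip_comm c e2 e1).trans h8
  have g9 := (ip_comm c n e1).trans h9
  have g10 := (ip_comm c n e2).trans h10
  let col : Fin 4 → Fin 4 → ℝ := ![x, e1, e2, n]
  let J : Fin 4 → ℝ := ![c, 1, 1, 1]
  have H : ∀ k l, J k * ip c (col k) (col l) = if k = l then 1 else 0 := by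
    intro k l
    fin_cases k <;> fin_cases l <;> simp [col, J, *]
  have GF : (Matrix.of fun k a => J k * col k a * J a) * (Matrix.of fun a k => col k a) = 1 := by
    ext k l
    rw [Matrix.mul_apply, Matrix.one_apply, ← H, Fin.sum_univ_four]
    simp only [Matrix.of_apply, ip, J, Matrix.cons_val]
    ring
  have FG0 := mul_eq_one_comm.1 GF
  have FG : ((Matrix.of fun a k => col k a) * (Matrix.of fun k a => J k * col k a * J a)) a b
      = (1 : Matrix (Fin 4) (Fin 4) ℝ) a b := by rw [FG0]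
  rw [Matrix.mul_apply, Fin.sum_univ_four, Matrix.one_apply] at FG
  simp only [Matrix.of_apply, col, Matrix.cons_val] at FG
  have J0 : J 0 = c := rfl
  have J1 : J 1 = 1 := rfl
  have J2 : J 2 = 1 := rfl
  have J3 : J 3 = 1 := rfl
  have JJ : J b * J b = 1 := by fin_cases b <;> simp [J, hc]
  have Jb : (if a = b then (if a = 0 then c else 1) else 0) = (if a = b then 1 else 0) * J b := by
    fin_cases a <;> fin_cases b <;> simp [J]
  rw [J0, J1, J2, J3] at FG
  rw [Jb, ← FG]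
  linear_combination (-(c * (x a * x b) + e1 a * e1 b + e2 a * e2 b + n a * n b)) * JJ

/-- The frame at a boundary point. -/
theorem ends {ρ C0 ε : ℝ} (hc : c * c = 1) (hρ : 0 < ρ) (hCρ : C0 ^ 2 + c * ρ ^ 2 = 1)
    (hε : ε * ε = 1) {x e1 e2 n : Fin 4 → ℝ}
    (h : ∀ a b, c * (x a * x b) + e1 a * e1 b + e2 a * e2 b + n a * n b
      = if a = b then (if a = 0 then c else 1) else 0)
    (hx : x 0 = C0) (hn : n 0 = 0) (h2 : e2 0 = 0) (hs : ε * (c * e1 0) ≤ 0) :
    e1 0 = -(ε * (c * ρ)) ∧ ∀ i : Fin 3, e1 i.succ = ε * (C0 / ρ * x i.succ) := by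
  have h0 := h 0 0
  simp only [hx, hn, h2, if_true] at h0
  have h1 : (ε * (c * e1 0) - ρ) * (ε * (c * e1 0) + ρ) = 0 := by
    linear_combination (c * c * e1 0 ^ 2) * hε + (e1 0 ^ 2 + ρ ^ 2) * hc + h0 - c * hCρ
  have h3 : ε * (c * e1 0) + ρ = 0 := (mul_eq_zero.1 h1).resolve_left (by linarith)
  have h4 : e1 0 = -(ε * (c * ρ)) := by
    linear_combination (ε * c) * h3 - (c * c * e1 0) * hε - e1 0 * hc
  refine ⟨h4, fun i => ?_⟩
  have h5 := h 0 i.succ
  rw [if_neg (Fin.succ_ne_zero i).symm, hx, hn, h2, h4] at h5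
  field_simp
  linear_combination (-(ε * c)) * h5 + (ε * C0 * x i.succ - ε * ε * ρ * e1 i.succ) * hc
    - (ρ * e1 i.succ) * hε

theorem sign_top {g : ℝ → ℝ} {d : ℝ} (hT : 0 < T) (hg : HasDerivAt g d T) (h0 : g T = 0)
    (h : ∀ t, -T ≤ t → t ≤ T → 0 ≤ g t) : d ≤ 0 := by
  refine le_of_tendsto (hasDerivAt_iff_tendsto_slope_left_right.1 hg).1 ?_
  filter_upwards [Ioo_mem_nhdsLT (show -T < T by linarith)] with t ht
  rw [slope_def_field, h0, sub_zero]
  exact div_nonpos_of_nonneg_of_nonpos (h t ht.1.le ht.2.le) (by linarith [ht.2])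

theorem sign_bot {g : ℝ → ℝ} {d : ℝ} (hT : 0 < T) (hg : HasDerivAt g d (-T)) (h0 : g (-T) = 0)
    (h : ∀ t, -T ≤ t → t ≤ T → 0 ≤ g t) : 0 ≤ d := by
  refine ge_of_tendsto (hasDerivAt_iff_tendsto_slope_left_right.1 hg).2 ?_
  filter_upwards [Ioo_mem_nhdsGT (show -T < T by linarith)] with t ht
  rw [slope_def_field, h0, sub_zero]
  exact div_nonneg (h t ht.1.le ht.2.le) (by linarith [ht.1])

theorem lower {f : ℝ × ℝ → ℝ} (hT : 0 < T) (hP : 0 < P) (hf : Sm P f)
    (h : ∀ p ∈ strip T, 0 < f p) : ∃ m, 0 < m ∧ ∀ p ∈ strip T, m ≤ f p := by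
  obtain ⟨q, hq, hm⟩ := ((isCompact_Icc (a := -T) (b := T)).prod
    (isCompact_Icc (a := (0 : ℝ)) (b := P))).exists_isMinOn
    ⟨(T, 0), ⟨by linarith, le_rfl⟩, le_rfl, hP.le⟩ hf.cont.continuousOn
  refine ⟨f q, h q hq.1, fun p hp => ?_⟩
  obtain ⟨y, hy, e⟩ := (hf.2.periodic p.1).exists_mem_Ico₀ hP p.2
  have e' : f p = f (p.1, y) := e
  rw [e']
  exact hm (show (p.1, y) ∈ Icc (-T) T ×ˢ Icc 0 P from ⟨hp, hy.1, hy.2.le⟩)

theorem psi {m : ℝ} (hm : 0 < m) :
    ∃ φ : ℝ → ℝ, ContDiff ℝ ∞ φ ∧ ∀ r, m ≤ r → Real.exp (φ r) ^ 2 = r := by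
  let st : ℝ → ℝ := fun r => Real.smoothTransition (2 / m * r - 1)
  have hst : ContDiff ℝ ∞ st :=
    Real.smoothTransition.contDiff.comp ((contDiff_const.mul contDiff_id).sub contDiff_const)
  have hpos : ∀ r, 0 < st r * r + (1 - st r) * m := by
    intro r
    have a : 0 ≤ st r := Real.smoothTransition.nonneg _
    have b : st r ≤ 1 := Real.smoothTransition.le_one _
    by_cases e : r ≤ m / 2
    · have : st r = 0 := Real.smoothTransition.zero_of_nonpos (by
        rw [sub_nonpos, div_mul_eq_mul_div, div_le_one hm]; linarith)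
      rw [this]; simpa using hm
    · push Not at e
      nlinarith [mul_nonneg a (sub_pos.2 e).le, mul_nonneg (sub_nonneg.2 b) hm.le]
  refine ⟨fun r => Real.log (st r * r + (1 - st r) * m) / 2,
    (((hst.mul contDiff_id).add ((contDiff_const.sub hst).mul contDiff_const)).log
      fun r => (hpos r).ne').div_const 2, fun r hr => ?_⟩
  have : st r = 1 := Real.smoothTransition.one_of_one_le (by
    rw [le_sub_iff_add_le, div_mul_eq_mul_div, le_div_iff₀ hm]; linarith)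
  rw [sq, ← Real.exp_add, add_halves, Real.exp_log (hpos r), this]
  ring

theorem model (M : Model) (R : ℝ) (hR : M.Radius R) : (M.curv = 1 ∨ M.curv = -1) ∧ 0 < M.sn R ∧
    0 < M.cs R ∧ M.cs R ^ 2 + M.curv * M.sn R ^ 2 = 1 := by
  cases M
  · obtain ⟨h1, h2⟩ := hR
    refine ⟨Or.inl rfl, Real.sin_pos_of_pos_of_lt_pi h1 (by linarith),
      Real.cos_pos_of_mem_Ioo ⟨by linarith, h2⟩, ?_⟩
    simp [Model.cs, Model.sn, Model.curv]
  · refine ⟨Or.inr rfl, Real.sinh_pos_iff.2 hR, Real.cosh_pos R, ?_⟩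
    simp only [Model.cs, Model.sn, Model.curv]
    linarith [Real.cosh_sq R]

end Fr1aAux

open Fr1aAux in
theorem p_FR1A :
    S_FR1A := by
  intro M R T P x ν hR hT hP h
  obtain ⟨hc, hρ, hC, hCρ⟩ := model M R hR
  refine ⟨hc, hρ, hC, hCρ, ?_⟩
  have hcc : M.curv * M.curv = 1 := by rcases hc with e | e <;> rw [e] <;> norm_num
  have hE : Sm P (gE M x) := sm_ip (fun a => (h.smx a).dT) (fun a => (h.smx a).dT) _
  obtain ⟨m, hm, hmE⟩ := lower hT hP hE fun p hp => (h.conf p hp).1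
  obtain ⟨φ, hφ, hφm⟩ := psi hm
  obtain ⟨w, hw, hX⟩ : ∃ w, Sm P w ∧ ∀ p ∈ strip T, gE M x p = Real.exp (w p) ^ 2 :=
    ⟨fun p => φ (gE M x p), hE.comp hφ, fun p hp => (hφm _ (hmE p hp)).symm⟩
  obtain ⟨e1, s1, h1⟩ : ∃ e1 : Fin 4 → ℝ × ℝ → ℝ, (∀ a, Sm P (e1 a)) ∧
      ∀ a p, dT (x a) p = Real.exp (w p) * e1 a p :=
    ⟨fun a p => dT (x a) p / Real.exp (w p),
      fun a => (h.smx a).dT.div hw.exp fun q => (Real.exp_pos _).ne', fun a p => by field_simp⟩
  obtain ⟨e2, s2, h2⟩ : ∃ e2 : Fin 4 → ℝ × ℝ → ℝ, (∀ a, Sm P (e2 a)) ∧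
      ∀ a p, dS (x a) p = Real.exp (w p) * e2 a p :=
    ⟨fun a p => dS (x a) p / Real.exp (w p),
      fun a => (h.smx a).dS.div hw.exp fun q => (Real.exp_pos _).ne', fun a p => by field_simp⟩
  have it : ∀ p v, ip M.curv (vec (vT x) p) v = Real.exp (w p) * ip M.curv (vec e1 p) v :=
    fun p v => by simp only [ip, vec, vT, h1]; ring
  have is : ∀ p v, ip M.curv (vec (vS x) p) v = Real.exp (w p) * ip M.curv (vec e2 p) v :=
    fun p v => by simp only [ip, vec, vS, h2]; ring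
  have orth : ∀ p ∈ strip T, ip M.curv (vec x p) (vec x p) = M.curv ∧
      ip M.curv (vec e1 p) (vec e1 p) = 1 ∧ ip M.curv (vec e2 p) (vec e2 p) = 1 ∧
      ip M.curv (vec ν p) (vec ν p) = 1 ∧ ip M.curv (vec x p) (vec e1 p) = 0 ∧
      ip M.curv (vec x p) (vec e2 p) = 0 ∧ ip M.curv (vec x p) (vec ν p) = 0 ∧
      ip M.curv (vec e1 p) (vec e2 p) = 0 ∧ ip M.curv (vec e1 p) (vec ν p) = 0 ∧
      ip M.curv (vec e2 p) (vec ν p) = 0 := by
    intro p hp
    have X0 := (Real.exp_pos (w p)).ne'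
    have X2 := pow_ne_zero 2 X0
    obtain ⟨-, c2, c3⟩ := h.conf p hp
    obtain ⟨n1, n2, n3, n4⟩ := h.normal p hp
    have c1 : ip M.curv (vec (vT x) p) (vec (vT x) p) = Real.exp (w p) ^ 2 := hX p hp
    rw [c1] at c2
    obtain ⟨d1, d2⟩ := dconst hT h.smx h.smx (fun q hq => (h.onM q hq).1) hp
    rw [it, ip_comm, it] at c1
    rw [is, ip_comm, is] at c2
    rw [it, ip_comm, is, ip_comm] at c3
    rw [ip_comm, it] at n3
    rw [ip_comm, is] at n4
    rw [ip_comm _ (vec x p), it, ip_comm] at d1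
    rw [ip_comm _ (vec x p), is, ip_comm] at d2
    refine ⟨(h.onM p hp).1, mul_left_cancel₀ X2 (by linarith), mul_left_cancel₀ X2 (by linarith),
      n1, mul_left_cancel₀ X0 (by linarith), mul_left_cancel₀ X0 (by linarith),
      (ip_comm _ _ _).trans n2, mul_left_cancel₀ X2 (by linarith),
      mul_left_cancel₀ X0 (by linarith), mul_left_cancel₀ X0 (by linarith)⟩
  have cpl := fun p hp => compl4 hcc (orth p hp)
  have z2 : ∀ t, (∀ s, x 0 (t, s) = M.cs R) → ∀ s, e2 0 (t, s) = 0 := by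
    intro t ht s
    have := dS_congr_lev ((h.smx 0).diff (t, s)) (differentiableAt_const (M.cs R)) ht
    rw [dS_const, h2] at this
    exact (mul_eq_zero.1 this).resolve_left (Real.exp_pos _).ne'
  have der : ∀ t s, HasDerivAt (fun τ => M.curv * (x 0 (τ, s) - M.cs R))
      (Real.exp (w (t, s)) * (M.curv * e1 0 (t, s))) t := fun t s =>
    (((hasT ((h.smx 0).diff (t, s))).sub_const _).const_mul _).congr_deriv (by rw [h1]; ring)
  refine ⟨w, e1, e2, hw, ⟨h.smx, s1, s2, h.smν, orth, cpl, fun p hp => (h.onM p hp).2,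
    fun s => ?_, fun s => ?_⟩, fun p hp => ⟨hX p hp, fun a => ⟨h1 a p, h2 a p⟩⟩⟩
  · have sg := sign_top hT (der T s) (by simp [(h.bdry s).1])
      fun t a b => h.inBall (t, s) ⟨a, b⟩
    have z := z2 T (fun s => (h.bdry s).1) s
    obtain ⟨r1, r2⟩ := ends (ε := 1) hcc hρ hCρ (by norm_num) (cpl _ (top_mem hT s))
      (h.bdry s).1 (h.orth s).1 z (by
        rw [one_mul]
        exact le_of_mul_le_mul_left (by simpa [vec] using sg) (Real.exp_pos (w (T, s))))
    exact ⟨(h.bdry s).1, (h.orth s).1, z, by simpa [vec] using r1,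
      fun i => by simpa [vec] using r2 i⟩
  · have sg := sign_bot hT (der (-T) s) (by simp [(h.bdry s).2])
      fun t a b => h.inBall (t, s) ⟨a, b⟩
    have z := z2 (-T) (fun s => (h.bdry s).2) s
    obtain ⟨r1, r2⟩ := ends (ε := -1) hcc hρ hCρ (by norm_num) (cpl _ (bot_mem hT s))
      (h.bdry s).2 (h.orth s).2 z (by
        have := (mul_nonneg_iff_of_pos_left (Real.exp_pos _)).1 sg
        simp only [vec]; linarith)
    exact ⟨(h.bdry s).2, (h.orth s).2, z, by simpa [vec] using r1,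
      fun i => by simpa [vec] using r2 i⟩

end Pool.Agent.P.MP_785924_gt
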