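import Pool.Agent.P.MP_785924_gt.B.IfaceB

/-! Step FR1B of the free boundary annulus project. -/

namespace Pool.Agent.P.MP_785924_gt

open scoped ContDiff
open Set Filter Topology

namespace Fr1bAux

variable {P T c : ℝ} {y z : Fin 4 → ℝ × ℝ → ℝ} {p : ℝ × ℝ}

theorem ip_comm (c : ℝ) (u v : Fin 4 → ℝ) : ip c u v = ip c v u := by unfold ip; ring

theorem sm_ip (hy : ∀ a, Sm P (y a)) (hz : ∀ a, Sm P (z a)) (c : ℝ) :
    Sm P (fun q => ip c (vec y q) (vec z q)) :=
  (((((hy 0).mul (hz 0)).cmul c).add ((hy 1).mul (hz 1))).add ((hy 2).mul (hz 2))).add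
    ((hy 3).mul (hz 3))

theorem dT_ip (hy : ∀ a, Sm P (y a)) (hz : ∀ a, Sm P (z a)) (c : ℝ) (p : ℝ × ℝ) :
    dT (fun q => ip c (vec y q) (vec z q)) p
      = ip c (vec (vT y) p) (vec z p) + ip c (vec y p) (vec (vT z) p) := by
  obtain ⟨t, s⟩ := p
  refine dT_eq ((sm_ip hy hz c).diff _) ?_
  have a := fun i => (hasT ((hy i).diff (t, s))).fun_mul (hasT ((hz i).diff (t, s)))
  exact (((((a 0).const_mul c).fun_add (a 1)).fun_add (a 2)).fun_add (a 3)).congr_deriv
    (by simp only [ip, vec, vT]; ring)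

theorem dS_ip (hy : ∀ a, Sm P (y a)) (hz : ∀ a, Sm P (z a)) (c : ℝ) (p : ℝ × ℝ) :
    dS (fun q => ip c (vec y q) (vec z q)) p
      = ip c (vec (vS y) p) (vec z p) + ip c (vec y p) (vec (vS z) p) := by
  obtain ⟨t, s⟩ := p
  refine dS_eq ((sm_ip hy hz c).diff _) ?_
  have a := fun i => (hasS ((hy i).diff (t, s))).fun_mul (hasS ((hz i).diff (t, s)))
  exact (((((a 0).const_mul c).fun_add (a 1)).fun_add (a 2)).fun_add (a 3)).congr_deriv
    (by simp only [ip, vec, vS]; ring)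

/-- Differentiation of a constant inner product. -/
theorem dconst (hT : 0 < T) (hy : ∀ a, Sm P (y a)) (hz : ∀ a, Sm P (z a)) {k : ℝ}
    (h : ∀ q ∈ strip T, ip c (vec y q) (vec z q) = k) (hp : p ∈ strip T) :
    ip c (vec (vT y) p) (vec z p) + ip c (vec y p) (vec (vT z) p) = 0 ∧
    ip c (vec (vS y) p) (vec z p) + ip c (vec y p) (vec (vS z) p) = 0 := by
  rw [← dT_ip hy hz, ← dS_ip hy hz,
    dT_congr hT hp ((sm_ip hy hz c).diff p) (differentiableAt_const k) h,
    dS_congr hT hp ((sm_ip hy hz c).diff p) (differentiableAt_const k) h, dT_const, dS_const]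
  exact ⟨rfl, rfl⟩

theorem expand (hc : c * c = 1) {x e1 e2 n : Fin 4 → ℝ}
    (h : ∀ a b, c * (x a * x b) + e1 a * e1 b + e2 a * e2 b + n a * n b
      = if a = b then (if a = 0 then c else 1) else 0) (V : Fin 4 → ℝ) (a : Fin 4) :
    V a = c * ip c V x * x a + ip c V e1 * e1 a + ip c V e2 * e2 a + ip c V n * n a := by
  have key : V a = c * V 0 * (if a = 0 then (if a = 0 then c else 1) else 0)
      + V 1 * (if a = 1 then (if a = 0 then c else 1) else 0)
      + V 2 * (if a = 2 then (if a = 0 then c else 1) else 0)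
      + V 3 * (if a = 3 then (if a = 0 then c else 1) else 0) := by
    fin_cases a <;> simp
    linear_combination (-V 0) * hc
  simp only [ip]
  linear_combination key - (c * V 0) * h a 0 - V 1 * h a 1 - V 2 * h a 2 - V 3 * h a 3

theorem alg {X wt ws A B : ℝ} (hX : X ≠ 0)
    {x e1 e2 n xt xs e1t e1s e2t e2s nt ns xtt xst xss : Fin 4 → ℝ}
    (ex : ∀ (V : Fin 4 → ℝ) a,
      V a = c * ip c V x * x a + ip c V e1 * e1 a + ip c V e2 * e2 a + ip c V n * n a)
    (o11 : ip c e1 e1 = 1) (o22 : ip c e2 e2 = 1) (o12 : ip c e1 e2 = 0) (o1n : ip c e1 n = 0)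
    (o2n : ip c e2 n = 0) (ht : ∀ a, xt a = X * e1 a) (hs : ∀ a, xs a = X * e2 a)
    (htt : ∀ a, xtt a = X * wt * e1 a + X * e1t a) (hst : ∀ a, xst a = X * ws * e1 a + X * e1s a)
    (hts : ∀ a, xst a = X * wt * e2 a + X * e2t a) (hss : ∀ a, xss a = X * ws * e2 a + X * e2s a)
    (hA : A = ip c xtt n) (hB : B = ip c xst n) (hM : ip c xtt n + ip c xss n = 0)
    (dx1 : ip c xt e1 + ip c x e1t = 0 ∧ ip c xs e1 + ip c x e1s = 0)
    (dx2 : ip c xt e2 + ip c x e2t = 0 ∧ ip c xs e2 + ip c x e2s = 0)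
    (dxn : ip c xt n + ip c x nt = 0 ∧ ip c xs n + ip c x ns = 0)
    (d11 : ip c e1t e1 + ip c e1 e1t = 0 ∧ ip c e1s e1 + ip c e1 e1s = 0)
    (d22 : ip c e2t e2 + ip c e2 e2t = 0 ∧ ip c e2s e2 + ip c e2 e2s = 0)
    (dnn : ip c nt n + ip c n nt = 0 ∧ ip c ns n + ip c n ns = 0)
    (d12 : ip c e1t e2 + ip c e1 e2t = 0 ∧ ip c e1s e2 + ip c e1 e2s = 0)
    (d1n : ip c e1t n + ip c e1 nt = 0 ∧ ip c e1s n + ip c e1 ns = 0)
    (d2n : ip c e2t n + ip c e2 nt = 0 ∧ ip c e2s n + ip c e2 ns = 0) (a : Fin 4) :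
    nt a = -((A * e1 a + B * e2 a) / X) ∧ ns a = -((B * e1 a - A * e2 a) / X) ∧
    e1t a = -(ws * e2 a) + A * n a / X - c * X * x a ∧ e1s a = wt * e2 a + B * n a / X ∧
    e2t a = ws * e1 a + B * n a / X ∧ e2s a = -(wt * e1 a) - A * n a / X - c * X * x a := by
  have it : ∀ v, ip c xt v = X * ip c e1 v := fun v => by simp only [ip, ht]; ring
  have is : ∀ v, ip c xs v = X * ip c e2 v := fun v => by simp only [ip, hs]; ring
  have itt : ∀ v, ip c xtt v = X * wt * ip c e1 v + X * ip c e1t v := fun v => by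
    simp only [ip, htt]; ring
  have ist : ∀ v, ip c xst v = X * ws * ip c e1 v + X * ip c e1s v := fun v => by
    simp only [ip, hst]; ring
  have its : ∀ v, ip c xst v = X * wt * ip c e2 v + X * ip c e2t v := fun v => by
    simp only [ip, hts]; ring
  have iss : ∀ v, ip c xss v = X * ws * ip c e2 v + X * ip c e2s v := fun v => by
    simp only [ip, hss]; ring
  have o21 : ip c e2 e1 = 0 := by rw [ip_comm, o12]
  rw [it, is, o11, o21, ip_comm c x, ip_comm c x] at dx1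
  rw [it, is, o22, o12, ip_comm c x, ip_comm c x] at dx2
  rw [it, is, o1n, o2n, ip_comm c x, ip_comm c x] at dxn
  rw [ip_comm c e1, ip_comm c e1 e1s] at d11
  rw [ip_comm c e2, ip_comm c e2 e2s] at d22
  rw [ip_comm c n, ip_comm c n ns] at dnn
  rw [ip_comm c e1, ip_comm c e1 e2s] at d12
  rw [ip_comm c e1, ip_comm c e1 ns] at d1n
  rw [ip_comm c e2, ip_comm c e2 ns] at d2n
  have a1 : ip c e1t n = A / X := by rw [hA, itt, o1n]; field_simp; ring
  have a2 : ip c e1s n = B / X := by rw [hB, ist, o1n]; field_simp; ring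
  have a3 : ip c e2t n = B / X := by rw [hB, its, o2n]; field_simp; ring
  have a4 : ip c e2s n = -(A / X) := by
    rw [← hA, iss, o2n] at hM
    field_simp; linarith
  have b1 : ip c e1t e1 = 0 := by linarith [d11.1]
  have b2 : ip c e1s e1 = 0 := by linarith [d11.2]
  have b3 : ip c e2t e2 = 0 := by linarith [d22.1]
  have b4 : ip c e2s e2 = 0 := by linarith [d22.2]
  have m1 : ip c e2t e1 = ws := by
    have := (ist e1).symm.trans (its e1)
    rw [o11, o21, b2] at this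
    exact mul_left_cancel₀ hX (by linarith)
  have m2 : ip c e1s e2 = wt := by
    have := (ist e2).symm.trans (its e2)
    rw [o22, o12, b3] at this
    exact mul_left_cancel₀ hX (by linarith)
  refine ⟨?_, ?_, ?_, ?_, ?_, ?_⟩
  · rw [ex nt a, show ip c nt x = 0 by linarith [dxn.1], show ip c nt e1 = -(A / X) by
      linarith [d1n.1], show ip c nt e2 = -(B / X) by linarith [d2n.1],
      show ip c nt n = 0 by linarith [dnn.1]]
    ring
  · rw [ex ns a, show ip c ns x = 0 by linarith [dxn.2], show ip c ns e1 = -(B / X) by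
      linarith [d1n.2], show ip c ns e2 = A / X by linarith [d2n.2],
      show ip c ns n = 0 by linarith [dnn.2]]
    ring
  · rw [ex e1t a, show ip c e1t x = -X by linarith [dx1.1], b1,
      show ip c e1t e2 = -ws by linarith [d12.1], a1]
    ring
  · rw [ex e1s a, show ip c e1s x = 0 by linarith [dx1.2], b2, m2, a2]
    ring
  · rw [ex e2t a, show ip c e2t x = 0 by linarith [dx2.1], m1, b3, a3]
    ring
  · rw [ex e2s a, show ip c e2s x = -X by linarith [dx2.2],
      show ip c e2s e1 = -wt by linarith [d12.2], b4, a4]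
    ring

/-- Derivatives of a function that equals `exp w * e` on the strip. -/
theorem dprod (hT : 0 < T) {f w e : ℝ × ℝ → ℝ} (hf : Sm P f) (hw : Sm P w) (he : Sm P e)
    (h : ∀ q ∈ strip T, f q = Real.exp (w q) * e q) (hp : p ∈ strip T) :
    dT f p = Real.exp (w p) * dT w p * e p + Real.exp (w p) * dT e p ∧
    dS f p = Real.exp (w p) * dS w p * e p + Real.exp (w p) * dS e p := by
  rw [dT_congr hT hp (hf.diff p) ((hw.exp.mul he).diff p) h,
    dS_congr hT hp (hf.diff p) ((hw.exp.mul he).diff p) h,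
    dT_mul (hw.exp.diff p) (he.diff p), dS_mul (hw.exp.diff p) (he.diff p), dT_exp (hw.diff p),
    dS_exp (hw.diff p)]
  exact ⟨rfl, rfl⟩

end Fr1bAux

open Fr1bAux in
theorem p_FR1B :
    S_FR1B := by
  intro c ρ C0 T P w x e1 e2 ν hc hρ hC hCρ hT hP hw h hx hM
  have hcc : c * c = 1 := by rcases hc with rfl | rfl <;> norm_num
  refine ⟨hc, hρ, hC, hCρ, hT, hP, hw, sm_ip (fun a => (h.smx a).dT.dT) h.smν c,
    sm_ip (fun a => (h.smx a).dT.dS) h.smν c, h, fun a p hp => ⟨(hx p hp a).1, (hx p hp a).2, ?_⟩⟩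
  have q1 := fun b => dprod hT (h.smx b).dT hw (h.sm1 b) (fun q hq => (hx q hq b).1) hp
  have q2 := fun b => dprod hT (h.smx b).dS hw (h.sm2 b) (fun q hq => (hx q hq b).2) hp
  obtain ⟨-, o11, o22, -, -, -, -, o12, o1n, o2n⟩ := h.orth p hp
  exact alg (x := vec x p) (e1 := vec e1 p) (e2 := vec e2 p) (n := vec ν p)
    (xt := vec (vT x) p) (xs := vec (vS x) p) (e1t := vec (vT e1) p) (e1s := vec (vS e1) p)
    (e2t := vec (vT e2) p) (e2s := vec (vS e2) p) (nt := vec (vT ν) p) (ns := vec (vS ν) p)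
    (xtt := vec (vT (vT x)) p) (xst := vec (vS (vT x)) p) (xss := vec (vS (vS x)) p)
    (Real.exp_pos (w p)).ne' (expand hcc (h.compl p hp)) o11 o22 o12 o1n o2n
    (fun b => (hx p hp b).1) (fun b => (hx p hp b).2) (fun b => (q1 b).1) (fun b => (q1 b).2)
    (fun b => (dT_dS (h.smx b).1 p).symm.trans (q2 b).1) (fun b => (q2 b).2) rfl rfl (hM p hp)
    (dconst hT h.smx h.sm1 (fun q hq => (h.orth q hq).2.2.2.2.1) hp)
    (dconst hT h.smx h.sm2 (fun q hq => (h.orth q hq).2.2.2.2.2.1) hp)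
    (dconst hT h.smx h.smν (fun q hq => (h.orth q hq).2.2.2.2.2.2.1) hp)
    (dconst hT h.sm1 h.sm1 (fun q hq => (h.orth q hq).2.1) hp)
    (dconst hT h.sm2 h.sm2 (fun q hq => (h.orth q hq).2.2.1) hp)
    (dconst hT h.smν h.smν (fun q hq => (h.orth q hq).2.2.2.1) hp)
    (dconst hT h.sm1 h.sm2 (fun q hq => (h.orth q hq).2.2.2.2.2.2.2.1) hp)
    (dconst hT h.sm1 h.smν (fun q hq => (h.orth q hq).2.2.2.2.2.2.2.2.1) hp)
    (dconst hT h.sm2 h.smν (fun q hq => (h.orth q hq).2.2.2.2.2.2.2.2.2) hp) a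

end Pool.Agent.P.MP_785924_gt
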