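import Pool.Agent.P.MP_785924_gt.B.IfaceB

/-! Step FR2A of the free boundary annulus project. -/

namespace Pool.Agent.P.MP_785924_gt

open scoped ContDiff
open Set Filter Topology

namespace Fr2aAux

theorem coef {c c1 c2 c3 c4 : ℝ} {x e1 e2 ν : Fin 4 → ℝ}
    (h22 : ip c e2 e2 = 1) (h33 : ip c ν ν = 1) (hx2 : ip c x e2 = 0) (hx3 : ip c x ν = 0)
    (h12 : ip c e1 e2 = 0) (h13 : ip c e1 ν = 0) (h23 : ip c e2 ν = 0)
    (h : ∀ a, c1 * e1 a + c2 * e2 a + c3 * ν a + c4 * x a = 0) : c2 = 0 ∧ c3 = 0 := by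
  have h0 := h 0
  have h1 := h 1
  have h2 := h 2
  have h3 := h 3
  unfold ip at h22 h33 hx2 hx3 h12 h13 h23
  constructor
  · linear_combination c * e2 0 * h0 + e2 1 * h1 + e2 2 * h2 + e2 3 * h3 - c1 * h12 - c2 * h22
      - c3 * h23 - c4 * hx2
  · linear_combination c * ν 0 * h0 + ν 1 * h1 + ν 2 * h2 + ν 3 * h3 - c1 * h13 - c2 * h23
      - c3 * h33 - c4 * hx3

variable {c ρ C0 T P : ℝ} {w A B : ℝ × ℝ → ℝ} {x e1 e2 ν : Fin 4 → ℝ × ℝ → ℝ}

theorem mix1 (h : PreFrame c ρ C0 T P w A B x e1 e2 ν) {p : ℝ × ℝ} (hp : p ∈ strip T)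
    (a : Fin 4) :
    0 * e1 a p + (-(dT (dT w) p + dS (dS w) p) - c * Real.exp (w p) ^ 2
        + (A p ^ 2 + B p ^ 2) / Real.exp (w p) ^ 2) * e2 a p
      + ((dS A p - dT B p) / Real.exp (w p)) * ν a p + 0 * x a p = 0 := by
  have hw := h.sm
  have hA := h.smA
  have hB := h.smB
  have hx := h.alg.smx a
  have h1 := h.alg.sm1 a
  have h2 := h.alg.sm2 a
  have hn := h.alg.smν a
  have hX : ∀ q, Real.exp (w q) ≠ 0 := fun q => (Real.exp_pos _).ne'
  have hE := hw.exp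
  have sL : Sm P (fun q => -(dS w q * e2 a q) + A q * ν a q / Real.exp (w q)
      - c * Real.exp (w q) * x a q) :=
    ((hw.dS.mul h2).neg.add ((hA.mul hn).div hE hX)).sub ((hE.cmul c).mul hx)
  have sR : Sm P (fun q => dT w q * e2 a q + B q * ν a q / Real.exp (w q)) :=
    (hw.dT.mul h2).add ((hB.mul hn).div hE hX)
  have eL := dS_congr h.hT hp (h1.dT.diff p) (sL.diff p) (fun q hq => (h.eq a q hq).2.2.2.2.1)
  have eR := dT_congr h.hT hp (h1.dS.diff p) (sR.diff p) (fun q hq => (h.eq a q hq).2.2.2.2.2.1)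
  rw [dS_sub (((hw.dS.mul h2).neg.add ((hA.mul hn).div hE hX)).diff p)
      (((hE.cmul c).mul hx).diff p),
    dS_add ((hw.dS.mul h2).neg.diff p) (((hA.mul hn).div hE hX).diff p), dS_neg,
    dS_mul (hw.dS.diff p) (h2.diff p), dS_div ((hA.mul hn).diff p) (hE.diff p) (hX p),
    dS_mul (hA.diff p) (hn.diff p), dS_mul ((hE.cmul c).diff p) (hx.diff p),
    dS_cmul c (hE.diff p), dS_exp (hw.diff p)] at eL
  rw [dT_add ((hw.dT.mul h2).diff p) (((hB.mul hn).div hE hX).diff p),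
    dT_mul (hw.dT.diff p) (h2.diff p), dT_div ((hB.mul hn).diff p) (hE.diff p) (hX p),
    dT_mul (hB.diff p) (hn.diff p), dT_exp (hw.diff p)] at eR
  have hs := dT_dS h1.1 p
  obtain ⟨_, q2, q3, q4, _, _, q7, q8⟩ := h.eq a p hp
  rw [eL, eR, q2, q3, q4, q7, q8] at hs
  have hXp := hX p
  generalize Real.exp (w p) = X at hs hXp ⊢
  field_simp
  field_simp at hs
  linear_combination -hs

theorem mix2 (h : PreFrame c ρ C0 T P w A B x e1 e2 ν) {p : ℝ × ℝ} (hp : p ∈ strip T)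
    (a : Fin 4) :
    ((dT (dT w) p + dS (dS w) p) + c * Real.exp (w p) ^ 2
        - (A p ^ 2 + B p ^ 2) / Real.exp (w p) ^ 2) * e1 a p + 0 * e2 a p
      + ((dS B p + dT A p) / Real.exp (w p)) * ν a p + 0 * x a p = 0 := by
  have hw := h.sm
  have hA := h.smA
  have hB := h.smB
  have hx := h.alg.smx a
  have h1 := h.alg.sm1 a
  have h2 := h.alg.sm2 a
  have hn := h.alg.smν a
  have hX : ∀ q, Real.exp (w q) ≠ 0 := fun q => (Real.exp_pos _).ne'
  have hE := hw.exp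
  have sL : Sm P (fun q => dS w q * e1 a q + B q * ν a q / Real.exp (w q)) :=
    (hw.dS.mul h1).add ((hB.mul hn).div hE hX)
  have sR : Sm P (fun q => -(dT w q * e1 a q) - A q * ν a q / Real.exp (w q)
      - c * Real.exp (w q) * x a q) :=
    ((hw.dT.mul h1).neg.sub ((hA.mul hn).div hE hX)).sub ((hE.cmul c).mul hx)
  have eL := dS_congr h.hT hp (h2.dT.diff p) (sL.diff p)
    (fun q hq => (h.eq a q hq).2.2.2.2.2.2.1)
  have eR := dT_congr h.hT hp (h2.dS.diff p) (sR.diff p)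
    (fun q hq => (h.eq a q hq).2.2.2.2.2.2.2)
  rw [dS_add ((hw.dS.mul h1).diff p) (((hB.mul hn).div hE hX).diff p),
    dS_mul (hw.dS.diff p) (h1.diff p), dS_div ((hB.mul hn).diff p) (hE.diff p) (hX p),
    dS_mul (hB.diff p) (hn.diff p), dS_exp (hw.diff p)] at eL
  rw [dT_sub (((hw.dT.mul h1).neg.sub ((hA.mul hn).div hE hX)).diff p)
      (((hE.cmul c).mul hx).diff p),
    dT_sub ((hw.dT.mul h1).neg.diff p) (((hA.mul hn).div hE hX).diff p), dT_neg,
    dT_mul (hw.dT.diff p) (h1.diff p), dT_div ((hA.mul hn).diff p) (hE.diff p) (hX p),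
    dT_mul (hA.diff p) (hn.diff p), dT_mul ((hE.cmul c).diff p) (hx.diff p),
    dT_cmul c (hE.diff p), dT_exp (hw.diff p)] at eR
  have hs := dT_dS h2.1 p
  obtain ⟨q1, _, q3, q4, q5, q6, _, _⟩ := h.eq a p hp
  rw [eL, eR, q1, q3, q4, q5, q6] at hs
  have hXp := hX p
  generalize Real.exp (w p) = X at hs hXp ⊢
  field_simp
  field_simp at hs
  linear_combination -hs

theorem bd (h : PreFrame c ρ C0 T P w A B x e1 e2 ν) {t e : ℝ} (ht : ∀ s, (t, s) ∈ strip T)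
    (he : e = 1 ∨ e = -1)
    (hb : ∀ s, x 0 (t, s) = C0 ∧ ν 0 (t, s) = 0 ∧ e2 0 (t, s) = 0 ∧ e1 0 (t, s) = -(e * (c * ρ)))
    (s : ℝ) : B (t, s) = 0 ∧ dT w (t, s) = e * (C0 / ρ * Real.exp (w (t, s))) := by
  have z1 : dS (ν 0) (t, s) = 0 := by
    rw [dS_congr_lev ((h.alg.smν 0).diff _) (g := fun _ => (0 : ℝ)) (differentiableAt_const _)
      (fun τ => (hb τ).2.1), dS_const]
  have z2 : dS (e2 0) (t, s) = 0 := by
    rw [dS_congr_lev ((h.alg.sm2 0).diff _) (g := fun _ => (0 : ℝ)) (differentiableAt_const _)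
      (fun τ => (hb τ).2.2.1), dS_const]
  obtain ⟨_, _, _, q4, _, _, _, q8⟩ := h.eq 0 (t, s) (ht s)
  obtain ⟨b1, b2, b3, b4⟩ := hb s
  rw [z1, b3, b4] at q4
  rw [z2, b1, b2, b4] at q8
  have hX : Real.exp (w (t, s)) ≠ 0 := (Real.exp_pos _).ne'
  have hρ := h.hρ.ne'
  generalize Real.exp (w (t, s)) = X at q4 q8 hX ⊢
  have hc2 : c * c = 1 := by rcases h.hc with r | r <;> rw [r] <;> norm_num
  have he2 : e * e = 1 := by rcases he with r | r <;> rw [r] <;> norm_num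
  constructor
  · have k : B (t, s) * (e * (c * ρ)) = 0 := by
      field_simp at q4
      linear_combination -q4
    have k2 : B (t, s) * ρ = 0 := by
      linear_combination e * c * k - B (t, s) * ρ * (c * c) * he2 - B (t, s) * ρ * hc2
    exact (mul_eq_zero.1 k2).resolve_right hρ
  · have k : dT w (t, s) * (e * (c * ρ)) = c * X * C0 := by
      simp only [mul_zero, zero_div, sub_zero] at q8
      linear_combination -q8
    field_simp
    linear_combination e * c * k - dT w (t, s) * ρ * (c * c) * he2 - dT w (t, s) * ρ * hc2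
      + e * X * C0 * hc2

end Fr2aAux

theorem p_FR2A :
    S_FR2A := by
  intro c ρ C0 T P w A B x e1 e2 ν h
  have bt := Fr2aAux.bd h (t := T) (e := 1) (top_mem h.hT) (Or.inl rfl) (fun s => by
    obtain ⟨a1, a2, a3, a4, _⟩ := h.alg.top s
    exact ⟨a1, a2, a3, by rw [a4]; ring⟩)
  have bb := Fr2aAux.bd h (t := -T) (e := -1) (bot_mem h.hT) (Or.inr rfl) (fun s => by
    obtain ⟨a1, a2, a3, a4, _⟩ := h.alg.bot s
    exact ⟨a1, a2, a3, by rw [a4]; ring⟩)
  have key : ∀ p ∈ strip T, (-(dT (dT w) p + dS (dS w) p) - c * Real.exp (w p) ^ 2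
        + (A p ^ 2 + B p ^ 2) / Real.exp (w p) ^ 2 = 0 ∧ (dS A p - dT B p) / Real.exp (w p) = 0)
      ∧ (dS B p + dT A p) / Real.exp (w p) = 0 := by
    intro p hp
    obtain ⟨_, _, o3, o4, _, o6, o7, o8, o9, o10⟩ := h.alg.orth p hp
    exact ⟨Fr2aAux.coef o3 o4 o6 o7 o8 o9 o10 (Fr2aAux.mix1 h hp),
      (Fr2aAux.coef o3 o4 o6 o7 o8 o9 o10 (Fr2aAux.mix2 h hp)).2⟩
  refine ⟨⟨fun p hp => ?_, fun s => ?_, fun s => ?_⟩, fun p hp => ?_,
    fun s => ⟨(bt s).1, (bb s).1⟩⟩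
  · linear_combination -(key p hp).1.1
  · rw [(bt s).2]
    ring
  · rw [(bb s).2]
    ring
  · have hX : Real.exp (w p) ≠ 0 := (Real.exp_pos _).ne'
    have k1 := (div_eq_zero_iff.1 (key p hp).1.2).resolve_right hX
    have k2 := (div_eq_zero_iff.1 (key p hp).2).resolve_right hX
    exact ⟨by linear_combination k2, by linear_combination k1⟩

end Pool.Agent.P.MP_785924_gt
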