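import Pool.Agent.P.MP_785924_gt.B.IfaceB

/-! Step FR2B of the free boundary annulus project. -/

namespace Pool.Agent.P.MP_785924_gt

open scoped ContDiff
open Set Filter Topology

namespace Fr2bAux

variable {f g A B : ℝ × ℝ → ℝ} {T P : ℝ}

theorem constT (hf : ContDiff ℝ ∞ f) (h : ∀ p ∈ strip T, dT f p = 0) {p : ℝ × ℝ}
    (hp : p ∈ strip T) : f p = f (-T, p.2) :=
  constant_of_has_deriv_right_zero (f := fun τ => f (τ, p.2))
    (hf.continuous.comp (Continuous.prodMk_left p.2)).continuousOn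
    (fun _ hτ => ((hasT (cd_diff hf _)).congr_deriv
      (h _ (mem_strip_of_Icc (Ico_subset_Icc_self hτ) p.2))).hasDerivWithinAt) p.1 hp

theorem constS (hf : ContDiff ℝ ∞ f) {t : ℝ} (h : ∀ s, dS f (t, s) = 0) (s : ℝ) :
    f (t, s) = f (t, 0) :=
  is_const_of_deriv_eq_zero (f := fun τ => f (t, τ))
    (fun _ => (hasS (cd_diff hf _)).differentiableAt)
    (fun τ => (hasS (cd_diff hf _)).deriv.trans (h τ)) s 0

theorem no_div (hT : 0 < T) (hP : 0 < P) (hf : Sm P f) (hg : Sm P g)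
    (h : ∀ p ∈ strip T, dT f p + dS g p ≤ 0) (hb : ∀ s, 0 < f (T, s) - f (-T, s)) : False := by
  have h1 := Int2_mono hT hP (hf.dT.add hg.dS).cont (Sm.const P 0).cont h
  rw [Int2_div hf hg, Int2_const, mul_zero] at h1
  exact absurd (intervalIntegral.intervalIntegral_pos_of_pos
    ((ii_lev hf.cont T 0 P).sub (ii_lev hf.cont (-T) 0 P)) hb hP) (not_lt.2 h1)

theorem grad (hT : 0 < T) (hP : 0 < P) (hA : Sm P A) (hB : Sm P B)
    (h : ∀ p ∈ strip T, dT A p = -dS B p ∧ dS A p = dT B p)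
    (hb : ∀ s, B (T, s) = 0 ∧ B (-T, s) = 0) : ∀ p ∈ strip T, dT B p = 0 ∧ dS B p = 0 := by
  have h1 := Int2_div (T := T) (hB.mul hB.dT) (hB.mul hB.dS)
  simp only [(hb _).1, (hb _).2, zero_mul, sub_zero, intervalIntegral.integral_zero] at h1
  have hs := (hB.dT.pow 2).add (hB.dS.pow 2)
  have h2 := zero_of_Int2 hT hP hs.cont hs.2 (fun p _ => by positivity)
    (le_of_eq ((Int2_congr hT fun p hp => ?_).trans h1))
  · intro p hp
    have h3 : dT B p ^ 2 + dS B p ^ 2 = 0 := h2 p hp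
    constructor <;> nlinarith [sq_nonneg (dT B p), sq_nonneg (dS B p)]
  · have e1 := dT_congr hT hp (hA.dS.diff p) (hB.dT.diff p) fun q hq => (h q hq).2
    have e2 := dS_congr hT hp (hA.dT.diff p) (hB.dS.neg.diff p) fun q hq => (h q hq).1
    rw [dS_neg, ← dT_dS hA.1, e1] at e2
    rw [dT_mul (hB.diff p) (hB.dT.diff p), dS_mul (hB.diff p) (hB.dS.diff p), e2]
    ring

/-- A smooth function equal to `1 / (1 + r)` for `r ≥ 0`. -/
noncomputable def G (r : ℝ) : ℝ := 1 / (1 + r * Real.smoothTransition (r + 1))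

theorem G_sm : ContDiff ℝ ∞ G := by
  refine contDiff_const.div (contDiff_const.add (contDiff_id.mul
    (Real.smoothTransition.contDiff.comp (contDiff_id.add contDiff_const)))) fun r => ?_
  have h0 := Real.smoothTransition.nonneg (r + 1)
  have h1 := Real.smoothTransition.le_one (r + 1)
  rcases le_or_gt r (-1) with h | h
  · rw [Real.smoothTransition.zero_of_nonpos (by linarith)]
    norm_num
  · refine ne_of_gt ?_
    rcases le_total 0 r with h' | h'
    · positivity
    · nlinarith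

theorem G_eq {r : ℝ} (h : 0 < r) : G r = 1 / (1 + r) := by
  rw [G, Real.smoothTransition.one_of_one_le (by linarith), mul_one]

theorem G_der {r : ℝ} (h : 0 < r) : HasDerivAt G (-1 / (1 + r) ^ 2) r := by
  have h1 : HasDerivAt (fun r : ℝ => 1 / (1 + r)) (-1 / (1 + r) ^ 2) r :=
    ((hasDerivAt_const r (1 : ℝ)).fun_div ((hasDerivAt_id' r).const_add 1)
      (by linarith)).congr_deriv (by ring)
  refine h1.congr_of_eventuallyEq ?_
  filter_upwards [lt_mem_nhds h] with q hq using G_eq hq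

end Fr2bAux

open Fr2bAux in
theorem p_FR2B (hFR2A : S_FR2A) :
    S_FR2B := by
  intro c ρ C0 T P w A B x e1 e2 ν h
  obtain ⟨hG, hCR, hb⟩ := hFR2A c ρ C0 T P w A B x e1 e2 ν h
  have hT := h.hT
  have hP := h.hP
  have hρ := h.hρ
  have hC := h.hC
  have hg := grad hT hP h.smA h.smB hCR hb
  have hB : ∀ p ∈ strip T, B p = 0 := fun p hp =>
    (constT h.smB.1 (fun q hq => (hg q hq).1) hp).trans (hb _).2
  have hA : ∀ p ∈ strip T, A p = A (-T, 0) := fun p hp =>
    (constT h.smA.1 (fun q hq => by rw [(hCR q hq).1, (hg q hq).2, neg_zero]) hp).trans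
      (constS h.smA.1 (fun s => by
        rw [(hCR _ (bot_mem hT s)).2, (hg _ (bot_mem hT s)).1]) _)
  refine ⟨A (-T, 0), fun h0 => ?_, fun p hp => ⟨hA p hp, hB p hp⟩⟩
  rw [h0] at hA
  have hga : ∀ p ∈ strip T, dT (dT w) p + dS (dS w) p = -(c * Real.exp (w p) ^ 2) := fun p hp => by
    have := hG.gauss p hp
    simpa only [hA p hp, hB p hp, zero_pow two_ne_zero, add_zero, zero_div] using this
  have hCρ := h.hCρ
  rcases h.hc with rfl | rfl
  · refine no_div hT hP h.sm.dT h.sm.dS (fun p hp => ?_) fun s => ?_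
    · rw [hga p hp, neg_nonpos]
      positivity
    · rw [hG.top, hG.bot, sub_neg_eq_add]
      positivity
  have hx := h.alg.smx 0
  have hν : ∀ p ∈ strip T, ν 0 p = 0 := fun p hp =>
    (constT (h.alg.smν 0).1 (fun q hq => by
      rw [(h.eq 0 q hq).2.2.1, hA q hq, hB q hq]; simp) hp).trans (h.alg.bot _).2.1
  have hGx := hx.comp G_sm
  refine no_div hT hP (h.sm.dT.sub (hGx.mul hx.dT)) (h.sm.dS.sub (hGx.mul hx.dS))
    (fun p hp => le_of_eq ?_) fun s => ?_
  · obtain ⟨q1, q2, -, -, q3, -, -, q4⟩ := h.eq 0 p hp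
    have x0 := h.alg.pos p hp
    have hco := h.alg.compl p hp 0 0
    rw [hν p hp, if_pos rfl, if_pos rfl] at hco
    have hw := h.sm.diff p
    have a1 := dT_congr hT hp (hx.dT.diff p) ((h.sm.exp.mul (h.alg.sm1 0)).diff p)
      fun q hq => (h.eq 0 q hq).1
    have a2 := dS_congr hT hp (hx.dS.diff p) ((h.sm.exp.mul (h.alg.sm2 0)).diff p)
      fun q hq => (h.eq 0 q hq).2.1
    rw [dT_mul (h.sm.exp.diff p) ((h.alg.sm1 0).diff p), dT_exp hw, q3] at a1
    rw [dS_mul (h.sm.exp.diff p) ((h.alg.sm2 0).diff p), dS_exp hw, q4] at a2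
    have g := hga p hp
    rw [dT_sub (h.sm.dT.diff p) ((hGx.mul hx.dT).diff p),
      dS_sub (h.sm.dS.diff p) ((hGx.mul hx.dS).diff p), dT_mul (hGx.diff p) (hx.dT.diff p),
      dS_mul (hGx.diff p) (hx.dS.diff p), dT_comp (G_der x0) (hx.diff p),
      dS_comp (G_der x0) (hx.diff p), G_eq x0, a1, a2, q1, q2, hA p hp]
    have e : dT (dT w) p = Real.exp (w p) ^ 2 - dS (dS w) p := by linarith
    have x1 : 1 + x 0 p ≠ 0 := by linarith
    rw [e]
    field_simp
    linear_combination Real.exp (w p) ^ 2 * hco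
  · have t := h.alg.top s
    have b := h.alg.bot s
    have x1 : 1 + C0 ≠ 0 := by linarith
    have e : C0 / ρ - 1 / (1 + C0) * ρ = 1 / ρ := by
      field_simp
      linear_combination hCρ
    have k : ∀ X Y : ℝ, 0 < X → 0 < Y → 0 < C0 / ρ * X - 1 / (1 + C0) * (X * -(-1 * ρ)) -
        (-(C0 / ρ * Y) - 1 / (1 + C0) * (Y * (-1 * ρ))) := fun X Y hX hY => by
      have : 0 < 1 / ρ * (X + Y) := by positivity
      rw [← e] at this
      linarith
    simp only [hG.top, hG.bot, (h.eq 0 _ (top_mem hT s)).1, (h.eq 0 _ (bot_mem hT s)).1, t.1, b.1,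
      t.2.2.2.1, b.2.2.2.1, G_eq hC]
    exact k _ _ (Real.exp_pos _) (Real.exp_pos _)

end Pool.Agent.P.MP_785924_gt
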