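import Pool.Agent.P.MP_785924_gt.B.DefsB
import Pool.Agent.P.MP_785924_gt.A.Tb

/-! Toolbox: calculus for the coordinate derivatives `dT`, `dS` on the strip. -/

namespace Pool.Agent.P.MP_785924_gt

open scoped ContDiff
open Set Filter Topology

variable {f g : ℝ × ℝ → ℝ} {p : ℝ × ℝ} {T P t s : ℝ}

theorem cd_diff (h : ContDiff ℝ ∞ f) : Differentiable ℝ f := h.differentiable (by simp)

/-- Derivative along a line `s = const`. -/
theorem hasT (h : DifferentiableAt ℝ f (t, s)) : HasDerivAt (fun τ => f (τ, s)) (dT f (t, s)) t := by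
  have h1 : HasDerivAt (fun τ : ℝ => (τ, s)) ((1 : ℝ), (0 : ℝ)) t :=
    (hasDerivAt_id t).prodMk (hasDerivAt_const t s)
  exact h.hasFDerivAt.comp_hasDerivAt t h1

/-- Derivative along a line `t = const`. -/
theorem hasS (h : DifferentiableAt ℝ f (t, s)) : HasDerivAt (fun τ => f (t, τ)) (dS f (t, s)) s := by
  have h1 : HasDerivAt (fun τ : ℝ => (t, τ)) ((0 : ℝ), (1 : ℝ)) s :=
    (hasDerivAt_const s t).prodMk (hasDerivAt_id s)
  exact h.hasFDerivAt.comp_hasDerivAt s h1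

theorem dT_eq {d : ℝ} (h : DifferentiableAt ℝ f (t, s)) (hd : HasDerivAt (fun τ => f (τ, s)) d t) :
    dT f (t, s) = d := (hasT h).unique hd

theorem dS_eq {d : ℝ} (h : DifferentiableAt ℝ f (t, s)) (hd : HasDerivAt (fun τ => f (t, τ)) d s) :
    dS f (t, s) = d := (hasS h).unique hd

theorem cd_dT (h : ContDiff ℝ ∞ f) : ContDiff ℝ ∞ (dT f) :=
  (h.fderiv_right (m := ∞) (by simp)).clm_apply contDiff_const

theorem cd_dS (h : ContDiff ℝ ∞ f) : ContDiff ℝ ∞ (dS f) :=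
  (h.fderiv_right (m := ∞) (by simp)).clm_apply contDiff_const

theorem dT_dS (h : ContDiff ℝ ∞ f) (p : ℝ × ℝ) : dT (dS f) p = dS (dT f) p := by
  have h2 : ContDiffAt ℝ 2 f p := (contDiff_infty.1 h 2).contDiffAt
  have hs := h2.isSymmSndFDerivAt (by simp)
  have hd : DifferentiableAt ℝ (fderiv ℝ f) p :=
    ((h.fderiv_right (m := ∞) (by simp)).differentiable (by simp)) p
  have e : ∀ v u : ℝ × ℝ, fderiv ℝ (fun q => fderiv ℝ f q v) p u = fderiv ℝ (fderiv ℝ f) p u v := by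
    intro v u
    rw [fderiv_clm_apply hd (differentiableAt_const v)]
    simp
  change fderiv ℝ (fun q => fderiv ℝ f q (0, 1)) p (1, 0) = fderiv ℝ (fun q => fderiv ℝ f q (1, 0)) p (0, 1)
  rw [e, e, hs]

/-! ### Rules -/

theorem dT_const (a : ℝ) (p : ℝ × ℝ) : dT (fun _ => a) p = 0 := by simp [dT]
theorem dS_const (a : ℝ) (p : ℝ × ℝ) : dS (fun _ => a) p = 0 := by simp [dS]

theorem dT_add (hf : DifferentiableAt ℝ f p) (hg : DifferentiableAt ℝ g p) :
    dT (fun q => f q + g q) p = dT f p + dT g p := by simp [dT, fderiv_fun_add hf hg]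
theorem dS_add (hf : DifferentiableAt ℝ f p) (hg : DifferentiableAt ℝ g p) :
    dS (fun q => f q + g q) p = dS f p + dS g p := by simp [dS, fderiv_fun_add hf hg]
theorem dT_sub (hf : DifferentiableAt ℝ f p) (hg : DifferentiableAt ℝ g p) :
    dT (fun q => f q - g q) p = dT f p - dT g p := by simp [dT, fderiv_fun_sub hf hg]
theorem dS_sub (hf : DifferentiableAt ℝ f p) (hg : DifferentiableAt ℝ g p) :
    dS (fun q => f q - g q) p = dS f p - dS g p := by simp [dS, fderiv_fun_sub hf hg]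
theorem dT_neg : dT (fun q => -f q) p = -dT f p := by simp [dT, fderiv_fun_neg]
theorem dS_neg : dS (fun q => -f q) p = -dS f p := by simp [dS, fderiv_fun_neg]
theorem dT_mul (hf : DifferentiableAt ℝ f p) (hg : DifferentiableAt ℝ g p) :
    dT (fun q => f q * g q) p = dT f p * g p + f p * dT g p := by
  simp [dT, fderiv_fun_mul hf hg]; ring
theorem dS_mul (hf : DifferentiableAt ℝ f p) (hg : DifferentiableAt ℝ g p) :
    dS (fun q => f q * g q) p = dS f p * g p + f p * dS g p := by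
  simp [dS, fderiv_fun_mul hf hg]; ring
theorem dT_cmul (a : ℝ) (hf : DifferentiableAt ℝ f p) : dT (fun q => a * f q) p = a * dT f p := by
  rw [dT_mul (differentiableAt_const a) hf, dT_const]; ring
theorem dS_cmul (a : ℝ) (hf : DifferentiableAt ℝ f p) : dS (fun q => a * f q) p = a * dS f p := by
  rw [dS_mul (differentiableAt_const a) hf, dS_const]; ring
theorem dT_comp {φ : ℝ → ℝ} {d : ℝ} (hφ : HasDerivAt φ d (f p)) (hf : DifferentiableAt ℝ f p) :
    dT (fun q => φ (f q)) p = d * dT f p := by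
  have := (hφ.comp_hasFDerivAt p hf.hasFDerivAt).fderiv
  simp only [dT]
  rw [show (fun q => φ (f q)) = φ ∘ f from rfl, this]; simp
theorem dS_comp {φ : ℝ → ℝ} {d : ℝ} (hφ : HasDerivAt φ d (f p)) (hf : DifferentiableAt ℝ f p) :
    dS (fun q => φ (f q)) p = d * dS f p := by
  have := (hφ.comp_hasFDerivAt p hf.hasFDerivAt).fderiv
  simp only [dS]
  rw [show (fun q => φ (f q)) = φ ∘ f from rfl, this]; simp
theorem dT_exp (hf : DifferentiableAt ℝ f p) :
    dT (fun q => Real.exp (f q)) p = Real.exp (f p) * dT f p := dT_comp (Real.hasDerivAt_exp _) hf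
theorem dS_exp (hf : DifferentiableAt ℝ f p) :
    dS (fun q => Real.exp (f q)) p = Real.exp (f p) * dS f p := dS_comp (Real.hasDerivAt_exp _) hf
theorem dT_sq (hf : DifferentiableAt ℝ f p) : dT (fun q => f q ^ 2) p = 2 * f p * dT f p := by
  simpa using dT_comp (hasDerivAt_pow 2 (f p)) hf
theorem dS_sq (hf : DifferentiableAt ℝ f p) : dS (fun q => f q ^ 2) p = 2 * f p * dS f p := by
  simpa using dS_comp (hasDerivAt_pow 2 (f p)) hf
theorem dT_div (hf : DifferentiableAt ℝ f p) (hg : DifferentiableAt ℝ g p) (h0 : g p ≠ 0) :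
    dT (fun q => f q / g q) p = (dT f p * g p - f p * dT g p) / g p ^ 2 := by
  have h1 := dT_comp (hasDerivAt_inv h0) hg
  have h2 : DifferentiableAt ℝ (fun q => (g q)⁻¹) p := hg.fun_inv h0
  simp only [div_eq_mul_inv]
  rw [dT_mul hf h2, h1]; field_simp; ring
theorem dS_div (hf : DifferentiableAt ℝ f p) (hg : DifferentiableAt ℝ g p) (h0 : g p ≠ 0) :
    dS (fun q => f q / g q) p = (dS f p * g p - f p * dS g p) / g p ^ 2 := by
  have h1 := dS_comp (hasDerivAt_inv h0) hg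
  have h2 : DifferentiableAt ℝ (fun q => (g q)⁻¹) p := hg.fun_inv h0
  simp only [div_eq_mul_inv]
  rw [dS_mul hf h2, h1]; field_simp; ring
theorem dT_sum {ι : Type*} {F : Finset ι} {v : ι → ℝ × ℝ → ℝ}
    (h : ∀ i ∈ F, DifferentiableAt ℝ (v i) p) :
    dT (fun q => ∑ i ∈ F, v i q) p = ∑ i ∈ F, dT (v i) p := by
  simp [dT, fderiv_fun_sum h]
theorem dS_sum {ι : Type*} {F : Finset ι} {v : ι → ℝ × ℝ → ℝ}
    (h : ∀ i ∈ F, DifferentiableAt ℝ (v i) p) :
    dS (fun q => ∑ i ∈ F, v i q) p = ∑ i ∈ F, dS (v i) p := by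
  simp [dS, fderiv_fun_sum h]
theorem dT_fst {φ : ℝ → ℝ} {d : ℝ} (hφ : HasDerivAt φ d p.1) : dT (fun q => φ q.1) p = d := by
  rw [dT_comp (f := fun q => q.1) hφ differentiableAt_fst]; simp [dT, fderiv_fst]
theorem dS_fst {φ : ℝ → ℝ} {d : ℝ} (hφ : HasDerivAt φ d p.1) : dS (fun q => φ q.1) p = 0 := by
  rw [dS_comp (f := fun q => q.1) hφ differentiableAt_fst]; simp [dS, fderiv_fst]
theorem dT_snd {φ : ℝ → ℝ} {d : ℝ} (hφ : HasDerivAt φ d p.2) : dT (fun q => φ q.2) p = 0 := by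
  rw [dT_comp (f := fun q => q.2) hφ differentiableAt_snd]; simp [dT, fderiv_snd]
theorem dS_snd {φ : ℝ → ℝ} {d : ℝ} (hφ : HasDerivAt φ d p.2) : dS (fun q => φ q.2) p = d := by
  rw [dS_comp (f := fun q => q.2) hφ differentiableAt_snd]; simp [dS, fderiv_snd]

/-! ### The strip -/

theorem mem_strip : (t, s) ∈ strip T ↔ -T ≤ t ∧ t ≤ T := Iff.rfl
theorem mem_strip_of_Icc (h : t ∈ Icc (-T) T) (s : ℝ) : (t, s) ∈ strip T := h
theorem top_mem (hT : 0 < T) (s : ℝ) : (T, s) ∈ strip T := ⟨by simp; linarith, le_rfl⟩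
theorem bot_mem (hT : 0 < T) (s : ℝ) : (-T, s) ∈ strip T := ⟨le_rfl, by simp; linarith⟩
theorem strip_eq (T : ℝ) : strip T = Icc (-T) T ×ˢ (univ : Set ℝ) := by
  ext p; simp [strip]
theorem convex_strip (T : ℝ) : Convex ℝ (strip T) := by
  rw [strip_eq]; exact (convex_Icc _ _).prod convex_univ
theorem isClosed_strip (T : ℝ) : IsClosed (strip T) := by
  rw [strip_eq]; exact isClosed_Icc.prod isClosed_univ
theorem uniqueDiffOn_strip (hT : 0 < T) : UniqueDiffOn ℝ (strip T) := by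
  rw [strip_eq]; exact (uniqueDiffOn_Icc (by linarith)).prod uniqueDiffOn_univ

/-- Functions that agree near `p` within the strip have the same derivative at `p`. -/
theorem fderiv_congr_strip (hT : 0 < T) (hp : p ∈ strip T) (hf : DifferentiableAt ℝ f p)
    (hg : DifferentiableAt ℝ g p) (h : ∀ᶠ q in 𝓝[strip T] p, f q = g q) :
    fderiv ℝ f p = fderiv ℝ g p := by
  have u := uniqueDiffOn_strip hT p hp
  have h1 : HasFDerivWithinAt g (fderiv ℝ f p) (strip T) p :=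
    hf.hasFDerivAt.hasFDerivWithinAt.congr_of_eventuallyEq (h.mono fun q hq => hq.symm)
      (h.self_of_nhdsWithin hp).symm
  exact u.eq h1 hg.hasFDerivAt.hasFDerivWithinAt

theorem dT_congr_ev (hT : 0 < T) (hp : p ∈ strip T) (hf : DifferentiableAt ℝ f p)
    (hg : DifferentiableAt ℝ g p) (h : ∀ᶠ q in 𝓝[strip T] p, f q = g q) : dT f p = dT g p := by
  simp only [dT, fderiv_congr_strip hT hp hf hg h]

theorem dS_congr_ev (hT : 0 < T) (hp : p ∈ strip T) (hf : DifferentiableAt ℝ f p)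
    (hg : DifferentiableAt ℝ g p) (h : ∀ᶠ q in 𝓝[strip T] p, f q = g q) : dS f p = dS g p := by
  simp only [dS, fderiv_congr_strip hT hp hf hg h]

/-- An identity on the strip may be differentiated in `t`. -/
theorem dT_congr (hT : 0 < T) (hp : p ∈ strip T) (hf : DifferentiableAt ℝ f p)
    (hg : DifferentiableAt ℝ g p) (h : ∀ q ∈ strip T, f q = g q) : dT f p = dT g p :=
  dT_congr_ev hT hp hf hg (eventually_nhdsWithin_of_forall h)

/-- An identity on the strip may be differentiated in `s`. -/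
theorem dS_congr (hT : 0 < T) (hp : p ∈ strip T) (hf : DifferentiableAt ℝ f p)
    (hg : DifferentiableAt ℝ g p) (h : ∀ q ∈ strip T, f q = g q) : dS f p = dS g p :=
  dS_congr_ev hT hp hf hg (eventually_nhdsWithin_of_forall h)

/-- An identity on a circle `t = const` may be differentiated in `s`. -/
theorem dS_congr_lev (hf : DifferentiableAt ℝ f (t, s)) (hg : DifferentiableAt ℝ g (t, s))
    (h : ∀ τ, f (t, τ) = g (t, τ)) : dS f (t, s) = dS g (t, s) :=
  dS_eq hf (by simpa only [h] using hasS hg)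

/-! ### Periodicity -/

theorem Per.periodic (h : Per P f) (t : ℝ) : Function.Periodic (fun s => f (t, s)) P := h t

theorem Per.int (h : Per P f) (t s : ℝ) (n : ℤ) : f (t, s + n * P) = f (t, s) :=
  (h.periodic t).int_mul n s

theorem Per.fderiv (h : Per P f) (t s : ℝ) : fderiv ℝ f (t, s + P) = fderiv ℝ f (t, s) := by
  have h1 : (fun q : ℝ × ℝ => f (q + (0, P))) = f := by
    funext q; simpa [Prod.add_def] using h q.1 q.2
  have h2 := fderiv_comp_add_right (𝕜 := ℝ) (f := f) (x := (t, s)) ((0 : ℝ), P)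
  rw [h1] at h2
  rw [h2]; simp

theorem Per.dT (h : Per P f) : Per P (dT f) := fun t s => by
  simp only [MP_785924_gt.dT, h.fderiv]
theorem Per.dS (h : Per P f) : Per P (dS f) := fun t s => by
  simp only [MP_785924_gt.dS, h.fderiv]

theorem Sm.diff (h : Sm P f) (p : ℝ × ℝ) : DifferentiableAt ℝ f p := cd_diff h.1 p
theorem Sm.cont (h : Sm P f) : Continuous f := h.1.continuous
theorem Sm.dT (h : Sm P f) : Sm P (dT f) := ⟨cd_dT h.1, h.2.dT⟩
theorem Sm.dS (h : Sm P f) : Sm P (dS f) := ⟨cd_dS h.1, h.2.dS⟩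
theorem Sm.const (P a : ℝ) : Sm P (fun _ => a) := ⟨contDiff_const, fun _ _ => rfl⟩
theorem Sm.add (hf : Sm P f) (hg : Sm P g) : Sm P (fun q => f q + g q) :=
  ⟨hf.1.add hg.1, fun t s => by simp only [hf.2 t s, hg.2 t s]⟩
theorem Sm.sub (hf : Sm P f) (hg : Sm P g) : Sm P (fun q => f q - g q) :=
  ⟨hf.1.sub hg.1, fun t s => by simp only [hf.2 t s, hg.2 t s]⟩
theorem Sm.mul (hf : Sm P f) (hg : Sm P g) : Sm P (fun q => f q * g q) :=
  ⟨hf.1.mul hg.1, fun t s => by simp only [hf.2 t s, hg.2 t s]⟩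
theorem Sm.neg (hf : Sm P f) : Sm P (fun q => -f q) :=
  ⟨hf.1.neg, fun t s => by simp only [hf.2 t s]⟩
theorem Sm.cmul (a : ℝ) (hf : Sm P f) : Sm P (fun q => a * f q) := (Sm.const P a).mul hf
theorem Sm.pow (hf : Sm P f) (n : ℕ) : Sm P (fun q => f q ^ n) :=
  ⟨hf.1.pow n, fun t s => by simp only [hf.2 t s]⟩
theorem Sm.div (hf : Sm P f) (hg : Sm P g) (h0 : ∀ q, g q ≠ 0) : Sm P (fun q => f q / g q) :=
  ⟨hf.1.div hg.1 h0, fun t s => by simp only [hf.2 t s, hg.2 t s]⟩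
theorem Sm.comp {φ : ℝ → ℝ} (hφ : ContDiff ℝ ∞ φ) (hf : Sm P f) : Sm P (fun q => φ (f q)) :=
  ⟨hφ.comp hf.1, fun t s => by simp only [hf.2 t s]⟩
theorem Sm.exp (hf : Sm P f) : Sm P (fun q => Real.exp (f q)) := hf.comp Real.contDiff_exp
theorem Sm.sum {ι : Type*} {F : Finset ι} {v : ι → ℝ × ℝ → ℝ} (h : ∀ i ∈ F, Sm P (v i)) :
    Sm P (fun q => ∑ i ∈ F, v i q) :=
  ⟨ContDiff.sum fun i hi => (h i hi).1,
    fun t s => Finset.sum_congr rfl fun i hi => (h i hi).2 t s⟩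
theorem Sm.lin {n : ℕ} {v : Fin n → ℝ × ℝ → ℝ} (h : ∀ i, Sm P (v i)) (a : Fin n → ℝ) :
    Sm P (fun q => ∑ i, a i * v i q) := Sm.sum fun i _ => (h i).cmul (a i)
theorem Sm.cmp4 {x : Fin 4 → ℝ × ℝ → ℝ} (h : ∀ a, Sm P (x a)) (a : Fin 3 → ℝ) :
    Sm P (cmp4 a x) := (((h 1).cmul (a 0)).add ((h 2).cmul (a 1))).add ((h 3).cmul (a 2))

theorem sm_WJ {w : ℝ × ℝ → ℝ} (h : Sm P w) (c : ℝ) : Sm P (WJ c w) :=
  ((h.exp.pow 2).cmul (2 * c)).neg.sub ((Sm.const P 2).div (h.exp.pow 2) fun q => by positivity)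
theorem sm_W0 {w : ℝ × ℝ → ℝ} (h : Sm P w) (c : ℝ) : Sm P (W0 c w) :=
  ((h.exp.pow 2).cmul (2 * c)).neg
theorem sm_KB {w : ℝ × ℝ → ℝ} (h : Sm P w) (ρ C0 : ℝ) : Sm P (KB ρ C0 w) := h.exp.cmul _

/-- A continuous periodic function is bounded on the strip. -/
theorem bound_strip (hP : 0 < P) (hc : Continuous f) (hp : Per P f) (T : ℝ) :
    ∃ B, 0 ≤ B ∧ ∀ p ∈ strip T, |f p| ≤ B := by
  obtain ⟨B, hB⟩ := ((isCompact_Icc (a := -T) (b := T)).prod
    (isCompact_Icc (a := (0 : ℝ)) (b := P))).exists_bound_of_continuousOn hc.continuousOn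
  refine ⟨max B 0, le_max_right _ _, fun p hp' => ?_⟩
  obtain ⟨y, hy, e⟩ := (hp.periodic p.1).exists_mem_Ico₀ hP p.2
  have := hB (p.1, y) ⟨hp', hy.1, hy.2.le⟩
  have e' : f p = f (p.1, y) := e
  rw [e']
  exact le_trans this (le_max_left _ _)

/-! ### Restriction to a circle -/

theorem cd_lev (h : ContDiff ℝ ∞ f) (σ : ℝ) : ContDiff ℝ ∞ (lev σ f) :=
  h.comp (contDiff_const.prodMk contDiff_id)
theorem Sm.lev (h : Sm P f) (σ : ℝ) : Sm1 P (lev σ f) := ⟨cd_lev h.1 σ, fun s => h.2 σ s⟩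
theorem hasLev (h : ContDiff ℝ ∞ f) (σ s : ℝ) : HasDerivAt (lev σ f) (dS f (σ, s)) s :=
  hasS (cd_diff h _)
theorem deriv_lev (h : ContDiff ℝ ∞ f) (σ : ℝ) : deriv (lev σ f) = lev σ (dS f) :=
  funext fun s => (hasLev h σ s).deriv

/-! ### The reflection -/

theorem cd_fl (h : ContDiff ℝ ∞ f) : ContDiff ℝ ∞ (fl f) :=
  h.comp (contDiff_fst.neg.prodMk contDiff_snd)
theorem Sm.fl (h : Sm P f) : Sm P (fl f) := ⟨cd_fl h.1, fun t s => h.2 (-t) s⟩
theorem dT_fl (h : ContDiff ℝ ∞ f) (p : ℝ × ℝ) : dT (fl f) p = -fl (dT f) p := by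
  obtain ⟨t, s⟩ := p
  refine dT_eq (cd_diff (cd_fl h) _) ?_
  have := (hasT (cd_diff h (-t, s))).scomp t (hasDerivAt_neg t)
  simpa [fl, Function.comp_def] using this
theorem dS_fl (h : ContDiff ℝ ∞ f) (p : ℝ × ℝ) : dS (fl f) p = fl (dS f) p := by
  obtain ⟨t, s⟩ := p
  exact dS_eq (cd_diff (cd_fl h) _) (hasS (cd_diff h (-t, s)))
theorem fl_mem (hp : p ∈ strip T) : ((-p.1, p.2) : ℝ × ℝ) ∈ strip T :=
  ⟨by linarith [hp.2], by linarith [hp.1]⟩

/-! ### Linear structure of the flat system -/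

theorem Sys4.lin {c μ : ℝ} {w f g l1 l2 f' g' l1' l2' : ℝ × ℝ → ℝ} (h : Sys4 c μ T w f g l1 l2)
    (h' : Sys4 c μ T w f' g' l1' l2') (a b : ℝ) :
    Sys4 c μ T w (fun q => a * f q + b * f' q) (fun q => a * g q + b * g' q)
      (fun q => a * l1 q + b * l1' q) (fun q => a * l2 q + b * l2' q) := by
  have dt : ∀ {u v : ℝ × ℝ → ℝ}, ContDiff ℝ ∞ u → ContDiff ℝ ∞ v → ∀ p,
      dT (fun q => a * u q + b * v q) p = a * dT u p + b * dT v p := fun hu hv p => by
    rw [dT_add ((cd_diff hu p).const_mul a) ((cd_diff hv p).const_mul b), dT_cmul a (cd_diff hu p),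
      dT_cmul b (cd_diff hv p)]
  have ds : ∀ {u v : ℝ × ℝ → ℝ}, ContDiff ℝ ∞ u → ContDiff ℝ ∞ v → ∀ p,
      dS (fun q => a * u q + b * v q) p = a * dS u p + b * dS v p := fun hu hv p => by
    rw [dS_add ((cd_diff hu p).const_mul a) ((cd_diff hv p).const_mul b), dS_cmul a (cd_diff hu p),
      dS_cmul b (cd_diff hv p)]
  refine ⟨(contDiff_const.mul h.sf).add (contDiff_const.mul h'.sf),
    (contDiff_const.mul h.sg).add (contDiff_const.mul h'.sg),
    (contDiff_const.mul h.s1).add (contDiff_const.mul h'.s1),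
    (contDiff_const.mul h.s2).add (contDiff_const.mul h'.s2), fun p hp => ?_, fun p hp => ?_⟩
  · obtain ⟨a1, a2, a3, a4⟩ := h.eT p hp
    obtain ⟨b1, b2, b3, b4⟩ := h'.eT p hp
    refine ⟨?_, ?_, ?_, ?_⟩
    · rw [dt h.sf h'.sf, a1, b1]; ring
    · rw [dt h.sg h'.sg, a2, b2]; ring
    · rw [dt h.s1 h'.s1, a3, b3]; ring
    · rw [dt h.s2 h'.s2, a4, b4]; ring
  · obtain ⟨a1, a2, a3, a4⟩ := h.eS p hp
    obtain ⟨b1, b2, b3, b4⟩ := h'.eS p hp
    refine ⟨?_, ?_, ?_, ?_⟩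
    · rw [ds h.sf h'.sf, a1, b1]; ring
    · rw [ds h.sg h'.sg, a2, b2]; ring
    · rw [ds h.s1 h'.s1, a3, b3]; ring
    · rw [ds h.s2 h'.s2, a4, b4]; ring

/-- The components of a fixed spatial vector solve the flat system with `μ = 0`. -/
theorem Frame.sysv {c ρ C0 : ℝ} {w : ℝ × ℝ → ℝ} {x e1 e2 ν : Fin 4 → ℝ × ℝ → ℝ}
    (h : Frame c ρ C0 T P w x e1 e2 ν) (a : Fin 3 → ℝ) :
    Sys4 c 0 T w (cmp4 a x) (cmp4 a ν) (cmp4 a e1) (cmp4 a e2) := by
  have := ((h.sys 1).lin (h.sys 2) (a 0) (a 1)).lin (h.sys 3) 1 (a 2)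
  simp only [one_mul] at this
  exact this

end Pool.Agent.P.MP_785924_gt
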