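import Pool.Agent.P.MP_785924_gt.B.IfaceB
import Pool.Agent.P.MP_785924_gt.B.Tb1

/-! Step JACX of the free boundary annulus project. -/

namespace Pool.Agent.P.MP_785924_gt

open scoped ContDiff
open Set Filter Topology

namespace JacxAux

lemma lap {c T : ℝ} {w f g l1 l2 : ℝ × ℝ → ℝ} (hT : 0 < T) (hw : ContDiff ℝ ∞ w)
    (h : Sys4 c 0 T w f g l1 l2) {p : ℝ × ℝ} (hp : p ∈ strip T) :
    dT (dT f) p + dS (dS f) p = W0 c w p * f p := by
  have dw := cd_diff hw p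
  have d1 := cd_diff h.s1 p
  have d2 := cd_diff h.s2 p
  have e1 : dT (dT f) p = dT (fun q => Real.exp (w q) * l1 q) p :=
    dT_congr hT hp (cd_diff (cd_dT h.sf) p) (dw.exp.mul d1) fun q hq => (h.eT q hq).1
  have e2 : dS (dS f) p = dS (fun q => Real.exp (w q) * l2 q) p :=
    dS_congr hT hp (cd_diff (cd_dS h.sf) p) (dw.exp.mul d2) fun q hq => (h.eS q hq).1
  rw [e1, e2, dT_mul dw.exp d1, dS_mul dw.exp d2, dT_exp dw, dS_exp dw, (h.eT p hp).2.2.1,
    (h.eS p hp).2.2.2, W0]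
  ring

end JacxAux

open JacxAux in
theorem p_JACX :
    S_JACX := by
  intro c ρ C0 T P w x e1 e2 ν h
  have hT := h.intr.hT
  have hw := h.intr.sm
  refine ⟨fun a p hp => lap hT hw.1 (h.sys a) hp, fun d => ⟨Sm.cmp4 h.alg.smx d,
    fun p hp => lap hT hw.1 (h.sysv d) hp, fun s => ?_, fun s => ?_⟩, hw.dS, fun p hp => ?_,
    fun s => ?_, fun s => ?_⟩
  · have k := (h.alg.top s).2.2.2.2
    have k1 : e1 1 (T, s) = C0 / ρ * x 1 (T, s) := k 0
    have k2 : e1 2 (T, s) = C0 / ρ * x 2 (T, s) := k 1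
    have k3 : e1 3 (T, s) = C0 / ρ * x 3 (T, s) := k 2
    rw [((h.sysv d).eT _ (top_mem hT s)).1]
    simp only [cmp4, KB, k1, k2, k3]
    ring
  · have k := (h.alg.bot s).2.2.2.2
    have k1 : e1 1 (-T, s) = -(C0 / ρ * x 1 (-T, s)) := k 0
    have k2 : e1 2 (-T, s) = -(C0 / ρ * x 2 (-T, s)) := k 1
    have k3 : e1 3 (-T, s) = -(C0 / ρ * x 3 (-T, s)) := k 2
    rw [((h.sysv d).eT _ (bot_mem hT s)).1]
    simp only [cmp4, KB, k1, k2, k3]
    ring
  · have e1 : dT (dS w) = dS (dT w) := funext (dT_dS hw.1)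
    have dw := hw.diff p
    have dX := (hw.exp.pow 2).diff p
    have X0 := (Real.exp_pos (w p)).ne'
    have k := dS_congr hT hp ((hw.dT.dT.add hw.dS.dS).diff p)
      ((((hw.exp.pow 2).cmul c).neg.add ((Sm.const P 1).div (hw.exp.pow 2)
        fun q => by positivity)).diff p) h.intr.gauss
    rw [dS_add (hw.dT.dT.diff p) (hw.dS.dS.diff p),
      dS_add (((hw.exp.pow 2).cmul c).neg.diff p) (((Sm.const P 1).div (hw.exp.pow 2)
        fun q => by positivity).diff p), dS_neg, dS_cmul c dX,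
      dS_div (differentiableAt_const _) dX (by positivity), dS_const, dS_sq dw.exp,
      dS_exp dw] at k
    rw [e1, dT_dS hw.dT.1, k, WJ]
    field_simp
    ring
  · rw [dT_dS hw.1, dS_congr_lev (hw.dT.diff _) ((hw.exp.cmul (C0 / ρ)).diff _) h.intr.top,
      dS_cmul _ (hw.exp.diff _), dS_exp (hw.diff _), KB]
    ring
  · rw [dT_dS hw.1, dS_congr_lev (hw.dT.diff _) ((hw.exp.cmul (C0 / ρ)).neg.diff _) h.intr.bot,
      dS_neg, dS_cmul _ (hw.exp.diff _), dS_exp (hw.diff _), KB]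
    ring

end Pool.Agent.P.MP_785924_gt
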