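import Pool.Agent.P.MP_785924_gt.B.IfaceB

/-! Step KILL of the free boundary annulus project. -/

namespace Pool.Agent.P.MP_785924_gt

open scoped ContDiff
open Set Filter Topology

theorem p_KILL (hUCP : S_UCP) (hJACU : S_JACU) (hJACX : S_JACX) :
    S_KILL := by
  intro c ρ C0 T P w x e1 e2 ν b h hb
  have hT := h.intr.hT
  have hρ := h.intr.hρ
  have J := (hJACX c ρ C0 T P w x e1 e2 ν h).2.2
  have JU := hJACU c 0 T w _ _ _ _ _ _ _ _ hT h.intr.sm.1 (h.sys 0) (h.sysv b)
  set U : ℝ × ℝ → ℝ := fun q => e1 0 q * cmp4 b e2 q - e2 0 q * cmp4 b e1 q with hU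
  have sU : Sm P U := ((h.alg.sm1 0).mul (Sm.cmp4 h.alg.sm2 b)).sub
    ((h.alg.sm2 0).mul (Sm.cmp4 h.alg.sm1 b))
  have eT : dT (fun q => dS w q - U q) = fun q => dT (dS w) q - dT U q :=
    funext fun q => dT_sub (J.sm.diff q) (sU.diff q)
  have eS : dS (fun q => dS w q - U q) = fun q => dS (dS w) q - dS U q :=
    funext fun q => dS_sub (J.sm.diff q) (sU.diff q)
  have key := hUCP T P (-T) (WJ c w) (fun q => dS w q - U q) hT h.intr.hP (sm_WJ h.intr.sm c)
    (J.sm.sub sU) (fun p hp => by
      rw [eT, eS, dT_sub (J.sm.dT.diff p) (sU.dT.diff p), dS_sub (J.sm.dS.diff p) (sU.dS.diff p)]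
      have h1 := J.eq p hp
      have h2 := (JU p hp).1
      simp only [hU]
      linear_combination h1 - h2) (Or.inr rfl) (fun s => by
      obtain ⟨a1, a2, a3, a4, -⟩ := h.alg.bot s
      have h1 : dS w (-T, s) = c * ρ * cmp4 b e2 (-T, s) := by
        have := hb s
        rw [deriv_lev h.intr.sm.1] at this
        exact this
      have h2 := (JU _ (bot_mem hT s)).2
      have h3 := J.bot s
      rw [a1, a2, a3] at h2
      constructor
      · simp only [hU]
        rw [a3, a4, h1]
        ring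
      · rw [eT]
        simp only
        rw [h2, neg_eq_iff_eq_neg.1 h3, h1, KB]
        field_simp
        ring)
  intro p hp
  exact sub_eq_zero.1 (key p hp)

end Pool.Agent.P.MP_785924_gt
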