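import Pool.Agent.P.MP_785924_gt.B.IfaceB

/-! Step LIN of the free boundary annulus project. -/

namespace Pool.Agent.P.MP_785924_gt

open scoped ContDiff
open Set Filter Topology

theorem p_LIN :
    S_LIN := by
  intro c ρ C0 T P w x e1 e2 ν d p hF hp h0
  have hT := hF.intr.hT
  have hS := hF.sysv d
  have hev : ∀ᶠ q in 𝓝[strip T] p, q ∈ strip T ∧ ∀ᶠ r in 𝓝[strip T] q, cmp4 d x r = 0 :=
    Filter.Eventually.and (eventually_nhdsWithin_of_forall fun _ h => h)
      (eventually_eventually_nhdsWithin.2 h0)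
  have h12 : ∀ᶠ q in 𝓝[strip T] p, cmp4 d e1 q = 0 ∧ cmp4 d e2 q = 0 := by
    refine hev.mono fun q hq => ?_
    have ht : dT (cmp4 d x) q = 0 := by
      rw [dT_congr_ev (g := fun _ => 0) hT hq.1 (cd_diff hS.sf q) (differentiableAt_const _) hq.2,
        dT_const]
    have hs : dS (cmp4 d x) q = 0 := by
      rw [dS_congr_ev (g := fun _ => 0) hT hq.1 (cd_diff hS.sf q) (differentiableAt_const _) hq.2,
        dS_const]
    have a1 := (hS.eT q hq.1).1
    have a2 := (hS.eS q hq.1).1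
    have hpos := Real.exp_pos (w q)
    rw [ht] at a1
    rw [hs] at a2
    exact ⟨(mul_eq_zero.1 a1.symm).resolve_left hpos.ne',
      (mul_eq_zero.1 a2.symm).resolve_left hpos.ne'⟩
  have hf : cmp4 d x p = 0 := h0.self_of_nhdsWithin hp
  obtain ⟨h1, h2⟩ := h12.self_of_nhdsWithin hp
  have hd1 : dT (cmp4 d e1) p = 0 := by
    rw [dT_congr_ev (g := fun _ => 0) hT hp (cd_diff hS.s1 p) (differentiableAt_const _)
      (h12.mono fun q hq => hq.1), dT_const]
  have hg : cmp4 d ν p = 0 := by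
    have a3 := (hS.eT p hp).2.2.1
    rw [hd1, h2, hf] at a3
    have hpos := Real.exp_pos (w p)
    have : cmp4 d ν p / Real.exp (w p) = 0 := by
      simpa using a3.symm
    exact (div_eq_zero_iff.1 this).resolve_right hpos.ne'
  have c11 := hF.alg.compl p hp 1 1
  have c22 := hF.alg.compl p hp 2 2
  have c33 := hF.alg.compl p hp 3 3
  have c12 := hF.alg.compl p hp 1 2
  have c13 := hF.alg.compl p hp 1 3
  have c23 := hF.alg.compl p hp 2 3
  simp only [Fin.reduceEq, if_true, if_false] at c11 c22 c33 c12 c13 c23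
  have key : c * cmp4 d x p ^ 2 + cmp4 d e1 p ^ 2 + cmp4 d e2 p ^ 2 + cmp4 d ν p ^ 2
      = d 0 ^ 2 + d 1 ^ 2 + d 2 ^ 2 := by
    simp only [cmp4]
    linear_combination d 0 ^ 2 * c11 + d 1 ^ 2 * c22 + d 2 ^ 2 * c33 + 2 * d 0 * d 1 * c12
      + 2 * d 0 * d 2 * c13 + 2 * d 1 * d 2 * c23
  rw [hf, h1, h2, hg] at key
  have z0 : d 0 = 0 := by nlinarith [sq_nonneg (d 0), sq_nonneg (d 1), sq_nonneg (d 2)]
  have z1 : d 1 = 0 := by nlinarith [sq_nonneg (d 0), sq_nonneg (d 1), sq_nonneg (d 2)]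
  have z2 : d 2 = 0 := by nlinarith [sq_nonneg (d 0), sq_nonneg (d 1), sq_nonneg (d 2)]
  funext i
  fin_cases i
  · exact z0
  · exact z1
  · exact z2

end Pool.Agent.P.MP_785924_gt
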