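import Pool.Agent.P.MP_785924_gt.B.IfaceB
import Pool.Agent.P.MP_785924_gt.A.Tb

/-! Step LINE of the free boundary annulus project. -/

namespace Pool.Agent.P.MP_785924_gt

open scoped ContDiff
open Set Filter Topology

namespace LINEAux

theorem cont_line {f : ℝ × ℝ → ℝ} (h : Continuous f) (s : ℝ) : Continuous fun t : ℝ => f (t, s) :=
  h.comp (continuous_id.prodMk continuous_const)

/-- On an interval where `w_s (·, s0)` has no zero, zeros of `w_s (·, s)` propagate. -/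
theorem loc (hWEN0 : S_WEN0) (hWEN1 : S_WEN1) {c ρ C0 T P : ℝ} {w : ℝ × ℝ → ℝ}
    {x e1 e2 ν : Fin 4 → ℝ × ℝ → ℝ} {b : Fin 3 → ℝ} (h : Frame c ρ C0 T P w x e1 e2 ν)
    (hK : Kill T w e1 e2 b) {a1 a2 s0 : ℝ} (h1 : -T ≤ a1) (h2 : a2 ≤ T)
    (hne : ∀ t ∈ Icc a1 a2, dS w (t, s0) ≠ 0) (s : ℝ) {t : ℝ} (ht : t ∈ Icc a1 a2)
    (hz : dS w (t, s) = 0) : ∀ t' ∈ Icc a1 a2, dS w (t', s) = 0 := by
  have hw := h.intr.sm
  have cu : ∀ σ, Continuous fun τ : ℝ => dS w (τ, σ) := cont_line hw.dS.cont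
  have cw : Continuous fun τ : ℝ => Real.exp (w (τ, s)) := cont_line hw.exp.cont s
  have cx0 : Continuous fun τ : ℝ => x 0 (τ, s) := cont_line (h.alg.smx 0).cont s
  have cν0 : Continuous fun τ : ℝ => ν 0 (τ, s) := cont_line (h.alg.smν 0).cont s
  have cx : Continuous fun τ : ℝ => cmp4 b x (τ, s) := cont_line (Sm.cmp4 h.alg.smx b).cont s
  have cν : Continuous fun τ : ℝ => cmp4 b ν (τ, s) := cont_line (Sm.cmp4 h.alg.smν b).cont s
  have ce0 : Continuous fun τ : ℝ => e2 0 (τ, s0) := cont_line (h.alg.sm2 0).cont s0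
  have ce : Continuous fun τ : ℝ => cmp4 b e2 (τ, s0) := cont_line (Sm.cmp4 h.alg.sm2 b).cont s0
  have cη : ContinuousOn (fun τ : ℝ => e2 0 (τ, s0) / dS w (τ, s0)) (Icc a1 a2) :=
    ce0.continuousOn.div (cu s0).continuousOn hne
  have cη3 : ContinuousOn (fun τ : ℝ => cmp4 b e2 (τ, s0) / dS w (τ, s0)) (Icc a1 a2) :=
    ce.continuousOn.div (cu s0).continuousOn hne
  refine uq1_Icc (y := fun τ => dS w (τ, s))
    (a11 := fun τ => (ν 0 (τ, s) * (cmp4 b e2 (τ, s0) / dS w (τ, s0))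
        - cmp4 b ν (τ, s) * (e2 0 (τ, s0) / dS w (τ, s0))) / Real.exp (w (τ, s))
      - c * Real.exp (w (τ, s)) * (x 0 (τ, s) * (cmp4 b e2 (τ, s0) / dS w (τ, s0))
        - cmp4 b x (τ, s) * (e2 0 (τ, s0) / dS w (τ, s0)))) ht ?_ ?_ hz
  · exact (((cν0.continuousOn.mul cη3).sub (cν.continuousOn.mul cη)).div cw.continuousOn
      fun τ _ => (Real.exp_pos _).ne').sub ((continuousOn_const.mul cw.continuousOn).mul
        ((cx0.continuousOn.mul cη3).sub (cx.continuousOn.mul cη)))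
  · intro τ hτ
    have hτ' : τ ∈ Icc (-T) T := ⟨h1.trans hτ.1, hτ.2.trans h2⟩
    refine (hasT (hw.dS.diff (τ, s))).congr_deriv ?_
    have n0 := hne τ hτ
    obtain ⟨q1, q2⟩ := (hWEN1 c ρ C0 T P w x e1 e2 ν b h hK τ hτ').1 s0 s
    have r1 : e2 0 (τ, s) = e2 0 (τ, s0) / dS w (τ, s0) * dS w (τ, s) := by
      field_simp; linarith
    have r2 : cmp4 b e2 (τ, s) = cmp4 b e2 (τ, s0) / dS w (τ, s0) * dS w (τ, s) := by
      field_simp; linarith
    rw [(hWEN0 c ρ C0 T P w x e1 e2 ν b h hK (τ, s) (mem_strip_of_Icc hτ' s)).2, r1, r2]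
    ring

end LINEAux

theorem p_LINE (hWEN0 : S_WEN0) (hWEN1 : S_WEN1) :
    S_LINE := by
  intro c ρ C0 T P w x e1 e2 ν b h hK t1 t2 h1 h2 hG s t ht t' ht'
  refine isPreconnected_Icc.induction₂' (fun τ τ' => dS w (τ, s) = 0 → dS w (τ', s) = 0)
    (fun t0 h0 => ?_) (fun _ _ _ _ _ _ p q z => q (p z)) ht ht'
  obtain ⟨s0, hs0⟩ := hG t0 h0
  have cu : Continuous fun τ : ℝ => dS w (τ, s0) := LINEAux.cont_line h.intr.sm.dS.cont s0
  obtain ⟨δ, hδ, hb⟩ := Metric.eventually_nhds_iff.1 (cu.continuousAt.eventually_ne hs0)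
  have hne : ∀ τ ∈ Icc (max t1 (t0 - δ / 2)) (min t2 (t0 + δ / 2)), dS w (τ, s0) ≠ 0 := by
    intro τ hτ
    refine hb ?_
    rw [Real.dist_eq, abs_lt]
    have a1 := (le_max_right _ _).trans hτ.1
    have a2 := hτ.2.trans (min_le_right _ _)
    constructor <;> linarith
  have l1 : -T ≤ max t1 (t0 - δ / 2) := h1.trans (le_max_left _ _)
  have l2 : min t2 (t0 + δ / 2) ≤ T := (min_le_left _ _).trans h2
  have m0 : t0 ∈ Icc (max t1 (t0 - δ / 2)) (min t2 (t0 + δ / 2)) :=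
    ⟨max_le h0.1 (by linarith), le_min h0.2 (by linarith)⟩
  have ev : ∀ᶠ τ in 𝓝 t0, τ ∈ Icc (t0 - δ / 2) (t0 + δ / 2) :=
    Icc_mem_nhds (by linarith) (by linarith)
  filter_upwards [self_mem_nhdsWithin, nhdsWithin_le_nhds ev] with τ k1 k2
  have m : τ ∈ Icc (max t1 (t0 - δ / 2)) (min t2 (t0 + δ / 2)) :=
    ⟨max_le k1.1 k2.1, le_min k1.2 k2.2⟩
  exact ⟨fun z => LINEAux.loc hWEN0 hWEN1 h hK l1 l2 hne s m0 z τ m,
    fun z => LINEAux.loc hWEN0 hWEN1 h hK l1 l2 hne s m z t0 m0⟩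

end Pool.Agent.P.MP_785924_gt
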