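import Pool.Agent.P.MP_785924_gt.B.IfaceB

/-! Step NEG1 of the free boundary annulus project. -/

namespace Pool.Agent.P.MP_785924_gt

open scoped ContDiff
open Set Filter Topology

namespace Neg1Aux

variable {T P ε : ℝ} {W K u v v' z k : ℝ × ℝ → ℝ} {φ ψ : ℝ → ℝ}

theorem cut_pos (h : Cut ε φ ψ) {r : ℝ} (hr : -ε < r) :
    odd φ r = φ r ∧ deriv (odd φ) r = deriv φ r := by
  have : odd φ =ᶠ[𝓝 r] φ := (lt_mem_nhds hr).mono fun x hx => by
    rw [odd, h.zero (-x) (by linarith), sub_zero]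
  exact ⟨this.eq_of_nhds, this.deriv_eq⟩

theorem cut_neg (h : Cut ε φ ψ) {r : ℝ} (hr : r < ε) : φ r = 0 ∧ deriv φ r = 0 := by
  have : φ =ᶠ[𝓝 r] fun _ => 0 := (gt_mem_nhds hr).mono fun x hx => h.zero x hx.le
  exact ⟨this.eq_of_nhds, this.deriv_eq.trans (deriv_const _ _)⟩

theorem cd_odd (h : Cut ε φ ψ) : ContDiff ℝ ∞ (odd φ) := h.smφ.sub (h.smφ.comp contDiff_neg)

theorem Bf_loc (hT : 0 < T) (h : ∀ p ∈ strip T, (z p ≠ 0 ∨ dT z p ≠ 0 ∨ dS z p ≠ 0) →
    v p = v' p ∧ dT v p = dT v' p ∧ dS v p = dS v' p) : Bf T P W K v z = Bf T P W K v' z := by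
  have h1 : ∀ p ∈ strip T, v p * z p = v' p * z p ∧ dT v p * dT z p = dT v' p * dT z p ∧
      dS v p * dS z p = dS v' p * dS z p := fun p hp => by
    by_cases e : z p ≠ 0 ∨ dT z p ≠ 0 ∨ dS z p ≠ 0
    · obtain ⟨a, b, c⟩ := h p hp e
      rw [a, b, c]
      exact ⟨rfl, rfl, rfl⟩
    · push Not at e
      simp [e.1, e.2.1, e.2.2]
  rw [Bf_eq, Bf_eq, Int2_congr hT (g := fun p => dT v' p * dT z p + dS v' p * dS z p
    + W p * (v' p * z p)) fun p hp => by rw [(h1 p hp).1, (h1 p hp).2.1, (h1 p hp).2.2]]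
  simp only [(h1 _ (top_mem hT _)).1, (h1 _ (bot_mem hT _)).1]

theorem loc (hT : 0 < T) (hε : 0 < ε) (h : Cut ε φ ψ) (hu : Sm P u) (hz : Sm P z) (hW : Sm P W)
    (hK : Sm P K) {a b : ℝ}
    (hv : ∀ p ∈ strip T, v p = k p * odd φ (u p) ∧ dT v p = k p * (deriv (odd φ) (u p) * dT u p) ∧
      dS v p = k p * (deriv (odd φ) (u p) * dS u p))
    (hk : ∀ p ∈ strip T, (z p ≠ 0 ∨ dT z p ≠ 0 ∨ dS z p ≠ 0) →
      (0 < u p → k p = a + b) ∧ (u p < 0 → k p = b)) :
    Bf T P W K v z = b * Bf T P W K (fun p => odd φ (u p)) z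
      + a * Bf T P W K (fun p => φ (u p)) z := by
  have h1 := hu.comp (cd_odd h)
  have h2 := hu.comp h.smφ
  rw [← Bf_cmul_left b h1.1, ← Bf_cmul_left a h2.1,
    ← Bf_add_left (h1.cmul b).1 (h2.cmul a).1 hz.1 hW.cont hK.cont]
  refine Bf_loc hT fun p hp e => ?_
  have d1 := ((cd_odd h).differentiable (by simp) (u p)).hasDerivAt
  have d2 := (h.smφ.differentiable (by simp) (u p)).hasDerivAt
  rw [(hv p hp).1, (hv p hp).2.1, (hv p hp).2.2, dT_add ((h1.cmul b).diff p) ((h2.cmul a).diff p),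
    dS_add ((h1.cmul b).diff p) ((h2.cmul a).diff p), dT_cmul b (h1.diff p), dT_cmul a (h2.diff p),
    dS_cmul b (h1.diff p), dS_cmul a (h2.diff p), dT_comp d1 (hu.diff p), dT_comp d2 (hu.diff p),
    dS_comp d1 (hu.diff p), dS_comp d2 (hu.diff p)]
  rcases lt_trichotomy (u p) 0 with r | r | r
  · rw [(hk p hp e).2 r, (cut_neg h (r.trans hε)).1, (cut_neg h (r.trans hε)).2]
    simp
  · have r1 := cut_pos h (r := u p) (by linarith)
    have r2 := cut_neg h (r := u p) (by linarith)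
    rw [r1.1, r1.2, r2.1, r2.2]
    simp
  · have r1 := cut_pos h (r := u p) (by linarith)
    rw [(hk p hp e).1 r, r1.1, r1.2]
    exact ⟨by ring, by ring, by ring⟩

theorem sphere {w : Fin 5 → ℝ × ℝ → ℝ} (hw : ∀ i, Sm P (w i))
    (h : ∀ a ∈ Metric.sphere (0 : Fin 5 → ℝ) 1,
      Bf T P W K (fun p => ∑ i, a i * w i p) (fun p => ∑ i, a i * w i p) < 0) : Neg5 T P W K := by
  refine ⟨w, hw, fun a ha => ?_⟩
  have h0 : 0 < ‖a‖ := norm_pos_iff.2 ha
  have h1 := h (‖a‖⁻¹ • a) (by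
    rw [mem_sphere_zero_iff_norm, norm_smul, norm_inv, norm_norm, inv_mul_cancel₀ h0.ne'])
  have h2 : (fun p => ∑ i, (‖a‖⁻¹ • a) i * w i p) = fun p => ‖a‖⁻¹ * ∑ i, a i * w i p := by
    simp only [Pi.smul_apply, smul_eq_mul, Finset.mul_sum, mul_assoc]
  rw [h2, Bf_cmul_left _ (Sm.lin hw a).1, Bf_cmul_right _ (Sm.lin hw a).1, ← mul_assoc] at h1
  exact neg_of_mul_neg_right h1 (by positivity)

theorem expand (hv : Sm P v) (hz : Sm P z) (hW : Sm P W) (hK : Sm P K) (δ : ℝ) :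
    Bf T P W K (fun p => v p + δ * z p) (fun p => v p + δ * z p) =
      Bf T P W K v v + 2 * δ * Bf T P W K v z + δ ^ 2 * Bf T P W K z z := by
  have h := hz.cmul δ
  rw [Bf_add_left hv.1 h.1 (hv.add h).1 hW.cont hK.cont, Bf_cmul_left δ hz.1,
    Bf_add_right hv.1 hv.1 h.1 hW.cont hK.cont, Bf_add_right hz.1 hv.1 h.1 hW.cont hK.cont,
    Bf_cmul_right δ hz.1, Bf_cmul_right δ hz.1, Bf_symm T P W K z v]
  ring

theorem lin_right {n : ℕ} {w : Fin n → ℝ × ℝ → ℝ} (hw : ∀ i, Sm P (w i)) (hv : Sm P v)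
    (hW : Sm P W) (hK : Sm P K) (a : Fin n → ℝ) :
    Bf T P W K v (fun p => ∑ i, a i * w i p) = ∑ i, a i * Bf T P W K v (w i) := by
  rw [Bf_sum_right _ (fun i _ => ((hw i).cmul (a i)).1) hv.1 hW.cont hK.cont]
  exact Finset.sum_congr rfl fun i _ => Bf_cmul_right _ (hw i).1

end Neg1Aux

open Neg1Aux

theorem p_NEG1 (hCUT : S_CUT) (hPIECE : S_PIECE) (hSMALL : S_SMALL) (hEDGE : S_EDGE) :
    S_NEG1 := by
  intro T P W K u k n e kp km hT hP hW hK hu hk he hinj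
  obtain ⟨⟨C, -, hC⟩, hS⟩ := hSMALL T P W K u hT hP hW hK hu
  choose z β C1 ε0 hz hβ _ hε0 hloc hed using fun j => hEDGE T P W K u (e j) _ hT hP hW hK hu
    (he j).1 (he j).2.1 (he j).2.2.1 (he j).2.2.2
  choose C2 _ hC2 using fun j => hS (z j) (hz j)
  choose B hB using fun i => (hk i).1
  obtain ⟨c, hc⟩ : ∃ c : (Fin 5 → ℝ) → Fin n → ℝ,
    c = fun a j => ∑ i, a i * (kp j i - km j i) := ⟨_, rfl⟩
  obtain ⟨m, hm⟩ : ∃ m : (Fin 5 → ℝ) → Fin n → ℝ, m = fun a j => ∑ i, a i * km j i := ⟨_, rfl⟩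
  have hs : IsCompact (Metric.sphere (0 : Fin 5 → ℝ) 1) := isCompact_sphere _ _
  obtain ⟨q, hq0, hq⟩ := hs.exists_forall_le' (f := fun a => ∑ j, β j * c a j ^ 2) (a := 0)
    (by rw [hc]; fun_prop) fun a ha => by
      refine Finset.sum_pos' (fun j _ => mul_nonneg (hβ j).le (sq_nonneg _)) ?_
      by_contra h
      have : a = 0 := hinj a fun j => by
        have : c a j = 0 := by
          by_contra h'
          exact h ⟨j, Finset.mem_univ _, mul_pos (hβ j) (sq_pos_of_ne_zero h')⟩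
        simpa only [hc, mul_sub, Finset.sum_sub_distrib, sub_eq_zero] using this
      simp [this] at ha
  obtain ⟨D, hD⟩ := hs.exists_bound_of_continuousOn
    (f := fun a => ∑ j, c a j * ∑ l, c a l * Bf T P W K (z j) (z l)) (by rw [hc]; fun_prop)
  obtain ⟨E, hE⟩ := hs.exists_bound_of_continuousOn
    (f := fun a => ∑ j, (|c a j * m a j| * C2 j + c a j ^ 2 * C1 j)) (by rw [hc, hm]; fun_prop)
  obtain ⟨δ, hδ, hδD⟩ : ∃ δ : ℝ, 0 < δ ∧ δ * D ≤ q := ⟨q / (|D| + 1), by positivity, by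
    rw [div_mul_eq_mul_div, div_le_iff₀ (by positivity)]
    nlinarith [le_abs_self D]⟩
  have h1 : ∀ᶠ ε in 𝓝 (0 : ℝ), ∀ j, ε ≤ ε0 j := eventually_all.2 fun j => eventually_le_nhds (hε0 j)
  have h2 : ∀ᶠ ε in 𝓝 (0 : ℝ), (C * (∑ i, B i) ^ 2 + 2 * δ * E) * ε < δ * q :=
    ((continuous_const.mul continuous_id).tendsto' 0 0 (by simp)).eventually_lt_const
      (mul_pos hδ hq0)
  obtain ⟨ε, ⟨e1, e2, e3⟩, hε⟩ := (((h1.and (h2.and (eventually_le_nhds one_pos))).filter_mono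
    (nhdsWithin_le_nhds (s := Ioi 0))).and self_mem_nhdsWithin).exists
  replace hε : 0 < ε := hε
  obtain ⟨φ, ψ, hφ⟩ := hCUT ε hε
  choose v hv hvf using fun i => hPIECE T P ε u (k i) (odd φ) hT hP hε hu.sm (hk i) (cd_odd hφ)
    fun r hr => by
      rw [odd, hφ.zero r (abs_le.1 hr).2, hφ.zero (-r) (by linarith [(abs_le.1 hr).1]), sub_zero]
  refine sphere (w := fun i p => v i p + δ * ∑ j, (kp j i - km j i) * z j p)
    (fun i => (hv i).add ((Sm.lin hz _).cmul δ)) fun a ha => ?_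
  have h3 : (fun p => ∑ i, a i * (v i p + δ * ∑ j, (kp j i - km j i) * z j p)) =
      fun p => ∑ i, a i * v i p + δ * ∑ j, c a j * z j p := by
    funext p
    simp only [hc, mul_add, Finset.sum_add_distrib, Finset.mul_sum, Finset.sum_mul]
    rw [Finset.sum_comm]
    congr 1
    exact Finset.sum_congr rfl fun _ _ => Finset.sum_congr rfl fun _ _ => by ring
  have hva := Sm.lin hv a
  have hf : ∀ p ∈ strip T, ∑ i, a i * v i p = (∑ i, a i * k i p) * odd φ (u p) ∧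
      dT (fun p => ∑ i, a i * v i p) p = (∑ i, a i * k i p) * (deriv (odd φ) (u p) * dT u p) ∧
      dS (fun p => ∑ i, a i * v i p) p = (∑ i, a i * k i p) * (deriv (odd φ) (u p) * dS u p) :=
    fun p hp => by
      rw [dT_sum fun i _ => ((hv i).cmul (a i)).diff p, dS_sum fun i _ => ((hv i).cmul (a i)).diff p]
      simp only [dT_cmul _ ((hv _).diff p), dS_cmul _ ((hv _).diff p), (hvf _ p hp).1,
        (hvf _ p hp).2.1, (hvf _ p hp).2.2, Finset.sum_mul, mul_assoc, and_self]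
  have hb : ∀ p, |∑ i, a i * k i p| ≤ ∑ i, B i := fun p =>
    (Finset.abs_sum_le_sum_abs _ _).trans (Finset.sum_le_sum fun i _ => by
      rw [abs_mul]
      exact (mul_le_of_le_one_left (abs_nonneg _) ((norm_le_pi_norm a i).trans
        (mem_sphere_zero_iff_norm.1 ha).le)).trans (hB i p))
  have b1 := (abs_le.1 (hC ε _ φ ψ (fun p => ∑ i, a i * k i p) _ hε e3 hφ ⟨⟨_, hb⟩,
    fun t s => Finset.sum_congr rfl fun i _ => by rw [(hk i).2.1 t s], fun p hp h0 =>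
      (eventually_all.2 fun i => (hk i).2.2 p hp h0).mono fun q hq => by simp only [hq]⟩
    hb hva hf)).2
  have b2 : ∑ j, c a j * Bf T P W K (fun p => ∑ i, a i * v i p) (z j) ≤ -q + E * ε := by
    refine le_trans ?_ (add_le_add (neg_le_neg (hq a ha))
      (mul_le_mul_of_nonneg_right ((le_abs_self _).trans (hE a ha)) hε.le))
    rw [Finset.sum_mul, ← Finset.sum_neg_distrib, ← Finset.sum_add_distrib]
    refine Finset.sum_le_sum fun j _ => ?_
    rw [loc (k := fun p => ∑ i, a i * k i p) (a := c a j) (b := m a j) hT hε hφ hu.sm (hz j) hW hK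
      hf fun p hp h0 => ?_]
    · have t1 := mul_le_mul_of_nonneg_left (hed j ε φ ψ hε (e1 j) hφ) (sq_nonneg (c a j))
      have t2 := mul_le_mul_of_nonneg_left (hC2 j ε φ ψ hε hφ) (abs_nonneg (c a j * m a j))
      rw [← abs_mul] at t2
      nlinarith [le_abs_self (c a j * m a j * Bf T P W K (fun p => odd φ (u p)) (z j))]
    · obtain ⟨l, hl⟩ := hloc j p hp h0
      simp only [mem_ofPred_eq, hu.sm.2.int, (hk _).2.1.int, Prod.mk.eta] at hl
      refine ⟨fun r => ?_, fun r => ?_⟩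
      · simp only [hc, hm, (hl _).1 r, ← Finset.sum_add_distrib, ← mul_add, sub_add_cancel]
      · simp only [hm, (hl _).2 r]
  have b3 := (le_abs_self _).trans (hD a ha)
  rw [h3, expand hva (Sm.lin hz _) hW hK, lin_right hz hva hW hK, lin_right hz (Sm.lin hz _) hW hK]
  simp only [Bf_symm T P W K (fun p => ∑ j, c a j * z j p) (z _), lin_right hz (hz _) hW hK]
  have t1 := mul_le_mul_of_nonneg_left b2 hδ.le
  have t2 := mul_le_mul_of_nonneg_left b3 (sq_nonneg δ)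
  have t3 := mul_le_mul_of_nonneg_left hδD hδ.le
  nlinarith

end Pool.Agent.P.MP_785924_gt
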