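import Pool.Agent.P.MP_785924_gt.B.IfaceB

/-! Step NEG2 of the free boundary annulus project. -/

namespace Pool.Agent.P.MP_785924_gt

open scoped ContDiff
open Set Filter Topology

namespace Neg2Aux

/-- Retraction of the plane onto the strip. -/
noncomputable def cl (T : ℝ) (p : ℝ × ℝ) : ℝ × ℝ := (max (-T) (min T p.1), p.2)

theorem cl_cont (T : ℝ) : Continuous (cl T) := by
  unfold cl; fun_prop

theorem cl_mem {T : ℝ} (hT : 0 < T) (p : ℝ × ℝ) : cl T p ∈ strip T :=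
  ⟨le_max_left _ _, max_le (by linarith) (min_le_left _ _)⟩

theorem cl_eq {T : ℝ} {p : ℝ × ℝ} (hp : p ∈ strip T) : cl T p = p := by
  unfold cl
  rw [min_eq_right hp.2, max_eq_right hp.1]

theorem cont_piece {T P : ℝ} {u k : ℝ × ℝ → ℝ} (hT : 0 < T) (hu : Continuous u)
    (hk : Adm T P u k) : Continuous fun p => k (cl T p) * u (cl T p) := by
  obtain ⟨⟨B, hB⟩, -, hloc⟩ := hk
  have huc : Continuous fun p => u (cl T p) := hu.comp (cl_cont T)
  rw [continuous_iff_continuousAt]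
  intro p
  by_cases h0 : u (cl T p) = 0
  · have hlim : Tendsto (fun q => B * |u (cl T q)|) (𝓝 p) (𝓝 0) := by
      have : Tendsto (fun q => B * |u (cl T q)|) (𝓝 p) (𝓝 (B * |u (cl T p)|)) :=
        (continuous_const.mul huc.abs).continuousAt
      simpa [h0] using this
    show Tendsto _ _ _
    simp only [h0, mul_zero]
    refine squeeze_zero_norm (fun q => ?_) hlim
    rw [Real.norm_eq_abs, abs_mul]
    exact mul_le_mul_of_nonneg_right (hB _) (abs_nonneg _)
  · have ht : Tendsto (cl T) (𝓝 p) (𝓝[strip T] (cl T p)) :=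
      tendsto_nhdsWithin_iff.2 ⟨(cl_cont T).continuousAt, Eventually.of_forall (cl_mem hT)⟩
    have hev := ht.eventually (hloc _ (cl_mem hT p) h0)
    have hc : ContinuousAt (fun q => k (cl T p) * u (cl T q)) p :=
      (continuous_const.mul huc).continuousAt
    exact hc.congr (hev.mono fun q hq => by simp only [hq])

theorem per_piece {T P : ℝ} {u k : ℝ × ℝ → ℝ} (hu : Per P u) (hk : Per P k) :
    Per P fun p => k (cl T p) * u (cl T p) := fun t s => by
  simp only [cl, hu _ s, hk _ s]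

theorem adm_lin {T P : ℝ} {u : ℝ × ℝ → ℝ} {k : Fin 3 → ℝ × ℝ → ℝ} {B r : ℝ}
    (hk : ∀ i, Adm T P u (k i)) (hB : ∀ i p, |k i p| ≤ B) (c : Fin 3 → ℝ) (hc : ∀ i, |c i| ≤ r) :
    Adm T P u (fun p => ∑ i, c i * k i p) ∧ ∀ p, |∑ i, c i * k i p| ≤ 3 * r * B := by
  have hb : ∀ p, |∑ i, c i * k i p| ≤ 3 * r * B := fun p => by
    refine (Finset.abs_sum_le_sum_abs _ _).trans ?_
    calc ∑ i, |c i * k i p| ≤ ∑ _i : Fin 3, r * B := Finset.sum_le_sum fun i _ => by
          rw [abs_mul]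
          exact mul_le_mul (hc i) (hB i p) (abs_nonneg _) ((abs_nonneg _).trans (hc i))
      _ = 3 * r * B := by simp; ring
  refine ⟨⟨⟨_, hb⟩, fun t s => Finset.sum_congr rfl fun i _ => by rw [(hk i).2.1 t s], ?_⟩, hb⟩
  intro p hp h0
  have := eventually_all.2 fun i => (hk i).2.2 p hp h0
  exact this.mono fun q hq => Finset.sum_congr rfl fun i _ => by rw [hq i]

/-- Coercivity of a positive definite quadratic form given by an integral. -/
theorem coer {T P : ℝ} {G : ℝ × ℝ → ℝ} {h : Fin 5 → ℝ × ℝ → ℝ} (hT : 0 < T) (hP : 0 < P)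
    (hG : Sm P G) (hpos : ∀ p ∈ strip T, 0 < G p) (hc : ∀ i, Continuous (h i))
    (hp : ∀ i, Per P (h i))
    (hind : ∀ a : Fin 5 → ℝ, (∀ p ∈ strip T, ∑ i, a i * h i p = 0) → a = 0) :
    ∃ γ : ℝ, 0 < γ ∧ ∀ a : Fin 5 → ℝ,
      γ * ‖a‖ ^ 2 ≤ Int2 T P (fun p => G p * (∑ i, a i * h i p) ^ 2) := by
  have hGc := hG.cont
  set q : (Fin 5 → ℝ) → ℝ := fun a => Int2 T P (fun p => G p * (∑ i, a i * h i p) ^ 2) with hq
  have hF : Continuous fun z : (Fin 5 → ℝ) × (ℝ × ℝ) => G z.2 * (∑ i, z.1 i * h i z.2) ^ 2 :=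
    (hGc.comp continuous_snd).mul ((continuous_finsetSum _ fun i _ =>
      ((continuous_apply i).comp continuous_fst).mul ((hc i).comp continuous_snd)).pow 2)
  have hin : Continuous fun x : (Fin 5 → ℝ) × ℝ =>
      ∫ s in (0 : ℝ)..P, G (x.2, s) * (∑ i, x.1 i * h i (x.2, s)) ^ 2 :=
    intervalIntegral.continuous_parametric_intervalIntegral_of_continuous'
      (f := fun (x : (Fin 5 → ℝ) × ℝ) (s : ℝ) => G (x.2, s) * (∑ i, x.1 i * h i (x.2, s)) ^ 2)
      (hF.comp (f := fun y : ((Fin 5 → ℝ) × ℝ) × ℝ => (y.1.1, (y.1.2, y.2))) (by fun_prop)) 0 P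
  have hqc : Continuous q :=
    intervalIntegral.continuous_parametric_intervalIntegral_of_continuous'
      (f := fun (a : Fin 5 → ℝ) (t : ℝ) =>
        ∫ s in (0 : ℝ)..P, G (t, s) * (∑ i, a i * h i (t, s)) ^ 2) hin (-T) T
  have hhom : ∀ (c : ℝ) (a : Fin 5 → ℝ), q (c • a) = c ^ 2 * q a := by
    intro c a
    simp only [hq]
    rw [← Int2_cmul]
    congr 1
    funext p
    have : ∑ i, (c • a) i * h i p = c * ∑ i, a i * h i p := by
      rw [Finset.mul_sum]
      exact Finset.sum_congr rfl fun i _ => by simp [mul_assoc]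
    rw [this]; ring
  have hqpos : ∀ a : Fin 5 → ℝ, a ≠ 0 → 0 < q a := by
    intro a ha
    by_contra hle
    refine ha (hind a fun p hp' => ?_)
    have hz := zero_of_Int2 (f := fun p => G p * (∑ i, a i * h i p) ^ 2) hT hP
      (hF.comp (f := fun p : ℝ × ℝ => (a, p)) (by fun_prop))
      (fun t s => by simp only [hG.2 t s, fun i => hp i t s])
      (fun p hp' => mul_nonneg (hpos p hp').le (sq_nonneg _)) (not_lt.1 hle) p hp'
    exact pow_eq_zero_iff two_ne_zero |>.1 ((mul_eq_zero.1 hz).resolve_left (hpos p hp').ne')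
  obtain ⟨b, hb, hmin⟩ := (isCompact_sphere (0 : Fin 5 → ℝ) 1).exists_isMinOn
    (NormedSpace.sphere_nonempty.2 zero_le_one) hqc.continuousOn
  have hb1 : ‖b‖ = 1 := by simpa using hb
  refine ⟨q b, hqpos b (fun e => by simp [e] at hb1), fun a => ?_⟩
  by_cases ha : a = 0
  · have := hhom 0 a
    rw [zero_smul] at this
    show q b * ‖a‖ ^ 2 ≤ q a
    rw [ha, this]; simp
  · have hn : 0 < ‖a‖ := norm_pos_iff.2 ha
    have hs : ‖a‖⁻¹ • a ∈ Metric.sphere (0 : Fin 5 → ℝ) 1 := by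
      simp [norm_smul, hn.ne']
    have h1 : q b ≤ q (‖a‖⁻¹ • a) := hmin hs
    have h2 : q a = ‖a‖ ^ 2 * q (‖a‖⁻¹ • a) := by
      rw [← hhom, smul_smul, mul_inv_cancel₀ hn.ne', one_smul]
    show q b * ‖a‖ ^ 2 ≤ q a
    rw [h2, mul_comm]
    exact mul_le_mul_of_nonneg_left h1 (sq_nonneg _)

theorem drop {T P : ℝ} {V K v l1 l2 : ℝ × ℝ → ℝ} (hT : 0 < T) (hV : Sm P V) (hK : Sm P K)
    (hv : Sm P v) (h1 : Jac T P V K l1) (h2 : Jac T P V K l2) (b1 b2 : ℝ) :
    Bf T P V K (fun p => v p + (b1 * l1 p + b2 * l2 p)) (fun p => v p + (b1 * l1 p + b2 * l2 p))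
      = Bf T P V K v v := by
  have hl : Sm P fun p => b1 * l1 p + b2 * l2 p := (h1.sm.cmul b1).add (h2.sm.cmul b2)
  have hnull : ∀ z, Sm P z → Bf T P V K (fun p => b1 * l1 p + b2 * l2 p) z = 0 := by
    intro z hz
    rw [Bf_add_left (h1.sm.cmul b1).1 (h2.sm.cmul b2).1 hz.1 hV.cont hK.cont,
      Bf_cmul_left b1 h1.sm.1, Bf_cmul_left b2 h2.sm.1, h1.null hT hz hV.cont hK.cont,
      h2.null hT hz hV.cont hK.cont]
    ring
  rw [Bf_add_left hv.1 hl.1 (hv.add hl).1 hV.cont hK.cont, hnull _ (hv.add hl),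
    Bf_add_right hv.1 hv.1 hl.1 hV.cont hK.cont, Bf_symm T P V K v (fun p => b1 * l1 p + b2 * l2 p),
    hnull _ hv]
  ring

end Neg2Aux

open Neg2Aux in
theorem p_NEG2 (hCUT : S_CUT) (hPIECE : S_PIECE) (hSMALL : S_SMALL) :
    S_NEG2 := by
  intro T P V G K u l1 l2 k hT hP hV hG hK hpos hu h1 h2 hk hind
  have hB0 : ∀ i, ∃ B, ∀ p, |k i p| ≤ B := fun i => (hk i).1
  choose B0 hB0 using hB0
  obtain ⟨B, hBn, hB⟩ : ∃ B : ℝ, 0 ≤ B ∧ ∀ i p, |k i p| ≤ B :=
    ⟨∑ i, |B0 i|, Finset.sum_nonneg fun i _ => abs_nonneg _, fun i p =>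
      ((hB0 i p).trans (le_abs_self _)).trans
        (Finset.single_le_sum (f := fun i => |B0 i|) (fun i _ => abs_nonneg _) (Finset.mem_univ i))⟩
  obtain ⟨⟨C, hC0, hC⟩, -⟩ := hSMALL T P V K u hT hP hV hK hu
  obtain ⟨Gb, hGb0, hGb⟩ := bound_strip hP hG.cont hG.2 T
  let h : Fin 5 → ℝ × ℝ → ℝ := ![fun p => k 0 (cl T p) * u (cl T p),
    fun p => k 1 (cl T p) * u (cl T p), fun p => k 2 (cl T p) * u (cl T p), l1, l2]
  have hhc : ∀ i, Continuous (h i) := by
    intro i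
    fin_cases i
    · exact cont_piece hT hu.sm.cont (hk 0)
    · exact cont_piece hT hu.sm.cont (hk 1)
    · exact cont_piece hT hu.sm.cont (hk 2)
    · exact h1.sm.cont
    · exact h2.sm.cont
  have hhp : ∀ i, Per P (h i) := by
    intro i
    fin_cases i
    · exact per_piece hu.sm.2 (hk 0).2.1
    · exact per_piece hu.sm.2 (hk 1).2.1
    · exact per_piece hu.sm.2 (hk 2).2.1
    · exact h1.sm.2
    · exact h2.sm.2
  have hsum : ∀ (a : Fin 5 → ℝ), ∀ p ∈ strip T, ∑ i, a i * h i p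
      = (∑ i, ![a 0, a 1, a 2] i * k i p) * u p + a 3 * l1 p + a 4 * l2 p := by
    intro a p hp
    simp only [h, Fin.sum_univ_five, Fin.sum_univ_three]
    simp [cl_eq hp]
    ring
  obtain ⟨γ, hγ, hcoer⟩ := coer hT hP hG hpos hhc hhp (fun a ha => by
    obtain ⟨e1, e2, e3⟩ := hind ![a 0, a 1, a 2] (a 3) (a 4)
      fun p hp => (hsum a p hp).symm.trans (ha p hp)
    have e0 := congrFun e1 0
    have e1' := congrFun e1 1
    have e2' := congrFun e1 2
    funext i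
    fin_cases i
    · simpa using e0
    · simpa using e1'
    · simpa using e2'
    · simpa using e2
    · simpa using e3)
  set M : ℝ := 9 * C * B ^ 2 + 72 * T * P * Gb * B ^ 2 with hM
  have hM0 : 0 ≤ M := by positivity
  set ε : ℝ := min 1 (γ / 4 / (M + 1)) with hε
  have hε0 : 0 < ε := lt_min one_pos (by positivity)
  have hε1 : ε ≤ 1 := min_le_left _ _
  have hεM : ε * (M + 1) ≤ γ / 4 := (le_div_iff₀ (by positivity)).1 (min_le_right _ _)
  obtain ⟨φ, ψ, hcut⟩ := hCUT ε hε0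
  have hodd : ContDiff ℝ ∞ (odd φ) := hcut.smφ.sub (hcut.smφ.comp contDiff_neg)
  have hodd0 : ∀ r, |r| ≤ ε → odd φ r = 0 := fun r hr => by
    unfold odd
    rw [hcut.zero r (le_of_abs_le hr), hcut.zero (-r) (neg_le_of_abs_le hr |> fun e => by linarith)]
    simp
  choose v hv hv' using fun i => hPIECE T P ε u (k i) (odd φ) hT hP hε0 hu.sm (hk i) hodd hodd0
  refine ⟨![v 0, v 1, v 2, l1, l2], ?_, fun a ha => ?_⟩
  · intro i
    fin_cases i
    · exact hv 0
    · exact hv 1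
    · exact hv 2
    · exact h1.sm
    · exact h2.sm
  have hr : 0 < ‖a‖ := norm_pos_iff.2 ha
  set r := ‖a‖ with hrdef
  set c : Fin 3 → ℝ := ![a 0, a 1, a 2] with hc
  have hcr : ∀ i, |c i| ≤ r := by
    intro i
    fin_cases i
    · exact norm_le_pi_norm a 0
    · exact norm_le_pi_norm a 1
    · exact norm_le_pi_norm a 2
  obtain ⟨hka, hkb⟩ := adm_lin hk hB c hcr
  have hva : Sm P fun p => ∑ i, c i * v i p := Sm.lin hv c
  have hw : (fun p => ∑ i, a i * (![v 0, v 1, v 2, l1, l2] : Fin 5 → ℝ × ℝ → ℝ) i p)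
      = fun p => (∑ i, c i * v i p) + (a 3 * l1 p + a 4 * l2 p) := by
    funext p
    simp only [hc, Fin.sum_univ_five, Fin.sum_univ_three]
    simp
    ring
  have hval : ∀ p ∈ strip T, ∑ i, c i * v i p = (∑ i, c i * k i p) * odd φ (u p) := by
    intro p hp
    rw [Finset.sum_mul]
    exact Finset.sum_congr rfl fun i _ => by rw [(hv' i p hp).1]; ring
  have hsmall := hC ε (3 * r * B) φ ψ _ _ hε0 hε1 hcut hka hkb hva (fun p hp => ⟨hval p hp, by
    rw [dT_sum (v := fun i q => c i * v i q) fun i _ => ((hv i).cmul (c i)).diff p, Finset.sum_mul]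
    exact Finset.sum_congr rfl fun i _ => by
      rw [dT_cmul _ ((hv i).diff p), (hv' i p hp).2.1]; ring, by
    rw [dS_sum (v := fun i q => c i * v i q) fun i _ => ((hv i).cmul (c i)).diff p, Finset.sum_mul]
    exact Finset.sum_congr rfl fun i _ => by
      rw [dS_cmul _ ((hv i).diff p), (hv' i p hp).2.2]; ring⟩)
  have hl : Sm P fun p => a 3 * l1 p + a 4 * l2 p := (h1.sm.cmul _).add (h2.sm.cmul _)
  have hws := hva.add hl
  rw [hw, Bf_sub_pot hws.1 hws.1 hV.cont hG.cont, drop hT hV hK hva h1 h2]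
  have hGc := hG.cont
  have hwc := hws.cont
  have hsc : Continuous fun p => ∑ i, a i * h i p :=
    continuous_finsetSum _ fun i _ => continuous_const.mul (hhc i)
  have hlow : Int2 T P (fun p => 1 / 2 * (G p * (∑ i, a i * h i p) ^ 2) - Gb * (6 * r * B * ε) ^ 2)
      ≤ Int2 T P (fun p => G p * (((∑ i, c i * v i p) + (a 3 * l1 p + a 4 * l2 p))
        * ((∑ i, c i * v i p) + (a 3 * l1 p + a 4 * l2 p)))) := by
    refine Int2_mono hT hP ((continuous_const.mul (hGc.mul (hsc.pow 2))).sub continuous_const)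
      (hGc.mul (hwc.mul hwc)) fun p hp => ?_
    rw [hsum a p hp, hval p hp]
    set κ := ∑ i, c i * k i p with hκ
    have hd : |κ * (odd φ (u p) - u p)| ≤ 6 * r * B * ε := by
      rw [abs_mul]
      calc |κ| * |odd φ (u p) - u p| ≤ 3 * r * B * (2 * ε) :=
            mul_le_mul (hkb p) (hcut.near _) (abs_nonneg _) (by positivity)
        _ = 6 * r * B * ε := by ring
    have hd2 : (κ * (odd φ (u p) - u p)) ^ 2 ≤ (6 * r * B * ε) ^ 2 := by
      rw [← sq_abs]
      exact pow_le_pow_left₀ (abs_nonneg _) hd 2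
    have g0 := (hpos p hp).le
    have g1 : G p ≤ Gb := le_of_abs_le (hGb p hp)
    have g2 : G p * (κ * (odd φ (u p) - u p)) ^ 2 ≤ Gb * (6 * r * B * ε) ^ 2 :=
      mul_le_mul g1 hd2 (sq_nonneg _) hGb0
    have g3 : 0 ≤ G p * (κ * u p + a 3 * l1 p + a 4 * l2 p + 2 * (κ * (odd φ (u p) - u p))) ^ 2 :=
      mul_nonneg g0 (sq_nonneg _)
    nlinarith
  rw [Int2_sub (f := fun p => 1 / 2 * (G p * (∑ i, a i * h i p) ^ 2))
    (g := fun _ => Gb * (6 * r * B * ε) ^ 2)
    (continuous_const.mul (hGc.mul (hsc.pow 2))) continuous_const, Int2_cmul,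
    Int2_const] at hlow
  have hq := hcoer a
  have hs := le_of_abs_le hsmall
  have hr2 : 0 < r ^ 2 := by positivity
  have e1 : C * (3 * r * B) ^ 2 * ε = r ^ 2 * (9 * C * B ^ 2 * ε) := by ring
  have e2 : 2 * T * P * (Gb * (6 * r * B * ε) ^ 2) ≤ r ^ 2 * (72 * T * P * Gb * B ^ 2 * ε) := by
    have : 2 * T * P * (Gb * (6 * r * B * ε) ^ 2) = r ^ 2 * (72 * T * P * Gb * B ^ 2 * ε) * ε := by
      ring
    rw [this]
    exact mul_le_of_le_one_right (by positivity) hε1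
  have e3 : r ^ 2 * (9 * C * B ^ 2 * ε) + r ^ 2 * (72 * T * P * Gb * B ^ 2 * ε) ≤ r ^ 2 * (γ / 4) := by
    rw [← mul_add]
    refine mul_le_mul_of_nonneg_left ?_ hr2.le
    have : 9 * C * B ^ 2 * ε + 72 * T * P * Gb * B ^ 2 * ε = ε * M := by rw [hM]; ring
    rw [this]
    nlinarith
  have e4 : 0 < γ * r ^ 2 := mul_pos hγ hr2
  linarith

end Pool.Agent.P.MP_785924_gt
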