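import Pool.Agent.P.MP_785924_gt.B.IfaceB
import Pool.Agent.P.MP_785924_gt.A.IfaceA
import Pool.Agent.P.MP_785924_gt.B.Tb1

/-! Step NOD6 of the free boundary annulus project. -/

namespace Pool.Agent.P.MP_785924_gt

open scoped ContDiff
open Set Filter Topology

namespace Nod6Aux

lemma sgn {x y z : ℝ} (h1 : 0 < x * y) (h2 : 0 < z * y) : 0 < x * z := by
  by_contra h
  nlinarith [mul_pos h1 h2, mul_self_nonneg y]

lemma par {s : Fin 6 → ℝ} (h0 : s 0 ≠ 0) (h : ∀ m : Fin 5, s m.succ * s m.castSucc < 0)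
    {i j : Fin 6} (hij : 0 < s i * s j) : i.val % 2 = j.val % 2 := by
  have H : ∀ i : Fin 6, 0 < (-1) ^ i.val * s 0 * s i := by
    intro i
    induction i using Fin.induction with
    | zero => simpa using h0
    | succ m ih =>
      have k : 0 < -s m.succ * s m.castSucc := by linarith [h m]
      have := sgn ih k
      rw [Fin.val_succ, pow_succ]
      rw [Fin.val_castSucc] at this
      linarith
  by_contra hc
  have ho : Odd (i.val + j.val) := by
    rw [Nat.odd_iff]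
    omega
  have e := ho.neg_one_pow (α := ℝ)
  rw [pow_add] at e
  have k := mul_pos (H i) (H j)
  have k2 : (-1) ^ i.val * s 0 * s i * ((-1) ^ j.val * s 0 * s j) =
      (-1) ^ i.val * (-1) ^ j.val * (s 0 * s 0 * (s i * s j)) := by ring
  rw [k2, e] at k
  nlinarith [mul_self_nonneg (s 0)]

/-- the class of a point -/
def cls (P : ℝ) (U : Set (ℝ × ℝ)) (r : ℝ × ℝ) : Set (ℝ × ℝ) := {q | Rel P U r q}

/-- the points chosen on one boundary circle -/
def Dat (T P σ : ℝ) (u : ℝ × ℝ → ℝ) (b : Fin 6 → ℝ) : Prop :=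
  StrictMono b ∧ b 5 < b 0 + P ∧ (∀ i, (σ, b i) ∈ UZ T u) ∧ ∀ m : Fin 5,
    u (σ, b m.succ) * u (σ, b m.castSucc) < 0 ∧ ∃ e ∈ strip T, u e = 0 ∧ dS u e ≠ 0 ∧
      ∀ᶠ q in 𝓝[strip T] e, (0 < u q * u (σ, b m.succ) → Rel P (UZ T u) (σ, b m.succ) q) ∧
        (0 < u q * u (σ, b m.castSucc) → Rel P (UZ T u) (σ, b m.castSucc) q)

variable {T P σ : ℝ} {u : ℝ × ℝ → ℝ}

lemma dat (hCLS : S_CLS) (hT : 0 < T) (hP : 0 < P) (hu : Sm P u) (hσ : σ = T ∨ σ = -T)
    (h : Alt6 P (lev σ u)) : ∃ b, Dat T P σ u b := by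
  obtain ⟨-, sy, tr, me, -, -, -, arc, loc⟩ := hCLS T P u hT hP hu
  obtain ⟨z, zm, zP, zn, zz⟩ := h
  have hs : σ ∈ Icc (-T) T := by
    rcases hσ with rfl | rfl <;> constructor <;> linarith
  have lt : ∀ i : Fin 6, z i.castSucc < z i.succ := fun i => zm Fin.castSucc_lt_succ
  refine ⟨fun i => (z i.castSucc + z i.succ) / 2, fun i j hij => ?_, ?_, fun i => ⟨hs, ?_⟩,
    fun m => ?_⟩
  · have h1 := zm (Fin.castSucc_lt_castSucc_iff.2 hij)
    have h2 := zm (Fin.succ_lt_succ_iff.2 hij)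
    simp only
    linarith
  · have h1 := lt 5
    have h2 := lt 0
    have e1 : (5 : Fin 6).succ = 6 := rfl
    have e2 : (0 : Fin 6).castSucc = 0 := rfl
    rw [e1] at h1
    rw [e2] at h2
    simp only [e1, e2]
    linarith
  · exact zn i _ ⟨by linarith [lt i], by linarith [lt i]⟩
  · have e : m.castSucc.succ = m.succ.castSucc := rfl
    have l1 := lt m.castSucc
    have l2 := lt m.succ
    have n1 := zn m.castSucc
    have n2 := zn m.succ
    simp only [e] at l1 n1 ⊢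
    have d0 : dS u (σ, z m.succ.castSucc) ≠ 0 := by
      have := (zz m).2
      rwa [deriv_lev hu.1] at this
    obtain ⟨δ, δ0, δ1, s1, ev⟩ := loc (σ, z m.succ.castSucc) hs (zz m).1 d0
      (min ((z m.succ.castSucc - z m.castSucc.castSucc) / 2)
        ((z m.succ.succ - z m.succ.castSucc) / 2)) (lt_min (by linarith) (by linarith))
    obtain ⟨δ2, δ3⟩ := lt_min_iff.1 δ1
    have r1 := arc σ hs ((z m.castSucc.castSucc + z m.succ.castSucc) / 2) (z m.succ.castSucc - δ)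
      (by linarith) fun s h => n1 s ⟨by linarith [h.1], by linarith [h.2]⟩
    have r2 := arc σ hs (z m.succ.castSucc + δ) ((z m.succ.castSucc + z m.succ.succ) / 2)
      (by linarith) fun s h => n2 s ⟨by linarith [h.1], by linarith [h.2]⟩
    have p1 := (me _ _ r1).2.2
    have p2 := (me _ _ r2).2.2
    refine ⟨?_, _, hs, (zz m).1, d0, ev.mono fun q hq => ⟨fun h => ?_, fun h => ?_⟩⟩
    · have k1 : 0 < -u (σ, z m.succ.castSucc + δ) * u (σ, z m.succ.castSucc - δ) := by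
        linarith
      have k2 := sgn k1 p1
      have k3 : 0 < -u (σ, (z m.castSucc.castSucc + z m.succ.castSucc) / 2) *
          u (σ, z m.succ.castSucc + δ) := by linarith
      have k4 := sgn k3 ((mul_comm _ _).trans_gt p2)
      linarith
    · exact tr _ _ _ (sy _ _ r2) (hq.1 (sgn h p2))
    · exact tr _ _ _ r1 (hq.2 (sgn h (by rwa [mul_comm] at p1)))

lemma cls_eq (hCLS : S_CLS) (hT : 0 < T) (hP : 0 < P) (hu : Sm P u) {r r' : ℝ × ℝ}
    (h : r' ∈ UZ T u) : cls P (UZ T u) r = cls P (UZ T u) r' ↔ Rel P (UZ T u) r r' := by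
  obtain ⟨rf, sy, tr, -⟩ := hCLS T P u hT hP hu
  refine ⟨fun e => ?_, fun e => Set.ext fun q => ⟨tr _ _ _ (sy _ _ e), tr _ _ _ e⟩⟩
  have : r' ∈ cls P (UZ T u) r' := rf r' h
  rwa [← e] at this

lemma side (hCLS : S_CLS) (hNC : S_NC) (hT : 0 < T) (hP : 0 < P) (hu : Sm P u)
    (hσ : σ = T ∨ σ = -T) {b b' : Fin 6 → ℝ} {σ' : ℝ} (e : σ' = -σ) (h : Dat T P σ u b)
    (h' : Dat T P σ' u b') :
    Side (fun i => cls P (UZ T u) (σ, b i)) (fun i => cls P (UZ T u) (σ', b' i)) := by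
  subst e
  obtain ⟨-, sy, -, me, pe, -⟩ := hCLS T P u hT hP hu
  obtain ⟨bm, bP, bU, bs⟩ := h
  have bU' := h'.2.2.1
  refine ⟨fun i j e => par (s := fun i => u (σ, b i)) (bU 0).2 (fun m => (bs m).1)
    (me _ _ ((cls_eq hCLS hT hP hu (bU j)).1 e)).2.2, fun i j k l hij hjk hl e => ?_⟩
  obtain ⟨d, d1, d2, d3⟩ : ∃ d, b k < d ∧ d < b i + P ∧
      ∀ p, Rel P (UZ T u) p (σ, d) ↔ Rel P (UZ T u) p (σ, b l) := by
    rcases hl with hl | hl
    · refine ⟨b l + P, ?_, by linarith [bm hl], fun p => pe p σ _⟩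
      linarith [bm.monotone (Fin.le_last k), bm.monotone (Fin.zero_le l),
        show b (Fin.last 5) = b 5 from rfl]
    · refine ⟨b l, bm hl, ?_, fun p => Iff.rfl⟩
      linarith [bm.monotone (Fin.le_last l), bm.monotone (Fin.zero_le i),
        show b (Fin.last 5) = b 5 from rfl]
  obtain ⟨n1, n2⟩ := hNC T P (UZ T u) hT hP (fun p hp => hp.1)
    (fun t s => and_congr Iff.rfl (by rw [hu.2 t s])) σ hσ (b i) (b j) (b k) d (bm hij) (bm hjk)
    d1 d2 ((cls_eq hCLS hT hP hu (bU k)).1 e)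
  simp only [cls_eq hCLS hT hP hu (bU _), cls_eq hCLS hT hP hu (bU' _)]
  refine ⟨fun h => n1 ((d3 _).2 h), ?_⟩
  rintro ⟨m, h1⟩ ⟨m', h2⟩
  exact (n2 _ _ h1 (sy _ _ ((d3 _).2 (sy _ _ h2)))).imp id (d3 _).1

lemma edge (hCLS : S_CLS) (hT : 0 < T) (hP : 0 < P) (hu : Sm P u) {b : Fin 6 → ℝ}
    (h : Dat T P σ u b) (r : Fin 5 → ℝ × ℝ) (m : Fin 5) :
    ∃ (e : ℝ × ℝ) (kp km : Fin 5 → ℝ), (e ∈ strip T ∧ u e = 0 ∧ dS u e ≠ 0 ∧
      ∀ᶠ q in 𝓝[strip T] e, ∀ i, (0 < u q → ind P (UZ T u) (r i) q = kp i) ∧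
        (u q < 0 → ind P (UZ T u) (r i) q = km i)) ∧
      ∀ a : Fin 5 → ℝ, ∑ i, a i * kp i = ∑ i, a i * km i →
        lab (fun i => cls P (UZ T u) (r i)) a (cls P (UZ T u) (σ, b m.castSucc)) =
          lab (fun i => cls P (UZ T u) (r i)) a (cls P (UZ T u) (σ, b m.succ)) := by
  obtain ⟨-, sy, tr, -⟩ := hCLS T P u hT hP hu
  obtain ⟨-, -, bU, bs⟩ := h
  obtain ⟨s, e, e1, e2, e3, ev⟩ := bs m
  have ie : ∀ r p q, Rel P (UZ T u) p q → ind P (UZ T u) r q = ind P (UZ T u) r p := by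
    intro r p q h
    unfold ind
    classical
    exact if_congr ⟨fun k => tr _ _ _ k (sy _ _ h), fun k => tr _ _ _ k h⟩ rfl rfl
  have le : ∀ (a : Fin 5 → ℝ) (j : Fin 6), ∑ i, a i * ind P (UZ T u) (r i) (σ, b j) =
      lab (fun i => cls P (UZ T u) (r i)) a (cls P (UZ T u) (σ, b j)) := by
    intro a j
    unfold lab ind
    refine Finset.sum_congr rfl fun i _ => ?_
    by_cases k : Rel P (UZ T u) (r i) (σ, b j)
    · rw [if_pos k, if_pos ((cls_eq hCLS hT hP hu (bU j)).2 k), mul_one]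
    · rw [if_neg k, if_neg (mt (cls_eq hCLS hT hP hu (bU j)).1 k), mul_zero]
  rcases mul_neg_iff.1 s with ⟨s1, s2⟩ | ⟨s1, s2⟩
  · refine ⟨e, fun i => ind P (UZ T u) (r i) (σ, b m.succ),
      fun i => ind P (UZ T u) (r i) (σ, b m.castSucc), ⟨e1, e2, e3, ev.mono fun q hq i =>
        ⟨fun k => ie _ _ _ (hq.1 (mul_pos k s1)), fun k => ie _ _ _ (hq.2 (mul_pos_of_neg_of_neg k s2))⟩⟩,
      fun a k => ?_⟩
    rw [← le, ← le, k]
  · refine ⟨e, fun i => ind P (UZ T u) (r i) (σ, b m.castSucc),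
      fun i => ind P (UZ T u) (r i) (σ, b m.succ), ⟨e1, e2, e3, ev.mono fun q hq i =>
        ⟨fun k => ie _ _ _ (hq.2 (mul_pos k s2)), fun k => ie _ _ _ (hq.1 (mul_pos_of_neg_of_neg k s1))⟩⟩,
      fun a k => ?_⟩
    rw [← le, ← le, k]

end Nod6Aux

open Nod6Aux

theorem p_NOD6 (hCLS : S_CLS) (hNC : S_NC) (hCOMB : S_COMB) (hNEG1 : S_NEG1) :
    S_NOD6 := by
  intro T P W K u hT hP hW hK hJ a1 a2
  have hu := hJ.sm
  obtain ⟨b, h⟩ := dat hCLS hT hP hu (Or.inl rfl) a1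
  obtain ⟨b', h'⟩ := dat hCLS hT hP hu (Or.inr rfl) a2
  obtain ⟨g, -, g1, g2⟩ := hCOMB _ _ _ (side hCLS hNC hT hP hu (Or.inl rfl) rfl h h')
    (side hCLS hNC hT hP hu (Or.inr rfl) (neg_neg T).symm h' h)
  have hr : ∀ i, ∃ r, g i = cls P (UZ T u) r := fun i =>
    (g1 i).elim (fun ⟨_, e⟩ => ⟨_, e⟩) fun ⟨_, e⟩ => ⟨_, e⟩
  choose r hr using hr
  obtain rfl : g = fun i => cls P (UZ T u) (r i) := funext hr
  choose e kp km p q using edge hCLS hT hP hu h r
  choose e' kp' km' p' q' using edge hCLS hT hP hu h' r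
  refine hNEG1 T P W K u (fun i => ind P (UZ T u) (r i)) (5 + 5) (Fin.append e e')
    (Fin.append kp kp') (Fin.append km km') hT hP hW hK hJ
    (fun i => (hCLS T P u hT hP hu).2.2.2.2.2.2.1 _) (fun j => ?_) fun a ha => ?_
  · refine Fin.addCases (fun j => ?_) (fun j => ?_) j
    · simpa only [Fin.append_left] using p j
    · simpa only [Fin.append_right] using p' j
  · refine g2 a (fun m => q m a ?_) fun m => q' m a ?_
    · simpa only [Fin.append_left] using ha (Fin.castAdd 5 m)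
    · simpa only [Fin.append_right] using ha (Fin.natAdd 5 m)

end Pool.Agent.P.MP_785924_gt
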