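import Pool.Agent.P.MP_785924_gt.B.IfaceB
import Pool.Agent.P.MP_785924_gt.A.IfaceA
import Pool.Agent.P.MP_785924_gt.A.Tb
import Pool.Agent.P.MP_785924_gt.B.Tb1

/-! Step ORAA of the free boundary annulus project. -/

namespace Pool.Agent.P.MP_785924_gt

open scoped ContDiff
open Set Filter Topology

theorem p_ORAA (hTRANS : S_TRANS) (hUQ4 : S_UQ4) (hSQ1 : S_SQ1) (hSQ4 : S_SQ4) :
    S_ORAA := by
  intro c ρ C0 T P κ w hI hκ htop
  have hρ := hI.hρ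
  have hT := hI.hT
  have hμ : 1 / ρ ^ 2 < muK ρ κ ^ 2 :=
    (hSQ1 ρ κ (fun _ => 0) (fun _ => 0) (fun _ => 0) hρ hκ fun θ =>
      ⟨(hasDerivAt_const θ (0 : ℝ)).congr_deriv (by ring),
       (hasDerivAt_const θ (0 : ℝ)).congr_deriv (by ring)⟩).2.2.2
  have htop' := (hSQ4 ρ P κ (lev T w) hρ hκ (hI.sm.lev T)).1 htop
  refine (hSQ4 ρ P κ (lev (-T) w) hρ hκ (hI.sm.lev (-T))).2 ?_
  generalize muK ρ κ = μ at *
  intro f0 g0 u0 h3
  obtain ⟨k, hk⟩ : ∃ k, k = C0 / ρ := ⟨_, rfl⟩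
  have hkc : 1 / ρ ^ 2 = k ^ 2 + c := by
    rw [hk]; field_simp; linarith [hI.hCρ]
  have hdiv : ∀ y : ℝ, y / ρ ^ 2 = y * (k ^ 2 + c) := fun y => by rw [← hkc]; ring
  have hL : SysL c μ w (-T) f0 g0 (fun s => -k * f0 s) u0 := by
    intro s
    have h := h3 s
    simp only [lev] at h
    refine ⟨h.1, h.2.1, (h.1.const_mul (-k)).congr_deriv ?_, h.2.2.congr_deriv ?_⟩
    · rw [hI.bot s, ← hk]; ring
    · rw [hI.bot s, ← hk, hdiv]; ring
  obtain ⟨f, g, l1, l2, hZ, hb, -⟩ := hTRANS c ρ C0 T P μ (-T) w f0 g0 _ u0 hI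
    ⟨le_rfl, by linarith⟩ hL
  have mT : ∀ s : ℝ, ((T, s) : ℝ × ℝ) ∈ strip T := fun s => ⟨by simp only; linarith, le_rfl⟩
  have mB : ∀ s : ℝ, ((-T, s) : ℝ × ℝ) ∈ strip T := fun s => ⟨le_rfl, by simp only; linarith⟩
  have df : ∀ s, HasDerivAt (lev T f) (Real.exp (w (T, s)) * l2 (T, s)) s := fun s =>
    (hasLev hZ.sf T s).congr_deriv (hZ.eS _ (mT s)).1
  have dg : ∀ s, HasDerivAt (lev T g) (l2 (T, s) / Real.exp (w (T, s))) s := fun s =>
    (hasLev hZ.sg T s).congr_deriv (hZ.eS _ (mT s)).2.1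
  have d1 : ∀ s, HasDerivAt (lev T l1) (dT w (T, s) * l2 (T, s)) s := fun s =>
    (hasLev hZ.s1 T s).congr_deriv (hZ.eS _ (mT s)).2.2.1
  have d2 := fun s => (hasLev hZ.s2 T s).congr_deriv (hZ.eS _ (mT s)).2.2.2
  have hD : ∀ s, HasDerivAt (fun s => lev T l1 s - k * lev T f s) 0 s := fun s =>
    ((d1 s).fun_sub ((df s).const_mul k)).congr_deriv (by rw [hI.top s, ← hk]; ring)
  obtain ⟨d, hd⟩ : ∃ d, ∀ s, l1 (T, s) = k * f (T, s) + d := by
    refine ⟨l1 (T, 0) - k * f (T, 0), fun s => ?_⟩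
    have := is_const_of_deriv_eq_zero (fun s => (hD s).differentiableAt)
      (fun s => (hD s).deriv) s 0
    simp only [lev] at this
    linarith
  have hn : k ^ 2 + c - μ ^ 2 ≠ 0 := by rw [← hkc]; linarith
  obtain ⟨f1, hf1⟩ : ∃ f1, f1 * (k ^ 2 + c - μ ^ 2) = -(k * d) :=
    ⟨-(k * d) / (k ^ 2 + c - μ ^ 2), div_mul_cancel₀ _ hn⟩
  have h3T : Sys3 ρ (lev T w) μ (fun s => lev T f s - f1) (fun s => lev T g s - μ * f1)
      (lev T l2) := by
    intro s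
    refine ⟨(df s).sub_const f1, (dg s).sub_const _, (d2 s).congr_deriv ?_⟩
    simp only [lev]
    rw [hI.top s, ← hk, hdiv, hd s]
    have e : g (T, s) - μ * f1 - μ * (f (T, s) - f1) = g (T, s) - μ * f (T, s) := by ring
    rw [e]
    linear_combination (-Real.exp (w (T, s))) * hf1
  obtain ⟨e1, e2, e3⟩ := htop' _ _ _ h3T
  simp only [lev] at e1 e2 e3
  have hU := hUQ4 c μ T w f g l1 l2 hI.sm.1 hZ
  have hS := (hU.2.2 P hI.sm.2).lin hZ 1 (-1)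
  have key := (hUQ4 c μ T w _ _ _ _ hI.sm.1 hS).1 (T, 0) (mT 0)
    (by simp only [zero_add]; linarith) (by simp only [zero_add]; linarith)
    (by simp only [zero_add]; rw [hd, hd]; linear_combination k * e1)
    (by simp only [zero_add]; linarith) (-T, 0) (mB 0)
  simp only [zero_add] at key
  obtain ⟨k1, k2, -, k4⟩ := key
  rw [(hb P).1, (hb 0).1] at k1
  rw [(hb P).2.1, (hb 0).2.1] at k2
  rw [(hb P).2.2.2, (hb 0).2.2.2] at k4
  exact ⟨by linarith, by linarith, by linarith⟩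

end Pool.Agent.P.MP_785924_gt
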