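import Pool.Agent.P.MP_785924_gt.B.IfaceB
import Pool.Agent.P.MP_785924_gt.A.IfaceA
import Pool.Agent.P.MP_785924_gt.A.Tb

/-! Step ORAB of the free boundary annulus project. -/

namespace Pool.Agent.P.MP_785924_gt

open scoped ContDiff
open Set Filter Topology

namespace OrabAux

variable {c ρ μ T P σ m : ℝ} {w f g l1 l2 : ℝ × ℝ → ℝ}

theorem sysL_of3 {f g u : ℝ → ℝ} (hw : ∀ s, dT w (σ, s) = m * Real.exp (w (σ, s)))
    (hm : m ^ 2 + c = 1 / ρ ^ 2) (h : Sys3 ρ (lev σ w) μ f g u) :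
    SysL c μ w σ f g (fun s => m * f s) u := by
  intro s
  obtain ⟨h1, h2, h3⟩ := h s
  simp only [lev] at h1 h2 h3
  refine ⟨h1, h2, (h1.const_mul m).congr_deriv (by rw [hw]; ring), h3.congr_deriv ?_⟩
  rw [hw, div_eq_mul_one_div (f s), ← hm]; ring

theorem sys3_of4 (hw : ∀ s, dT w (σ, s) = m * Real.exp (w (σ, s)))
    (hm : m ^ 2 + c = 1 / ρ ^ 2) (hσ : σ ∈ Icc (-T) T) (h : Sys4 c μ T w f g l1 l2)
    (h1 : ∀ s, l1 (σ, s) = m * f (σ, s)) :
    Sys3 ρ (lev σ w) μ (lev σ f) (lev σ g) (lev σ l2) := by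
  intro s
  obtain ⟨a1, a2, -, a4⟩ := h.eS (σ, s) (mem_strip_of_Icc hσ s)
  refine ⟨(hasLev h.sf σ s).congr_deriv a1, (hasLev h.sg σ s).congr_deriv a2,
    (hasLev h.s2 σ s).congr_deriv ?_⟩
  simp only [lev]
  rw [a4, hw, h1, div_eq_mul_one_div (f (σ, s)), ← hm]; ring

theorem const_lev (hw : ∀ s, dT w (σ, s) = m * Real.exp (w (σ, s)))
    (hσ : σ ∈ Icc (-T) T) (h : Sys4 c μ T w f g l1 l2) (s : ℝ) :
    l1 (σ, s) - m * f (σ, s) = l1 (σ, 0) - m * f (σ, 0) := by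
  have hd : ∀ s, HasDerivAt (fun s => lev σ l1 s - m * lev σ f s) 0 s := fun s => by
    obtain ⟨a1, -, a3, -⟩ := h.eS (σ, s) (mem_strip_of_Icc hσ s)
    refine ((hasLev h.s1 σ s).fun_sub ((hasLev h.sf σ s).const_mul m)).congr_deriv ?_
    rw [a1, a3, hw]; ring
  exact is_const_of_deriv_eq_zero (fun s => (hd s).differentiableAt) (fun s => (hd s).deriv) s 0

theorem sysL_const {f0 : ℝ} (hw : ∀ s, dT w (σ, s) = m * Real.exp (w (σ, s)))
    (hf : (c - μ ^ 2) * f0 = -m) :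
    SysL c μ w σ (fun _ => f0) (fun _ => μ * f0) (fun _ => 1) (fun _ => 0) := by
  intro s
  refine ⟨(hasDerivAt_const s _).congr_deriv (by simp), (hasDerivAt_const s _).congr_deriv (by simp),
    (hasDerivAt_const s _).congr_deriv (by simp), (hasDerivAt_const s _).congr_deriv ?_⟩
  rw [hw, sub_self, zero_div]
  linear_combination Real.exp (w (σ, s)) * hf

theorem alt6_mul {v : ℝ → ℝ} {b : ℝ} (hb : b ≠ 0) (h : Alt6 P v) : Alt6 P (fun θ => b * v θ) := by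
  obtain ⟨z, h1, h2, h3, h4⟩ := h
  refine ⟨z, h1, h2, fun i θ hθ => mul_ne_zero hb (h3 i θ hθ), fun i => ⟨?_, ?_⟩⟩
  · simp only [(h4 i).1, mul_zero]
  · rw [deriv_const_mul_field]
    exact mul_ne_zero hb (h4 i).2

theorem sm_wedge {f' g' l1' l2' : ℝ × ℝ → ℝ} (h : Sys4 c μ T w f g l1 l2)
    (h' : Sys4 c μ T w f' g' l1' l2') (hp : Per4 P f g l1 l2) (hp' : Per4 P f' g' l1' l2') :
    Sm P (fun q => l1 q * l2' q - l2 q * l1' q) :=
  (Sm.mul ⟨h.s1, hp.2.2.1⟩ ⟨h'.s2, hp'.2.2.2⟩).sub (Sm.mul ⟨h.s2, hp.2.2.2⟩ ⟨h'.s1, hp'.2.2.1⟩)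

theorem robin (hJACU : S_JACU) {f' g' l1' l2' : ℝ × ℝ → ℝ} {f0 s : ℝ} (hT : 0 < T)
    (hs : ContDiff ℝ ∞ w) (hσ : σ ∈ Icc (-T) T) (hf : (c - μ ^ 2) * f0 = -m)
    (h : Sys4 c μ T w f g l1 l2) (h' : Sys4 c μ T w f' g' l1' l2')
    (e : f (σ, s) = f0 ∧ g (σ, s) = μ * f0 ∧ l1 (σ, s) = 1 ∧ l2 (σ, s) = 0) :
    dT (fun q => l1 q * l2' q - l2 q * l1' q) (σ, s) = m * Real.exp (w (σ, s)) * l2' (σ, s) := by
  rw [(hJACU c μ T w f g l1 l2 f' g' l1' l2' hT hs h h' (σ, s) (mem_strip_of_Icc hσ s)).2,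
    e.1, e.2.1, e.2.2.2, sub_self, zero_mul, zero_mul, zero_mul, sub_self, zero_div]
  linear_combination (-(Real.exp (w (σ, s)) * l2' (σ, s))) * hf

end OrabAux

open OrabAux in
theorem p_ORAB (hTRANS : S_TRANS) (hUQ4 : S_UQ4) (hJACU : S_JACU) (hSQ1 : S_SQ1) (hSQ2 : S_SQ2) (hSQ3 : S_SQ3) (hALT : S_ALT) (hNOD6 : S_NOD6) :
    S_ORAB := by
  intro c ρ C0 T P κ w φ1 φ2 hI hκ hgb hgt hS hPM hns
  have hρ := hI.hρ
  have hT := hI.hT
  have hws := hI.sm.1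
  obtain ⟨q1, q2, q3, q4⟩ := hSQ1 ρ κ (lev (-T) w) φ1 φ2 hρ hκ hS.1
  have hsq2 := hSQ2 ρ P κ (lev (-T) w) φ1 φ2
  have hsq3 := hSQ3 ρ P κ (lev T w)
  generalize muK ρ κ = μ at q1 q2 q4 hsq2 hsq3
  obtain ⟨k, hk⟩ : ∃ k, k = C0 / ρ := ⟨_, rfl⟩
  have hk2 : k ^ 2 + c = 1 / ρ ^ 2 := by
    rw [hk]; field_simp; linear_combination hI.hCρ
  have hk2' : (-k) ^ 2 + c = 1 / ρ ^ 2 := by rw [neg_sq]; exact hk2
  have hD : c - μ ^ 2 ≠ 0 := by
    have : c - μ ^ 2 < 0 := by nlinarith [sq_nonneg k]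
    exact this.ne
  have hwt : ∀ s, dT w (T, s) = k * Real.exp (w (T, s)) := fun s => by rw [hk]; exact hI.top s
  have hwb : ∀ s, dT w (-T, s) = -k * Real.exp (w (-T, s)) := fun s => by
    rw [hk, hI.bot s]; ring
  have mt : T ∈ Icc (-T) T := ⟨by linarith, le_rfl⟩
  have mb : -T ∈ Icc (-T) T := ⟨le_rfl, by linarith⟩
  obtain ⟨f0, hf0⟩ : ∃ f0, (c - μ ^ 2) * f0 = k := ⟨k / (c - μ ^ 2), by field_simp⟩
  have hfb : (c - μ ^ 2) * f0 = - -k := by rw [neg_neg]; exact hf0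
  have hft : (c - μ ^ 2) * -f0 = -k := by rw [← hf0]; ring
  have hn : 1 + k * f0 ≠ 0 := by
    intro h0
    have : (c - μ ^ 2) * (1 + k * f0) = 1 / ρ ^ 2 - μ ^ 2 := by
      linear_combination k * hf0 + hk2
    rw [h0] at this
    linarith
  obtain ⟨sg, hsg, hper⟩ := hPM
  have hsg2 : sg ^ 2 = 1 := by rcases hsg with h | h <;> simp [h]
  have pf : Function.Periodic (fS ρ κ φ1 φ2) P := fun θ => by
    simp only [fS, (hper θ).1, (hper θ).2, mul_pow, hsg2, one_mul]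
  have pg : Function.Periodic (gS κ φ1 φ2) P := fun θ => by
    simp only [gS, (hper θ).1, (hper θ).2, mul_pow, hsg2, one_mul]
  have pu : Function.Periodic (fun θ => φ1 θ * φ2 θ) P := fun θ => by
    simp only [(hper θ).1, (hper θ).2]
    linear_combination (φ1 θ * φ2 θ) * hsg2
  obtain ⟨fL, gL, aL, bL, sL, vL, pL⟩ := hTRANS c ρ C0 T P μ (-T) w _ _ _ _ hI mb
    (sysL_of3 hwb hk2' q1)
  replace pL := pL pf pg (fun θ => by simp only [pf θ]) pu
  obtain ⟨fM, gM, aM, bM, sM, vM, pM⟩ := hTRANS c ρ C0 T P μ (-T) w _ _ _ _ hI mb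
    (sysL_const hwb hfb)
  replace pM := pM (fun _ => rfl) (fun _ => rfl) (fun _ => rfl) (fun _ => rfl)
  obtain ⟨fN, gN, aN, bN, sN, vN, pN⟩ := hTRANS c ρ C0 T P μ T w _ _ _ _ hI mt
    (sysL_const hwt hft)
  replace pN := pN (fun _ => rfl) (fun _ => rfl) (fun _ => rfl) (fun _ => rfl)
  obtain ⟨a, ha⟩ : ∃ a, a * (1 + k * f0) = aN (-T, 0) + k * fN (-T, 0) :=
    ⟨(aN (-T, 0) + k * fN (-T, 0)) / (1 + k * f0), by field_simp⟩
  have sZ := sN.lin sM 1 (-a)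
  have hZ : ∀ s, 1 * aN (-T, s) + -a * aM (-T, s) = -k * (1 * fN (-T, s) + -a * fM (-T, s)) := by
    intro s
    have := const_lev hwb mb sZ s
    simp only [(vM 0).1, (vM 0).2.2.1] at this
    linear_combination this - ha
  obtain ⟨τ, hτ⟩ := hsq2 _ _ _ hρ hκ (hI.sm.lev (-T)) hS ⟨sg, hsg, hper⟩ hns
    (sys3_of4 hwb hk2' mb sZ hZ)
    (by simp only [lev]; rw [← zero_add P, pN.1, pM.1])
    (by simp only [lev]; rw [← zero_add P, pN.2.1, pM.2.1])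
    (by simp only [lev]; rw [← zero_add P, pN.2.2.2, pM.2.2.2])
  simp only [lev] at hτ
  have hY := (hUQ4 c μ T w _ _ _ _ hws (sZ.lin sL 1 (-τ))).1 (-T, 0) (bot_mem hT 0)
    (by simp only [(vL 0).1, (hτ 0).1]; ring) (by simp only [(vL 0).2.1, (hτ 0).2.1]; ring)
    (by simp only [(vL 0).2.2.1, hZ 0, (hτ 0).1]; ring)
    (by simp only [(vL 0).2.2.2, (hτ 0).2.2]; ring)
  have hN : ∀ q ∈ strip T, fN q = a * fM q + τ * fL q ∧ gN q = a * gM q + τ * gL q ∧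
      aN q = a * aM q + τ * aL q ∧ bN q = a * bM q + τ * bL q := fun q hq => by
    obtain ⟨y1, y2, y3, y4⟩ := hY q hq
    exact ⟨by linear_combination y1, by linear_combination y2, by linear_combination y3,
      by linear_combination y4⟩
  have fLL : form4 c μ fL gL aL bL fL gL aL bL (-T, 0) = 0 := by
    simp only [form4, (vL 0).1, (vL 0).2.1, (vL 0).2.2.1, (vL 0).2.2.2]
    have := q2 0
    rw [div_eq_mul_one_div, ← hk2] at this
    linear_combination this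
  have fML : form4 c μ fM gM aM bM fL gL aL bL (-T, 0) = 0 := by
    simp only [form4, (vL 0).1, (vL 0).2.2.1, (vM 0).1, (vM 0).2.1, (vM 0).2.2.1, (vM 0).2.2.2]
    linear_combination (fS ρ κ φ1 φ2 0) * hf0
  have fMM : form4 c μ fM gM aM bM fM gM aM bM (-T, 0) = 1 + k * f0 := by
    simp only [form4, (vM 0).1, (vM 0).2.1, (vM 0).2.2.1, (vM 0).2.2.2]
    linear_combination f0 * hf0
  obtain ⟨n1, n2, n3, n4⟩ := hN (-T, 0) (bot_mem hT 0)
  have ha0 : a ≠ 0 := by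
    intro h0
    have e := (hUQ4 c μ T w _ _ _ _ hws sN).2.1 _ _ _ _ sN (T, 0) (top_mem hT 0) (-T, 0)
      (bot_mem hT 0)
    simp only [form4, (vN 0).1, (vN 0).2.1, (vN 0).2.2.1, (vN 0).2.2.2, n1, n2, n3, n4, h0] at e
    simp only [form4] at fLL
    apply hn
    linear_combination e + τ ^ 2 * fLL - f0 * hf0
  have hLt : ∀ s, aL (T, s) = k * fL (T, s) := fun s => by
    have e := (hUQ4 c μ T w _ _ _ _ hws sN).2.1 _ _ _ _ sL (T, s) (top_mem hT s) (-T, 0)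
      (bot_mem hT 0)
    simp only [form4, (vN s).1, (vN s).2.1, (vN s).2.2.1, (vN s).2.2.2, n1, n2, n3, n4] at e
    simp only [form4] at fLL fML
    linear_combination e + τ * fLL + a * fML + fL (T, s) * hf0
  obtain ⟨ψ1, ψ2, hψ, hψP, τ', hτ', hu⟩ := hsq3 _ _ _ hρ hκ (hI.sm.lev T)
    (sys3_of4 hwt hk2 mt sL hLt)
    (by simp only [lev]; rw [← zero_add P, pL.1])
    (by simp only [lev]; rw [← zero_add P, pL.2.1])
    (by simp only [lev]; rw [← zero_add P, pL.2.2.2])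
    (by
      have e := (hUQ4 c μ T w _ _ _ _ hws sL).2.1 _ _ _ _ sL (T, 0) (top_mem hT 0) (-T, 0)
        (bot_mem hT 0)
      rw [fLL] at e
      simp only [form4, hLt 0] at e
      simp only [lev]
      rw [div_eq_mul_one_div, ← hk2]
      linear_combination e)
    (by
      by_contra h0
      simp only [lev, not_or, not_not] at h0
      obtain ⟨z1, z2, -, -⟩ := (hUQ4 c μ T w _ _ _ _ hws sL).1 (T, 0) (top_mem hT 0) h0.1 h0.2.1
        (by rw [hLt, h0.1, mul_zero]) h0.2.2 (-T, 0) (bot_mem hT 0)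
      rw [(vL 0).1] at z1
      rw [(vL 0).2.1] at z2
      obtain ⟨r1, r2⟩ := q3 0
      rw [z1, z2] at r1 r2
      rcases hS.2 with h | h
      · exact h (pow_eq_zero_iff two_ne_zero |>.1 (by rw [r1]; simp))
      · exact h (pow_eq_zero_iff two_ne_zero |>.1 (by rw [r2]; simp)))
  simp only [lev] at hu
  have hκ0 : 0 < κ := by linarith
  have smU := sm_wedge sM sL pM pL
  have smV := sm_wedge sN sL pN pL
  have hVU : ∀ q ∈ strip T, aN q * bL q - bN q * aL q = a * (aM q * bL q - bM q * aL q) :=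
    fun q hq => by rw [(hN q hq).2.2.1, (hN q hq).2.2.2]; ring
  have hUt : ∀ s, a * (aM (T, s) * bL (T, s) - bM (T, s) * aL (T, s)) = bL (T, s) := fun s => by
    rw [← hVU _ (top_mem hT s), (vN s).2.2.1, (vN s).2.2.2]; ring
  refine hNOD6 T P _ _ (fun q => aM q * bL q - bM q * aL q) hT hI.hP (sm_WJ hI.sm c)
    (sm_KB hI.sm ρ C0) ⟨smU, fun p hp => (hJACU c μ T w _ _ _ _ _ _ _ _ hT hws sM sL p hp).1,
      fun s => ?_, fun s => ?_⟩ ?_ ?_
  · have e1 := robin hJACU hT hws mt hft sN sL (vN s)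
    rw [dT_congr hT (top_mem hT s) (smV.diff _) ((smU.cmul a).diff _) hVU,
      dT_cmul a (smU.diff _)] at e1
    apply mul_left_cancel₀ ha0
    rw [e1, KB, ← hk]
    linear_combination (-(k * Real.exp (w (T, s)))) * hUt s
  · rw [robin hJACU hT hws mb hfb sM sL (vM s), KB, ← hk]
    simp only [(vM s).2.2.1, (vM s).2.2.2]
    ring
  · have e : lev T (fun q => aM q * bL q - bM q * aL q) = fun θ => τ' / a * (ψ1 θ * ψ2 θ) := by
      funext s
      simp only [lev]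
      apply mul_left_cancel₀ ha0
      rw [hUt s, hu s]; field_simp
    rw [e]
    exact alt6_mul (div_ne_zero hτ' ha0)
      (hALT ρ P κ _ ψ1 ψ2 hρ hI.hP hκ0 (hI.sm.lev T) hψ hψP (hgt _ _ hψ))
  · have e : lev (-T) (fun q => aM q * bL q - bM q * aL q) = fun θ => φ1 θ * φ2 θ := by
      funext s
      simp only [lev, (vM s).2.2.1, (vM s).2.2.2, (vL s).2.2.2]
      ring
    rw [e]
    exact hALT ρ P κ _ φ1 φ2 hρ hI.hP hκ0 (hI.sm.lev (-T)) hS ⟨sg, hsg, hper⟩ (hgb _ _ hS)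

end Pool.Agent.P.MP_785924_gt
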