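import Pool.Agent.P.MP_785924_gt.B.IfaceB

/-! Step PIECE of the free boundary annulus project. -/

namespace Pool.Agent.P.MP_785924_gt

open scoped ContDiff
open Set Filter Topology

namespace PieceAux

/-- Retraction onto the strip. -/
def cl (T : ℝ) (p : ℝ × ℝ) : ℝ × ℝ := (max (-T) (min T p.1), p.2)

theorem cl_cont (T : ℝ) : Continuous (cl T) := by
  unfold cl
  fun_prop

theorem cl_mem {T : ℝ} (hT : 0 < T) (p : ℝ × ℝ) : cl T p ∈ strip T :=
  mem_strip.2 ⟨le_max_left _ _, max_le (by linarith) (min_le_left _ _)⟩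

theorem cl_eq {T : ℝ} {p : ℝ × ℝ} (hp : p ∈ strip T) : cl T p = p := by
  obtain ⟨t, s⟩ := p
  rw [mem_strip] at hp
  simp only [cl, min_eq_right hp.2, max_eq_right hp.1]

theorem cl_dist {T d t : ℝ} (hT : 0 < T) (hd : 0 < d) (ht : |t| ≤ T + d) :
    |t - max (-T) (min T t)| ≤ d := by
  rw [abs_le] at ht ⊢
  rcases le_total T t with h | h
  · rw [min_eq_left h, max_eq_right (by linarith)]
    constructor <;> linarith
  · rw [min_eq_right h]
    rcases le_total (-T) t with h' | h'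
    · rw [max_eq_right h']
      constructor <;> linarith
    · rw [max_eq_left h']
      constructor <;> linarith

theorem near {T P ε : ℝ} {u : ℝ × ℝ → ℝ} (hT : 0 < T) (hP : 0 < P) (hε : 0 < ε) (hu : Sm P u) :
    ∃ d, 0 < d ∧ ∀ p : ℝ × ℝ, |p.1| ≤ T + d → |u p - u (cl T p)| < ε := by
  obtain ⟨B, hB, h⟩ := bound_strip hP hu.dT.cont hu.dT.2 (T + 1)
  have h1 : 0 < ε / (B + 1) := by positivity
  refine ⟨min 1 (ε / (B + 1)), lt_min one_pos h1, fun ⟨t, s⟩ ht => ?_⟩
  have h2 := cl_dist hT (lt_min one_pos h1) ht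
  have h3 := abs_le.1 (ht.trans (add_le_add_right (min_le_left _ _) T))
  have h4 := mem_strip.1 (cl_mem hT (t, s))
  have h5 := (convex_Icc (-(T + 1)) (T + 1)).norm_image_sub_le_of_norm_hasDerivWithin_le
    (f := fun τ => u (τ, s)) (f' := fun τ => dT u (τ, s)) (C := B)
    (x := max (-T) (min T t)) (y := t) (fun τ _ => (hasT (hu.diff _)).hasDerivWithinAt)
    (fun τ hτ => h _ (mem_strip_of_Icc hτ s)) ⟨by linarith [h4.1], by linarith [h4.2]⟩ h3
  refine lt_of_le_of_lt h5 ?_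
  have h6 : B * |t - max (-T) (min T t)| ≤ B * (ε / (B + 1)) :=
    mul_le_mul_of_nonneg_left (h2.trans (min_le_right _ _)) hB
  have h7 : (B + 1) * (ε / (B + 1)) = ε := by field_simp
  rw [Real.norm_eq_abs]
  linarith

end PieceAux

open PieceAux in
theorem p_PIECE :
    S_PIECE := by
  intro T P ε u k φ hT hP hε hu hk hφ h0
  obtain ⟨d, hd, hn⟩ := near hT hP hε hu
  let χ : ContDiffBump (0 : ℝ) := ⟨T + d / 4, T + d / 2, by linarith, by linarith⟩
  have key : ∀ p : ℝ × ℝ, (fun q : ℝ × ℝ => χ q.1 * (k (cl T q) * φ (u q))) =ᶠ[𝓝 p]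
      fun q => χ q.1 * (k (cl T p) * φ (u q)) := by
    intro p
    by_cases h1 : T + d / 2 < |p.1|
    · have : ∀ᶠ q : ℝ × ℝ in 𝓝 p, T + d / 2 < |q.1| :=
        (continuous_fst.abs.tendsto p).eventually (lt_mem_nhds h1)
      filter_upwards [this] with q hq
      rw [χ.zero_of_le_dist (by rw [Real.dist_eq, sub_zero]; exact hq.le), zero_mul, zero_mul]
    by_cases h2 : |u p| < ε
    · have : ∀ᶠ q : ℝ × ℝ in 𝓝 p, |u q| < ε :=
        (hu.cont.abs.tendsto p).eventually (gt_mem_nhds h2)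
      filter_upwards [this] with q hq
      simp only [h0 _ hq.le, mul_zero]
    have h3 : u (cl T p) ≠ 0 := fun e => h2 (by
      simpa only [e, sub_zero] using hn p (by linarith [not_lt.1 h1]))
    have h4 : Tendsto (cl T) (𝓝 p) (𝓝[strip T] (cl T p)) :=
      tendsto_nhdsWithin_iff.2 ⟨(cl_cont T).tendsto p, Eventually.of_forall (cl_mem hT)⟩
    filter_upwards [h4.eventually (hk.2.2 _ (cl_mem hT p) h3)] with q hq
    rw [hq]
  refine ⟨fun q => χ q.1 * (k (cl T q) * φ (u q)), ⟨contDiff_iff_contDiffAt.2 fun p => ?_,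
    fun t s => ?_⟩, fun p hp => ?_⟩
  · exact ((χ.contDiff.comp contDiff_fst).mul
      (contDiff_const.mul (hφ.comp hu.1))).contDiffAt.congr_of_eventuallyEq (key p)
  · simp only [cl, hk.2.1 _ s, hu.2 t s]
  · have h1 : (fun q : ℝ × ℝ => χ q.1 * (k (cl T q) * φ (u q))) =ᶠ[𝓝 p]
        fun q => k p * φ (u q) := by
      have h2 : |p.1| < T + d / 4 := by
        have := abs_le.2 (mem_strip.1 (show (p.1, p.2) ∈ strip T from hp))
        linarith
      have : ∀ᶠ q : ℝ × ℝ in 𝓝 p, |q.1| < T + d / 4 :=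
        (continuous_fst.abs.tendsto p).eventually (gt_mem_nhds h2)
      filter_upwards [this, key p] with q hq hq'
      rw [hq', cl_eq hp, χ.one_of_mem_closedBall
        (by rw [Metric.mem_closedBall, Real.dist_eq, sub_zero]; exact hq.le), one_mul]
    have h3 : HasDerivAt φ (deriv φ (u p)) (u p) := (hφ.differentiable (by simp) _).hasDerivAt
    have h4 : DifferentiableAt ℝ (fun q => φ (u q)) p := (hu.comp hφ).diff p
    refine ⟨h1.self_of_nhds, ?_, ?_⟩
    · rw [← dT_comp h3 (hu.diff p), ← dT_cmul _ h4, dT, dT, h1.fderiv_eq]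
    · rw [← dS_comp h3 (hu.diff p), ← dS_cmul _ h4, dS, dS, h1.fderiv_eq]

end Pool.Agent.P.MP_785924_gt
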