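import Pool.Agent.P.MP_785924_gt.B.IfaceB
import Pool.Agent.P.MP_785924_gt.A.Tb
import Pool.Agent.P.MP_785924_gt.B.Tb1

/-! Step ROT of the free boundary annulus project. -/

namespace Pool.Agent.P.MP_785924_gt

open scoped ContDiff
open Set Filter Topology

namespace RotAux

theorem sys_dS {c μ T : ℝ} {w f g l1 l2 : ℝ × ℝ → ℝ} (hT : 0 < T) (hw : ContDiff ℝ ∞ w)
    (h0 : ∀ p ∈ strip T, dS w p = 0) (h : Sys4 c μ T w f g l1 l2) :
    Sys4 c μ T w (dS f) (dS g) (dS l1) (dS l2) := by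
  have main : ∀ t s, (t, s) ∈ strip T → SysT c μ w (dS f) (dS g) (dS l1) (dS l2) (t, s) ∧
      SysS c μ w (dS f) (dS g) (dS l1) (dS l2) (t, s) := by
    intro t s hp
    have hp' : ∀ τ, (t, τ) ∈ strip T := fun τ => hp
    have hX : Real.exp (w (t, s)) ≠ 0 := (Real.exp_pos _).ne'
    have sw := hasS (cd_diff hw (t, s))
    have sf := hasS (cd_diff h.sf (t, s))
    have sg := hasS (cd_diff h.sg (t, s))
    have s1 := hasS (cd_diff h.s1 (t, s))
    have s2 := hasS (cd_diff h.s2 (t, s))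
    have ss := hasS (cd_diff (cd_dS hw) (t, s))
    have st := hasS (cd_diff (cd_dT hw) (t, s))
    have z1 : dS (dS w) (t, s) = 0 := by
      rw [dS_congr hT hp (cd_diff (cd_dS hw) _) (differentiableAt_const 0) h0, dS_const]
    have z2 : dS (dT w) (t, s) = 0 := by
      rw [← dT_dS hw, dT_congr hT hp (cd_diff (cd_dS hw) _) (differentiableAt_const 0) h0, dT_const]
    rw [h0 _ hp] at sw
    rw [z1] at ss
    rw [z2] at st
    refine ⟨⟨?_, ?_, ?_, ?_⟩, ?_, ?_, ?_, ?_⟩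
    · rw [dT_dS h.sf]
      refine dS_eq (cd_diff (cd_dT h.sf) _) ?_
      simp only [fun τ => (h.eT (t, τ) (hp' τ)).1]
      exact (sw.exp.fun_mul s1).congr_deriv (by ring)
    · rw [dT_dS h.sg]
      refine dS_eq (cd_diff (cd_dT h.sg) _) ?_
      simp only [fun τ => (h.eT (t, τ) (hp' τ)).2.1]
      exact (s1.fun_div sw.exp hX).fun_neg.congr_deriv (by field_simp; ring)
    · rw [dT_dS h.s1]
      refine dS_eq (cd_diff (cd_dT h.s1) _) ?_
      simp only [fun τ => (h.eT (t, τ) (hp' τ)).2.2.1]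
      exact (((ss.fun_mul s2).fun_neg.fun_add
        (sw.exp.fun_mul ((sf.const_mul c).fun_neg.fun_add (sg.const_mul μ)))).fun_add
        ((sg.fun_sub (sf.const_mul μ)).fun_div sw.exp hX)).congr_deriv (by field_simp; ring)
    · rw [dT_dS h.s2]
      refine dS_eq (cd_diff (cd_dT h.s2) _) ?_
      simp only [fun τ => (h.eT (t, τ) (hp' τ)).2.2.2]
      exact (ss.fun_mul s1).congr_deriv (by ring)
    · refine dS_eq (cd_diff (cd_dS h.sf) _) ?_
      simp only [fun τ => (h.eS (t, τ) (hp' τ)).1]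
      exact (sw.exp.fun_mul s2).congr_deriv (by ring)
    · refine dS_eq (cd_diff (cd_dS h.sg) _) ?_
      simp only [fun τ => (h.eS (t, τ) (hp' τ)).2.1]
      exact (s2.fun_div sw.exp hX).congr_deriv (by field_simp; ring)
    · refine dS_eq (cd_diff (cd_dS h.s1) _) ?_
      simp only [fun τ => (h.eS (t, τ) (hp' τ)).2.2.1]
      exact (st.fun_mul s2).congr_deriv (by ring)
    · refine dS_eq (cd_diff (cd_dS h.s2) _) ?_
      simp only [fun τ => (h.eS (t, τ) (hp' τ)).2.2.2]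
      exact (((st.fun_mul s1).fun_neg.fun_add
        (sw.exp.fun_mul ((sf.const_mul c).fun_neg.fun_add (sg.const_mul μ)))).fun_sub
        ((sg.fun_sub (sf.const_mul μ)).fun_div sw.exp hX)).congr_deriv (by field_simp; ring)
  exact ⟨cd_dS h.sf, cd_dS h.sg, cd_dS h.s1, cd_dS h.s2, fun p hp => (main p.1 p.2 hp).1,
    fun p hp => (main p.1 p.2 hp).2⟩

/-- The matrix of the cross product with `o`. -/
def dm (o : Fin 3 → ℝ) : Fin 3 → Fin 3 → ℝ := ![![0, -o 2, o 1], ![o 2, 0, -o 0], ![-o 1, o 0, 0]]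

theorem exists_axis (a b n : Fin 3 → ℝ) (α β : ℝ) : ∃ o : Fin 3 → ℝ, ∀ (y : Fin 3 → ℝ) (i : Fin 3),
    dm o i 0 * y 0 + dm o i 1 * y 1 + dm o i 2 * y 2 =
      α * (b i * (a 0 * y 0 + a 1 * y 1 + a 2 * y 2) - a i * (b 0 * y 0 + b 1 * y 1 + b 2 * y 2)) -
      β * (n i * (b 0 * y 0 + b 1 * y 1 + b 2 * y 2) - b i * (n 0 * y 0 + n 1 * y 1 + n 2 * y 2)) := by
  refine ⟨![α * (a 1 * b 2 - a 2 * b 1) - β * (b 1 * n 2 - b 2 * n 1),
    α * (a 2 * b 0 - a 0 * b 2) - β * (b 2 * n 0 - b 0 * n 2),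
    α * (a 0 * b 1 - a 1 * b 0) - β * (b 0 * n 1 - b 1 * n 0)], fun y i => ?_⟩
  fin_cases i <;> simp [dm] <;> ring

theorem rot_apply (b y : Fin 3 → ℝ) (φ : ℝ) (i : Fin 3) :
    rot b φ y i = Real.cos φ * y i + Real.sin φ * (dm b i 0 * y 0 + dm b i 1 * y 1 + dm b i 2 * y 2)
      + (1 - Real.cos φ) * ((b 0 * y 0 + b 1 * y 1 + b 2 * y 2) * b i) := by
  simp only [rot, Pi.add_apply, Pi.smul_apply, smul_eq_mul]
  fin_cases i <;> simp [dm, cross_apply, dotProduct, Fin.sum_univ_three] <;> ring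

theorem rot_ode (b y : Fin 3 → ℝ) (hb : b 0 * b 0 + b 1 * b 1 + b 2 * b 2 = 1) (om τ : ℝ)
    (i : Fin 3) : HasDerivAt (fun τ => rot b (om * τ) y i)
      (∑ j, om * dm b i j * rot b (om * τ) y j) τ := by
  have h0 : HasDerivAt (fun τ : ℝ => om * τ) om τ := by
    simpa using (hasDerivAt_id τ).const_mul om
  simp only [rot_apply, Fin.sum_univ_three]
  refine (((h0.cos.mul_const _).fun_add (h0.sin.mul_const _)).fun_add
    ((h0.cos.const_sub 1).mul_const _)).congr_deriv ?_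
  fin_cases i
  · simp [dm]
    linear_combination (om * Real.sin (om * τ) * y 0) * hb
  · simp [dm]
    linear_combination (om * Real.sin (om * τ) * y 1) * hb
  · simp [dm]
    linear_combination (om * Real.sin (om * τ) * y 2) * hb

theorem unit_axis (o : Fin 3 → ℝ) (h : ¬ ∀ i j, dm o i j = 0) : ∃ (b : Fin 3 → ℝ) (om : ℝ),
    0 < om ∧ b 0 * b 0 + b 1 * b 1 + b 2 * b 2 = 1 ∧ ∀ i j, om * dm b i j = dm o i j := by
  have hne : 0 < o 0 * o 0 + o 1 * o 1 + o 2 * o 2 := by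
    by_contra hn
    have m0 := mul_self_nonneg (o 0)
    have m1 := mul_self_nonneg (o 1)
    have m2 := mul_self_nonneg (o 2)
    have n0 : o 0 = 0 := mul_self_eq_zero.1 (by linarith)
    have n1 : o 1 = 0 := mul_self_eq_zero.1 (by linarith)
    have n2 : o 2 = 0 := mul_self_eq_zero.1 (by linarith)
    refine h fun i j => ?_
    fin_cases i <;> fin_cases j <;> simp [dm, n0, n1, n2]
  obtain ⟨om, hom, hom2⟩ : ∃ om : ℝ, 0 < om ∧ om * om = o 0 * o 0 + o 1 * o 1 + o 2 * o 2 :=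
    ⟨√_, Real.sqrt_pos.2 hne, Real.mul_self_sqrt hne.le⟩
  refine ⟨fun i => o i / om, om, hom, ?_, fun i j => ?_⟩
  · field_simp
    linear_combination -hom2
  · fin_cases i <;> fin_cases j <;> simp [dm] <;> field_simp

end RotAux

open RotAux in
theorem p_ROT (hUQ4 : S_UQ4) :
    S_ROT := by
  intro c ρ C0 T P w x e1 e2 ν h h0
  have hT := h.intr.hT
  have hw := h.intr.sm.1
  have hρ := h.intr.hρ
  have hp0 := bot_mem hT 0
  have hcc : c * c = 1 := by rcases h.intr.hc with e | e <;> rw [e] <;> norm_num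
  have hC := h.intr.hCρ
  obtain ⟨b1, b2, b3, b4, b5⟩ := h.alg.bot 0
  obtain ⟨o1, -, o3, o4, -, o6, o7, -, -, o10⟩ := h.alg.orth _ hp0
  simp only [ip, vec, b1, b2, b3] at o1 o3 o4 o6 o7 o10
  have wt := h.intr.bot 0
  have hX : 0 < Real.exp (w (-T, 0)) := Real.exp_pos _
  obtain ⟨o, ho⟩ := exists_axis (sp x (-T, 0)) (sp e2 (-T, 0)) (sp ν (-T, 0))
    (Real.exp (w (-T, 0)) / ρ ^ 2) (1 / Real.exp (w (-T, 0)))
  have cm : ∀ (y : Fin 4 → ℝ × ℝ → ℝ) (i : Fin 3) p, cmp4 (dm o i) y p =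
      dm o i 0 * sp y p 0 + dm o i 1 * sp y p 1 + dm o i 2 * sp y p 2 := fun y i p => rfl
  have q1 : sp x (-T, 0) 0 * sp x (-T, 0) 0 + sp x (-T, 0) 1 * sp x (-T, 0) 1 +
      sp x (-T, 0) 2 * sp x (-T, 0) 2 = ρ ^ 2 := by
    change x 1 _ * x 1 _ + x 2 _ * x 2 _ + x 3 _ * x 3 _ = _
    linear_combination o1 - c * hC + ρ ^ 2 * hcc
  have q2 : sp e2 (-T, 0) 0 * sp e2 (-T, 0) 0 + sp e2 (-T, 0) 1 * sp e2 (-T, 0) 1 +
      sp e2 (-T, 0) 2 * sp e2 (-T, 0) 2 = 1 := by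
    change e2 1 _ * e2 1 _ + e2 2 _ * e2 2 _ + e2 3 _ * e2 3 _ = _
    linear_combination o3
  have q3 : sp ν (-T, 0) 0 * sp ν (-T, 0) 0 + sp ν (-T, 0) 1 * sp ν (-T, 0) 1 +
      sp ν (-T, 0) 2 * sp ν (-T, 0) 2 = 1 := by
    change ν 1 _ * ν 1 _ + ν 2 _ * ν 2 _ + ν 3 _ * ν 3 _ = _
    linear_combination o4
  have q4 : sp x (-T, 0) 0 * sp e2 (-T, 0) 0 + sp x (-T, 0) 1 * sp e2 (-T, 0) 1 +
      sp x (-T, 0) 2 * sp e2 (-T, 0) 2 = 0 := by
    change x 1 _ * e2 1 _ + x 2 _ * e2 2 _ + x 3 _ * e2 3 _ = _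
    linear_combination o6
  have q5 : sp x (-T, 0) 0 * sp ν (-T, 0) 0 + sp x (-T, 0) 1 * sp ν (-T, 0) 1 +
      sp x (-T, 0) 2 * sp ν (-T, 0) 2 = 0 := by
    change x 1 _ * ν 1 _ + x 2 _ * ν 2 _ + x 3 _ * ν 3 _ = _
    linear_combination o7
  have q6 : sp e2 (-T, 0) 0 * sp ν (-T, 0) 0 + sp e2 (-T, 0) 1 * sp ν (-T, 0) 1 +
      sp e2 (-T, 0) 2 * sp ν (-T, 0) 2 = 0 := by
    change e2 1 _ * ν 1 _ + e2 2 _ * ν 2 _ + e2 3 _ * ν 3 _ = _
    linear_combination o10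
  have r1 : ∀ i, cmp4 (dm o i) x (-T, 0) = Real.exp (w (-T, 0)) * e2 i.succ (-T, 0) := by
    intro i
    rw [cm, ho, q1]
    simp only [mul_comm (sp e2 _ _) (sp x _ _), mul_comm (sp ν _ _) (sp x _ _), q4, q5]
    change _ = _ * sp e2 (-T, 0) i
    field_simp
    ring
  have r2 : ∀ i, cmp4 (dm o i) ν (-T, 0) = e2 i.succ (-T, 0) / Real.exp (w (-T, 0)) := by
    intro i
    rw [cm, ho, q3, q5, q6]
    change _ = sp e2 (-T, 0) i / _
    ring
  have r3 : ∀ i, cmp4 (dm o i) e1 (-T, 0) = -(C0 / ρ * cmp4 (dm o i) x (-T, 0)) := by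
    intro i
    have u0 : e1 1 (-T, 0) = -(C0 / ρ * x 1 (-T, 0)) := b5 0
    have u1 : e1 2 (-T, 0) = -(C0 / ρ * x 2 (-T, 0)) := b5 1
    have u2 : e1 3 (-T, 0) = -(C0 / ρ * x 3 (-T, 0)) := b5 2
    simp only [cmp4, u0, u1, u2]
    ring
  have r4 : ∀ i, cmp4 (dm o i) e2 (-T, 0) = -(Real.exp (w (-T, 0)) / ρ ^ 2 * x i.succ (-T, 0))
      - ν i.succ (-T, 0) / Real.exp (w (-T, 0)) := by
    intro i
    rw [cm, ho, q2, q4]
    simp only [mul_comm (sp ν _ _) (sp e2 _ _), q6]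
    change _ = -(_ * sp x (-T, 0) i) - sp ν (-T, 0) i / _
    ring
  have z0 : ∀ q ∈ strip T, dS (x 0) q = 0 := by
    obtain ⟨a1, a2, a3, a4⟩ := (h.sys 0).eS _ hp0
    refine fun q hq => ((hUQ4 c 0 T w _ _ _ _ hw (sys_dS hT hw h0 (h.sys 0))).1 _ hp0 ?_ ?_ ?_ ?_
      q hq).1
    · rw [a1, b3, mul_zero]
    · rw [a2, b3, zero_div]
    · rw [a3, b3, mul_zero]
    · rw [a4, wt, b1, b2, b4]
      field_simp
      ring
  have zi : ∀ (i : Fin 3), ∀ q ∈ strip T, dS (x i.succ) q = cmp4 (dm o i) x q := by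
    intro i q hq
    obtain ⟨a1, a2, a3, a4⟩ := (h.sys i.succ).eS _ hp0
    have := ((hUQ4 c 0 T w _ _ _ _ hw
      ((sys_dS hT hw h0 (h.sys i.succ)).lin (h.sysv (dm o i)) 1 (-1))).1 _ hp0 ?_ ?_ ?_ ?_ q hq).1
    · linarith
    · rw [a1, r1]; ring
    · rw [a2, r2]; ring
    · rw [a3, r3, r1, wt]; ring
    · rw [a4, r4, wt, b5 i]
      field_simp
      linear_combination (-(Real.exp (w (-T, 0)) ^ 2 * x i.succ (-T, 0))) * hC
  obtain ⟨b, om, hom, hb, hd⟩ := unit_axis o (fun hz => by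
    have k : ∀ i, sp e2 (-T, 0) i = 0 := by
      intro i
      have k1 := r1 i
      rw [cm, hz, hz, hz, zero_mul, zero_mul, zero_mul, add_zero, add_zero] at k1
      exact (mul_eq_zero.1 k1.symm).resolve_left hX.ne'
    simp [k] at q2)
  refine ⟨b, om, by simpa [dotProduct, Fin.sum_univ_three] using hb, hom.ne', ?_⟩
  rintro ⟨t, s⟩ hp τ
  have hp' : ∀ τ, (t, τ) ∈ strip T := fun τ => hp
  have dx : ∀ a τ, HasDerivAt (fun τ => x a (t, s + τ)) (dS (x a) (t, s + τ)) τ := fun a τ =>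
    (hasS ((h.alg.smx a).diff (t, s + τ))).comp_const_add s τ
  constructor
  · have := is_const_of_deriv_eq_zero (f := fun τ => x 0 (t, s + τ))
      (fun τ => (dx 0 τ).differentiableAt) (fun τ => by rw [(dx 0 τ).deriv, z0 _ (hp' _)]) τ 0
    simpa using this
  · funext i
    have key := uqn (n := 3)
      (y := fun i τ => sp x (t, s + τ) i - rot b (om * τ) (sp x (t, s)) i)
      (A := fun i j _ => dm o i j) (t0 := 0) (fun _ _ => continuous_const)
      (fun i τ => ((dx i.succ τ).fun_sub (rot_ode _ (sp x (t, s)) hb om τ i)).congr_deriv (by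
        rw [zi i _ (hp' _), cm]
        simp only [hd, Fin.sum_univ_three]
        ring))
      (fun i => by simp [rot]) i τ
    exact sub_eq_zero.1 key

end Pool.Agent.P.MP_785924_gt
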