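import Pool.Agent.P.MP_785924_gt.B.IfaceB

/-! Step SC1 of the free boundary annulus project. -/

namespace Pool.Agent.P.MP_785924_gt

open scoped ContDiff
open Set Filter Topology

namespace Sc1Aux

variable {f : ℝ × ℝ → ℝ} {r T P : ℝ}

theorem cd_sc (h : ContDiff ℝ ∞ f) (r : ℝ) : ContDiff ℝ ∞ (sc r f) :=
  h.comp ((contDiff_fst.div_const r).prodMk (contDiff_snd.div_const r))

theorem dT_sc (h : ContDiff ℝ ∞ f) (r : ℝ) (p : ℝ × ℝ) :
    dT (sc r f) p = dT f (p.1 / r, p.2 / r) / r := by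
  obtain ⟨t, s⟩ := p
  refine dT_eq (cd_diff (cd_sc h r) _) ?_
  have h1 : HasDerivAt (fun τ : ℝ => τ / r) (1 / r) t := (hasDerivAt_id t).div_const r
  have h2 := HasDerivAt.comp (h₂ := fun τ => f (τ, s / r)) t (hasT (cd_diff h (t / r, s / r))) h1
  exact h2.congr_deriv (by ring)

theorem dS_sc (h : ContDiff ℝ ∞ f) (r : ℝ) (p : ℝ × ℝ) :
    dS (sc r f) p = dS f (p.1 / r, p.2 / r) / r := by
  obtain ⟨t, s⟩ := p
  refine dS_eq (cd_diff (cd_sc h r) _) ?_
  have h1 : HasDerivAt (fun τ : ℝ => τ / r) (1 / r) s := (hasDerivAt_id s).div_const r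
  have h2 := HasDerivAt.comp (h₂ := fun τ => f (t / r, τ)) s (hasS (cd_diff h (t / r, s / r))) h1
  exact h2.congr_deriv (by ring)

theorem sm_sc (h : Sm P f) (hr : 0 < r) : Sm (r * P) (sc r f) := by
  refine ⟨cd_sc h.1 r, fun t s => ?_⟩
  have e : (s + r * P) / r = s / r + P := by field_simp
  simp only [sc, e, h.2 (t / r) (s / r)]

theorem mem_sc (hr : 0 < r) {p : ℝ × ℝ} (hp : p ∈ strip (r * T)) :
    ((p.1 / r, p.2 / r) : ℝ × ℝ) ∈ strip T := by
  refine ⟨?_, ?_⟩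
  · change -T ≤ p.1 / r
    rw [le_div_iff₀ hr]; linarith [hp.1]
  · change p.1 / r ≤ T
    rw [div_le_iff₀ hr]; linarith [hp.2]

theorem top_sc (hr : 0 < r) (T : ℝ) : r * T / r = T := by field_simp
theorem bot_sc (hr : 0 < r) (T : ℝ) : -(r * T) / r = -T := by field_simp

theorem dT_w (h : ContDiff ℝ ∞ f) (r a : ℝ) :
    dT (fun p => sc r f p - a) = fun p => r⁻¹ * sc r (dT f) p := by
  funext p
  rw [dT_sub (cd_diff (cd_sc h r) p) (differentiableAt_const a), dT_const, dT_sc h]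
  simp only [sc]; ring

theorem dS_w (h : ContDiff ℝ ∞ f) (r a : ℝ) :
    dS (fun p => sc r f p - a) = fun p => r⁻¹ * sc r (dS f) p := by
  funext p
  rw [dS_sub (cd_diff (cd_sc h r) p) (differentiableAt_const a), dS_const, dS_sc h]
  simp only [sc]; ring

theorem exp_w (hr : 0 < r) (a : ℝ) : Real.exp (a - Real.log r) = Real.exp a / r := by
  rw [Real.exp_sub, Real.exp_log hr]

end Sc1Aux

open Sc1Aux in
theorem p_SC1 (hFR2A : S_FR2A) :
    S_SC1 := by
  intro c ρ C0 T P h r σ w A B x e1 e2 ν hF hAB hr hσ hh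
  have hσ2 : σ * σ = 1 := by rcases hσ with rfl | rfl <;> norm_num
  have hh' : h = σ * r ^ 2 := by rw [← hh, ← mul_assoc, hσ2, one_mul]
  have hG := (hFR2A c ρ C0 T P w A B x e1 e2 ν hF).1
  have hw := hF.sm.1
  have hal := hF.alg
  have hr' := hr.ne'
  refine ⟨⟨hF.hc, hF.hρ, hF.hC, hF.hCρ, mul_pos hr hF.hT, mul_pos hr hF.hP,
    (sm_sc hF.sm hr).sub (Sm.const _ _), fun p hp => ?_, fun s => ?_, fun s => ?_⟩,
    ⟨fun a => sm_sc (hal.smx a) hr, fun a => sm_sc (hal.sm1 a) hr, fun a => sm_sc (hal.sm2 a) hr,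
      fun a => (sm_sc (hal.smν a) hr).cmul σ, fun p hp => ?_, fun p hp a b => ?_,
      fun p hp => hal.pos _ (mem_sc hr hp), fun s => ?_, fun s => ?_⟩, fun a => ?_⟩
  · have hq := mem_sc hr hp
    have g := hG.gauss _ hq
    obtain ⟨hA, hB⟩ := hAB _ hq
    rw [hA, hB, hh'] at g
    rw [dT_w hw, dS_w hw, dT_cmul _ (cd_diff (cd_sc (cd_dT hw) r) p),
      dS_cmul _ (cd_diff (cd_sc (cd_dS hw) r) p), dT_sc (cd_dT hw), dS_sc (cd_dS hw), exp_w hr]
    simp only [sc]
    have hX := (Real.exp_pos (w (p.1 / r, p.2 / r))).ne'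
    generalize Real.exp (w (p.1 / r, p.2 / r)) = X at g hX ⊢
    have e : dS (dS w) (p.1 / r, p.2 / r)
        = -(c * X ^ 2) + r ^ 4 / X ^ 2 - dT (dT w) (p.1 / r, p.2 / r) := by
      have : (σ * r ^ 2) ^ 2 + 0 ^ 2 = r ^ 4 := by linear_combination r ^ 4 * hσ2
      rw [this] at g
      linarith
    rw [e]
    field_simp
    ring
  · rw [dT_w hw, exp_w hr]
    simp only [sc, top_sc hr]
    rw [hG.top]; ring
  · rw [dT_w hw, exp_w hr]
    simp only [sc, bot_sc hr]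
    rw [hG.bot]; ring
  · obtain ⟨o1, o2, o3, o4, o5, o6, o7, o8, o9, o10⟩ := hal.orth _ (mem_sc hr hp)
    simp only [ip, vec, sc] at o1 o2 o3 o4 o5 o6 o7 o8 o9 o10 ⊢
    refine ⟨o1, o2, o3, ?_, o5, o6, ?_, o8, ?_, ?_⟩
    · linear_combination σ * σ * o4 + hσ2
    · linear_combination σ * o7
    · linear_combination σ * o9
    · linear_combination σ * o10
  · have o := hal.compl _ (mem_sc hr hp) a b
    simp only [sc]
    rw [← o]
    linear_combination (ν a (p.1 / r, p.2 / r) * ν b (p.1 / r, p.2 / r)) * hσ2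
  · obtain ⟨o1, o2, o3, o4, o5⟩ := hal.top (s / r)
    simp only [sc, top_sc hr]
    exact ⟨o1, by rw [o2, mul_zero], o3, o4, o5⟩
  · obtain ⟨o1, o2, o3, o4, o5⟩ := hal.bot (s / r)
    simp only [sc, bot_sc hr]
    exact ⟨o1, by rw [o2, mul_zero], o3, o4, o5⟩
  · have sx := (hal.smx a).1
    have s1 := (hal.sm1 a).1
    have s2 := (hal.sm2 a).1
    have sν := (hal.smν a).1
    refine ⟨cd_sc sx r, contDiff_const.mul (cd_sc sν r), cd_sc s1 r, cd_sc s2 r,
      fun p hp => ?_, fun p hp => ?_⟩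
    · have hq := mem_sc hr hp
      obtain ⟨q1, -, q3, -, q5, -, q7, -⟩ := hF.eq a _ hq
      obtain ⟨hA, hB⟩ := hAB _ hq
      rw [hA, hB] at q3
      rw [hA] at q5
      rw [hB] at q7
      have hX := (Real.exp_pos (w (p.1 / r, p.2 / r))).ne'
      simp only [SysT]
      rw [dS_w hw, exp_w hr, dT_cmul σ (cd_diff (cd_sc sν r) p), dT_sc sx, dT_sc sν, dT_sc s1,
        dT_sc s2, q1, q3, q5, q7, hh']
      simp only [sc]
      generalize Real.exp (w (p.1 / r, p.2 / r)) = X at hX ⊢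
      refine ⟨by ring, ?_, ?_, by ring⟩
      · field_simp
        linear_combination (-(r ^ 2 * e1 a (p.1 / r, p.2 / r))) * hσ2
      · field_simp
        ring
    · have hq := mem_sc hr hp
      obtain ⟨-, q2, -, q4, -, q6, -, q8⟩ := hF.eq a _ hq
      obtain ⟨hA, hB⟩ := hAB _ hq
      rw [hA, hB] at q4
      rw [hB] at q6
      rw [hA] at q8
      have hX := (Real.exp_pos (w (p.1 / r, p.2 / r))).ne'
      simp only [SysS]
      rw [dT_w hw, exp_w hr, dS_cmul σ (cd_diff (cd_sc sν r) p), dS_sc sx, dS_sc sν, dS_sc s1,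
        dS_sc s2, q2, q4, q6, q8, hh']
      simp only [sc]
      generalize Real.exp (w (p.1 / r, p.2 / r)) = X at hX ⊢
      refine ⟨by ring, ?_, by ring, ?_⟩
      · field_simp
        linear_combination (r ^ 2 * e2 a (p.1 / r, p.2 / r)) * hσ2
      · field_simp
        ring

end Pool.Agent.P.MP_785924_gt
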