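import Pool.Agent.P.MP_785924_gt.B.IfaceB
import Pool.Agent.P.MP_785924_gt.B.Tb1

/-! Step SC2 of the free boundary annulus project. -/

namespace Pool.Agent.P.MP_785924_gt

open scoped ContDiff
open Set Filter Topology

namespace Sc2Aux

theorem cd_scale {u : ℝ × ℝ → ℝ} (hu : ContDiff ℝ ∞ u) (r : ℝ) :
    ContDiff ℝ ∞ (fun p : ℝ × ℝ => u (r * p.1, r * p.2)) :=
  hu.comp ((contDiff_const.mul contDiff_fst).prodMk (contDiff_const.mul contDiff_snd))

theorem dT_scale {u : ℝ × ℝ → ℝ} (hu : ContDiff ℝ ∞ u) (r t s : ℝ) :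
    dT (fun p : ℝ × ℝ => u (r * p.1, r * p.2)) (t, s) = r * dT u (r * t, r * s) := by
  refine dT_eq (cd_diff (cd_scale hu r) _) ?_
  have h1 := hasT (t := r * t) (s := r * s) (cd_diff hu _)
  have h2 : HasDerivAt (fun τ : ℝ => r * τ) r t := by simpa using (hasDerivAt_id' t).const_mul r
  exact (h1.comp t h2).congr_deriv (mul_comm _ _)

theorem dS_scale {u : ℝ × ℝ → ℝ} (hu : ContDiff ℝ ∞ u) (r t s : ℝ) :
    dS (fun p : ℝ × ℝ => u (r * p.1, r * p.2)) (t, s) = r * dS u (r * t, r * s) := by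
  refine dS_eq (cd_diff (cd_scale hu r) _) ?_
  have h1 := hasS (t := r * t) (s := r * s) (cd_diff hu _)
  have h2 : HasDerivAt (fun τ : ℝ => r * τ) r s := by simpa using (hasDerivAt_id' s).const_mul r
  exact (h1.comp s h2).congr_deriv (mul_comm _ _)

theorem sub1 (F : ℝ → ℝ) (r P : ℝ) :
    (∫ s in (0 : ℝ)..P, r * F (r * s)) = ∫ s in (0 : ℝ)..(r * P), F s := by
  rw [intervalIntegral.integral_const_mul, intervalIntegral.mul_integral_comp_mul_left, mul_zero]

theorem sub2 (F : ℝ × ℝ → ℝ) (r T P : ℝ) :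
    (∫ t in (-T)..T, ∫ s in (0 : ℝ)..P, r * (r * F (r * t, r * s)))
      = ∫ t in (-(r * T))..(r * T), ∫ s in (0 : ℝ)..(r * P), F (t, s) := by
  have h : ∀ t, (∫ s in (0 : ℝ)..P, r * (r * F (r * t, r * s)))
      = r * ∫ s in (0 : ℝ)..(r * P), F (r * t, s) := fun t => by
    rw [intervalIntegral.integral_const_mul, sub1 (fun s => F (r * t, s))]
  simp only [h]
  rw [intervalIntegral.integral_const_mul,
    intervalIntegral.mul_integral_comp_mul_left (f := fun t => ∫ s in (0 : ℝ)..(r * P), F (t, s)),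
    mul_neg]

end Sc2Aux

open Sc2Aux in
theorem p_SC2 :
    S_SC2 := by
  intro M R T P r w x ν hT hP hr hw hg hN
  obtain ⟨v, hv, hneg⟩ := hN
  refine ⟨fun i p => v i (r * p.1, r * p.2), fun i => ⟨cd_scale (hv i).1 r, fun t s => ?_⟩,
    fun a ha => ?_⟩
  · simp only [mul_add]
    exact (hv i).2 _ _
  have hu : Sm (r * P) (fun p => ∑ i, a i * v i p) := Sm.lin hv a
  refine lt_of_eq_of_lt ?_ (hneg a ha)
  generalize hud : (fun p => ∑ i, a i * v i p) = u at hu ⊢
  have e0 : (fun p : ℝ × ℝ => ∑ i, a i * v i (r * p.1, r * p.2))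
      = fun p : ℝ × ℝ => u (r * p.1, r * p.2) := by rw [← hud]
  rw [e0]
  have hexp : ∀ t s, Real.exp (sc r w (r * t, r * s) - Real.log r) = Real.exp (w (t, s)) / r := by
    intro t s
    rw [Real.exp_sub, Real.exp_log hr]
    simp only [sc, mul_div_cancel_left₀ _ hr.ne']
  unfold secondVar Bf
  rw [← sub2 (fun p => dT u p * dT u p + dS u p * dS u p
      + WJ M.curv (fun p => sc r w p - Real.log r) p * (u p * u p)),
    ← sub1 (fun s => KB (M.sn R) (M.cs R) (fun p => sc r w p - Real.log r) (r * T, s)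
        * (u (r * T, s) * u (r * T, s))
      + KB (M.sn R) (M.cs R) (fun p => sc r w p - Real.log r) (-(r * T), s)
        * (u (-(r * T), s) * u (-(r * T), s)))]
  congr 1
  · refine intervalIntegral.integral_congr fun t ht => ?_
    rw [uIcc_of_le (by linarith)] at ht
    refine intervalIntegral.integral_congr fun s _ => ?_
    have h := hg (t, s) (mem_strip_of_Icc ht s)
    have hX := Real.exp_pos (w (t, s))
    simp only [dT_scale hu.1, dS_scale hu.1, WJ, hexp, h.1, h.2]
    field_simp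
    ring
  · refine intervalIntegral.integral_congr fun s _ => ?_
    have h1 := (hg (T, s) (top_mem hT s)).1
    have h2 := (hg (-T, s) (bot_mem hT s)).1
    have hX1 := Real.exp_pos (w (T, s))
    have hX2 := Real.exp_pos (w (-T, s))
    have hm : -(r * T) = r * -T := by ring
    simp only [KB, hm, hexp, h1, h2, Real.sqrt_sq hX1.le, Real.sqrt_sq hX2.le]
    generalize M.cs R / M.sn R = k
    field_simp

end Pool.Agent.P.MP_785924_gt
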