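import Pool.Agent.P.MP_785924_gt.B.IfaceB

/-! Step SMALL of the free boundary annulus project. -/

namespace Pool.Agent.P.MP_785924_gt

open scoped ContDiff
open Set Filter Topology

namespace SmallAux

theorem alg {o r q ε M : ℝ} (h0 : 0 < ε) (h1 : ε ≤ 1) (ho : |o - r| ≤ 2 * ε)
    (hq : |q - r| ≤ 2 * ε) (hr : |r| ≤ M) : |o * o - r * q| ≤ (6 * M + 4) * ε := by
  have e : o * o - r * q = (o - r) * ((o - r) + 2 * r) - r * (q - r) := by ring
  have hM : 0 ≤ M := (abs_nonneg r).trans hr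
  have a1 : |(o - r) + 2 * r| ≤ 2 + 2 * M := by
    refine (abs_add_le _ _).trans ?_
    rw [abs_mul, abs_two]
    linarith
  have a2 : |(o - r) * ((o - r) + 2 * r)| ≤ 2 * ε * (2 + 2 * M) := by
    rw [abs_mul]
    exact mul_le_mul ho a1 (abs_nonneg _) (by positivity)
  have a3 : |r * (q - r)| ≤ M * (2 * ε) := by
    rw [abs_mul]
    exact mul_le_mul hr hq (abs_nonneg _) hM
  rw [e]
  refine (abs_sub _ _).trans ?_
  nlinarith

theorem mul3 {a k d A B D : ℝ} (ha : |a| ≤ A) (hk : |k| ≤ B) (hd : |d| ≤ D) :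
    |a * (k ^ 2 * d)| ≤ A * (B ^ 2 * D) := by
  have hA : 0 ≤ A := (abs_nonneg _).trans ha
  have hB : 0 ≤ B := (abs_nonneg _).trans hk
  rw [abs_mul, abs_mul, abs_pow]
  exact mul_le_mul ha (mul_le_mul (pow_le_pow_left₀ (abs_nonneg _) hk 2) hd (abs_nonneg _)
    (by positivity)) (by positivity) hA

theorem abs_int_le {P C : ℝ} {f : ℝ → ℝ} (hP : 0 < P) (h : ∀ s, |f s| ≤ C) :
    |∫ s in (0 : ℝ)..P, f s| ≤ C * P := by
  have := intervalIntegral.norm_integral_le_of_norm_le_const (a := 0) (b := P) (f := f) (C := C)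
    fun s _ => h s
  rwa [sub_zero, abs_of_pos hP] at this

theorem cd_odd {φ : ℝ → ℝ} (h : ContDiff ℝ ∞ φ) : ContDiff ℝ ∞ (odd φ) :=
  h.sub (h.comp contDiff_neg)

theorem adm_sq {T P : ℝ} {u k : ℝ × ℝ → ℝ} (h : Adm T P u k) : Adm T P u (fun p => k p ^ 2) := by
  obtain ⟨⟨B, hB⟩, hp, hl⟩ := h
  refine ⟨⟨B ^ 2, fun p => ?_⟩, fun t s => by simp only [hp t s], fun p hp' h0 =>
    (hl p hp' h0).mono fun q hq => by simp only [hq]⟩
  rw [abs_pow]
  exact pow_le_pow_left₀ (abs_nonneg _) (hB p) 2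

/-- Difference of two values of the form whose gradient terms agree on the strip. -/
theorem Bf_diff {T P C D : ℝ} {W K u v u' v' : ℝ × ℝ → ℝ} (hT : 0 < T) (hP : 0 < P)
    (hW : Sm P W) (hK : Sm P K) (hu : Sm P u) (hv : Sm P v) (hu' : Sm P u') (hv' : Sm P v')
    (hg : ∀ p ∈ strip T, dT u p * dT v p + dS u p * dS v p = dT u' p * dT v' p + dS u' p * dS v' p)
    (h1 : ∀ p ∈ strip T, |W p * (u p * v p - u' p * v' p)| ≤ C)
    (h2 : ∀ p ∈ strip T, |K p * (u p * v p - u' p * v' p)| ≤ D) :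
    |Bf T P W K u v - Bf T P W K u' v'| ≤ 2 * T * P * C + 2 * D * P := by
  have s1 := ((hu.dT.mul hv.dT).add (hu.dS.mul hv.dS)).add (hW.mul (hu.mul hv))
  have s2 := ((hu'.dT.mul hv'.dT).add (hu'.dS.mul hv'.dS)).add (hW.mul (hu'.mul hv'))
  have s3 := hW.mul ((hu.mul hv).sub (hu'.mul hv'))
  have b1 := (hK.mul (hu.mul hv)).cont
  have b2 := (hK.mul (hu'.mul hv')).cont
  have e1 := Int2_sub (T := T) (P := P) s1.cont s2.cont
  rw [Int2_congr (g := fun p => W p * (u p * v p - u' p * v' p)) hT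
    (fun p hp => by have := hg p hp; linarith)] at e1
  have e2 := intervalIntegral.integral_sub ((ii_lev b1 T 0 P).add (ii_lev b1 (-T) 0 P))
    ((ii_lev b2 T 0 P).add (ii_lev b2 (-T) 0 P))
  have i1 := abs_Int2_le hT hP s3.cont h1
  have i2 := abs_int_le (C := 2 * D) (f := fun s =>
      (K (T, s) * (u (T, s) * v (T, s)) + K (-T, s) * (u (-T, s) * v (-T, s))) -
      (K (T, s) * (u' (T, s) * v' (T, s)) + K (-T, s) * (u' (-T, s) * v' (-T, s)))) hP fun s => by
    have t1 := abs_le.1 (h2 _ (top_mem hT s))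
    have t2 := abs_le.1 (h2 _ (bot_mem hT s))
    rw [abs_le]
    constructor <;> nlinarith [t1.1, t1.2, t2.1, t2.2]
  rw [e2] at i2
  rw [e1] at i1
  rw [Bf_eq, Bf_eq]
  have j1 := abs_le.1 i1
  have j2 := abs_le.1 i2
  rw [abs_le]
  constructor <;> linarith [j1.1, j1.2, j2.1, j2.2]

end SmallAux

open SmallAux

theorem p_SMALL (hPIECE : S_PIECE) :
    S_SMALL := by
  intro T P W K u hT hP hW hK hJ
  have hu := hJ.sm
  constructor
  · obtain ⟨M, hM0, hM⟩ := bound_strip hP hu.cont hu.2 T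
    obtain ⟨A, hA0, hA⟩ := bound_strip hP hW.cont hW.2 T
    obtain ⟨D, hD0, hD⟩ := bound_strip hP hK.cont hK.2 T
    refine ⟨(2 * T * P * A + 2 * D * P) * (6 * M + 4), by positivity, ?_⟩
    intro ε B φ ψ k v h0 h1 hc hk hB hv hvv
    obtain ⟨z, hz, hzz⟩ := hPIECE T P ε u (fun p => k p ^ 2) ψ hT hP h0 hu (adm_sq hk) hc.smψ
      hc.zeroψ
    have hn := hJ.null hT hz hW.cont hK.cont
    have key : ∀ p ∈ strip T, v p * v p - u p * z p
        = k p ^ 2 * (odd φ (u p) * odd φ (u p) - u p * ψ (u p)) := fun p hp => by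
      rw [(hvv p hp).1, (hzz p hp).1]; ring
    have := Bf_diff (C := A * (B ^ 2 * ((6 * M + 4) * ε))) (D := D * (B ^ 2 * ((6 * M + 4) * ε)))
      hT hP hW hK hv hv hu hz
      (fun p hp => by
        rw [(hvv p hp).2.1, (hvv p hp).2.2, (hzz p hp).2.1, (hzz p hp).2.2, hc.dψ]; ring)
      (fun p hp => by
        rw [key p hp]
        exact mul3 (hA p hp) (hB p) (alg h0 h1 (hc.near _) (hc.nearψ _) (hM p hp)))
      (fun p hp => by
        rw [key p hp]
        exact mul3 (hD p hp) (hB p) (alg h0 h1 (hc.near _) (hc.nearψ _) (hM p hp)))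
    rw [hn, sub_zero] at this
    refine this.trans (le_of_eq ?_)
    ring
  · intro z hz
    have s1 := (hW.mul hz).sub (hz.dT.dT.add hz.dS.dS)
    have s2 := hz.dT.sub (hK.mul hz)
    have s3 := hz.dT.neg.sub (hK.mul hz)
    obtain ⟨A1, h10, h1⟩ := bound_strip hP s1.cont s1.2 T
    obtain ⟨A2, h20, h2⟩ := bound_strip hP s2.cont s2.2 T
    obtain ⟨A3, h30, h3⟩ := bound_strip hP s3.cont s3.2 T
    refine ⟨2 * T * P * (A1 * 2) + (A2 * 2 + A3 * 2) * P, by positivity, ?_⟩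
    intro ε φ ψ h0 hc
    have hy : Sm P (fun p => odd φ (u p) - u p) := (hu.comp (cd_odd hc.smφ)).sub hu
    have e : (fun p => odd φ (u p)) = fun p => (odd φ (u p) - u p) + u p := by
      funext p; ring
    rw [e, Bf_add_left hy.1 hu.1 hz.1 hW.cont hK.cont, hJ.null hT hz hW.cont hK.cont, add_zero,
      Bf_symm, green hz hy hW.cont hK.cont]
    have i1 := abs_Int2_le (B := A1 * (2 * ε)) hT hP (s1.mul hy).cont fun p hp => by
      rw [abs_mul]
      exact mul_le_mul (h1 p hp) (hc.near _) (abs_nonneg _) h10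
    have i2 := abs_int_le (C := A2 * (2 * ε) + A3 * (2 * ε)) (f := fun s =>
        (dT z (T, s) - K (T, s) * z (T, s)) * (odd φ (u (T, s)) - u (T, s))
        + (-dT z (-T, s) - K (-T, s) * z (-T, s)) * (odd φ (u (-T, s)) - u (-T, s))) hP fun s => by
      refine (abs_add_le _ _).trans (add_le_add ?_ ?_)
      · rw [abs_mul]
        exact mul_le_mul (h2 _ (top_mem hT s)) (hc.near _) (abs_nonneg _) h20
      · rw [abs_mul]
        exact mul_le_mul (h3 _ (bot_mem hT s)) (hc.near _) (abs_nonneg _) h30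
    refine (abs_add_le _ _).trans ((add_le_add i1 i2).trans (le_of_eq ?_))
    ring

end Pool.Agent.P.MP_785924_gt
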