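import Pool.Agent.P.MP_785924_gt.B.IfaceB
import Pool.Agent.P.MP_785924_gt.A.IfaceA

/-! Step TPG of the free boundary annulus project. -/

namespace Pool.Agent.P.MP_785924_gt

open scoped ContDiff
open Set Filter Topology

namespace TpgAux

theorem basis (a : Fin 3 → ℝ) (ha : a ≠ 0) : ∃ d1 d2 : Fin 3 → ℝ, ∀ al b1 b2 : ℝ,
    (fun i => al * a i + b1 * d1 i + b2 * d2 i) = 0 → al = 0 ∧ b1 = 0 ∧ b2 = 0 := by
  by_cases h0 : a 0 = 0
  · by_cases h1 : a 1 = 0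
    · have h2 : a 2 ≠ 0 := fun h2 => ha (by funext i; fin_cases i <;> simpa)
      refine ⟨![1, 0, 0], ![0, 1, 0], fun al b1 b2 h => ?_⟩
      have e0 := congrFun h 0
      have e1 := congrFun h 1
      have e2 := congrFun h 2
      simp [h2] at e0 e1 e2
      subst e2
      simp at e0 e1
      exact ⟨rfl, e0, e1⟩
    · refine ⟨![1, 0, 0], ![0, 0, 1], fun al b1 b2 h => ?_⟩
      have e0 := congrFun h 0
      have e1 := congrFun h 1
      have e2 := congrFun h 2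
      simp [h1] at e0 e1 e2
      subst e1
      simp at e0 e2
      exact ⟨rfl, e0, e2⟩
  · refine ⟨![0, 1, 0], ![0, 0, 1], fun al b1 b2 h => ?_⟩
    have e0 := congrFun h 0
    have e1 := congrFun h 1
    have e2 := congrFun h 2
    simp [h0] at e0 e1 e2
    subst e0
    simp at e1 e2
    exact ⟨rfl, e1, e2⟩

theorem three (hCLS : S_CLS) (hNEG2 : S_NEG2) (hLIN : S_LIN) (hJACX : S_JACX)
    {c ρ C0 T P : ℝ} {w : ℝ × ℝ → ℝ} {x e1 e2 ν : Fin 4 → ℝ × ℝ → ℝ}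
    (F : Frame c ρ C0 T P w x e1 e2 ν) (a : Fin 3 → ℝ) (r : Fin 3 → ℝ × ℝ)
    (hr : ∀ i, r i ∈ UZ T (cmp4 a x))
    (hn : ∀ i j, Rel P (UZ T (cmp4 a x)) (r i) (r j) → i = j) : NegQ c ρ C0 T P w := by
  have hT := F.intr.hT
  have hP := F.intr.hP
  have hw := F.intr.sm
  obtain ⟨-, J, -⟩ := hJACX c ρ C0 T P w x e1 e2 ν F
  obtain ⟨-, sy, tr, -, -, ev, adm, -⟩ := hCLS T P (cmp4 a x) hT hP (J a).sm
  have ha : a ≠ 0 := by
    rintro rfl
    exact (hr 0).2 (by simp [cmp4])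
  obtain ⟨d1, d2, hd⟩ := basis a ha
  have key := hNEG2 T P (W0 c w) (fun p => 2 / Real.exp (w p) ^ 2) (KB ρ C0 w) (cmp4 a x)
    (cmp4 d1 x) (cmp4 d2 x) (fun i => ind P (UZ T (cmp4 a x)) (r i)) hT hP
    (((hw.exp.pow 2).cmul (2 * c)).neg)
    ((Sm.const P 2).div (hw.exp.pow 2) fun q => by positivity) (hw.exp.cmul (C0 / ρ))
    (fun p _ => by positivity) (J a) (J d1) (J d2) (fun i => adm (r i)) (by
      intro al b1 b2 h
      have loc : ∀ i, al i = 0 ∧ b1 = 0 ∧ b2 = 0 := by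
        intro i
        refine hd (al i) b1 b2 (hLIN c ρ C0 T P w x e1 e2 ν _ (r i) F (hr i).1 ?_)
        filter_upwards [ev (r i) (hr i), self_mem_nhdsWithin] with q hq hs
        have h1 := h q hs
        have h2 : ∑ j, al j * ind P (UZ T (cmp4 a x)) (r j) q = al i := by
          rw [Finset.sum_eq_single i]
          · simp [ind, hq]
          · intro j _ hj
            have : ¬ Rel P (UZ T (cmp4 a x)) (r j) q := fun h3 =>
              hj (hn j i (tr _ _ _ h3 (sy _ _ hq)))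
            simp [ind, this]
          · simp
        rw [h2] at h1
        simp only [cmp4] at h1 ⊢
        linear_combination h1
      exact ⟨funext fun i => (loc i).1, (loc 0).2⟩)
  exact key

end TpgAux

theorem p_TPG (hCLS : S_CLS) (hNC : S_NC) (hNEG2 : S_NEG2) (hLIN : S_LIN) (hJACX : S_JACX) :
    S_TPG := by
  intro c ρ C0 T P σ w x e1 e2 ν F hN hσ a θ1 θ2 θ3 θ4 h12 h23 h34 h41 s1 s2 s3 s4
  have hT := F.intr.hT
  have hP := F.intr.hP
  have hu : Sm P (cmp4 a x) := Sm.cmp4 F.alg.smx a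
  obtain ⟨-, sy, -, sg, -⟩ := hCLS T P (cmp4 a x) hT hP hu
  change 0 < cmp4 a x (σ, θ1) at s1
  change cmp4 a x (σ, θ2) < 0 at s2
  change 0 < cmp4 a x (σ, θ3) at s3
  change cmp4 a x (σ, θ4) < 0 at s4
  have st : ∀ s, (σ, s) ∈ strip T := fun s => by
    rcases hσ with rfl | rfl <;> constructor <;> simp <;> linarith
  have opp : ∀ p q, 0 < cmp4 a x p → cmp4 a x q < 0 → ¬ Rel P (UZ T (cmp4 a x)) p q :=
    fun p q hp hq h => by nlinarith [(sg p q h).2.2]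
  have opp' : ∀ p q, 0 < cmp4 a x p → cmp4 a x q < 0 → ¬ Rel P (UZ T (cmp4 a x)) q p :=
    fun p q hp hq h => opp p q hp hq (sy _ _ h)
  have m1 : (σ, θ1) ∈ UZ T (cmp4 a x) := ⟨st _, s1.ne'⟩
  have m2 : (σ, θ2) ∈ UZ T (cmp4 a x) := ⟨st _, s2.ne⟩
  have m3 : (σ, θ3) ∈ UZ T (cmp4 a x) := ⟨st _, s3.ne'⟩
  have m4 : (σ, θ4) ∈ UZ T (cmp4 a x) := ⟨st _, s4.ne⟩
  have gen : ∀ p q z, p ∈ UZ T (cmp4 a x) → q ∈ UZ T (cmp4 a x) → z ∈ UZ T (cmp4 a x) →
      ¬ Rel P (UZ T (cmp4 a x)) p q → ¬ Rel P (UZ T (cmp4 a x)) p z →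
      ¬ Rel P (UZ T (cmp4 a x)) q z → False := by
    intro p q z hp hq hz n1 n2 n3
    refine hN (TpgAux.three hCLS hNEG2 hLIN hJACX F a ![p, q, z] ?_ ?_)
    · intro i; fin_cases i <;> assumption
    · intro i j h
      fin_cases i <;> fin_cases j <;> first
        | rfl
        | exact absurd h n1
        | exact absurd h n2
        | exact absurd h n3
        | exact absurd (sy _ _ h) n1
        | exact absurd (sy _ _ h) n2
        | exact absurd (sy _ _ h) n3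
  by_cases h13 : Rel P (UZ T (cmp4 a x)) (σ, θ1) (σ, θ3)
  · by_cases h24 : Rel P (UZ T (cmp4 a x)) (σ, θ2) (σ, θ4)
    · refine opp _ _ s1 s2 ((hNC T P _ hT hP (fun p hp => hp.1) (fun t s => ?_) σ hσ θ1 θ2 θ3 θ4
        h12 h23 h34 h41 h13).1 h24)
      simp only [UZ, strip, mem_setOf_eq, hu.2 t s]
    · exact gen _ _ _ m2 m4 m1 h24 (opp' _ _ s1 s2) (opp' _ _ s1 s4)
  · exact gen _ _ _ m1 m3 m2 h13 (opp _ _ s1 s2) (opp _ _ s3 s2)

end Pool.Agent.P.MP_785924_gt
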