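import Pool.Agent.P.MP_785924_gt.B.IfaceB
import Pool.Agent.P.MP_785924_gt.A.IfaceA
import Pool.Agent.P.MP_785924_gt.A.Tb
import Pool.Agent.P.MP_785924_gt.B.Tb1

/-! Step TRANS of the free boundary annulus project. -/

namespace Pool.Agent.P.MP_785924_gt

open scoped ContDiff
open Set Filter Topology

namespace TransAux

/-- Smooth dependence on the parameter for a system of scalar equations. -/
theorem parn (hP : S_ODEPAR) {n : ℕ} (M : Fin n → Fin n → ℝ × ℝ → ℝ) (y : Fin n → ℝ × ℝ → ℝ)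
    (t0 : ℝ) (hM : ∀ i j, ContDiff ℝ ∞ (M i j)) (h0 : ∀ i, ContDiff ℝ ∞ fun s => y i (t0, s))
    (hd : ∀ i t s, HasDerivAt (fun t => y i (t, s)) (∑ j, M i j (t, s) * y j (t, s)) t) :
    ∀ i, ContDiff ℝ ∞ (y i) := by
  let L : Fin n → Fin n → ((Fin n → ℝ) →L[ℝ] (Fin n → ℝ)) := fun i j =>
    (ContinuousLinearMap.proj (R := ℝ) (φ := fun _ : Fin n => ℝ) j).smulRight (Pi.single i 1)
  have key := hP (Fin n → ℝ) (fun q => ∑ i, ∑ j, M i j q • L i j) (fun q i => y i q) t0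
    (ContDiff.sum fun i _ => ContDiff.sum fun j _ => (hM i j).smul contDiff_const)
    (contDiff_pi.2 h0) (fun t s => hasDerivAt_pi.2 fun i => (hd i t s).congr_deriv (by
      simp [L, Finset.sum_apply, Pi.single_apply]))
  exact contDiff_pi.1 key

/-- Coefficients of the `t`-system. -/
noncomputable def mT (c μ : ℝ) (w : ℝ × ℝ → ℝ) : Fin 4 → Fin 4 → ℝ × ℝ → ℝ :=
  ![![fun _ => 0, fun _ => 0, fun q => Real.exp (w q), fun _ => 0],
    ![fun _ => 0, fun _ => 0, fun q => -(1 / Real.exp (w q)), fun _ => 0],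
    ![fun q => -(c * Real.exp (w q)) - μ / Real.exp (w q),
      fun q => μ * Real.exp (w q) + 1 / Real.exp (w q), fun _ => 0, fun q => -dS w q],
    ![fun _ => 0, fun _ => 0, fun q => dS w q, fun _ => 0]]

/-- Coefficients of the `s`-system. -/
noncomputable def mS (c μ : ℝ) (w : ℝ × ℝ → ℝ) : Fin 4 → Fin 4 → ℝ × ℝ → ℝ :=
  ![![fun _ => 0, fun _ => 0, fun _ => 0, fun q => Real.exp (w q)],
    ![fun _ => 0, fun _ => 0, fun _ => 0, fun q => 1 / Real.exp (w q)],
    ![fun _ => 0, fun _ => 0, fun _ => 0, fun q => dT w q],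
    ![fun q => -(c * Real.exp (w q)) + μ / Real.exp (w q),
      fun q => μ * Real.exp (w q) - 1 / Real.exp (w q), fun q => -dT w q, fun _ => 0]]

variable {c μ : ℝ} {w : ℝ × ℝ → ℝ}

theorem mT_cd (hw : ContDiff ℝ ∞ w) (c μ : ℝ) (i j : Fin 4) : ContDiff ℝ ∞ (mT c μ w i j) := by
  have h1 : ContDiff ℝ ∞ fun q => Real.exp (w q) := hw.exp
  have h2 : ∀ a : ℝ, ContDiff ℝ ∞ fun q => a / Real.exp (w q) := fun a =>
    contDiff_const.div h1 fun q => (Real.exp_pos _).ne'
  have h3 := cd_dS hw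
  fin_cases i <;> fin_cases j
  all_goals first
    | exact contDiff_const
    | exact h1
    | exact (h2 1).neg
    | exact (contDiff_const.mul h1).neg.sub (h2 μ)
    | exact (contDiff_const.mul h1).add (h2 1)
    | exact h3.neg
    | exact h3

theorem mS_cd (hw : ContDiff ℝ ∞ w) (c μ : ℝ) (i j : Fin 4) : ContDiff ℝ ∞ (mS c μ w i j) := by
  have h1 : ContDiff ℝ ∞ fun q => Real.exp (w q) := hw.exp
  have h2 : ∀ a : ℝ, ContDiff ℝ ∞ fun q => a / Real.exp (w q) := fun a =>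
    contDiff_const.div h1 fun q => (Real.exp_pos _).ne'
  have h3 := cd_dT hw
  fin_cases i <;> fin_cases j
  all_goals first
    | exact contDiff_const
    | exact h1
    | exact h2 1
    | exact (contDiff_const.mul h1).neg.add (h2 μ)
    | exact (contDiff_const.mul h1).sub (h2 1)
    | exact h3.neg
    | exact h3

theorem mT_0 (q : ℝ × ℝ) (v : Fin 4 → ℝ) :
    ∑ j, mT c μ w 0 j q * v j = Real.exp (w q) * v 2 := by
  simp [mT, Fin.sum_univ_four]

theorem mT_1 (q : ℝ × ℝ) (v : Fin 4 → ℝ) :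
    ∑ j, mT c μ w 1 j q * v j = -(v 2 / Real.exp (w q)) := by
  simp [mT, Fin.sum_univ_four]; ring

theorem mT_2 (q : ℝ × ℝ) (v : Fin 4 → ℝ) :
    ∑ j, mT c μ w 2 j q * v j = -(dS w q * v 3) + Real.exp (w q) * (-(c * v 0) + μ * v 1)
      + (v 1 - μ * v 0) / Real.exp (w q) := by
  simp [mT, Fin.sum_univ_four]; ring

theorem mT_3 (q : ℝ × ℝ) (v : Fin 4 → ℝ) :
    ∑ j, mT c μ w 3 j q * v j = dS w q * v 2 := by
  simp [mT, Fin.sum_univ_four]

theorem mT_per {P : ℝ} (hw : Per P w) (i j : Fin 4) (t s : ℝ) :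
    mT c μ w i j (t, s + P) = mT c μ w i j (t, s) := by
  have h1 := hw t s
  have h2 := hw.dS t s
  fin_cases i <;> fin_cases j <;> simp [mT, h1, h2]

theorem data_cd (hP : S_ODEPAR) (hw : ContDiff ℝ ∞ w) {t0 : ℝ} {f0 g0 a0 b0 : ℝ → ℝ}
    (h : SysL c μ w t0 f0 g0 a0 b0) (i : Fin 4) : ContDiff ℝ ∞ (![f0, g0, a0, b0] i) := by
  have key := parn hP (fun i j q => mS c μ w i j (t0, q.1)) (fun i q => ![f0, g0, a0, b0] i q.1) 0
    (fun i j => (mS_cd hw c μ i j).comp (contDiff_const.prodMk contDiff_fst))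
    (fun i => contDiff_const (c := ![f0, g0, a0, b0] i 0)) (by
      intro i t s
      fin_cases i
      · exact (h t).1.congr_deriv (by simp [mS, Fin.sum_univ_four])
      · exact (h t).2.1.congr_deriv (by simp [mS, Fin.sum_univ_four]; ring)
      · exact (h t).2.2.1.congr_deriv (by simp [mS, Fin.sum_univ_four])
      · exact (h t).2.2.2.congr_deriv (by simp [mS, Fin.sum_univ_four]; ring)) i
  exact key.comp (f := fun t : ℝ => (t, (0 : ℝ))) (contDiff_id.prodMk contDiff_const)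

/-- The defects of the `s`-system. -/
noncomputable def df (c μ : ℝ) (w f g l1 l2 : ℝ × ℝ → ℝ) : Fin 4 → ℝ × ℝ → ℝ :=
  ![fun q => dS f q - Real.exp (w q) * l2 q, fun q => dS g q - l2 q / Real.exp (w q),
    fun q => dS l1 q - dT w q * l2 q,
    fun q => dS l2 q - (-(dT w q * l1 q) + Real.exp (w q) * (-(c * f q) + μ * g q)
      - (g q - μ * f q) / Real.exp (w q))]

theorem df_ode {f g l1 l2 : ℝ × ℝ → ℝ} (hw : ContDiff ℝ ∞ w) (hf : ContDiff ℝ ∞ f)
    (hg : ContDiff ℝ ∞ g) (h1 : ContDiff ℝ ∞ l1) (h2 : ContDiff ℝ ∞ l2)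
    (eT : ∀ p, SysT c μ w f g l1 l2 p) (t s : ℝ)
    (hG : dT (dT w) (t, s) + dS (dS w) (t, s)
      = -(c * Real.exp (w (t, s)) ^ 2) + 1 / Real.exp (w (t, s)) ^ 2) (i : Fin 4) :
    HasDerivAt (fun τ => df c μ w f g l1 l2 i (τ, s))
      (∑ j, mT c μ w i j (t, s) * df c μ w f g l1 l2 j (t, s)) t := by
  have hX : Real.exp (w (t, s)) ≠ 0 := (Real.exp_pos _).ne'
  have sw := hasS (cd_diff hw (t, s))
  have sf := hasS (cd_diff hf (t, s))
  have sg := hasS (cd_diff hg (t, s))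
  have s1 := hasS (cd_diff h1 (t, s))
  have s2 := hasS (cd_diff h2 (t, s))
  have ss := hasS (cd_diff (cd_dS hw) (t, s))
  have tw := hasT (cd_diff hw (t, s))
  have tf := hasT (cd_diff hf (t, s))
  have tg := hasT (cd_diff hg (t, s))
  have t1 := hasT (cd_diff h1 (t, s))
  have t2 := hasT (cd_diff h2 (t, s))
  have tt := hasT (cd_diff (cd_dT hw) (t, s))
  have uf := hasT (cd_diff (cd_dS hf) (t, s))
  have ug := hasT (cd_diff (cd_dS hg) (t, s))
  have u1 := hasT (cd_diff (cd_dS h1) (t, s))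
  have u2 := hasT (cd_diff (cd_dS h2) (t, s))
  have k1 := dS_eq (cd_diff (cd_dT hf) (t, s)) (by
    simp only [fun τ => (eT (t, τ)).1]
    exact sw.exp.fun_mul s1)
  have k2 := dS_eq (cd_diff (cd_dT hg) (t, s)) (by
    simp only [fun τ => (eT (t, τ)).2.1]
    exact (s1.fun_div sw.exp hX).fun_neg)
  have k3 := dS_eq (cd_diff (cd_dT h1) (t, s)) (by
    simp only [fun τ => (eT (t, τ)).2.2.1]
    exact ((ss.fun_mul s2).fun_neg.fun_add
      (sw.exp.fun_mul ((sf.const_mul c).fun_neg.fun_add (sg.const_mul μ)))).fun_add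
      ((sg.fun_sub (sf.const_mul μ)).fun_div sw.exp hX))
  have k4 := dS_eq (cd_diff (cd_dT h2) (t, s)) (by
    simp only [fun τ => (eT (t, τ)).2.2.2]
    exact ss.fun_mul s1)
  rw [dT_dS hf, k1] at uf
  rw [dT_dS hg, k2] at ug
  rw [dT_dS h1, k3] at u1
  rw [dT_dS h2, k4] at u2
  obtain ⟨e1, e2, e3, e4⟩ := eT (t, s)
  rw [e1] at tf
  rw [e2] at tg
  rw [e3] at t1
  rw [e4] at t2
  have hG' : dT (dT w) (t, s) = -(c * Real.exp (w (t, s)) ^ 2) + 1 / Real.exp (w (t, s)) ^ 2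
      - dS (dS w) (t, s) := by linarith
  rw [hG'] at tt
  fin_cases i
  · refine (uf.fun_sub (tw.exp.fun_mul t2)).congr_deriv ?_
    simp only [Fin.zero_eta, mT_0, df, Matrix.cons_val]
    ring
  · refine (ug.fun_sub (t2.fun_div tw.exp hX)).congr_deriv ?_
    simp only [Fin.mk_one, mT_1, df, Matrix.cons_val]
    field_simp
    ring
  · refine (u1.fun_sub (tt.fun_mul t2)).congr_deriv ?_
    simp only [Fin.reduceFinMk, mT_2, df, Matrix.cons_val]
    field_simp
    ring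
  · refine (u2.fun_sub (((tt.fun_mul t1).fun_neg.fun_add
      (tw.exp.fun_mul ((tf.const_mul c).fun_neg.fun_add (tg.const_mul μ)))).fun_sub
      ((tg.fun_sub (tf.const_mul μ)).fun_div tw.exp hX))).congr_deriv ?_
    simp only [Fin.reduceFinMk, mT_3, df, Matrix.cons_val]
    field_simp
    ring

end TransAux

open TransAux in
theorem p_TRANS (hODEEX : S_ODEEX) (hODEPAR : S_ODEPAR) :
    S_TRANS := by
  intro c ρ C0 T P μ t0 w f0 g0 a0 b0 hI ht0 hL
  have hw := hI.sm.1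
  have hM : ∀ s i j, Continuous fun t => mT c μ w i j (t, s) := fun s i j =>
    (mT_cd hw c μ i j).continuous.comp (continuous_id.prodMk continuous_const)
  have hex := fun s => exn hODEEX (n := 4) (A := fun i j t => mT c μ w i j (t, s)) (hM s) t0
    (fun i => ![f0, g0, a0, b0] i s)
  choose Y hY0 hY using hex
  have hsm := parn hODEPAR (mT c μ w) (fun i q => Y q.2 i q.1) t0 (mT_cd hw c μ)
    (fun i => by simpa only [hY0] using data_cd hODEPAR hw hL i) (fun i t s => hY s i t)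
  have eT : ∀ p, SysT c μ w (fun q => Y q.2 0 q.1) (fun q => Y q.2 1 q.1) (fun q => Y q.2 2 q.1)
      (fun q => Y q.2 3 q.1) p := by
    rintro ⟨t, s⟩
    exact ⟨dT_eq (cd_diff (hsm 0) _) ((hY s 0 t).congr_deriv (mT_0 _ fun j => Y s j t)),
      dT_eq (cd_diff (hsm 1) _) ((hY s 1 t).congr_deriv (mT_1 _ fun j => Y s j t)),
      dT_eq (cd_diff (hsm 2) _) ((hY s 2 t).congr_deriv (mT_2 _ fun j => Y s j t)),
      dT_eq (cd_diff (hsm 3) _) ((hY s 3 t).congr_deriv (mT_3 _ fun j => Y s j t))⟩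
  have i0 : ∀ s, Y s 0 t0 = f0 s := fun s => hY0 s 0
  have i1 : ∀ s, Y s 1 t0 = g0 s := fun s => hY0 s 1
  have i2 : ∀ s, Y s 2 t0 = a0 s := fun s => hY0 s 2
  have i3 : ∀ s, Y s 3 t0 = b0 s := fun s => hY0 s 3
  refine ⟨fun q => Y q.2 0 q.1, fun q => Y q.2 1 q.1, fun q => Y q.2 2 q.1, fun q => Y q.2 3 q.1,
    ⟨hsm 0, hsm 1, hsm 2, hsm 3, fun p _ => eT p, ?_⟩, fun s => ⟨i0 s, i1 s, i2 s, i3 s⟩, ?_⟩
  · rintro ⟨t, s⟩ hp
    have d0 := dS_eq (cd_diff (hsm 0) (t0, s)) (by simpa only [i0] using (hL s).1)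
    have d1 := dS_eq (cd_diff (hsm 1) (t0, s)) (by simpa only [i1] using (hL s).2.1)
    have d2 := dS_eq (cd_diff (hsm 2) (t0, s)) (by simpa only [i2] using (hL s).2.2.1)
    have d3 := dS_eq (cd_diff (hsm 3) (t0, s)) (by simpa only [i3] using (hL s).2.2.2)
    have key := uqn_Icc (n := 4) (y := fun i τ => df c μ w (fun q => Y q.2 0 q.1)
      (fun q => Y q.2 1 q.1) (fun q => Y q.2 2 q.1) (fun q => Y q.2 3 q.1) i (τ, s))
      (A := fun i j τ => mT c μ w i j (τ, s)) ht0 (fun i j => (hM s i j).continuousOn)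
      (fun i τ hτ => df_ode hw (hsm 0) (hsm 1) (hsm 2) (hsm 3) eT τ s (hI.gauss (τ, s) hτ) i) (by
        intro i
        fin_cases i
        · simp only [Fin.zero_eta, df, Matrix.cons_val, d0, i3, sub_self]
        · simp only [Fin.mk_one, df, Matrix.cons_val, d1, i3, sub_self]
        · simp only [Fin.reduceFinMk, df, Matrix.cons_val, d2, i3, sub_self]
        · simp only [Fin.reduceFinMk, df, Matrix.cons_val, d3, i0, i1, i2, sub_self])
    exact ⟨sub_eq_zero.1 (key 0 t hp), sub_eq_zero.1 (key 1 t hp), sub_eq_zero.1 (key 2 t hp),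
      sub_eq_zero.1 (key 3 t hp)⟩
  · intro p0 p1 p2 p3
    have key : ∀ s i t, Y (s + P) i t - Y s i t = 0 := fun s =>
      uqn (n := 4) (y := fun i t => Y (s + P) i t - Y s i t) (A := fun i j t => mT c μ w i j (t, s))
        (t0 := t0) (hM s) (fun i t => ((hY (s + P) i t).fun_sub (hY s i t)).congr_deriv (by
          simp only [mT_per hI.sm.2, mul_sub, Finset.sum_sub_distrib])) (by
          intro i
          fin_cases i
          · simp only [Fin.zero_eta, i0, p0 s, sub_self]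
          · simp only [Fin.mk_one, i1, p1 s, sub_self]
          · simp only [Fin.reduceFinMk, i2, p2 s, sub_self]
          · simp only [Fin.reduceFinMk, i3, p3 s, sub_self])
    exact ⟨fun t s => sub_eq_zero.1 (key s 0 t), fun t s => sub_eq_zero.1 (key s 1 t),
      fun t s => sub_eq_zero.1 (key s 2 t), fun t s => sub_eq_zero.1 (key s 3 t)⟩

end Pool.Agent.P.MP_785924_gt
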