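import Pool.Agent.P.MP_785924_gt.B.IfaceB
import Pool.Agent.P.MP_785924_gt.A.Tb

/-! Step UCP of the free boundary annulus project. -/

namespace Pool.Agent.P.MP_785924_gt

open scoped ContDiff
open Set Filter Topology

namespace UCPAux

theorem mono {f f' : ℝ → ℝ} {a b : ℝ} (hd : ∀ t ∈ Icc a b, HasDerivAt f (f' t) t)
    (h0 : ∀ t ∈ Icc a b, 0 ≤ f' t) {x : ℝ} (hx : x ∈ Icc a b) : f a ≤ f x ∧ f x ≤ f b := by
  have hm : MonotoneOn f (Icc a b) := monotoneOn_of_deriv_nonneg (convex_Icc a b)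
    (fun t ht => (hd t ht).continuousAt.continuousWithinAt)
    (fun t ht => (hd t (interior_subset ht)).differentiableAt.differentiableWithinAt)
    fun t ht => by rw [(hd t (interior_subset ht)).deriv]; exact h0 t (interior_subset ht)
  have hab := hx.1.trans hx.2
  exact ⟨hm ⟨le_rfl, hab⟩ hx hx.1, hm hx ⟨hab, le_rfl⟩ hx.2⟩

theorem logconv {F F1 E G g : ℝ → ℝ} {a b C : ℝ} (hab : a ≤ b) (hC : 0 ≤ C) (cF : Continuous F)
    (cE : Continuous E) (dF : ∀ t ∈ Icc a b, HasDerivAt F (F1 t) t)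
    (dF1 : ∀ t ∈ Icc a b, HasDerivAt F1 (4 * E t + 2 * G t) t)
    (dG : ∀ t ∈ Icc a b, HasDerivAt G (g t) t) (hg : ∀ t ∈ Icc a b, -(C * F t) ≤ g t)
    (F0 : ∀ t, 0 ≤ F t) (Fa : F a = 0) (F1a : F1 a = 0) (Ga : G a = 0)
    (hq : ∀ l t, 0 ≤ l * l * F t + l * F1 t + E t) : ∫ t in a..b, F t ≤ 0 := by
  obtain ⟨Φ, hΦ⟩ : ∃ Φ : ℝ → ℝ, Φ = fun t => ∫ x in a..t, F x := ⟨_, rfl⟩
  obtain ⟨H, hH⟩ : ∃ H : ℝ → ℝ, H = fun t => ∫ x in a..t, E x := ⟨_, rfl⟩
  have dΦ : ∀ t, HasDerivAt Φ (F t) t := fun t => hΦ ▸ (cF.integral_hasStrictDerivAt a t).hasDerivAt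
  have dH : ∀ t, HasDerivAt H (E t) t := fun t => hH ▸ (cE.integral_hasStrictDerivAt a t).hasDerivAt
  have Φa : Φ a = 0 := by simp [hΦ]
  have Ha : H a = 0 := by simp [hH]
  have mΦ : Monotone Φ := monotone_of_deriv_nonneg (fun t => (dΦ t).differentiableAt)
    fun t => by rw [(dΦ t).deriv]; exact F0 t
  have Φ0 : ∀ t ∈ Icc a b, 0 ≤ Φ t := fun t ht => Φa ▸ mΦ ht.1
  have h2 : ∀ t ∈ Icc a b, -(C * Φ t) ≤ G t := fun t ht => by
    have := (mono (f := fun t => G t + C * Φ t) (fun t ht => (dG t ht).fun_add ((dΦ t).const_mul C))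
      (fun t ht => by linarith [hg t ht]) ht).1
    simp only [Ga, Φa] at this
    linarith
  have h3 : ∀ t ∈ Icc a b, 4 * H t - 2 * C * (b - a) * Φ t ≤ F1 t := fun u hu => by
    have hs : ∀ t ∈ Icc a u, t ∈ Icc a b := fun t ht => ⟨ht.1, ht.2.trans hu.2⟩
    have := (mono (f := fun t => F1 t - 4 * H t + 2 * C * Φ u * t)
      (fun t ht => ((dF1 t (hs t ht)).fun_sub ((dH t).const_mul 4)).fun_add
        ((hasDerivAt_id' t).const_mul (2 * C * Φ u)))
      (fun t ht => by nlinarith [h2 t (hs t ht), mul_le_mul_of_nonneg_left (mΦ ht.2) hC])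
      (⟨hu.1, le_rfl⟩ : u ∈ Icc a u)).1
    simp only [F1a, Ha] at this
    nlinarith [mul_nonneg (mul_nonneg hC (Φ0 u hu)) (sub_nonneg.2 hu.2)]
  have h4 : ∀ t ∈ Icc a b, F t ^ 2 ≤ 4 * Φ t * H t := fun u hu => by
    have := discrim_le_zero (a := Φ u) (b := F u) (c := H u) fun l => by
      have := (mono (f := fun t => l * l * Φ t + l * F t + H t)
        (fun t ht => (((dΦ t).const_mul (l * l)).fun_add ((dF t ht).const_mul l)).fun_add (dH t))
        (fun t _ => hq l t) hu).1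
      simp only [Φa, Fa, Ha] at this
      linarith
    rw [discrim] at this
    linarith
  rw [show ∫ t in a..b, F t = Φ b by rw [hΦ]]
  by_contra hb
  push Not at hb
  have cΦ : Continuous Φ := continuous_iff_continuousAt.2 fun t => (dΦ t).continuousAt
  have hZ : IsCompact (Icc a b ∩ {t | Φ t = 0}) :=
    isCompact_Icc.inter_right (isClosed_eq cΦ continuous_const)
  obtain ⟨t0, ⟨z1, z2⟩, z3⟩ := hZ.exists_isGreatest ⟨a, ⟨le_rfl, hab⟩, Φa⟩
  have z2' : Φ t0 = 0 := z2
  set K := 2 * C * (b - a) with hK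
  have K0 : 0 ≤ K := mul_nonneg (by positivity) (sub_nonneg.2 hab)
  have h5 : ∀ u ∈ Icc t0 b, F u ≤ (F b / Φ b + K * (b - a)) * Φ u := fun u hu => by
    rcases hu.1.eq_or_lt with rfl | hu1
    · have := h4 _ z1
      rw [z2'] at this ⊢
      nlinarith [F0 t0]
    have hs : ∀ t ∈ Icc u b, t ∈ Icc a b := fun t ht => ⟨(z1.1.trans hu.1).trans ht.1, ht.2⟩
    have hp : ∀ t ∈ Icc u b, 0 < Φ t := fun t ht => (Φ0 t (hs t ht)).lt_of_ne fun e =>
      (hu1.trans_le ht.1).not_ge (z3 ⟨hs t ht, e.symm⟩)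
    have := (mono (f := fun t => F t / Φ t + K * t)
      (fun t ht => ((dF t (hs t ht)).fun_div (dΦ t) (hp t ht).ne').fun_add
        ((hasDerivAt_id' t).const_mul K))
      (fun t ht => by
        have p := hp t ht
        have : -K ≤ (F1 t * Φ t - F t * F t) / Φ t ^ 2 := by
          rw [le_div_iff₀ (by positivity)]
          nlinarith [h4 t (hs t ht), mul_le_mul_of_nonneg_left (h3 t (hs t ht)) p.le]
        linarith) (⟨le_rfl, hu.2⟩ : u ∈ Icc u b)).2
    rw [← div_le_iff₀ (hp u ⟨le_rfl, hu.2⟩)]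
    nlinarith [mul_le_mul_of_nonneg_left (z1.1.trans hu.1) K0]
  set M := F b / Φ b + K * (b - a)
  have := (mono (f := fun t => -(Φ t * Real.exp (-(M * t))))
    (fun t _ => ((dΦ t).fun_mul ((hasDerivAt_id' t).const_mul M).fun_neg.exp).fun_neg)
    (fun t ht => by nlinarith [mul_le_mul_of_nonneg_right (h5 t ht) (Real.exp_pos (-(M * t))).le])
    (⟨le_rfl, z1.2⟩ : t0 ∈ Icc t0 b)).2
  simp only [z2'] at this
  nlinarith [mul_pos hb (Real.exp_pos (-(M * b)))]

theorem bot {T P : ℝ} {W v : ℝ × ℝ → ℝ} (hT : 0 < T) (hP : 0 < P) (hW : Sm P W) (hv : Sm P v)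
    (he : ∀ p ∈ strip T, dT (dT v) p + dS (dS v) p = W p * v p)
    (h0 : ∀ s, v (-T, s) = 0 ∧ dT v (-T, s) = 0) : ∀ p ∈ strip T, v p = 0 := by
  obtain ⟨C, hC, hB⟩ := bound_strip hP hW.dT.cont hW.dT.2 T
  have c1 := hv.cont
  have c2 := hv.dT.cont
  have c3 := hv.dS.cont
  have c4 := hW.cont
  have c5 := hW.dT.cont
  have sG : Sm P fun p => dS v p ^ 2 + W p * v p ^ 2 - dT v p ^ 2 :=
    ((hv.dS.pow 2).add (hW.mul (hv.pow 2))).sub (hv.dT.pow 2)
  have cG := sG.cont
  have hi : Int2 T P (fun p => v p ^ 2) ≤ 0 := by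
    refine logconv (F := fun t => ∫ s in (0 : ℝ)..P, v (t, s) ^ 2)
      (F1 := fun t => ∫ s in (0 : ℝ)..P, 2 * (v (t, s) * dT v (t, s)))
      (E := fun t => ∫ s in (0 : ℝ)..P, dT v (t, s) ^ 2)
      (G := fun t => ∫ s in (0 : ℝ)..P, (dS v (t, s) ^ 2 + W (t, s) * v (t, s) ^ 2 - dT v (t, s) ^ 2))
      (g := fun t => ∫ s in (0 : ℝ)..P, dT W (t, s) * v (t, s) ^ 2) (by linarith) hC
      (cont_int (hv.pow 2).cont 0 P) (cont_int (hv.dT.pow 2).cont 0 P) (fun t _ => ?_)
      (fun t ht => ?_) (fun t ht => ?_) (fun t ht => ?_)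
      (fun t => intervalIntegral.integral_nonneg hP.le fun s _ => sq_nonneg _)
      (by simp [h0]) (by simp [h0]) ?_ fun l t => ?_
    · refine (hasDerivAt_int (hv.pow 2).1 0 P t).congr_deriv
        (intervalIntegral.integral_congr fun s _ => ?_)
      simp only [dT_sq (hv.diff _), mul_assoc]
    · refine (hasDerivAt_int ((hv.mul hv.dT).cmul 2).1 0 P t).congr_deriv ?_
      have h1 := int_dS ((hv.mul hv.dS).cmul 2) t
      have c6 := ((hv.mul hv.dS).cmul 2).dS.cont
      refine Eq.trans ?_ (sub_eq_self.2 h1)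
      rw [← intervalIntegral.integral_const_mul,
        ← intervalIntegral.integral_const_mul, ← intervalIntegral.integral_add
          (Continuous.intervalIntegrable (by fun_prop) _ _)
          (Continuous.intervalIntegrable (by fun_prop) _ _), ← intervalIntegral.integral_sub
          (Continuous.intervalIntegrable (by fun_prop) _ _)
          (Continuous.intervalIntegrable (by fun_prop) _ _)]
      refine intervalIntegral.integral_congr fun s _ => ?_
      rw [dT_cmul 2 ((hv.mul hv.dT).diff _), dS_cmul 2 ((hv.mul hv.dS).diff _),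
        dT_mul (hv.diff _) (hv.dT.diff _), dS_mul (hv.diff _) (hv.dS.diff _),
        eq_sub_of_add_eq (he (t, s) ht)]
      ring
    · refine (hasDerivAt_int sG.1 0 P t).congr_deriv ?_
      have h1 := int_dS ((hv.dS.mul hv.dT).cmul 2) t
      have c6 := ((hv.dS.mul hv.dT).cmul 2).dS.cont
      refine Eq.trans ?_ (add_eq_left.2 h1)
      rw [← intervalIntegral.integral_add (Continuous.intervalIntegrable (by fun_prop) _ _)
          (Continuous.intervalIntegrable (by fun_prop) _ _)]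
      refine intervalIntegral.integral_congr fun s _ => ?_
      rw [dT_sub (((hv.dS.pow 2).add (hW.mul (hv.pow 2))).diff _) ((hv.dT.pow 2).diff _),
        dT_add ((hv.dS.pow 2).diff _) ((hW.mul (hv.pow 2)).diff _),
        dT_mul (hW.diff _) ((hv.pow 2).diff _), dT_sq (hv.diff _), dT_sq (hv.dS.diff _),
        dT_sq (hv.dT.diff _), dS_cmul 2 ((hv.dS.mul hv.dT).diff _),
        dS_mul (hv.dS.diff _) (hv.dT.diff _), dT_dS hv.1, eq_sub_of_add_eq (he (t, s) ht)]
      ring
    · rw [← neg_mul, ← intervalIntegral.integral_const_mul]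
      exact intervalIntegral.integral_mono_on hP.le
        (Continuous.intervalIntegrable (by fun_prop) _ _)
        (Continuous.intervalIntegrable (by fun_prop) _ _) fun s _ =>
          mul_le_mul_of_nonneg_right (abs_le.1 (hB (t, s) ht)).1 (sq_nonneg _)
    · have : ∀ s, dS v (-T, s) = 0 := fun s =>
        (dS_congr_lev (g := fun _ => 0) (hv.diff _) (differentiableAt_const _)
          fun τ => (h0 τ).1).trans (dS_const 0 _)
      simp [h0, this]
    · rw [← intervalIntegral.integral_const_mul, ← intervalIntegral.integral_const_mul,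
        ← intervalIntegral.integral_add (Continuous.intervalIntegrable (by fun_prop) _ _)
          (Continuous.intervalIntegrable (by fun_prop) _ _),
        ← intervalIntegral.integral_add (Continuous.intervalIntegrable (by fun_prop) _ _)
          (Continuous.intervalIntegrable (by fun_prop) _ _)]
      exact intervalIntegral.integral_nonneg hP.le fun s _ => by
        nlinarith [sq_nonneg (l * v (t, s) + dT v (t, s))]
  exact fun p hp => pow_eq_zero_iff (two_ne_zero) |>.1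
    (zero_of_Int2 hT hP (hv.pow 2).cont (hv.pow 2).2 (fun _ _ => sq_nonneg _) hi p hp)

end UCPAux

theorem p_UCP :
    S_UCP := by
  intro T P σ W v hT hP hW hv he hσ h0
  rcases hσ with rfl | rfl
  · have e1 : dT (fl v) = fun p => -fl (dT v) p := funext (dT_fl hv.1)
    have e2 : dS (fl v) = fl (dS v) := funext (dS_fl hv.1)
    have := UCPAux.bot hT hP hW.fl hv.fl (fun p hp => by
      rw [e1, e2, dT_neg, dT_fl hv.dT.1, dS_fl hv.dS.1, neg_neg]
      exact he _ (fl_mem hp)) fun s => by simp [e1, fl, h0]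
    intro p hp
    simpa [fl] using this _ (fl_mem hp)
  · exact UCPAux.bot hT hP hW hv he h0

end Pool.Agent.P.MP_785924_gt
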