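import Pool.Agent.P.MP_785924_gt.B.IfaceB
import Pool.Agent.P.MP_785924_gt.A.Tb

/-! Step UQ4 of the free boundary annulus project. -/

namespace Pool.Agent.P.MP_785924_gt

open scoped ContDiff
open Set Filter Topology

namespace UQ4Aux

/-- Uniqueness for four linear equations on a compact interval. -/
theorem uq4 {y1 y2 y3 y4 a13 a14 a23 a24 a31 a32 a34 a41 a42 a43 : ℝ → ℝ} {a b t0 : ℝ}
    (h0 : t0 ∈ Icc a b) (h13 : Continuous a13) (h14 : Continuous a14) (h23 : Continuous a23)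
    (h24 : Continuous a24) (h31 : Continuous a31) (h32 : Continuous a32) (h34 : Continuous a34)
    (h41 : Continuous a41) (h42 : Continuous a42) (h43 : Continuous a43)
    (d1 : ∀ t ∈ Icc a b, HasDerivAt y1 (a13 t * y3 t + a14 t * y4 t) t)
    (d2 : ∀ t ∈ Icc a b, HasDerivAt y2 (a23 t * y3 t + a24 t * y4 t) t)
    (d3 : ∀ t ∈ Icc a b, HasDerivAt y3 (a31 t * y1 t + a32 t * y2 t + a34 t * y4 t) t)
    (d4 : ∀ t ∈ Icc a b, HasDerivAt y4 (a41 t * y1 t + a42 t * y2 t + a43 t * y3 t) t)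
    (z1 : y1 t0 = 0) (z2 : y2 t0 = 0) (z3 : y3 t0 = 0) (z4 : y4 t0 = 0) :
    ∀ t ∈ Icc a b, y1 t = 0 ∧ y2 t = 0 ∧ y3 t = 0 ∧ y4 t = 0 := by
  have key := uqn_Icc (n := 4) (y := ![y1, y2, y3, y4])
    (A := ![![fun _ => 0, fun _ => 0, a13, a14], ![fun _ => 0, fun _ => 0, a23, a24],
      ![a31, a32, fun _ => 0, a34], ![a41, a42, a43, fun _ => 0]]) h0 ?_ ?_ ?_
  · intro t ht
    exact ⟨key 0 t ht, key 1 t ht, key 2 t ht, key 3 t ht⟩
  · intro i j
    fin_cases i <;> fin_cases j <;>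
      first
        | exact continuousOn_const
        | exact h13.continuousOn
        | exact h14.continuousOn
        | exact h23.continuousOn
        | exact h24.continuousOn
        | exact h31.continuousOn
        | exact h32.continuousOn
        | exact h34.continuousOn
        | exact h41.continuousOn
        | exact h42.continuousOn
        | exact h43.continuousOn
  · intro i t ht
    fin_cases i
    · simpa [Fin.sum_univ_four] using d1 t ht
    · simpa [Fin.sum_univ_four] using d2 t ht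
    · simpa [Fin.sum_univ_four] using d3 t ht
    · simpa [Fin.sum_univ_four] using d4 t ht
  · intro i
    fin_cases i
    · exact z1
    · exact z2
    · exact z3
    · exact z4

variable {c μ T : ℝ} {w f g l1 l2 f' g' l1' l2' : ℝ × ℝ → ℝ}

theorem contT {u : ℝ × ℝ → ℝ} (h : ContDiff ℝ ∞ u) (s : ℝ) : Continuous fun τ : ℝ => u (τ, s) :=
  h.continuous.comp (continuous_id.prodMk continuous_const)

theorem contS {u : ℝ × ℝ → ℝ} (h : ContDiff ℝ ∞ u) (t : ℝ) : Continuous fun τ : ℝ => u (t, τ) :=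
  h.continuous.comp (continuous_const.prodMk continuous_id)

theorem zeroT (hw : ContDiff ℝ ∞ w) (h : Sys4 c μ T w f g l1 l2) {t0 s : ℝ} (h0 : t0 ∈ Icc (-T) T)
    (z1 : f (t0, s) = 0) (z2 : g (t0, s) = 0) (z3 : l1 (t0, s) = 0) (z4 : l2 (t0, s) = 0) :
    ∀ t ∈ Icc (-T) T, f (t, s) = 0 ∧ g (t, s) = 0 ∧ l1 (t, s) = 0 ∧ l2 (t, s) = 0 := by
  have he : Continuous fun τ : ℝ => Real.exp (w (τ, s)) := (contT hw s).rexp
  have hi : Continuous fun τ : ℝ => (Real.exp (w (τ, s)))⁻¹ :=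
    he.inv₀ fun τ => (Real.exp_pos _).ne'
  have hs : Continuous fun τ : ℝ => dS w (τ, s) := contT (cd_dS hw) s
  refine uq4 (y1 := fun τ => f (τ, s)) (y2 := fun τ => g (τ, s)) (y3 := fun τ => l1 (τ, s))
    (y4 := fun τ => l2 (τ, s)) (a13 := fun τ => Real.exp (w (τ, s))) (a14 := fun _ => 0)
    (a23 := fun τ => -(Real.exp (w (τ, s)))⁻¹) (a24 := fun _ => 0)
    (a31 := fun τ => -(c * Real.exp (w (τ, s))) - μ * (Real.exp (w (τ, s)))⁻¹)
    (a32 := fun τ => μ * Real.exp (w (τ, s)) + (Real.exp (w (τ, s)))⁻¹)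
    (a34 := fun τ => -dS w (τ, s)) (a41 := fun _ => 0) (a42 := fun _ => 0)
    (a43 := fun τ => dS w (τ, s)) h0 he continuous_const hi.neg continuous_const
    ((continuous_const.mul he).neg.sub (continuous_const.mul hi))
    ((continuous_const.mul he).add hi) hs.neg continuous_const continuous_const hs
    ?_ ?_ ?_ ?_ z1 z2 z3 z4
  · intro t ht
    have e := (h.eT (t, s) ht).1
    have := hasT (cd_diff h.sf (t, s))
    rw [e] at this
    convert this using 1; ring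
  · intro t ht
    have e := (h.eT (t, s) ht).2.1
    have := hasT (cd_diff h.sg (t, s))
    rw [e] at this
    convert this using 1; ring
  · intro t ht
    have e := (h.eT (t, s) ht).2.2.1
    have := hasT (cd_diff h.s1 (t, s))
    rw [e] at this
    convert this using 1; ring
  · intro t ht
    have e := (h.eT (t, s) ht).2.2.2
    have := hasT (cd_diff h.s2 (t, s))
    rw [e] at this
    convert this using 1; ring

theorem zeroS (hw : ContDiff ℝ ∞ w) (h : Sys4 c μ T w f g l1 l2) {t s0 : ℝ} (ht : t ∈ Icc (-T) T)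
    (z1 : f (t, s0) = 0) (z2 : g (t, s0) = 0) (z3 : l1 (t, s0) = 0) (z4 : l2 (t, s0) = 0) (s : ℝ) :
    f (t, s) = 0 ∧ g (t, s) = 0 ∧ l1 (t, s) = 0 ∧ l2 (t, s) = 0 := by
  have he : Continuous fun τ : ℝ => Real.exp (w (t, τ)) := (contS hw t).rexp
  have hi : Continuous fun τ : ℝ => (Real.exp (w (t, τ)))⁻¹ :=
    he.inv₀ fun τ => (Real.exp_pos _).ne'
  have hs : Continuous fun τ : ℝ => dT w (t, τ) := contS (cd_dT hw) t
  refine uq4 (a := min s s0) (b := max s s0) (t0 := s0)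
    (y1 := fun τ => f (t, τ)) (y2 := fun τ => g (t, τ)) (y3 := fun τ => l1 (t, τ))
    (y4 := fun τ => l2 (t, τ)) (a13 := fun _ => 0) (a14 := fun τ => Real.exp (w (t, τ)))
    (a23 := fun _ => 0) (a24 := fun τ => (Real.exp (w (t, τ)))⁻¹)
    (a31 := fun _ => 0) (a32 := fun _ => 0) (a34 := fun τ => dT w (t, τ))
    (a41 := fun τ => -(c * Real.exp (w (t, τ))) + μ * (Real.exp (w (t, τ)))⁻¹)
    (a42 := fun τ => μ * Real.exp (w (t, τ)) - (Real.exp (w (t, τ)))⁻¹)
    (a43 := fun τ => -dT w (t, τ)) ⟨min_le_right _ _, le_max_right _ _⟩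
    continuous_const he continuous_const hi continuous_const continuous_const hs
    ((continuous_const.mul he).neg.add (continuous_const.mul hi))
    ((continuous_const.mul he).sub hi) hs.neg
    ?_ ?_ ?_ ?_ z1 z2 z3 z4 s ⟨min_le_left _ _, le_max_left _ _⟩
  · intro τ _
    have e := (h.eS (t, τ) ht).1
    have := hasS (cd_diff h.sf (t, τ))
    rw [e] at this
    convert this using 1; ring
  · intro τ _
    have e := (h.eS (t, τ) ht).2.1
    have := hasS (cd_diff h.sg (t, τ))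
    rw [e] at this
    convert this using 1; ring
  · intro τ _
    have e := (h.eS (t, τ) ht).2.2.1
    have := hasS (cd_diff h.s1 (t, τ))
    rw [e] at this
    convert this using 1; ring
  · intro τ _
    have e := (h.eS (t, τ) ht).2.2.2
    have := hasS (cd_diff h.s2 (t, τ))
    rw [e] at this
    convert this using 1; ring

/-- A function with zero derivative on an interval is constant there. -/
theorem const_Icc {y : ℝ → ℝ} {a b t0 : ℝ} (h0 : t0 ∈ Icc a b)
    (hd : ∀ t ∈ Icc a b, HasDerivAt y 0 t) : ∀ t ∈ Icc a b, y t = y t0 := by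
  intro t ht
  have key := uq1_Icc (y := fun τ => y τ - y t0) (a11 := fun _ => 0) h0 continuousOn_const
    (fun τ hτ => by simpa using (hd τ hτ).sub_const (y t0)) (sub_self _) t ht
  exact sub_eq_zero.1 key

theorem form_der {F G L M F' G' L' M' : ℝ → ℝ} {a1 a2 a3 a4 b1 b2 b3 b4 t : ℝ} (c μ : ℝ)
    (hF : HasDerivAt F a1 t) (hG : HasDerivAt G a2 t) (hL : HasDerivAt L a3 t)
    (hM : HasDerivAt M a4 t) (hF' : HasDerivAt F' b1 t) (hG' : HasDerivAt G' b2 t)
    (hL' : HasDerivAt L' b3 t) (hM' : HasDerivAt M' b4 t) :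
    HasDerivAt (fun τ => L τ * L' τ + M τ * M' τ + c * (F τ * F' τ)
        - μ * (F τ * G' τ + G τ * F' τ) + G τ * G' τ)
      ((a3 * L' t + L t * b3) + (a4 * M' t + M t * b4) + c * (a1 * F' t + F t * b1)
        - μ * ((a1 * G' t + F t * b2) + (a2 * F' t + G t * b1)) + (a2 * G' t + G t * b2)) t :=
  ((((hL.fun_mul hL').fun_add (hM.fun_mul hM')).fun_add ((hF.fun_mul hF').const_mul c)).fun_sub
    (((hF.fun_mul hG').fun_add (hG.fun_mul hF')).const_mul μ)).fun_add (hG.fun_mul hG')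

theorem formT (h : Sys4 c μ T w f g l1 l2) (h' : Sys4 c μ T w f' g' l1' l2') (s : ℝ) :
    ∀ t ∈ Icc (-T) T, HasDerivAt (fun τ => form4 c μ f g l1 l2 f' g' l1' l2' (τ, s)) 0 t := by
  intro t ht
  have key := form_der c μ (hasT (cd_diff h.sf (t, s))) (hasT (cd_diff h.sg (t, s)))
    (hasT (cd_diff h.s1 (t, s))) (hasT (cd_diff h.s2 (t, s))) (hasT (cd_diff h'.sf (t, s)))
    (hasT (cd_diff h'.sg (t, s))) (hasT (cd_diff h'.s1 (t, s))) (hasT (cd_diff h'.s2 (t, s)))
  obtain ⟨e1, e2, e3, e4⟩ := h.eT (t, s) ht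
  obtain ⟨e1', e2', e3', e4'⟩ := h'.eT (t, s) ht
  rw [e1, e2, e3, e4, e1', e2', e3', e4'] at key
  have hE := (Real.exp_pos (w (t, s))).ne'
  refine key.congr_deriv ?_
  field_simp
  ring

theorem formS (h : Sys4 c μ T w f g l1 l2) (h' : Sys4 c μ T w f' g' l1' l2') {t : ℝ}
    (ht : t ∈ Icc (-T) T) (s : ℝ) :
    HasDerivAt (fun τ => form4 c μ f g l1 l2 f' g' l1' l2' (t, τ)) 0 s := by
  have key := form_der c μ (hasS (cd_diff h.sf (t, s))) (hasS (cd_diff h.sg (t, s)))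
    (hasS (cd_diff h.s1 (t, s))) (hasS (cd_diff h.s2 (t, s))) (hasS (cd_diff h'.sf (t, s)))
    (hasS (cd_diff h'.sg (t, s))) (hasS (cd_diff h'.s1 (t, s))) (hasS (cd_diff h'.s2 (t, s)))
  obtain ⟨e1, e2, e3, e4⟩ := h.eS (t, s) ht
  obtain ⟨e1', e2', e3', e4'⟩ := h'.eS (t, s) ht
  rw [e1, e2, e3, e4, e1', e2', e3', e4'] at key
  have hE := (Real.exp_pos (w (t, s))).ne'
  refine key.congr_deriv ?_
  field_simp
  ring

theorem fd_shift (u : ℝ × ℝ → ℝ) (P : ℝ) (p : ℝ × ℝ) :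
    fderiv ℝ (fun q : ℝ × ℝ => u (q.1, q.2 + P)) p = fderiv ℝ u (p.1, p.2 + P) := by
  have h1 : (fun q : ℝ × ℝ => u (q.1, q.2 + P)) = fun q => u (q + ((0 : ℝ), P)) := by
    funext q; simp [Prod.add_def]
  rw [h1, fderiv_comp_add_right]
  simp [Prod.add_def]

theorem dT_shift (u : ℝ × ℝ → ℝ) (P : ℝ) (p : ℝ × ℝ) :
    dT (fun q : ℝ × ℝ => u (q.1, q.2 + P)) p = dT u (p.1, p.2 + P) := by
  simp only [dT, fd_shift]

theorem dS_shift (u : ℝ × ℝ → ℝ) (P : ℝ) (p : ℝ × ℝ) :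
    dS (fun q : ℝ × ℝ => u (q.1, q.2 + P)) p = dS u (p.1, p.2 + P) := by
  simp only [dS, fd_shift]

theorem cd_shift {u : ℝ × ℝ → ℝ} (h : ContDiff ℝ ∞ u) (P : ℝ) :
    ContDiff ℝ ∞ fun q : ℝ × ℝ => u (q.1, q.2 + P) :=
  h.comp (contDiff_fst.prodMk (contDiff_snd.add contDiff_const))

end UQ4Aux

open UQ4Aux in
theorem p_UQ4 :
    S_UQ4 := by
  intro c μ T w f g l1 l2 hw h
  refine ⟨?_, ?_, ?_⟩
  · rintro ⟨t0, s0⟩ hp z1 z2 z3 z4 ⟨t, s⟩ hq
    obtain ⟨y1, y2, y3, y4⟩ := zeroT hw h hp z1 z2 z3 z4 t hq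
    exact zeroS hw h hq y1 y2 y3 y4 s
  · rintro f' g' l1' l2' h' ⟨t0, s0⟩ hp ⟨t, s⟩ hq
    have e1 := const_Icc (t0 := t0) hp (formT h h' s0) t hq
    have e2 := const_Icc (a := min s s0) (b := max s s0) (t0 := s0)
      ⟨min_le_right _ _, le_max_right _ _⟩ (fun τ _ => formS h h' hq τ) s
      ⟨min_le_left _ _, le_max_left _ _⟩
    exact (e2.trans e1).symm
  · intro P hP
    refine ⟨cd_shift h.sf P, cd_shift h.sg P, cd_shift h.s1 P, cd_shift h.s2 P, ?_, ?_⟩
    · rintro ⟨t, s⟩ hp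
      have e := h.eT (t, s + P) hp
      simp only [SysT, hP t s, hP.dS t s] at e
      simp only [SysT, dT_shift]
      exact e
    · rintro ⟨t, s⟩ hp
      have e := h.eS (t, s + P) hp
      simp only [SysS, hP t s, hP.dT t s] at e
      simp only [SysS, dS_shift]
      exact e

end Pool.Agent.P.MP_785924_gt
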