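import Pool.Agent.P.MP_785924_gt.B.IfaceB

/-! Step WEN0 of the free boundary annulus project. -/

namespace Pool.Agent.P.MP_785924_gt

open scoped ContDiff
open Set Filter Topology

namespace Wen0Aux

theorem main (hJACU : S_JACU) {c T : ℝ} {w F G y1 y f g l1 l2 : ℝ × ℝ → ℝ} (hT : 0 < T)
    (hw : ContDiff ℝ ∞ w) (h : Sys4 c 0 T w F G y1 y) (h' : Sys4 c 0 T w f g l1 l2)
    (hK : ∀ p ∈ strip T, dS w p = y1 p * l2 p - y p * l1 p)
    (hG : ∀ p ∈ strip T, dT (dT w) p + dS (dS w) p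
      = -(c * Real.exp (w p) ^ 2) + 1 / Real.exp (w p) ^ 2)
    (h0 : ∀ s, dT w (-T, s) * dS w (-T, s) + c * Real.exp (w (-T, s)) *
      (F (-T, s) * l2 (-T, s) - f (-T, s) * y (-T, s))
        + (G (-T, s) * l2 (-T, s) - g (-T, s) * y (-T, s)) / Real.exp (w (-T, s)) = 0) :
    ∀ p ∈ strip T, dT w p * dS w p = -(c * Real.exp (w p) * (F p * l2 p - f p * y p))
        - (G p * l2 p - g p * y p) / Real.exp (w p) ∧
      dT (dS w) p = (G p * l2 p - g p * y p) / Real.exp (w p)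
        - c * Real.exp (w p) * (F p * l2 p - f p * y p) := by
  have hU : ContDiff ℝ ∞ fun q => y1 q * l2 q - y q * l1 q :=
    (h.s1.mul h'.s2).sub (h.s2.mul h'.s1)
  have eT : ∀ p ∈ strip T, dT (dS w) p = (G p * l2 p - g p * y p) / Real.exp (w p)
      - c * Real.exp (w p) * (F p * l2 p - f p * y p) := fun p hp => by
    rw [dT_congr hT hp (cd_diff (cd_dS hw) p) (cd_diff hU p) hK,
      (hJACU c 0 T w F G y1 y f g l1 l2 hT hw h h' p hp).2]
    ring
  have eS : ∀ p ∈ strip T, dS (dS w) p = c * Real.exp (w p) * (F p * l1 p - f p * y1 p)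
      + (G p * l1 p - g p * y1 p) / Real.exp (w p) := fun p hp => by
    obtain ⟨-, -, a3, a4⟩ := h.eS p hp
    obtain ⟨-, -, b3, b4⟩ := h'.eS p hp
    rw [dS_congr hT hp (cd_diff (cd_dS hw) p) (cd_diff hU p) hK,
      dS_sub (cd_diff (h.s1.mul h'.s2) p) (cd_diff (h.s2.mul h'.s1) p),
      dS_mul (cd_diff h.s1 p) (cd_diff h'.s2 p), dS_mul (cd_diff h.s2 p) (cd_diff h'.s1 p),
      a3, a4, b3, b4]
    ring
  rintro ⟨t, s⟩ hp
  refine ⟨?_, eT _ hp⟩
  have key := uq1_Icc (𝕜 := ℝ) (a11 := fun _ => 0) (a := -T) (b := T) (t0 := -T)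
    (y := fun τ => dT w (τ, s) * dS w (τ, s) + c * Real.exp (w (τ, s)) *
      (F (τ, s) * l2 (τ, s) - f (τ, s) * y (τ, s))
        + (G (τ, s) * l2 (τ, s) - g (τ, s) * y (τ, s)) / Real.exp (w (τ, s)))
    ⟨le_rfl, by linarith⟩ continuousOn_const (fun τ hτ => by
      have hq := mem_strip_of_Icc hτ s
      obtain ⟨a1, a2, -, a4⟩ := h.eT _ hq
      obtain ⟨b1, b2, -, b4⟩ := h'.eT _ hq
      have hW := (hasT (cd_diff hw (τ, s))).exp
      have hX := Real.exp_ne_zero (w (τ, s))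
      have hl := hasT (cd_diff h'.s2 (τ, s))
      have hy := hasT (cd_diff h.s2 (τ, s))
      refine ((((hasT (cd_diff (cd_dT hw) (τ, s))).fun_mul
        (hasT (cd_diff (cd_dS hw) (τ, s)))).fun_add ((hW.const_mul c).fun_mul
          (((hasT (cd_diff h.sf (τ, s))).fun_mul hl).fun_sub
            ((hasT (cd_diff h'.sf (τ, s))).fun_mul hy)))).fun_add
        ((((hasT (cd_diff h.sg (τ, s))).fun_mul hl).fun_sub
          ((hasT (cd_diff h'.sg (τ, s))).fun_mul hy)).fun_div hW hX)).congr_deriv ?_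
      have e1 := hG _ hq
      rw [eS _ hq] at e1
      rw [a1, a2, a4, b1, b2, b4, eT _ hq, eq_sub_of_add_eq e1, hK _ hq]
      field_simp
      ring) (h0 s) t hp
  linarith

end Wen0Aux

theorem p_WEN0 (hJACU : S_JACU) :
    S_WEN0 := by
  intro c ρ C0 T P w x e1 e2 ν b h hK
  refine Wen0Aux.main hJACU h.intr.hT h.intr.sm.1 (h.sys 0) (h.sysv b) hK h.intr.gauss fun s => ?_
  obtain ⟨a1, a2, a3, a4, -⟩ := h.alg.bot s
  have := h.intr.hρ.ne'
  rw [hK _ (bot_mem h.intr.hT s), h.intr.bot s, a1, a2, a3, a4]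
  field_simp
  ring

end Pool.Agent.P.MP_785924_gt
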