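import Pool.Agent.P.MP_785924_gt.B.IfaceB
import Pool.Agent.P.MP_785924_gt.A.Tb

/-! Step WEN1 of the free boundary annulus project. -/

namespace Pool.Agent.P.MP_785924_gt

open scoped ContDiff
open Set Filter Topology

namespace WEN1Aux

theorem zero {D D' Γ : ℝ → ℝ} {s0 : ℝ} (cΓ : Continuous Γ) (d1 : ∀ s, HasDerivAt D (D' s) s)
    (d2 : ∀ s, HasDerivAt D' (Γ s * D s) s) (z1 : D s0 = 0) (z2 : D' s0 = 0) (s : ℝ) : D s = 0 :=
  (uq2 (a11 := fun _ => 0) (a12 := fun _ => 1) (a21 := Γ) (a22 := fun _ => 0) continuous_const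
    continuous_const cΓ continuous_const (fun s => (d1 s).congr_deriv (by ring))
    (fun s => (d2 s).congr_deriv (by ring)) z1 z2 s).1

theorem dep {F F' u u' Γ : ℝ → ℝ} (cΓ : Continuous Γ) (d1 : ∀ s, HasDerivAt F (F' s) s)
    (d2 : ∀ s, HasDerivAt F' (Γ s * F s) s) (e1 : ∀ s, HasDerivAt u (u' s) s)
    (e2 : ∀ s, HasDerivAt u' (Γ s * u s) s) (hW : ∀ s, F s * u' s = F' s * u s) (s0 s : ℝ) :
    F s * u s0 = F s0 * u s :=
  sub_eq_zero.1 (zero (D := fun s => F s * u s0 - F s0 * u s)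
    (D' := fun s => F' s * u s0 - F s0 * u' s) (s0 := s0) cΓ
    (fun s => ((d1 s).mul_const _).fun_sub ((e1 s).const_mul _))
    (fun s => (((d2 s).mul_const _).fun_sub ((e2 s).const_mul _)).congr_deriv (by ring))
    (sub_self _) (by rw [hW, sub_self]) s)

theorem core {c : ℝ} {X Y p u x n y1 y f g l1 l2 : ℝ → ℝ}
    (hu : ∀ s, u s = y1 s * l2 s - y s * l1 s)
    (dX : ∀ s, HasDerivAt X (X s * u s) s) (dY : ∀ s, HasDerivAt Y (-(Y s * u s)) s)
    (dp : ∀ s, HasDerivAt p ((n s * l2 s - g s * y s) * Y s - c * X s * (x s * l2 s - f s * y s)) s)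
    (hp : ∀ s, p s * u s = -(c * X s * (x s * l2 s - f s * y s)) - (n s * l2 s - g s * y s) * Y s)
    (dx : ∀ s, HasDerivAt x (X s * y s) s) (dn : ∀ s, HasDerivAt n (y s * Y s) s)
    (dy1 : ∀ s, HasDerivAt y1 (p s * y s) s)
    (dy : ∀ s, HasDerivAt y (-(p s * y1 s) - c * (X s * x s) - n s * Y s) s)
    (df : ∀ s, HasDerivAt f (X s * l2 s) s) (dg : ∀ s, HasDerivAt g (l2 s * Y s) s)
    (dl1 : ∀ s, HasDerivAt l1 (p s * l2 s) s)
    (dl2 : ∀ s, HasDerivAt l2 (-(p s * l1 s) - c * (X s * f s) - g s * Y s) s) :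
    (∀ s0 s, y s * u s0 = y s0 * u s ∧ l2 s * u s0 = l2 s0 * u s) ∧
      ∀ s0, u s0 = 0 → HasDerivAt u 0 s0 → ∀ s, u s = 0 := by
  have cc : ∀ {F F' : ℝ → ℝ}, (∀ s, HasDerivAt F (F' s) s) → Continuous F := fun h =>
    continuous_iff_continuousAt.2 fun s => (h s).continuousAt
  have cΓ : Continuous fun s => c * X s * (x s * l1 s - f s * y1 s) - (n s * l1 s - g s * y1 s) * Y s
      - p s ^ 2 - c * X s ^ 2 - Y s ^ 2 := by
    have := cc dX; have := cc dY; have := cc dp; have := cc dx; have := cc dn; have := cc dy1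
    have := cc df; have := cc dg; have := cc dl1
    fun_prop
  have e1 : ∀ s, HasDerivAt u
      (c * (X s * (x s * l1 s - f s * y1 s)) + (n s * l1 s - g s * y1 s) * Y s) s := fun s => by
    rw [show u = fun s => y1 s * l2 s - y s * l1 s from funext hu]
    exact (((dy1 s).fun_mul (dl2 s)).fun_sub ((dy s).fun_mul (dl1 s))).congr_deriv (by ring)
  have e2 := fun s => (((((dX s).fun_mul (((dx s).fun_mul (dl1 s)).fun_sub
    ((df s).fun_mul (dy1 s)))).const_mul c).fun_add ((((dn s).fun_mul (dl1 s)).fun_sub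
    ((dg s).fun_mul (dy1 s))).fun_mul (dY s))).congr_deriv
      (show _ = (c * X s * (x s * l1 s - f s * y1 s) - (n s * l1 s - g s * y1 s) * Y s
        - p s ^ 2 - c * X s ^ 2 - Y s ^ 2) * u s by
        linear_combination p s * hp s + (c * X s ^ 2 + Y s ^ 2) * hu s))
  refine ⟨fun s0 s => ⟨dep cΓ dy (fun s => ?_) e1 e2 (fun s => ?_) s0 s,
    dep cΓ dl2 (fun s => ?_) e1 e2 (fun s => ?_) s0 s⟩,
    fun s0 h1 h2 => zero cΓ e1 e2 h1 ((e1 s0).unique h2)⟩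
  · refine (((((dp s).fun_mul (dy1 s)).fun_neg.fun_sub (((dX s).fun_mul (dx s)).const_mul c)).fun_sub
      ((dn s).fun_mul (dY s)))).congr_deriv ?_
    rw [hu]; ring
  · linear_combination y1 s * hp s + (c * X s * x s + n s * Y s) * hu s
  · refine (((((dp s).fun_mul (dl1 s)).fun_neg.fun_sub (((dX s).fun_mul (df s)).const_mul c)).fun_sub
      ((dg s).fun_mul (dY s)))).congr_deriv ?_
    rw [hu]; ring
  · linear_combination l1 s * hp s + (c * X s * f s + g s * Y s) * hu s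

theorem sys {c T t : ℝ} {w f g l1 l2 : ℝ × ℝ → ℝ} (h : Sys4 c 0 T w f g l1 l2)
    (ht : t ∈ Icc (-T) T) :
    (∀ s, HasDerivAt (fun s => f (t, s)) (Real.exp (w (t, s)) * l2 (t, s)) s) ∧
    (∀ s, HasDerivAt (fun s => g (t, s)) (l2 (t, s) * (Real.exp (w (t, s)))⁻¹) s) ∧
    (∀ s, HasDerivAt (fun s => l1 (t, s)) (dT w (t, s) * l2 (t, s)) s) ∧
    ∀ s, HasDerivAt (fun s => l2 (t, s)) (-(dT w (t, s) * l1 (t, s))
      - c * (Real.exp (w (t, s)) * f (t, s)) - g (t, s) * (Real.exp (w (t, s)))⁻¹) s :=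
  ⟨fun s => (hasS (cd_diff h.sf _)).congr_deriv (h.eS (t, s) ht).1,
    fun s => (hasS (cd_diff h.sg _)).congr_deriv ((h.eS (t, s) ht).2.1.trans (div_eq_mul_inv _ _)),
    fun s => (hasS (cd_diff h.s1 _)).congr_deriv (h.eS (t, s) ht).2.2.1,
    fun s => (hasS (cd_diff h.s2 _)).congr_deriv ((h.eS (t, s) ht).2.2.2.trans (by ring))⟩

end WEN1Aux

theorem p_WEN1 (hWEN0 : S_WEN0) :
    S_WEN1 := by
  intro c ρ C0 T P w x e1 e2 ν b hF hK t ht
  have hw := hF.intr.sm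
  have h0 := fun s => hWEN0 c ρ C0 T P w x e1 e2 ν b hF hK (t, s) ht
  obtain ⟨a1, a2, a3, a4⟩ := WEN1Aux.sys (hF.sys 0) ht
  obtain ⟨b1, b2, b3, b4⟩ := WEN1Aux.sys (hF.sysv b) ht
  obtain ⟨k1, k2⟩ := WEN1Aux.core (c := c) (u := fun s => dS w (t, s)) (fun s => hK (t, s) ht)
    (fun s => (hasS (hw.diff (t, s))).exp)
    (fun s => ((hasS (hw.diff (t, s))).exp.fun_inv (Real.exp_pos _).ne').congr_deriv (by
      field_simp))
    (fun s => (hasS (hw.dT.diff (t, s))).congr_deriv (by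
      rw [← dT_dS hw.1, (h0 s).2, div_eq_mul_inv]))
    (fun s => by rw [(h0 s).1, div_eq_mul_inv]) a1 a2 a3 a4 b1 b2 b3 b4
  refine ⟨k1, fun ⟨s1, h1⟩ s h2 h3 => h1 (k2 s h2 ?_ s1)⟩
  exact (hasS (hw.dS.diff (t, s))).congr_deriv h3

end Pool.Agent.P.MP_785924_gt
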