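import Pool.Agent.P.MP_785924_gt.B.IfaceB
import Pool.Agent.P.MP_785924_gt.A.Tb

/-! Step WEN2 of the free boundary annulus project. -/

namespace Pool.Agent.P.MP_785924_gt

open scoped ContDiff
open Set Filter Topology

namespace Wen2Aux

/-- The functions of one variable, built from the frame along a line. -/
noncomputable def fn (u y : ℝ → ℝ) (t : ℝ) : ℝ := -(y t / u t)
noncomputable def fh (u l2 : ℝ → ℝ) (t : ℝ) : ℝ := l2 t / u t
noncomputable def fa (u y l2 f x0 : ℝ → ℝ) (t : ℝ) : ℝ := fh u l2 t * x0 t + fn u y t * f t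
noncomputable def fb (u y l2 g v0 : ℝ → ℝ) (t : ℝ) : ℝ := -(fh u l2 t * v0 t + fn u y t * g t)
noncomputable def fq (X u y l2 f g x0 v0 : ℝ → ℝ) (t : ℝ) : ℝ :=
  X t * fa u y l2 f x0 t - fb u y l2 g v0 t / X t

theorem core (X u y l2 f g x0 v0 : ℝ → ℝ) (y1 l1 wt ut t : ℝ) (hX : X t ≠ 0) (hu : u t ≠ 0)
    (dX : HasDerivAt X (X t * wt) t) (du : HasDerivAt u ut t) (dy : HasDerivAt y (u t * y1) t)
    (dl2 : HasDerivAt l2 (u t * l1) t) (df : HasDerivAt f (X t * l1) t)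
    (dg : HasDerivAt g (-(l1 / X t)) t) (dx0 : HasDerivAt x0 (X t * y1) t)
    (dv0 : HasDerivAt v0 (-(y1 / X t)) t)
    (hk : u t = y1 * l2 t - y t * l1)
    (hw : wt * u t = X t * (x0 t * l2 t - f t * y t) - (v0 t * l2 t - g t * y t) / X t)
    (hut : ut = (v0 t * l2 t - g t * y t) / X t + X t * (x0 t * l2 t - f t * y t)) :
    HasDerivAt (fn u y) (-y1 - fn u y t * fq X u y l2 f g x0 v0 t) t ∧
    HasDerivAt (fh u l2) (l1 - fh u l2 t * fq X u y l2 f g x0 v0 t) t ∧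
    HasDerivAt (fa u y l2 f x0)
      (x0 t * l1 - f t * y1 - fa u y l2 f x0 t * fq X u y l2 f g x0 v0 t + X t) t ∧
    HasDerivAt (fb u y l2 g v0)
      (-(v0 t * l1 - g t * y1) - fb u y l2 g v0 t * fq X u y l2 f g x0 v0 t + 1 / X t) t ∧
    HasDerivAt (fun τ => x0 τ + fn u y τ * X τ) (2 * fb u y l2 g v0 t * fn u y t) t ∧
    HasDerivAt (fun τ => fn u y τ / X τ - v0 τ) (-(2 * fa u y l2 f x0 t * fn u y t)) t ∧
    HasDerivAt (fun τ => fh u l2 τ * X τ - f τ) (2 * fb u y l2 g v0 t * fh u l2 t) t ∧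
    x0 t + fn u y t * X t =
      (x0 t * l1 - f t * y1 - fa u y l2 f x0 t * fq X u y l2 f g x0 v0 t + X t) * fn u y t -
        fa u y l2 f x0 t * (-y1 - fn u y t * fq X u y l2 f g x0 v0 t) ∧
    fn u y t / X t - v0 t =
      (-(v0 t * l1 - g t * y1) - fb u y l2 g v0 t * fq X u y l2 f g x0 v0 t + 1 / X t) * fn u y t -
        fb u y l2 g v0 t * (-y1 - fn u y t * fq X u y l2 f g x0 v0 t) ∧
    (l1 - fh u l2 t * fq X u y l2 f g x0 v0 t) * fn u y t -
      fh u l2 t * (-y1 - fn u y t * fq X u y l2 f g x0 v0 t) = 1 := by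
  have hy : y t = -(fn u y t * u t) := by unfold fn; field_simp
  have hl : l2 t = fh u l2 t * u t := by unfold fh; field_simp
  have one : fh u l2 t * y1 + fn u y t * l1 = 1 := by
    apply mul_right_cancel₀ hu
    linear_combination (-1 : ℝ) * hk - y1 * hl + l1 * hy
  have ha : x0 t * l2 t - f t * y t = fa u y l2 f x0 t * u t := by
    unfold fa
    linear_combination x0 t * hl - f t * hy
  have hb : v0 t * l2 t - g t * y t = -(fb u y l2 g v0 t * u t) := by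
    unfold fb
    linear_combination v0 t * hl - g t * hy
  have hQ : ut = fq X u y l2 f g x0 v0 t * u t := by
    rw [hut, ha, hb]; unfold fq; ring
  have hW : wt = X t * fa u y l2 f x0 t + fb u y l2 g v0 t / X t := by
    apply mul_right_cancel₀ hu
    rw [hw, ha, hb]; ring
  have hq : fq X u y l2 f g x0 v0 t = X t * fa u y l2 f x0 t - fb u y l2 g v0 t / X t := rfl
  have dn : HasDerivAt (fn u y) (-y1 - fn u y t * fq X u y l2 f g x0 v0 t) t := by
    refine ((dy.fun_div du hu).fun_neg).congr_deriv ?_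
    rw [hQ]
    unfold fn
    field_simp
    ring
  have dh : HasDerivAt (fh u l2) (l1 - fh u l2 t * fq X u y l2 f g x0 v0 t) t := by
    refine (dl2.fun_div du hu).congr_deriv ?_
    rw [hQ]
    unfold fh
    field_simp
  have ea : fa u y l2 f x0 t = fh u l2 t * x0 t + fn u y t * f t := rfl
  have eb : fb u y l2 g v0 t = -(fh u l2 t * v0 t + fn u y t * g t) := rfl
  refine ⟨dn, dh, ?_, ?_, ?_, ?_, ?_, ?_, ?_, ?_⟩
  · refine ((dh.fun_mul dx0).fun_add (dn.fun_mul df)).congr_deriv ?_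
    rw [ea]
    linear_combination X t * one
  · refine (((dh.fun_mul dv0).fun_add (dn.fun_mul dg)).fun_neg).congr_deriv ?_
    rw [eb]
    linear_combination (1 / X t) * one
  · refine (dx0.fun_add (dn.fun_mul dX)).congr_deriv ?_
    rw [hW, hq]
    field_simp
    ring
  · refine ((dn.fun_div dX hX).fun_sub dv0).congr_deriv ?_
    rw [hW, hq]
    field_simp
    ring
  · refine ((dh.fun_mul dX).fun_sub df).congr_deriv ?_
    rw [hW, hq]
    field_simp
    ring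
  · rw [ea]
    linear_combination (-(x0 t)) * one
  · rw [eb]
    linear_combination (v0 t) * one
  · linear_combination one

/-- The boundary equation on a boundary circle. -/
theorem bd {ρ C0 T P σ e s0 : ℝ} {w f g l1 l2 : ℝ × ℝ → ℝ} (hρ : 0 < ρ)
    (hC : C0 ^ 2 + -1 * ρ ^ 2 = 1) (he : e = 1 ∨ e = -1) (hw : Sm P w)
    (hs : Sys4 (-1) 0 T w f g l1 l2) (hσ : ∀ s, (σ, s) ∈ strip T)
    (hu : ∀ s, dS w (σ, s) = e * ρ * l2 (σ, s))
    (hwt : ∀ s, dT w (σ, s) = e * (C0 / ρ * Real.exp (w (σ, s))))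
    (hl : ∀ s, l1 (σ, s) = e * (C0 / ρ * f (σ, s))) :
    BOde ρ (e * f (σ, s0) / ρ - Real.exp (w (σ, s0)) / ρ ^ 2)
      (e * ρ * g (σ, s0) + 1 / Real.exp (w (σ, s0))) (lev σ w) := by
  have ee : e * e = 1 := by rcases he with rfl | rfl <;> norm_num
  have dX : ∀ s, HasDerivAt (fun τ => Real.exp (w (σ, τ)))
      (Real.exp (w (σ, s)) * (e * ρ * l2 (σ, s))) s := fun s => by
    have := (hasS (hw.diff (σ, s))).exp
    rwa [hu s] at this
  have dF : ∀ s, HasDerivAt (fun τ => f (σ, τ)) (Real.exp (w (σ, s)) * l2 (σ, s)) s := fun s => by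
    have := hasS (cd_diff hs.sf (σ, s))
    rwa [(hs.eS _ (hσ s)).1] at this
  have dG : ∀ s, HasDerivAt (fun τ => g (σ, τ)) (l2 (σ, s) / Real.exp (w (σ, s))) s := fun s => by
    have := hasS (cd_diff hs.sg (σ, s))
    rwa [(hs.eS _ (hσ s)).2.1] at this
  have dA : ∀ s, HasDerivAt (fun τ => e * f (σ, τ) / ρ - Real.exp (w (σ, τ)) / ρ ^ 2) 0 s :=
    fun s => by
      refine ((((dF s).const_mul e).div_const ρ).fun_sub ((dX s).div_const (ρ ^ 2))).congr_deriv ?_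
      field_simp
      ring
  have dB : ∀ s, HasDerivAt (fun τ => e * ρ * g (σ, τ) + 1 / Real.exp (w (σ, τ))) 0 s :=
    fun s => by
      have hx : Real.exp (w (σ, s)) ≠ 0 := (Real.exp_pos _).ne'
      refine (((dG s).const_mul (e * ρ)).fun_add
        ((hasDerivAt_const s (1 : ℝ)).fun_div (dX s) hx)).congr_deriv ?_
      field_simp
      ring
  have cA := is_const_of_deriv_eq_zero (fun s => (dA s).differentiableAt) (fun s => (dA s).deriv)
  have cB := is_const_of_deriv_eq_zero (fun s => (dB s).differentiableAt) (fun s => (dB s).deriv)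
  intro s
  have hx : Real.exp (w (σ, s)) ≠ 0 := (Real.exp_pos _).ne'
  have e1 : dS (dS w) (σ, s) = e * ρ * dS l2 (σ, s) := by
    rw [← dS_cmul (e * ρ) (cd_diff hs.s2 (σ, s))]
    exact dS_congr_lev (hw.dS.diff _) ((cd_diff hs.s2 (σ, s)).const_mul _) hu
  rw [deriv_lev hw.1, deriv_lev hw.dS.1, cA s0 s, cB s0 s]
  change dS (dS w) (σ, s) = -(Real.exp (w (σ, s)) ^ 2 / ρ ^ 2) + 1 / Real.exp (w (σ, s)) ^ 2 -
    (e * f (σ, s) / ρ - Real.exp (w (σ, s)) / ρ ^ 2) * Real.exp (w (σ, s)) -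
    (e * ρ * g (σ, s) + 1 / Real.exp (w (σ, s))) / Real.exp (w (σ, s))
  rw [e1, (hs.eS _ (hσ s)).2.2.2, hwt s, hl s]
  have hC' : C0 ^ 2 = 1 + ρ ^ 2 := by linarith
  generalize Real.exp (w (σ, s)) = X at hx ⊢
  field_simp
  linear_combination (-(e * C0 ^ 2 * X ^ 3 * f (σ, s) * ρ)) * ee -
    (e * X ^ 3 * f (σ, s) * ρ) * hC'

end Wen2Aux

open Wen2Aux in
theorem p_WEN2 (hWEN0 : S_WEN0) (hWEN1 : S_WEN1) (hLINE : S_LINE) :
    S_WEN2 := by
  intro ρ C0 T P w x e1 e2 ν b hF hK hG hsign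
  have hT : 0 < T := hF.intr.hT
  have hρ : 0 < ρ := hF.intr.hρ
  have hw : Sm P w := hF.intr.sm
  have mT : T ∈ Icc (-T) T := ⟨by linarith, le_rfl⟩
  have mB : -T ∈ Icc (-T) T := ⟨le_rfl, by linarith⟩
  obtain ⟨s0, hs0⟩ := hG (-T) mB
  have hu : ∀ t ∈ Icc (-T) T, dS w (t, s0) ≠ 0 := fun t ht h0 =>
    hs0 (hLINE (-1) ρ C0 T P w x e1 e2 ν b hF hK (-T) T le_rfl le_rfl hG s0 t ht (-T) mB h0)
  have h0 := hF.sys 0
  have hv := hF.sysv b
  set X : ℝ → ℝ := fun t => Real.exp (w (t, s0)) with hX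
  set u : ℝ → ℝ := fun t => dS w (t, s0) with hu'
  set y : ℝ → ℝ := fun t => e2 0 (t, s0) with hy
  set y1 : ℝ → ℝ := fun t => e1 0 (t, s0) with hy1
  set l1 : ℝ → ℝ := fun t => cmp4 b e1 (t, s0) with hl1
  set l2 : ℝ → ℝ := fun t => cmp4 b e2 (t, s0) with hl2
  set f : ℝ → ℝ := fun t => cmp4 b x (t, s0) with hf
  set g : ℝ → ℝ := fun t => cmp4 b ν (t, s0) with hg
  set x0 : ℝ → ℝ := fun t => x 0 (t, s0) with hx0
  set v0 : ℝ → ℝ := fun t => ν 0 (t, s0) with hv0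
  have hXpos : ∀ t, 0 < X t := fun t => Real.exp_pos _
  -- boundary values
  have bv : ∀ σ e : ℝ, σ ∈ Icc (-T) T → (e = 1 ∨ e = -1) →
      (∀ s, x 0 (σ, s) = C0 ∧ ν 0 (σ, s) = 0 ∧ e2 0 (σ, s) = 0 ∧ e1 0 (σ, s) = e * ρ ∧
        cmp4 b e1 (σ, s) = e * (C0 / ρ * cmp4 b x (σ, s)) ∧
        dT w (σ, s) = e * (C0 / ρ * Real.exp (w (σ, s)))) →
      x0 σ + fn u y σ * X σ = C0 ∧ fn u y σ / X σ - v0 σ = 0 ∧ fb u y l2 g v0 σ = 0 ∧
      BOde ρ (-(e * (fh u l2 σ * X σ - f σ) / ρ))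
        (-(v0 σ * l1 σ - g σ * y1 σ) - fb u y l2 g v0 σ * fq X u y l2 f g x0 v0 σ + 1 / X σ)
        (lev σ w) := by
    intro σ e hσ he hb
    have ee : e * e = 1 := by rcases he with rfl | rfl <;> norm_num
    have hus : ∀ s, dS w (σ, s) = e * ρ * cmp4 b e2 (σ, s) := fun s => by
      rw [hK (σ, s) hσ, (hb s).2.2.1, (hb s).2.2.2.1]; ring
    have a1 : x0 σ = C0 := (hb s0).1
    have a2 : v0 σ = 0 := (hb s0).2.1
    have a3 : y σ = 0 := (hb s0).2.2.1
    have a4 : y1 σ = e * ρ := (hb s0).2.2.2.1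
    have a5 : u σ = e * ρ * l2 σ := hus s0
    have an : fn u y σ = 0 := by unfold fn; rw [a3]; simp
    have ab : fb u y l2 g v0 σ = 0 := by unfold fb; rw [an, a2]; simp
    have hu0 : u σ ≠ 0 := hu σ hσ
    have ah : fh u l2 σ = e / ρ := by
      unfold fh
      rw [div_eq_div_iff hu0 hρ.ne', a5]
      linear_combination (-(l2 σ * ρ)) * ee
    refine ⟨by rw [an, a1]; ring, by rw [an, a2]; ring, ab, ?_⟩
    have := bd (s0 := s0) hρ hF.intr.hCρ he hw hv (fun s => mem_strip_of_Icc hσ s) hus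
      (fun s => (hb s).2.2.2.2.2) (fun s => (hb s).2.2.2.2.1)
    have b1 : -(e * (fh u l2 σ * X σ - f σ) / ρ) =
        e * cmp4 b x (σ, s0) / ρ - Real.exp (w (σ, s0)) / ρ ^ 2 := by
      rw [ah]
      change -(e * (e / ρ * X σ - f σ) / ρ) = e * f σ / ρ - X σ / ρ ^ 2
      field_simp
      linear_combination (-(X σ)) * ee
    have b2 : -(v0 σ * l1 σ - g σ * y1 σ) - fb u y l2 g v0 σ * fq X u y l2 f g x0 v0 σ + 1 / X σ =
        e * ρ * cmp4 b ν (σ, s0) + 1 / Real.exp (w (σ, s0)) := by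
      rw [ab, a2, a4]
      change _ = e * ρ * g σ + 1 / X σ
      ring
    rw [b1, b2]
    exact this
  obtain ⟨t1, t2, t3, t4⟩ := bv T 1 mT (Or.inl rfl) fun s => by
    obtain ⟨c1, c2, c3, c4, c5⟩ := hF.alg.top s
    refine ⟨c1, c2, c3, by rw [c4]; ring, ?_, by rw [hF.intr.top s]; ring⟩
    have d1 : e1 1 (T, s) = C0 / ρ * x 1 (T, s) := c5 0
    have d2 : e1 2 (T, s) = C0 / ρ * x 2 (T, s) := c5 1
    have d3 : e1 3 (T, s) = C0 / ρ * x 3 (T, s) := c5 2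
    unfold cmp4
    rw [d1, d2, d3]; ring
  obtain ⟨r1, r2, r3, r4⟩ := bv (-T) (-1) mB (Or.inr rfl) fun s => by
    obtain ⟨c1, c2, c3, c4, c5⟩ := hF.alg.bot s
    refine ⟨c1, c2, c3, by rw [c4], ?_, by rw [hF.intr.bot s]; ring⟩
    have d1 : e1 1 (-T, s) = -(C0 / ρ * x 1 (-T, s)) := c5 0
    have d2 : e1 2 (-T, s) = -(C0 / ρ * x 2 (-T, s)) := c5 1
    have d3 : e1 3 (-T, s) = -(C0 / ρ * x 3 (-T, s)) := c5 2
    unfold cmp4
    rw [d1, d2, d3]; ring
  refine ⟨fn u y, fh u l2, fa u y l2 f x0, fb u y l2 g v0,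
    fun t => -y1 t - fn u y t * fq X u y l2 f g x0 v0 t,
    fun t => l1 t - fh u l2 t * fq X u y l2 f g x0 v0 t,
    fun t => x0 t * l1 t - f t * y1 t - fa u y l2 f x0 t * fq X u y l2 f g x0 v0 t + X t,
    fun t => -(v0 t * l1 t - g t * y1 t) - fb u y l2 g v0 t * fq X u y l2 f g x0 v0 t + 1 / X t,
    fun τ => x0 τ + fn u y τ * X τ, fun τ => fn u y τ / X τ - v0 τ,
    fun τ => fh u l2 τ * X τ - f τ, fun t ht => ?_, fun t ht => ?_, t1.trans r1.symm, t2, r2, t3, r3,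
    ?_, ?_⟩
  · have hp : (t, s0) ∈ strip T := mem_strip_of_Icc ht s0
    obtain ⟨p1, p2, -, p4⟩ := h0.eT _ hp
    obtain ⟨q1, q2, -, q4⟩ := hv.eT _ hp
    obtain ⟨k1, k2⟩ := hWEN0 (-1) ρ C0 T P w x e1 e2 ν b hF hK _ hp
    refine core X u y l2 f g x0 v0 (y1 t) (l1 t) (dT w (t, s0)) (dT (dS w) (t, s0)) t
      (hXpos t).ne' (hu t ht) (hasT (hw.diff (t, s0))).exp (hasT (hw.dS.diff (t, s0)))
      ?_ ?_ ?_ ?_ ?_ ?_ (hK _ hp) ?_ ?_
    · exact (hasT (cd_diff h0.s2 (t, s0))).congr_deriv p4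
    · exact (hasT (cd_diff hv.s2 (t, s0))).congr_deriv q4
    · exact (hasT (cd_diff hv.sf (t, s0))).congr_deriv q1
    · exact (hasT (cd_diff hv.sg (t, s0))).congr_deriv q2
    · exact (hasT (cd_diff h0.sf (t, s0))).congr_deriv p1
    · exact (hasT (cd_diff h0.sg (t, s0))).congr_deriv p2
    · refine k1.trans ?_
      simp only [hX, hx0, hl2, hf, hy, hv0, hg]
      ring
    · refine k2.trans ?_
      simp only [hX, hx0, hl2, hf, hy, hv0, hg]
      ring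
  · have ht' : t ∈ Icc (-T) T := Ioo_subset_Icc_self ht
    have hu0 : u t ≠ 0 := hu t ht'
    have h1 : y t * u t < 0 := hsign t ht s0 hu0
    have h2 : 0 < fn u y t := by
      have e : fn u y t = -(y t * u t) / u t ^ 2 := by unfold fn; field_simp
      rw [e]
      exact div_pos (by linarith) (by positivity)
    have h3 : 0 < x0 t := hF.alg.pos _ (mem_strip_of_Icc ht' s0)
    exact ⟨h2, add_pos h3 (mul_pos h2 (hXpos t))⟩
  · have e : -((fh u l2 T * X T - f T) / ρ) = -(1 * (fh u l2 T * X T - f T) / ρ) := by ring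
    change BOde ρ (-((fh u l2 T * X T - f T) / ρ)) _ _
    rw [e]
    exact t4
  · have e : (fh u l2 (-T) * X (-T) - f (-T)) / ρ =
        -(-1 * (fh u l2 (-T) * X (-T) - f (-T)) / ρ) := by ring
    change BOde ρ ((fh u l2 (-T) * X (-T) - f (-T)) / ρ) _ _
    rw [e]
    exact r4

end Pool.Agent.P.MP_785924_gt
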