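import Pool.Agent.P.MP_785924_gt.B.IfaceB

/-! Step WEN3 of the free boundary annulus project. -/

namespace Pool.Agent.P.MP_785924_gt

open scoped ContDiff
open Set Filter Topology

namespace WEN3Aux

theorem incr {F F' : ℝ → ℝ} {a b : ℝ} (hab : a < b) (hd : ∀ t ∈ Icc a b, HasDerivAt F (F' t) t)
    (hp : ∀ t ∈ Ioo a b, 0 < F' t) : F a < F b := by
  obtain ⟨x, hx, e⟩ := exists_hasDerivAt_eq_slope F F' hab
    (fun t ht => (hd t ht).continuousAt.continuousWithinAt) (fun t ht => hd t (Ioo_subset_Icc_self ht))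
  have h1 := hp x hx
  rw [e] at h1
  have h2 := (div_pos_iff_of_pos_right (sub_pos.2 hab)).1 h1
  linarith

theorem quot {u n u' n' : ℝ → ℝ} {a b : ℝ} (hu : ∀ t ∈ Ioo a b, HasDerivAt u (u' t) t)
    (hn : ∀ t ∈ Ioo a b, HasDerivAt n (n' t) t) (h0 : ∀ t ∈ Ioo a b, 0 < n t)
    (hw : ∀ t ∈ Ioo a b, 0 < u' t * n t - u t * n' t) {s t : ℝ} (hs : s ∈ Ioo a b)
    (ht : t ∈ Ioo a b) (hst : s < t) : u s / n s < u t / n t := by
  have sub : Icc s t ⊆ Ioo a b := fun x hx => ⟨hs.1.trans_le hx.1, hx.2.trans_lt ht.2⟩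
  refine incr (F := fun x => u x / n x) (F' := fun x => (u' x * n x - u x * n' x) / n x ^ 2) hst
    (fun x hx => (hu x (sub hx)).fun_div (hn x (sub hx)) (h0 x (sub hx)).ne') (fun x hx => ?_)
  have hx' := sub (Ioo_subset_Icc_self hx)
  exact div_pos (hw x hx') (pow_pos (h0 x hx') 2)

end WEN3Aux

open WEN3Aux in
theorem p_WEN3 :
    S_WEN3 := by
  intro T n h α β n' h' α' β' Wa Wb W3 hT hd hp ea eb1 eb2 z1 z2
  have hTT : -T < T := by linarith
  have hI : ∀ t ∈ Ioo (-T) T, t ∈ Icc (-T) T := fun t ht => Ioo_subset_Icc_self ht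
  have dn : ∀ t ∈ Ioo (-T) T, HasDerivAt n (n' t) t := fun t ht => (hd t (hI t ht)).1
  have n0 : ∀ t ∈ Ioo (-T) T, 0 < n t := fun t ht => (hp t ht).1
  have qa : ∀ s ∈ Ioo (-T) T, ∀ t ∈ Ioo (-T) T, s < t → α s / n s < α t / n t :=
    fun s hs t ht hst => quot (fun t ht => (hd t (hI t ht)).2.2.1) dn n0
      (fun t ht => by rw [← (hd t (hI t ht)).2.2.2.2.2.2.2.1]; exact (hp t ht).2) hs ht hst
  have wb : ∀ t ∈ Ioo (-T) T, 0 < Wb t := by
    intro t ht
    rcases le_or_gt (α t) 0 with ha | ha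
    · have := incr (F := Wb) (F' := fun x => -(2 * α x * n x)) ht.1
        (fun x hx => (hd x ⟨hx.1, hx.2.trans ht.2.le⟩).2.2.2.2.2.1) (fun x hx => ?_)
      · linarith
      · have hx' : x ∈ Ioo (-T) T := ⟨hx.1, hx.2.trans ht.2⟩
        have h1 := qa x hx' t ht hx.2
        have h2 : α t / n t ≤ 0 := div_nonpos_of_nonpos_of_nonneg ha (n0 t ht).le
        have h3 : α x < 0 := by
          by_contra h4
          have := div_nonneg (not_lt.1 h4) (n0 x hx').le
          linarith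
        have := mul_pos (neg_pos.2 h3) (n0 x hx')
        linarith
    · have := incr (F := fun x => -Wb x) (F' := fun x => -(-(2 * α x * n x))) ht.2
        (fun x hx => ((hd x ⟨ht.1.le.trans hx.1, hx.2⟩).2.2.2.2.2.1).fun_neg) (fun x hx => ?_)
      · linarith
      · have hx' : x ∈ Ioo (-T) T := ⟨ht.1.trans hx.1, hx.2⟩
        have h1 := qa t ht x hx' hx.1
        have h2 : 0 < α t / n t := div_pos ha (n0 t ht)
        have h3 : 0 < α x := (div_pos_iff_of_pos_right (n0 x hx')).1 (h2.trans h1)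
        have := mul_pos h3 (n0 x hx')
        linarith
  have qb : ∀ s ∈ Ioo (-T) T, ∀ t ∈ Ioo (-T) T, s < t → β s / n s < β t / n t :=
    fun s hs t ht hst => quot (fun t ht => (hd t (hI t ht)).2.2.2.1) dn n0
      (fun t ht => by rw [← (hd t (hI t ht)).2.2.2.2.2.2.2.2.1]; exact wb t ht) hs ht hst
  have qh : ∀ s ∈ Ioo (-T) T, ∀ t ∈ Ioo (-T) T, s < t → h s / n s < h t / n t :=
    fun s hs t ht hst => quot (fun t ht => (hd t (hI t ht)).2.1) dn n0
      (fun t ht => by rw [(hd t (hI t ht)).2.2.2.2.2.2.2.2.2]; exact one_pos) hs ht hst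
  obtain ⟨tb, htb, e⟩ := exists_hasDerivAt_eq_zero (f := Wa) (f' := fun x => 2 * β x * n x) hTT
    (fun t ht => (hd t ht).2.2.2.2.1.continuousAt.continuousWithinAt) ea.symm
    (fun t ht => (hd t (hI t ht)).2.2.2.2.1)
  have b0 : β tb = 0 := by
    have h1 := (n0 tb htb).ne'
    have h2 : 2 * β tb * n tb = 0 := e
    rcases mul_eq_zero.1 h2 with h3 | h3
    · linarith
    · exact absurd h3 h1
  have bneg : ∀ x ∈ Ioo (-T) tb, β x < 0 := by
    intro x hx
    have hx' : x ∈ Ioo (-T) T := ⟨hx.1, hx.2.trans htb.2⟩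
    have h1 := qb x hx' tb htb hx.2
    rw [b0, zero_div] at h1
    by_contra h4
    have := div_nonneg (not_lt.1 h4) (n0 x hx').le
    linarith
  have bpos : ∀ x ∈ Ioo tb T, 0 < β x := by
    intro x hx
    have hx' : x ∈ Ioo (-T) T := ⟨htb.1.trans hx.1, hx.2⟩
    have h1 := qb tb htb x hx' hx.1
    rw [b0, zero_div] at h1
    exact (div_pos_iff_of_pos_right (n0 x hx')).1 h1
  refine ⟨?_, ?_, ?_⟩
  · have h1 := (hasDerivAt_iff_tendsto_slope_left_right.1 (hd T ⟨hTT.le, le_rfl⟩).2.2.2.1).1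
    refine le_of_tendsto h1 ?_
    filter_upwards [Ioo_mem_nhdsLT htb.2] with x hx
    rw [slope_def_field, z1, sub_zero]
    exact div_nonpos_of_nonneg_of_nonpos (bpos x hx).le (by linarith [hx.2])
  · have h1 := (hasDerivAt_iff_tendsto_slope_left_right.1 (hd (-T) ⟨le_rfl, hTT.le⟩).2.2.2.1).2
    refine le_of_tendsto h1 ?_
    filter_upwards [Ioo_mem_nhdsGT htb.1] with x hx
    rw [slope_def_field, z2, sub_zero]
    exact div_nonpos_of_nonpos_of_nonneg (bneg x hx).le (by linarith [hx.1])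
  · have dF : ∀ x ∈ Icc (-T) T, HasDerivAt (fun y => W3 y - h tb / n tb * Wa y)
        (2 * β x * h x - h tb / n tb * (2 * β x * n x)) x := fun x hx =>
      (hd x hx).2.2.2.2.2.2.1.fun_sub ((hd x hx).2.2.2.2.1.const_mul _)
    have eF : ∀ x ∈ Ioo (-T) T, 2 * β x * h x - h tb / n tb * (2 * β x * n x)
        = 2 * n x * (β x * (h x / n x - h tb / n tb)) := by
      intro x hx
      have h1 := (n0 x hx).ne'
      have h2 := (n0 tb htb).ne'
      field_simp
    have i1 := incr htb.1 (fun x hx => dF x ⟨hx.1, hx.2.trans htb.2.le⟩) (fun x hx => by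
      have hx' : x ∈ Ioo (-T) T := ⟨hx.1, hx.2.trans htb.2⟩
      rw [eF x hx']
      exact mul_pos (mul_pos two_pos (n0 x hx'))
        (mul_pos_of_neg_of_neg (bneg x hx) (sub_neg.2 (qh x hx' tb htb hx.2))))
    have i2 := incr htb.2 (fun x hx => dF x ⟨htb.1.le.trans hx.1, hx.2⟩) (fun x hx => by
      have hx' : x ∈ Ioo (-T) T := ⟨htb.1.trans hx.1, hx.2⟩
      rw [eF x hx']
      exact mul_pos (mul_pos two_pos (n0 x hx'))
        (mul_pos (bpos x hx) (sub_pos.2 (qh tb htb x hx' hx.1))))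
    have i3 := i1.trans i2
    simp only [ea] at i3
    linarith

end Pool.Agent.P.MP_785924_gt
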