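import Pool.Agent.P.MP_785924_gt.B.IfaceB

/-! Step WENS of the free boundary annulus project. -/

namespace Pool.Agent.P.MP_785924_gt

open scoped ContDiff
open Set Filter Topology

namespace WensAux

/-- A smooth positive function equal to the identity on `[m, ∞)`. -/
theorem exists_psi {m : ℝ} (hm : 0 < m) :
    ∃ ψ : ℝ → ℝ, ContDiff ℝ ∞ ψ ∧ (∀ r, 0 < ψ r) ∧ ∀ r, m ≤ r → ψ r = r := by
  have hs : ContDiff ℝ ∞ fun r : ℝ => Real.smoothTransition (4 / m * r - 1) :=
    Real.smoothTransition.contDiff.comp ((contDiff_const.mul contDiff_id).sub contDiff_const)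
  refine ⟨fun r => Real.smoothTransition (4 / m * r - 1) * r
    + (1 - Real.smoothTransition (4 / m * r - 1)) * m,
    (hs.mul contDiff_id).add ((contDiff_const.sub hs).mul contDiff_const), fun r => ?_,
    fun r hr => ?_⟩
  · by_cases h : r ≤ 0
    · have h1 : 4 / m * r - 1 ≤ 0 := by
        have : 4 / m * r ≤ 0 := mul_nonpos_of_nonneg_of_nonpos (by positivity) h
        linarith
      simp only [Real.smoothTransition.zero_of_nonpos h1]
      linarith
    · have h' : 0 < r := not_le.1 h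
      have a0 := Real.smoothTransition.nonneg (4 / m * r - 1)
      have a1 := Real.smoothTransition.le_one (4 / m * r - 1)
      show 0 < Real.smoothTransition (4 / m * r - 1) * r
        + (1 - Real.smoothTransition (4 / m * r - 1)) * m
      rcases le_total r m with h2 | h2
      · nlinarith
      · nlinarith
  · have h1 : 1 ≤ 4 / m * r - 1 := by
      have : 4 / m * m ≤ 4 / m * r := mul_le_mul_of_nonneg_left hr (by positivity)
      rw [div_mul_cancel₀ _ hm.ne'] at this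
      linarith
    simp only [Real.smoothTransition.one_of_one_le h1]
    ring

/-- A positive continuous periodic function has a positive lower bound on the strip. -/
theorem lower {T P : ℝ} {f : ℝ × ℝ → ℝ} (hT : 0 < T) (hP : 0 < P) (hf : Sm P f)
    (h : ∀ p ∈ strip T, 0 < f p) : ∃ m, 0 < m ∧ ∀ p ∈ strip T, m ≤ f p := by
  obtain ⟨q, hq, hm⟩ := ((isCompact_Icc (a := -T) (b := T)).prod
    (isCompact_Icc (a := (0 : ℝ)) (b := P))).exists_isMinOn
    ⟨(0, 0), ⟨by simp; linarith, by simp; linarith⟩, ⟨le_rfl, hP.le⟩⟩ hf.cont.continuousOn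
  refine ⟨f q, h q hq.1, fun p hp => ?_⟩
  obtain ⟨y, hy, e⟩ := (hf.2.periodic p.1).exists_mem_Ico₀ hP p.2
  have e' : f p = f (p.1, y) := e
  rw [e']
  exact hm (show ((p.1, y) : ℝ × ℝ) ∈ Icc (-T) T ×ˢ Icc 0 P from ⟨hp, hy.1, hy.2.le⟩)

/-- A function vanishing on both ends with non-positive energy vanishes, when the operator has
a positive solution. -/
theorem dirichlet {T P : ℝ} {W K u y : ℝ × ℝ → ℝ} (hT : 0 < T) (hP : 0 < P) (hW : Continuous W)
    (hK : Continuous K) (hu : Sm P u) (hy : Sm P y) (hpos : ∀ p ∈ strip T, 0 < y p)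
    (heq : ∀ p ∈ strip T, dT (dT y) p + dS (dS y) p = W p * y p)
    (ht : ∀ s, u (T, s) = 0) (hb : ∀ s, u (-T, s) = 0) (hq : Bf T P W K u u ≤ 0) :
    ∀ p ∈ strip T, u p = 0 := by
  obtain ⟨m, hm, hm'⟩ := lower hT hP hy hpos
  obtain ⟨ψ, hψ, hψ0, hψ1⟩ := exists_psi hm
  obtain ⟨v, hv, hvu, hv0⟩ : ∃ v : ℝ × ℝ → ℝ, Sm P v ∧ (∀ p ∈ strip T, u p = v p * y p) ∧
      ∀ p, u p = 0 → v p = 0 := by
    refine ⟨fun p => u p / ψ (y p), hu.div (hy.comp hψ) fun q => (hψ0 _).ne', fun p hp => ?_,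
      fun p hp => by simp [hp]⟩
    show u p = u p / ψ (y p) * y p
    rw [hψ1 _ (hm' p hp), div_mul_cancel₀ _ (hpos p hp).ne']
  have hz : Sm P fun p => v p ^ 2 * y p := (hv.pow 2).mul hy
  have h1 : Bf T P W K y (fun p => v p ^ 2 * y p) = 0 := by
    rw [green hy hz hW hK, Int2_congr (g := fun _ => 0) hT
      (fun p hp => by rw [heq p hp]; ring), Int2_const]
    simp [hv0 _ (ht _), hv0 _ (hb _)]
  have h2 : Bf T P W K u u = Bf T P W K (fun p => v p * y p) (fun p => v p * y p) :=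
    Bf_congr hT hu.1 (hv.mul hy).1 hu.1 (hv.mul hy).1 hvu hvu
  have c1 := hv.cont
  have c2 := hy.cont
  have c3 := hv.dT.cont
  have c4 := hv.dS.cont
  have c5 := hy.dT.cont
  have c6 := hy.dS.cont
  have c7 := hz.dT.cont
  have c8 := hz.dS.cont
  have h3 : Bf T P W K (fun p => v p * y p) (fun p => v p * y p)
      = Bf T P W K y (fun p => v p ^ 2 * y p)
        + Int2 T P fun p => y p ^ 2 * (dT v p ^ 2 + dS v p ^ 2) := by
    simp only [Bf_eq]
    rw [sub_add_eq_add_sub, ← Int2_add (by fun_prop) (by fun_prop)]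
    congr 1
    · congr 1
      funext p
      have d2 : DifferentiableAt ℝ (fun q => v q ^ 2) p := (hv.pow 2).diff p
      rw [dT_mul (hv.diff p) (hy.diff p), dS_mul (hv.diff p) (hy.diff p),
        dT_mul d2 (hy.diff p), dS_mul d2 (hy.diff p), dT_sq (hv.diff p), dS_sq (hv.diff p)]
      ring
    · exact intervalIntegral.integral_congr fun s _ => by ring
  have h4 := zero_of_Int2 (f := fun p => y p ^ 2 * (dT v p ^ 2 + dS v p ^ 2)) hT hP (by fun_prop)
    ((hy.pow 2).mul ((hv.dT.pow 2).add (hv.dS.pow 2))).2 (fun p _ => by positivity)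
    (by linarith)
  have h5 : ∀ p ∈ strip T, dT v p = 0 := by
    intro p hp
    have h6 := h4 p hp
    have h7 : 0 < y p ^ 2 := pow_pos (hpos p hp) 2
    have h8 : dT v p ^ 2 + dS v p ^ 2 = 0 := (mul_eq_zero.1 h6).resolve_left h7.ne'
    have h9 : dT v p ^ 2 = 0 := by nlinarith [sq_nonneg (dT v p), sq_nonneg (dS v p)]
    exact pow_eq_zero_iff (two_ne_zero) |>.1 h9
  rintro ⟨t, s⟩ hp
  have h6 : v (t, s) = v (-T, s) := by
    refine constant_of_has_deriv_right_zero (f := fun τ => v (τ, s)) (a := -T) (b := T)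
      (Continuous.continuousOn (by fun_prop)) (fun τ hτ => ?_) t hp
    have := hasT (hv.diff (τ, s))
    rw [h5 (τ, s) ⟨hτ.1, hτ.2.le⟩] at this
    exact this.hasDerivWithinAt
  rw [hvu _ hp, h6, hv0 _ (hb s), zero_mul]

/-- The energies of the four components of the tangent field `X e2` add up to zero. -/
theorem sum_zero {ρ C0 T P : ℝ} {w : ℝ × ℝ → ℝ} {x e1 e2 ν : Fin 4 → ℝ × ℝ → ℝ}
    (h : Frame 1 ρ C0 T P w x e1 e2 ν) (u : Fin 4 → ℝ × ℝ → ℝ)
    (hu : ∀ a, u a = fun p => Real.exp (w p) * e2 a p) :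
    Bf T P (W0 1 w) (KB ρ C0 w) (u 0) (u 0) + Bf T P (W0 1 w) (KB ρ C0 w) (u 1) (u 1)
      + Bf T P (W0 1 w) (KB ρ C0 w) (u 2) (u 2) + Bf T P (W0 1 w) (KB ρ C0 w) (u 3) (u 3) = 0 := by
  have hT := h.intr.hT
  have hw := h.intr.sm
  have su : ∀ a, Sm P (u a) := fun a => by rw [hu a]; exact hw.exp.mul (h.alg.sm2 a)
  have cW := (sm_W0 hw 1).cont
  have cK := (sm_KB hw ρ C0).cont
  have dt : ∀ a, ∀ p ∈ strip T, dT (u a) p
      = Real.exp (w p) * (dT w p * e2 a p + dS w p * e1 a p) := by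
    intro a p hp
    rw [hu a, dT_mul (hw.exp.diff p) ((h.alg.sm2 a).diff p), dT_exp (hw.diff p),
      ((h.sys a).eT p hp).2.2.2]
    ring
  have ds : ∀ a, ∀ p ∈ strip T, dS (u a) p
      = Real.exp (w p) * (dS w p * e2 a p - dT w p * e1 a p) - Real.exp (w p) ^ 2 * x a p
        - ν a p := by
    intro a p hp
    rw [hu a, dS_mul (hw.exp.diff p) ((h.alg.sm2 a).diff p), dS_exp (hw.diff p),
      ((h.sys a).eS p hp).2.2.2]
    field_simp
    ring
  have sf : Sm P fun p => Real.exp (w p) ^ 2 * dT w p := (hw.exp.pow 2).mul hw.dT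
  have sg : Sm P fun p => Real.exp (w p) ^ 2 * dS w p := (hw.exp.pow 2).mul hw.dS
  have hd := Int2_div (T := T) sf sg
  have cI : ∀ a, Continuous fun p => dT (u a) p * dT (u a) p + dS (u a) p * dS (u a) p
      + W0 1 w p * (u a p * u a p) := fun a => by
    have c1 := (su a).cont
    have c2 := (su a).dT.cont
    have c3 := (su a).dS.cont
    fun_prop
  have cB : ∀ a, Continuous fun s : ℝ => KB ρ C0 w (T, s) * (u a (T, s) * u a (T, s))
      + KB ρ C0 w (-T, s) * (u a (-T, s) * u a (-T, s)) := fun a => by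
    have c1 := (su a).cont
    fun_prop
  simp only [Bf_eq]
  rw [sub_add_sub_comm, sub_add_sub_comm, sub_add_sub_comm, ← Int2_add (cI 0) (cI 1),
    ← Int2_add ((cI 0).fun_add (cI 1)) (cI 2), ← Int2_add (((cI 0).fun_add (cI 1)).fun_add (cI 2)) (cI 3),
    ← intervalIntegral.integral_add ((cB 0).intervalIntegrable _ _) ((cB 1).intervalIntegrable _ _),
    ← intervalIntegral.integral_add (((cB 0).fun_add (cB 1)).intervalIntegrable _ _)
      ((cB 2).intervalIntegrable _ _),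
    ← intervalIntegral.integral_add ((((cB 0).fun_add (cB 1)).fun_add (cB 2)).intervalIntegrable _ _)
      ((cB 3).intervalIntegrable _ _), sub_eq_zero,
    Int2_congr hT (g := fun p => dT (fun p => Real.exp (w p) ^ 2 * dT w p) p
      + dS (fun p => Real.exp (w p) ^ 2 * dS w p) p), hd]
  · refine intervalIntegral.integral_congr fun s _ => ?_
    have o1 := (h.alg.orth _ (top_mem hT s)).2.2.1
    have o2 := (h.alg.orth _ (bot_mem hT s)).2.2.1
    simp only [ip, vec] at o1 o2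
    simp only [hu, KB, h.intr.top s, h.intr.bot s]
    linear_combination (-(C0 / ρ * Real.exp (w (T, s)) ^ 3)) * o1
      - (C0 / ρ * Real.exp (w (-T, s)) ^ 3) * o2
  · intro p hp
    obtain ⟨o1, o2, o3, o4, o5, o6, o7, o8, o9, o10⟩ := h.alg.orth p hp
    simp only [ip, vec] at o1 o2 o3 o4 o5 o6 o7 o8 o9 o10
    have d2 : DifferentiableAt ℝ (fun q => Real.exp (w q) ^ 2) p := (hw.exp.pow 2).diff p
    have hg := h.intr.gauss p hp
    have hX : Real.exp (w p) ^ 2 * (1 / Real.exp (w p) ^ 2) = 1 := by field_simp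
    rw [dT_mul d2 (hw.dT.diff p), dS_mul d2 (hw.dS.diff p), dT_sq (hw.exp.diff p),
      dS_sq (hw.exp.diff p), dT_exp (hw.diff p), dS_exp (hw.diff p)]
    simp only [dt _ p hp, ds _ p hp]
    simp only [hu, W0]
    generalize Real.exp (w p) = X at *
    generalize dT w p = a at *
    generalize dS w p = b at *
    linear_combination (X ^ 4) * o1 + (X ^ 2 * (a ^ 2 + b ^ 2)) * o2
      + (X ^ 2 * (a ^ 2 + b ^ 2) - 2 * X ^ 4) * o3 + o4 + (2 * X ^ 3 * a) * o5
      - (2 * X ^ 3 * b) * o6 + (2 * X ^ 2) * o7 + (2 * X * a) * o9 - (2 * X * b) * o10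
      - X ^ 2 * hg - hX

end WensAux

open WensAux in
theorem p_WENS (hJACX : S_JACX) (hSIG : S_SIG) :
    S_WENS := by
  intro ρ C0 T P w x e1 e2 ν h hneg htop hbot
  have hT := h.intr.hT
  have hP := h.intr.hP
  have hw := h.intr.sm
  obtain ⟨u, hu⟩ : ∃ u : Fin 4 → ℝ × ℝ → ℝ, ∀ a, u a = fun p => Real.exp (w p) * e2 a p :=
    ⟨_, fun _ => rfl⟩
  have su : ∀ a, Sm P (u a) := fun a => by rw [hu a]; exact hw.exp.mul (h.alg.sm2 a)
  have hs := sum_zero h u hu
  have hpos : ∀ i : Fin 3, 0 ≤ Bf T P (W0 1 w) (KB ρ C0 w) (u i.succ) (u i.succ) := by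
    intro i
    refine hSIG 1 ρ C0 T P w _ x e1 e2 ν h hneg (su _) ?_
    have c1 := (su i.succ).cont
    have c2 := hw.cont
    rw [intervalIntegral.integral_add (Continuous.intervalIntegrable (by fun_prop) _ _)
      (Continuous.intervalIntegrable (by fun_prop) _ _)]
    have e1 := htop i
    have e2 := hbot i
    simp only [hu, ← mul_assoc, ← sq]
    rw [e1, e2, add_zero]
  have p1 : 0 ≤ Bf T P (W0 1 w) (KB ρ C0 w) (u 1) (u 1) := hpos 0
  have p2 : 0 ≤ Bf T P (W0 1 w) (KB ρ C0 w) (u 2) (u 2) := hpos 1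
  have p3 : 0 ≤ Bf T P (W0 1 w) (KB ρ C0 w) (u 3) (u 3) := hpos 2
  have hx := h.alg.smx 0
  have hJ := (hJACX 1 ρ C0 T P w x e1 e2 ν h).1 0
  have h0 := dirichlet hT hP (sm_W0 hw 1).cont (sm_KB hw ρ C0).cont (su 0) hx h.alg.pos hJ
    (fun s => by simp [hu, (h.alg.top s).2.2.1]) (fun s => by simp [hu, (h.alg.bot s).2.2.1])
    (by linarith)
  have h1 : ∀ p ∈ strip T, dS (x 0) p = 0 := by
    intro p hp
    have := h0 p hp
    simp only [hu] at this
    rw [((h.sys 0).eS p hp).1, this]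
  have h2 : ∀ p ∈ strip T, dS (dS (x 0)) p = 0 := fun p hp => by
    rw [dS_congr hT hp (hx.dS.diff p) (differentiableAt_const 0) h1, dS_const]
  have h3 : ∀ p ∈ strip T, dT (dS (x 0)) p = 0 := fun p hp => by
    rw [dT_congr hT hp (hx.dS.diff p) (differentiableAt_const 0) h1, dT_const]
  have h4 : ∀ p ∈ strip T, dT (dT (dS (x 0))) p = 0 := fun p hp => by
    rw [dT_congr hT hp (hx.dS.dT.diff p) (differentiableAt_const 0) h3, dT_const]
  have h5 : ∀ p ∈ strip T, dT (dT (x 0)) p = -2 * (Real.exp (w p) ^ 2 * x 0 p) := fun p hp => by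
    have := hJ p hp
    rw [h2 p hp, W0] at this
    linarith
  intro p hp
  have d2 : DifferentiableAt ℝ (fun q => Real.exp (w q) ^ 2) p := (hw.exp.pow 2).diff p
  have h6 := dS_congr hT hp (hx.dT.dT.diff p) ((((hw.exp.pow 2).mul hx).cmul (-2)).diff p) h5
  rw [← dT_dS hx.dT.1, show dS (dT (x 0)) = dT (dS (x 0)) from funext fun q => (dT_dS hx.1 q).symm,
    h4 p hp, dS_cmul _ (((hw.exp.pow 2).mul hx).diff p), dS_mul d2 (hx.diff p),
    dS_sq (hw.exp.diff p), dS_exp (hw.diff p), h1 p hp] at h6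
  have h7 : (Real.exp (w p) ^ 2 * x 0 p) * dS w p = 0 := by linarith
  have h8 : 0 < Real.exp (w p) ^ 2 * x 0 p := mul_pos (by positivity) (h.alg.pos p hp)
  exact (mul_eq_zero.1 h7).resolve_left h8.ne'

end Pool.Agent.P.MP_785924_gt
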