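import Pool.Agent.P.MP_785924_gt.A.DefsA

/-! Two-dimensional objects of the proof: quadratic forms, Jacobi fields, moving frames. -/

namespace Pool.Agent.P.MP_785924_gt

open scoped ContDiff
open Set Filter Topology

noncomputable section

/-- The bilinear form `∫∫ (∇u·∇v + W u v) - ∮ K u v`. -/
def Bf (T P : ℝ) (W K u v : ℝ × ℝ → ℝ) : ℝ :=
  (∫ t in (-T)..T, ∫ s in (0 : ℝ)..P,
    (dT u (t, s) * dT v (t, s) + dS u (t, s) * dS v (t, s) + W (t, s) * (u (t, s) * v (t, s))))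
  - ∫ s in (0 : ℝ)..P, (K (T, s) * (u (T, s) * v (T, s)) + K (-T, s) * (u (-T, s) * v (-T, s)))

/-- Integral over the annulus. -/
def Int2 (T P : ℝ) (f : ℝ × ℝ → ℝ) : ℝ := ∫ t in (-T)..T, ∫ s in (0 : ℝ)..P, f (t, s)

/-- The form is negative definite on a five-dimensional space of smooth functions. -/
def Neg5 (T P : ℝ) (W K : ℝ × ℝ → ℝ) : Prop :=
  ∃ v : Fin 5 → ℝ × ℝ → ℝ, (∀ i, Sm P (v i)) ∧ ∀ a : Fin 5 → ℝ, a ≠ 0 →
    Bf T P W K (fun p => ∑ i, a i * v i p) (fun p => ∑ i, a i * v i p) < 0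

/-- Smooth periodic solution of `Δ u = W u` with the Robin condition. -/
structure Jac (T P : ℝ) (W K u : ℝ × ℝ → ℝ) : Prop where
  sm : Sm P u
  eq : ∀ p ∈ strip T, dT (dT u) p + dS (dS u) p = W p * u p
  top : ∀ s, dT u (T, s) = K (T, s) * u (T, s)
  bot : ∀ s, -dT u (-T, s) = K (-T, s) * u (-T, s)

/-- Bounded periodic function, locally constant on the part of the strip where `u ≠ 0`. -/
def Adm (T P : ℝ) (u k : ℝ × ℝ → ℝ) : Prop :=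
  (∃ B, ∀ p, |k p| ≤ B) ∧ Per P k ∧ ∀ p ∈ strip T, u p ≠ 0 → ∀ᶠ q in 𝓝[strip T] p, k q = k p

/-- Odd cut-off built from `φ`. -/
def odd (φ : ℝ → ℝ) (r : ℝ) : ℝ := φ r - φ (-r)

/-- Cut-off functions at scale `ε`. -/
structure Cut (ε : ℝ) (φ ψ : ℝ → ℝ) : Prop where
  smφ : ContDiff ℝ ∞ φ
  smψ : ContDiff ℝ ∞ ψ
  zero : ∀ r, r ≤ ε → φ r = 0
  conv : ∀ r, 0 ≤ deriv (deriv φ) r
  one : ∀ r, 2 * ε ≤ r → deriv φ r = 1
  leg : ∀ r, |φ r - r * deriv φ r| ≤ 2 * ε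
  near : ∀ r, |odd φ r - r| ≤ 2 * ε
  dψ : ∀ r, deriv ψ r = deriv (odd φ) r ^ 2
  zeroψ : ∀ r, |r| ≤ ε → ψ r = 0
  nearψ : ∀ r, |ψ r - r| ≤ 2 * ε

/-- The `t`-part of the four-dimensional flat system at a point. -/
def SysT (c μ : ℝ) (w f g l1 l2 : ℝ × ℝ → ℝ) (p : ℝ × ℝ) : Prop :=
  dT f p = Real.exp (w p) * l1 p ∧ dT g p = -(l1 p / Real.exp (w p)) ∧
  dT l1 p = -(dS w p * l2 p) + Real.exp (w p) * (-(c * f p) + μ * g p)
    + (g p - μ * f p) / Real.exp (w p) ∧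
  dT l2 p = dS w p * l1 p

/-- The `s`-part of the four-dimensional flat system at a point. -/
def SysS (c μ : ℝ) (w f g l1 l2 : ℝ × ℝ → ℝ) (p : ℝ × ℝ) : Prop :=
  dS f p = Real.exp (w p) * l2 p ∧ dS g p = l2 p / Real.exp (w p) ∧
  dS l1 p = dT w p * l2 p ∧
  dS l2 p = -(dT w p * l1 p) + Real.exp (w p) * (-(c * f p) + μ * g p)
    - (g p - μ * f p) / Real.exp (w p)

/-- Smooth solution of the flat system on the strip (not necessarily periodic). -/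
structure Sys4 (c μ T : ℝ) (w f g l1 l2 : ℝ × ℝ → ℝ) : Prop where
  sf : ContDiff ℝ ∞ f
  sg : ContDiff ℝ ∞ g
  s1 : ContDiff ℝ ∞ l1
  s2 : ContDiff ℝ ∞ l2
  eT : ∀ p ∈ strip T, SysT c μ w f g l1 l2 p
  eS : ∀ p ∈ strip T, SysS c μ w f g l1 l2 p

/-- Periodicity of a quadruple. -/
def Per4 (P : ℝ) (f g l1 l2 : ℝ × ℝ → ℝ) : Prop := Per P f ∧ Per P g ∧ Per P l1 ∧ Per P l2

/-- The invariant bilinear form of the flat system. -/
def form4 (c μ : ℝ) (f g l1 l2 f' g' l1' l2' : ℝ × ℝ → ℝ) (p : ℝ × ℝ) : ℝ :=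
  l1 p * l1' p + l2 p * l2' p + c * (f p * f' p) - μ * (f p * g' p + g p * f' p) + g p * g' p

/-- Intrinsic data: conformal factor `exp (2 w)`, Gauss equation, boundary condition. -/
structure Intr (c ρ C0 T P : ℝ) (w : ℝ × ℝ → ℝ) : Prop where
  hc : c = 1 ∨ c = -1
  hρ : 0 < ρ
  hC : 0 < C0
  hCρ : C0 ^ 2 + c * ρ ^ 2 = 1
  hT : 0 < T
  hP : 0 < P
  sm : Sm P w
  gauss : ∀ p ∈ strip T, dT (dT w) p + dS (dS w) p
    = -(c * Real.exp (w p) ^ 2) + 1 / Real.exp (w p) ^ 2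
  top : ∀ s, dT w (T, s) = C0 / ρ * Real.exp (w (T, s))
  bot : ∀ s, dT w (-T, s) = -(C0 / ρ * Real.exp (w (-T, s)))

/-- Algebraic and boundary properties of the frame `x, e1, e2, ν`. -/
structure Alg (c ρ C0 T P : ℝ) (x e1 e2 ν : Fin 4 → ℝ × ℝ → ℝ) : Prop where
  smx : ∀ a, Sm P (x a)
  sm1 : ∀ a, Sm P (e1 a)
  sm2 : ∀ a, Sm P (e2 a)
  smν : ∀ a, Sm P (ν a)
  orth : ∀ p ∈ strip T, ip c (vec x p) (vec x p) = c ∧ ip c (vec e1 p) (vec e1 p) = 1 ∧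
    ip c (vec e2 p) (vec e2 p) = 1 ∧ ip c (vec ν p) (vec ν p) = 1 ∧
    ip c (vec x p) (vec e1 p) = 0 ∧ ip c (vec x p) (vec e2 p) = 0 ∧ ip c (vec x p) (vec ν p) = 0 ∧
    ip c (vec e1 p) (vec e2 p) = 0 ∧ ip c (vec e1 p) (vec ν p) = 0 ∧ ip c (vec e2 p) (vec ν p) = 0
  compl : ∀ p ∈ strip T, ∀ a b, c * (x a p * x b p) + e1 a p * e1 b p + e2 a p * e2 b p
    + ν a p * ν b p = if a = b then (if a = 0 then c else 1) else 0
  pos : ∀ p ∈ strip T, 0 < x 0 p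
  top : ∀ s, x 0 (T, s) = C0 ∧ ν 0 (T, s) = 0 ∧ e2 0 (T, s) = 0 ∧ e1 0 (T, s) = -(c * ρ) ∧
    ∀ i : Fin 3, e1 i.succ (T, s) = C0 / ρ * x i.succ (T, s)
  bot : ∀ s, x 0 (-T, s) = C0 ∧ ν 0 (-T, s) = 0 ∧ e2 0 (-T, s) = 0 ∧ e1 0 (-T, s) = c * ρ ∧
    ∀ i : Fin 3, e1 i.succ (-T, s) = -(C0 / ρ * x i.succ (-T, s))

/-- Free boundary minimal annulus in curvature line coordinates with Hopf differential one. -/
structure Frame (c ρ C0 T P : ℝ) (w : ℝ × ℝ → ℝ) (x e1 e2 ν : Fin 4 → ℝ × ℝ → ℝ) : Prop where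
  intr : Intr c ρ C0 T P w
  alg : Alg c ρ C0 T P x e1 e2 ν
  sys : ∀ a, Sys4 c 0 T w (x a) (ν a) (e1 a) (e2 a)

/-- The frame before the Hopf differential `A - i B` is known to be constant. -/
structure PreFrame (c ρ C0 T P : ℝ) (w A B : ℝ × ℝ → ℝ) (x e1 e2 ν : Fin 4 → ℝ × ℝ → ℝ) :
    Prop where
  hc : c = 1 ∨ c = -1
  hρ : 0 < ρ
  hC : 0 < C0
  hCρ : C0 ^ 2 + c * ρ ^ 2 = 1
  hT : 0 < T
  hP : 0 < P
  sm : Sm P w
  smA : Sm P A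
  smB : Sm P B
  alg : Alg c ρ C0 T P x e1 e2 ν
  eq : ∀ a, ∀ p ∈ strip T,
    dT (x a) p = Real.exp (w p) * e1 a p ∧ dS (x a) p = Real.exp (w p) * e2 a p ∧
    dT (ν a) p = -((A p * e1 a p + B p * e2 a p) / Real.exp (w p)) ∧
    dS (ν a) p = -((B p * e1 a p - A p * e2 a p) / Real.exp (w p)) ∧
    dT (e1 a) p = -(dS w p * e2 a p) + A p * ν a p / Real.exp (w p) - c * Real.exp (w p) * x a p ∧
    dS (e1 a) p = dT w p * e2 a p + B p * ν a p / Real.exp (w p) ∧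
    dT (e2 a) p = dS w p * e1 a p + B p * ν a p / Real.exp (w p) ∧
    dS (e2 a) p = -(dT w p * e1 a p) - A p * ν a p / Real.exp (w p) - c * Real.exp (w p) * x a p

/-- Potential of the Jacobi operator. -/
def WJ (c : ℝ) (w : ℝ × ℝ → ℝ) (p : ℝ × ℝ) : ℝ :=
  -(2 * c * Real.exp (w p) ^ 2) - 2 / Real.exp (w p) ^ 2

/-- Potential of the operator annihilating the coordinate functions. -/
def W0 (c : ℝ) (w : ℝ × ℝ → ℝ) (p : ℝ × ℝ) : ℝ := -(2 * c * Real.exp (w p) ^ 2)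

/-- Boundary weight. -/
def KB (ρ C0 : ℝ) (w : ℝ × ℝ → ℝ) (p : ℝ × ℝ) : ℝ := C0 / ρ * Real.exp (w p)

/-- Index at least five in terms of the intrinsic data. -/
def NegQ (c ρ C0 T P : ℝ) (w : ℝ × ℝ → ℝ) : Prop := Neg5 T P (WJ c w) (KB ρ C0 w)

/-- Restriction to the circle `t = σ`. -/
def lev (σ : ℝ) (f : ℝ × ℝ → ℝ) (s : ℝ) : ℝ := f (σ, s)

/-- Spatial components restricted to the circle `t = σ`. -/
def lev3 (σ : ℝ) (x : Fin 4 → ℝ × ℝ → ℝ) (i : Fin 3) (s : ℝ) : ℝ := x i.succ (σ, s)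

/-- The linear function `∑ a i * x (i+1)`. -/
def cmp4 (a : Fin 3 → ℝ) (x : Fin 4 → ℝ × ℝ → ℝ) (p : ℝ × ℝ) : ℝ :=
  a 0 * x 1 p + a 1 * x 2 p + a 2 * x 3 p

/-- Reflection `t ↦ -t`. -/
def fl (f : ℝ × ℝ → ℝ) (p : ℝ × ℝ) : ℝ := f (-p.1, p.2)

/-- `w_s` is the normal component of the rotation about the axis `b`. -/
def Kill (T : ℝ) (w : ℝ × ℝ → ℝ) (e1 e2 : Fin 4 → ℝ × ℝ → ℝ) (b : Fin 3 → ℝ) : Prop :=
  ∀ p ∈ strip T, dS w p = e1 0 p * cmp4 b e2 p - e2 0 p * cmp4 b e1 p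

/-- `w_s` does not vanish identically on the circle `t`. -/
def Good (w : ℝ × ℝ → ℝ) (t : ℝ) : Prop := ∃ s, dS w (t, s) ≠ 0

/-- The part of the strip where `u ≠ 0`. -/
def UZ (T : ℝ) (u : ℝ × ℝ → ℝ) : Set (ℝ × ℝ) := {p | p ∈ strip T ∧ u p ≠ 0}

open Classical in
/-- Indicator function of the nodal domain of `r`. -/
def ind (P : ℝ) (U : Set (ℝ × ℝ)) (r q : ℝ × ℝ) : ℝ := if Rel P U r q then 1 else 0

/-- The `s`-part of the flat system along the circle `t = t0`. -/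
def SysL (c μ : ℝ) (w : ℝ × ℝ → ℝ) (t0 : ℝ) (f g a b : ℝ → ℝ) : Prop :=
  ∀ s, HasDerivAt f (Real.exp (w (t0, s)) * b s) s ∧ HasDerivAt g (b s / Real.exp (w (t0, s))) s ∧
    HasDerivAt a (dT w (t0, s) * b s) s ∧
    HasDerivAt b (-(dT w (t0, s) * a s) + Real.exp (w (t0, s)) * (-(c * f s) + μ * g s)
      - (g s - μ * f s) / Real.exp (w (t0, s))) s

/-- Rescaling of the coordinates. -/
def sc (r : ℝ) (f : ℝ × ℝ → ℝ) (p : ℝ × ℝ) : ℝ := f (p.1 / r, p.2 / r)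

/-- First coefficient of the second fundamental form. -/
def hA (c : ℝ) (x ν : Fin 4 → ℝ × ℝ → ℝ) (p : ℝ × ℝ) : ℝ := ip c (vec (vT (vT x)) p) (vec ν p)

/-- Mixed coefficient of the second fundamental form. -/
def hB (c : ℝ) (x ν : Fin 4 → ℝ × ℝ → ℝ) (p : ℝ × ℝ) : ℝ := ip c (vec (vS (vT x)) p) (vec ν p)

/-- Gauss equation with Hopf differential of squared modulus `H`, and the boundary condition. -/
structure GaussH (c ρ C0 T : ℝ) (w H : ℝ × ℝ → ℝ) : Prop where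
  gauss : ∀ p ∈ strip T, dT (dT w) p + dS (dS w) p
    = -(c * Real.exp (w p) ^ 2) + H p / Real.exp (w p) ^ 2
  top : ∀ s, dT w (T, s) = C0 / ρ * Real.exp (w (T, s))
  bot : ∀ s, dT w (-T, s) = -(C0 / ρ * Real.exp (w (-T, s)))

end

end Pool.Agent.P.MP_785924_gt
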