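import Pool.Agent.P.MP_785924_gt.B.Tb1

/-! Toolbox: integrals over the annulus, the formula of Green, bilinearity. -/

namespace Pool.Agent.P.MP_785924_gt

open scoped ContDiff
open Set Filter Topology MeasureTheory

variable {f g u v u' v' W K : ℝ × ℝ → ℝ} {T P : ℝ}

theorem ii_lev (h : Continuous f) (t a b : ℝ) :
    IntervalIntegrable (fun s => f (t, s)) volume a b :=
  (h.comp (Continuous.prodMk_right t)).intervalIntegrable a b

theorem cont_int (h : Continuous f) (a b : ℝ) : Continuous fun t => ∫ s in a..b, f (t, s) :=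
  intervalIntegral.continuous_parametric_intervalIntegral_of_continuous' (f := fun t s => f (t, s))
    (by exact h) a b

/-- Differentiation under the integral sign. -/
theorem hasDerivAt_int (h : ContDiff ℝ ∞ f) (a b t : ℝ) :
    HasDerivAt (fun t => ∫ s in a..b, f (t, s)) (∫ s in a..b, dT f (t, s)) t := by
  have hc := (cd_dT h).continuous
  obtain ⟨B, hB⟩ := ((isCompact_Icc (a := t - 1) (b := t + 1)).prod
    (isCompact_uIcc (a := a) (b := b))).exists_bound_of_continuousOn hc.continuousOn
  refine (intervalIntegral.hasDerivAt_integral_of_dominated_loc_of_deriv_le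
    (F := fun t s => f (t, s)) (F' := fun t s => dT f (t, s)) (s := Metric.ball t 1)
    (bound := fun _ => B) (Metric.ball_mem_nhds t one_pos) ?_ (ii_lev h.continuous t a b) ?_ ?_
    intervalIntegrable_const ?_).2
  · exact Eventually.of_forall fun τ =>
      (h.continuous.comp (Continuous.prodMk_right τ)).aestronglyMeasurable
  · exact (hc.comp (Continuous.prodMk_right t)).aestronglyMeasurable
  · refine Eventually.of_forall fun s hs τ hτ => hB (τ, s) ⟨?_, uIoc_subset_uIcc hs⟩
    rw [Metric.mem_ball, Real.dist_eq, abs_lt] at hτ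
    constructor <;> linarith [hτ.1, hτ.2]
  · exact Eventually.of_forall fun s _ τ _ => hasT (cd_diff h _)

theorem int_dS (h : Sm P f) (t : ℝ) : ∫ s in (0 : ℝ)..P, dS f (t, s) = 0 := by
  rw [intervalIntegral.integral_eq_sub_of_hasDerivAt (f := fun s => f (t, s))
    (fun s _ => hasS (h.diff _)) (ii_lev h.dS.cont t 0 P)]
  have := h.2 t 0
  simp only [zero_add] at this
  rw [this, sub_self]

/-- Shift of the period interval. -/
theorem Per.int_shift (h : Per P f) (t a : ℝ) :
    ∫ s in a..a + P, f (t, s) = ∫ s in (0 : ℝ)..P, f (t, s) := by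
  simpa using (h.periodic t).intervalIntegral_add_eq a 0

theorem Int2_congr (hT : 0 < T) (h : ∀ p ∈ strip T, f p = g p) : Int2 T P f = Int2 T P g := by
  refine intervalIntegral.integral_congr fun t ht => ?_
  rw [uIcc_of_le (by linarith)] at ht
  exact intervalIntegral.integral_congr fun s _ => h (t, s) ht

theorem Int2_add (hf : Continuous f) (hg : Continuous g) :
    Int2 T P (fun p => f p + g p) = Int2 T P f + Int2 T P g := by
  unfold Int2
  rw [← intervalIntegral.integral_add ((cont_int hf 0 P).intervalIntegrable _ _)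
    ((cont_int hg 0 P).intervalIntegrable _ _)]
  exact intervalIntegral.integral_congr fun t _ =>
    intervalIntegral.integral_add (ii_lev hf t 0 P) (ii_lev hg t 0 P)

theorem Int2_cmul (a : ℝ) (f : ℝ × ℝ → ℝ) : Int2 T P (fun p => a * f p) = a * Int2 T P f := by
  simp only [Int2, intervalIntegral.integral_const_mul]

theorem Int2_neg (f : ℝ × ℝ → ℝ) : Int2 T P (fun p => -f p) = -Int2 T P f := by
  simp only [Int2, intervalIntegral.integral_neg]

theorem Int2_sub (hf : Continuous f) (hg : Continuous g) :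
    Int2 T P (fun p => f p - g p) = Int2 T P f - Int2 T P g := by
  simp only [sub_eq_add_neg]
  rw [Int2_add (g := fun p => -g p) hf hg.neg, Int2_neg]

theorem Int2_const (a : ℝ) : Int2 T P (fun _ => a) = 2 * T * P * a := by
  simp [Int2]; ring

theorem Int2_mono (hT : 0 < T) (hP : 0 < P) (hf : Continuous f) (hg : Continuous g)
    (h : ∀ p ∈ strip T, f p ≤ g p) : Int2 T P f ≤ Int2 T P g :=
  intervalIntegral.integral_mono_on (by linarith) ((cont_int hf 0 P).intervalIntegrable _ _)
    ((cont_int hg 0 P).intervalIntegrable _ _) fun t ht =>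
      intervalIntegral.integral_mono_on hP.le (ii_lev hf t 0 P) (ii_lev hg t 0 P)
        fun s _ => h (t, s) ht

theorem Int2_nonneg (hT : 0 < T) (hP : 0 < P) (h : ∀ p ∈ strip T, 0 ≤ f p) : 0 ≤ Int2 T P f :=
  intervalIntegral.integral_nonneg (by linarith) fun t ht =>
    intervalIntegral.integral_nonneg hP.le fun s _ => h (t, s) ht

theorem abs_Int2_le (hT : 0 < T) (hP : 0 < P) (hf : Continuous f) {B : ℝ}
    (h : ∀ p ∈ strip T, |f p| ≤ B) : |Int2 T P f| ≤ 2 * T * P * B := by
  rw [abs_le]
  constructor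
  · have := Int2_mono (f := fun _ => -B) hT hP continuous_const hf
      fun p hp => (abs_le.1 (h p hp)).1
    rw [Int2_const] at this; linarith
  · have := Int2_mono (g := fun _ => B) hT hP hf continuous_const
      fun p hp => (abs_le.1 (h p hp)).2
    rwa [Int2_const] at this

/-- A non-negative continuous function on an interval with zero integral vanishes. -/
theorem zero_of_int {h : ℝ → ℝ} {a b : ℝ} (hab : a < b) (hc : Continuous h)
    (h0 : ∀ x ∈ Icc a b, 0 ≤ h x) (hi : ∫ x in a..b, h x ≤ 0) : ∀ x ∈ Icc a b, h x = 0 := by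
  intro x hx
  by_contra hne
  have := intervalIntegral.integral_lt_integral_of_continuousOn_of_le_of_exists_lt
    (f := fun _ => (0 : ℝ)) (g := h) hab continuousOn_const hc.continuousOn
    (fun y hy => h0 y ⟨hy.1.le, hy.2⟩) ⟨x, hx, lt_of_le_of_ne (h0 x hx) (Ne.symm hne)⟩
  simp at this
  linarith

/-- A non-negative continuous periodic function with zero integral vanishes on the strip. -/
theorem zero_of_Int2 (hT : 0 < T) (hP : 0 < P) (hf : Continuous f) (hp : Per P f)
    (h0 : ∀ p ∈ strip T, 0 ≤ f p) (hi : Int2 T P f ≤ 0) : ∀ p ∈ strip T, f p = 0 := by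
  intro p hp'
  have h1 := zero_of_int (by linarith : -T < T) (cont_int hf 0 P)
    (fun t ht => intervalIntegral.integral_nonneg hP.le fun s _ => h0 (t, s) ht) hi p.1 hp'
  obtain ⟨y, hy, e⟩ := (hp.periodic p.1).exists_mem_Ico₀ hP p.2
  have h2 := zero_of_int hP (hf.comp (Continuous.prodMk_right p.1))
    (fun s _ => h0 (p.1, s) hp') h1.le y ⟨hy.1, hy.2.le⟩
  exact (show f p = f (p.1, y) from e).trans h2

theorem Int2_dS (h : Sm P f) : Int2 T P (dS f) = 0 := by simp [Int2, int_dS h]

theorem Int2_dT (h : ContDiff ℝ ∞ f) :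
    Int2 T P (dT f) = ∫ s in (0 : ℝ)..P, (f (T, s) - f (-T, s)) := by
  unfold Int2
  rw [intervalIntegral.integral_eq_sub_of_hasDerivAt (fun t _ => hasDerivAt_int h 0 P t)
    ((cont_int (cd_dT h).continuous 0 P).intervalIntegrable _ _),
    intervalIntegral.integral_sub (ii_lev h.continuous _ _ _) (ii_lev h.continuous _ _ _)]

/-- Divergence theorem on the annulus. -/
theorem Int2_div (hf : Sm P f) (hg : Sm P g) :
    Int2 T P (fun p => dT f p + dS g p) = ∫ s in (0 : ℝ)..P, (f (T, s) - f (-T, s)) := by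
  rw [Int2_add hf.dT.cont hg.dS.cont, Int2_dS hg, Int2_dT hf.1, add_zero]

theorem Bf_eq (T P : ℝ) (W K u v : ℝ × ℝ → ℝ) : Bf T P W K u v =
    Int2 T P (fun p => dT u p * dT v p + dS u p * dS v p + W p * (u p * v p))
    - ∫ s in (0 : ℝ)..P,
      (K (T, s) * (u (T, s) * v (T, s)) + K (-T, s) * (u (-T, s) * v (-T, s))) := rfl

/-- The formula of Green. -/
theorem green (hu : Sm P u) (hv : Sm P v) (hW : Continuous W) (hK : Continuous K) :
    Bf T P W K u v = Int2 T P (fun p => (W p * u p - (dT (dT u) p + dS (dS u) p)) * v p)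
      + ∫ s in (0 : ℝ)..P, ((dT u (T, s) - K (T, s) * u (T, s)) * v (T, s)
        + (-dT u (-T, s) - K (-T, s) * u (-T, s)) * v (-T, s)) := by
  have h1 := Int2_div (T := T) (hu.dT.mul hv) (hu.dS.mul hv)
  have c1 := hu.cont
  have c2 := hv.cont
  have c3 := hu.dT.cont
  have c4 := hu.dS.cont
  have c5 := hv.dT.cont
  have c6 := hv.dS.cont
  have c7 := hu.dT.dT.cont
  have c8 := hu.dS.dS.cont
  have h2 : Int2 T P (fun p => dT u p * dT v p + dS u p * dS v p + W p * (u p * v p))
      = Int2 T P (fun p => (W p * u p - (dT (dT u) p + dS (dS u) p)) * v p)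
        + Int2 T P (fun p => dT (fun q => dT u q * v q) p + dS (fun q => dS u q * v q) p) := by
    have c9 := (hu.dT.mul hv).dT.cont
    have c10 := (hu.dS.mul hv).dS.cont
    rw [← Int2_add (by fun_prop) (by fun_prop)]
    congr 1
    funext p
    rw [dT_mul (hu.dT.diff p) (hv.diff p), dS_mul (hu.dS.diff p) (hv.diff p)]
    ring
  rw [Bf_eq, h2, h1, add_sub_assoc, ← intervalIntegral.integral_sub
    (Continuous.intervalIntegrable (by fun_prop) _ _) (Continuous.intervalIntegrable (by fun_prop) _ _)]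
  congr 1
  exact intervalIntegral.integral_congr fun s _ => by ring

theorem Bf_symm (T P : ℝ) (W K u v : ℝ × ℝ → ℝ) : Bf T P W K u v = Bf T P W K v u := by
  simp only [Bf, mul_comm]

/-- A Jacobi field is in the kernel of the form. -/
theorem Jac.null (hT : 0 < T) (h : Jac T P W K u) (hv : Sm P v) (hW : Continuous W)
    (hK : Continuous K) : Bf T P W K u v = 0 := by
  rw [green h.sm hv hW hK, Int2_congr (g := fun _ => 0) hT
    (fun p hp => by rw [h.eq p hp]; ring), Int2_const]
  simp [h.top, h.bot]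

theorem Bf_congr (hT : 0 < T) (hu : ContDiff ℝ ∞ u) (hu' : ContDiff ℝ ∞ u') (hv : ContDiff ℝ ∞ v)
    (hv' : ContDiff ℝ ∞ v') (e1 : ∀ p ∈ strip T, u p = u' p) (e2 : ∀ p ∈ strip T, v p = v' p) :
    Bf T P W K u v = Bf T P W K u' v' := by
  rw [Bf_eq, Bf_eq, Int2_congr hT (g := fun p => dT u' p * dT v' p + dS u' p * dS v' p
    + W p * (u' p * v' p)) fun p hp => by
      rw [dT_congr hT hp (cd_diff hu p) (cd_diff hu' p) e1, dS_congr hT hp (cd_diff hu p) (cd_diff hu' p) e1,
        dT_congr hT hp (cd_diff hv p) (cd_diff hv' p) e2, dS_congr hT hp (cd_diff hv p) (cd_diff hv' p) e2,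
        e1 p hp, e2 p hp]]
  simp only [e1 _ (top_mem hT _), e1 _ (bot_mem hT _), e2 _ (top_mem hT _), e2 _ (bot_mem hT _)]

theorem Bf_add_left (hu : ContDiff ℝ ∞ u) (hu' : ContDiff ℝ ∞ u') (hv : ContDiff ℝ ∞ v)
    (hW : Continuous W) (hK : Continuous K) :
    Bf T P W K (fun p => u p + u' p) v = Bf T P W K u v + Bf T P W K u' v := by
  have c1 := hu.continuous
  have c2 := hv.continuous
  have c3 := (cd_dT hu).continuous
  have c4 := (cd_dS hu).continuous
  have c5 := (cd_dT hv).continuous
  have c6 := (cd_dS hv).continuous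
  have c7 := hu'.continuous
  have c8 := (cd_dT hu').continuous
  have c9 := (cd_dS hu').continuous
  simp only [Bf_eq]
  rw [sub_add_sub_comm, ← Int2_add (by fun_prop) (by fun_prop), ← intervalIntegral.integral_add
    (Continuous.intervalIntegrable (by fun_prop) _ _) (Continuous.intervalIntegrable (by fun_prop) _ _)]
  congr 1
  · congr 1
    funext p
    rw [dT_add (cd_diff hu p) (cd_diff hu' p), dS_add (cd_diff hu p) (cd_diff hu' p)]
    ring
  · exact intervalIntegral.integral_congr fun s _ => by ring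

theorem Bf_cmul_left (a : ℝ) (hu : ContDiff ℝ ∞ u) :
    Bf T P W K (fun p => a * u p) v = a * Bf T P W K u v := by
  simp only [Bf_eq]
  rw [mul_sub, ← Int2_cmul, ← intervalIntegral.integral_const_mul]
  congr 1
  · congr 1
    funext p
    rw [dT_cmul a (cd_diff hu p), dS_cmul a (cd_diff hu p)]
    ring
  · exact intervalIntegral.integral_congr fun s _ => by ring

theorem Bf_add_right (hu : ContDiff ℝ ∞ u) (hv : ContDiff ℝ ∞ v) (hv' : ContDiff ℝ ∞ v')
    (hW : Continuous W) (hK : Continuous K) :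
    Bf T P W K u (fun p => v p + v' p) = Bf T P W K u v + Bf T P W K u v' := by
  rw [Bf_symm, Bf_add_left hv hv' hu hW hK, Bf_symm T P W K v, Bf_symm T P W K v']

theorem Bf_cmul_right (a : ℝ) (hv : ContDiff ℝ ∞ v) :
    Bf T P W K u (fun p => a * v p) = a * Bf T P W K u v := by
  rw [Bf_symm, Bf_cmul_left a hv, Bf_symm]

theorem Bf_sum_left {ι : Type*} (F : Finset ι) {w : ι → ℝ × ℝ → ℝ}
    (h : ∀ i ∈ F, ContDiff ℝ ∞ (w i)) (hv : ContDiff ℝ ∞ v) (hW : Continuous W)
    (hK : Continuous K) :
    Bf T P W K (fun p => ∑ i ∈ F, w i p) v = ∑ i ∈ F, Bf T P W K (w i) v := by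
  classical
  induction F using Finset.induction_on with
  | empty =>
    have := Bf_cmul_left (T := T) (P := P) (W := W) (K := K) (v := v) 0 hv
    simpa using this
  | insert i F hi ih =>
    simp only [Finset.sum_insert hi]
    rw [Bf_add_left (h i (Finset.mem_insert_self _ _))
      (ContDiff.sum fun j hj => h j (Finset.mem_insert_of_mem hj)) hv hW hK,
      ih fun j hj => h j (Finset.mem_insert_of_mem hj)]

theorem Bf_sum_right {ι : Type*} (F : Finset ι) {w : ι → ℝ × ℝ → ℝ}
    (h : ∀ i ∈ F, ContDiff ℝ ∞ (w i)) (hu : ContDiff ℝ ∞ u) (hW : Continuous W)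
    (hK : Continuous K) :
    Bf T P W K u (fun p => ∑ i ∈ F, w i p) = ∑ i ∈ F, Bf T P W K u (w i) := by
  rw [Bf_symm, Bf_sum_left F h hu hW hK]
  exact Finset.sum_congr rfl fun i _ => Bf_symm _ _ _ _ _ _

/-- Change of the potential. -/
theorem Bf_sub_pot {G : ℝ × ℝ → ℝ} (hu : ContDiff ℝ ∞ u) (hv : ContDiff ℝ ∞ v) (hW : Continuous W)
    (hG : Continuous G) :
    Bf T P (fun p => W p - G p) K u v = Bf T P W K u v - Int2 T P (fun p => G p * (u p * v p)) := by
  have c1 := hu.continuous
  have c2 := hv.continuous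
  have c3 := (cd_dT hu).continuous
  have c4 := (cd_dS hu).continuous
  have c5 := (cd_dT hv).continuous
  have c6 := (cd_dS hv).continuous
  simp only [Bf_eq]
  rw [sub_right_comm, ← Int2_sub (by fun_prop) (by fun_prop)]
  congr 2
  funext p
  ring

end Pool.Agent.P.MP_785924_gt
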