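import Pool.Agent.P.MP_785924_gt.B.IfaceB
import Pool.Agent.P.MP_785924_gt.B.Tb2

/-! Step EDGE of the free boundary annulus project. -/

namespace Pool.Agent.P.MP_785924_gt

open scoped ContDiff
open Set Filter Topology

namespace EdgeAux

variable {T P : ℝ} {W K u z : ℝ × ℝ → ℝ}

theorem cd_deriv {φ : ℝ → ℝ} (h : ContDiff ℝ ∞ φ) : ContDiff ℝ ∞ (deriv φ) :=
  (contDiff_infty_iff_deriv.1 h).2

theorem hd {φ : ℝ → ℝ} (h : ContDiff ℝ ∞ φ) (r : ℝ) : HasDerivAt φ (deriv φ r) r :=
  (h.differentiable (by simp) r).hasDerivAt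

/-- The form on a cut-off of a Jacobi field. -/
theorem est (hT : 0 < T) (hP : 0 < P) (hW : Sm P W) (hK : Sm P K) (hu : Jac T P W K u)
    (hz : Sm P z) : ∃ C : ℝ, 0 ≤ C ∧ ∀ (ε : ℝ) (φ ψ : ℝ → ℝ), 0 < ε → Cut ε φ ψ →
      Bf T P W K (fun p => φ (u p)) z ≤
        -Int2 T P (fun p => deriv (deriv φ) (u p) * (dT u p ^ 2 + dS u p ^ 2) * z p) + C * ε := by
  obtain ⟨B1, hB1, b1⟩ := bound_strip hP (hW.mul hz).cont (hW.mul hz).2 T
  obtain ⟨B2, hB2, b2⟩ := bound_strip hP (hK.mul hz).cont (hK.mul hz).2 T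
  refine ⟨2 * T * P * (B1 * 2) + P * (B2 * 4), by positivity, fun ε φ ψ hε hc => ?_⟩
  have s1 := hu.sm.comp hc.smφ
  have s2 := hu.sm.comp (cd_deriv hc.smφ)
  have s3 := hu.sm.comp (cd_deriv (cd_deriv hc.smφ))
  have h0 := hu.null hT (s2.mul hz) hW.cont hK.cont
  have c1 := hc.smφ.continuous
  have c2 := (cd_deriv hc.smφ).continuous
  have c3 := (cd_deriv (cd_deriv hc.smφ)).continuous
  generalize hφ1 : deriv φ = φ1 at c2 c3 s2 s3 h0 ⊢
  generalize hφ2 : deriv φ1 = φ2 at c3 s3 ⊢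
  have g1 : ∀ r, HasDerivAt φ (φ1 r) r := fun r => hφ1 ▸ hd hc.smφ r
  have g2 : ∀ r, HasDerivAt φ1 (φ2 r) r := fun r => hφ2 ▸ hφ1 ▸ hd (cd_deriv hc.smφ) r
  have leg : ∀ r, |φ r - r * φ1 r| ≤ 2 * ε := fun r => hφ1 ▸ hc.leg r
  have c4 := hu.sm.cont
  have c5 := hu.sm.dT.cont
  have c6 := hu.sm.dS.cont
  have c7 := hz.cont
  have c8 := hz.dT.cont
  have c9 := hz.dS.cont
  have c10 := hW.cont
  have c11 := hK.cont
  have c12 := (s2.mul hz).dT.cont
  have c13 := (s2.mul hz).dS.cont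
  rw [Bf_eq] at h0 ⊢
  have e1 : Int2 T P (fun p => dT (fun p => φ (u p)) p * dT z p + dS (fun p => φ (u p)) p * dS z p
      + W p * (φ (u p) * z p)) =
      Int2 T P (fun p => dT u p * dT (fun q => φ1 (u q) * z q) p
        + dS u p * dS (fun q => φ1 (u q) * z q) p + W p * (u p * (φ1 (u p) * z p)))
      - Int2 T P (fun p => φ2 (u p) * (dT u p ^ 2 + dS u p ^ 2) * z p)
      + Int2 T P (fun p => W p * z p * (φ (u p) - u p * φ1 (u p))) := by
    rw [← Int2_sub (by fun_prop) (by fun_prop), ← Int2_add (by fun_prop) (by fun_prop)]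
    congr 1
    funext p
    rw [dT_mul (s2.diff p) (hz.diff p), dS_mul (s2.diff p) (hz.diff p),
      dT_comp (g1 _) (hu.sm.diff p), dS_comp (g1 _) (hu.sm.diff p),
      dT_comp (g2 _) (hu.sm.diff p),
      dS_comp (g2 _) (hu.sm.diff p)]
    ring
  have e2 : (∫ s in (0 : ℝ)..P, (K (T, s) * (φ (u (T, s)) * z (T, s))
      + K (-T, s) * (φ (u (-T, s)) * z (-T, s)))) =
      (∫ s in (0 : ℝ)..P, (K (T, s) * (u (T, s) * (φ1 (u (T, s)) * z (T, s)))
        + K (-T, s) * (u (-T, s) * (φ1 (u (-T, s)) * z (-T, s)))))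
      + ∫ s in (0 : ℝ)..P, (K (T, s) * z (T, s) * (φ (u (T, s)) - u (T, s) * φ1 (u (T, s)))
        + K (-T, s) * z (-T, s) * (φ (u (-T, s)) - u (-T, s) * φ1 (u (-T, s)))) := by
    rw [← intervalIntegral.integral_add (Continuous.intervalIntegrable (by fun_prop) _ _)
      (Continuous.intervalIntegrable (by fun_prop) _ _)]
    exact intervalIntegral.integral_congr fun s _ => by ring
  have key : ∀ {F : ℝ × ℝ → ℝ} {B : ℝ}, 0 ≤ B → (∀ p ∈ strip T, |F p * z p| ≤ B) →
      ∀ p ∈ strip T, |F p * z p * (φ (u p) - u p * φ1 (u p))| ≤ B * (2 * ε) := by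
    intro F B hB b p hp
    rw [abs_mul]
    exact mul_le_mul (b p hp) (leg _) (abs_nonneg _) hB
  have i1 := abs_Int2_le hT hP (by fun_prop) (key hB1 b1)
  have i2 := intervalIntegral.norm_integral_le_of_norm_le_const (a := 0) (b := P)
    (C := B2 * (2 * ε) + B2 * (2 * ε))
    (f := fun s => K (T, s) * z (T, s) * (φ (u (T, s)) - u (T, s) * φ1 (u (T, s)))
        + K (-T, s) * z (-T, s) * (φ (u (-T, s)) - u (-T, s) * φ1 (u (-T, s))))
    (fun s _ => (abs_add_le _ _).trans
      (add_le_add (key hB2 b2 _ (top_mem hT s)) (key hB2 b2 _ (bot_mem hT s))))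
  rw [Real.norm_eq_abs, sub_zero, abs_of_pos hP] at i2
  rw [e1, e2]
  linarith [(abs_le.1 i1).2, (abs_le.1 i2).1]

/-- A periodic bump function. -/
theorem bump (hP : 0 < P) (e : ℝ × ℝ) {r : ℝ} (hr : 0 < r) :
    ∃ z : ℝ × ℝ → ℝ, Sm P z ∧ (∀ p, 0 ≤ z p) ∧ (∀ᶠ p in 𝓝 e, z p = 1) ∧
      ∀ p, (z p ≠ 0 ∨ dT z p ≠ 0 ∨ dS z p ≠ 0) → ∃ n : ℤ, dist (p.1, p.2 + n * P) e < r := by
  let h : ℝ × ℝ → ℝ := fun p => (p.1 - e.1) ^ 2 + (1 - Real.cos (2 * Real.pi * ((p.2 - e.2) / P)))
  have hs : ContDiff ℝ ∞ h := by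
    simp only [h]
    fun_prop
  have hper : Per P h := by
    intro t s
    simp only [h]
    rw [show 2 * Real.pi * ((s + P - e.2) / P) = 2 * Real.pi * ((s - e.2) / P) + 2 * Real.pi by
      field_simp; ring, Real.cos_add_two_pi]
  have he : h e = 0 := by simp [h]
  set δ : ℝ := r ^ 2 / (4 + P ^ 2) with hδ
  have δ0 : 0 < δ := by positivity
  have hδ' : δ * (4 + P ^ 2) = r ^ 2 := by rw [hδ]; field_simp
  have hg : ContDiff ℝ ∞ fun y : ℝ => Real.smoothTransition (2 - y / δ) :=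
    Real.smoothTransition.contDiff.comp (by fun_prop)
  refine ⟨fun p => Real.smoothTransition (2 - h p / δ), Sm.comp (f := h) hg ⟨hs, hper⟩,
    fun p => Real.smoothTransition.nonneg _, ?_, fun p hp => ?_⟩
  · have := (hs.continuous.tendsto e).eventually (gt_mem_nhds (show h e < δ by rwa [he]))
    filter_upwards [this] with p hp
    refine Real.smoothTransition.one_of_one_le ?_
    have := (div_le_one δ0).2 hp.le
    linarith
  · have h2 : h p ≤ 2 * δ := by
      by_contra hlt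
      have ev : (fun p => Real.smoothTransition (2 - h p / δ)) =ᶠ[𝓝 p] fun _ => 0 := by
        filter_upwards [(hs.continuous.tendsto p).eventually (lt_mem_nhds (not_le.1 hlt))] with q hq
        refine Real.smoothTransition.zero_of_nonpos ?_
        have := (le_div_iff₀ δ0).2 hq.le
        linarith
      rcases hp with hp | hp | hp
      · exact hp ev.self_of_nhds
      · exact hp (by simp [dT, ev.fderiv_eq])
      · exact hp (by simp [dS, ev.fderiv_eq])
    set x : ℝ := (p.2 - e.2) / P with hx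
    have hy := abs_sub_round x
    have hpi := Real.pi_pos
    have c1 : Real.cos (2 * Real.pi * x) = Real.cos (2 * Real.pi * (x - round x)) := by
      rw [← Real.cos_sub_int_mul_two_pi _ (round x)]
      congr 1
      ring
    have c2 := Real.cos_le_one_sub_mul_cos_sq (x := 2 * Real.pi * (x - round x)) (by
      rw [abs_mul, abs_of_pos (by positivity : 0 < 2 * Real.pi)]
      nlinarith)
    rw [show 2 / Real.pi ^ 2 * (2 * Real.pi * (x - round x)) ^ 2 = 8 * (x - round x) ^ 2 by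
      field_simp; ring] at c2
    have h3 : (p.1 - e.1) ^ 2 + (1 - Real.cos (2 * Real.pi * x)) ≤ 2 * δ := h2
    have c3 := Real.cos_le_one (2 * Real.pi * x)
    refine ⟨-round x, ?_⟩
    rw [Prod.dist_eq, max_lt_iff, Real.dist_eq, Real.dist_eq]
    constructor
    · refine abs_lt_of_sq_lt_sq ?_ hr.le
      have := mul_pos δ0 (pow_pos hP 2)
      simp only
      linarith
    · refine abs_lt_of_sq_lt_sq ?_ hr.le
      have e1 : p.2 + ((-round x : ℤ) : ℝ) * P - e.2 = (x - round x) * P := by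
        rw [sub_mul, hx, div_mul_cancel₀ _ hP.ne']
        push_cast
        ring
      have e2 : 4 * (x - round x) ^ 2 ≤ δ := by nlinarith [sq_nonneg (p.1 - e.1)]
      have e3 := mul_le_mul_of_nonneg_right e2 (sq_nonneg P)
      have e4 := mul_nonneg (sq_nonneg (x - round x)) (sq_nonneg P)
      simp only
      rw [e1, mul_pow]
      linarith

/-- The inner integral across the nodal line. -/
theorem inner (hu : Sm P u) (hz : Sm P z) (z0 : ∀ p, 0 ≤ z p) {ε σ m d t s0 : ℝ}
    {φ ψ : ℝ → ℝ} (hε : 0 < ε) (hc : Cut ε φ ψ) (hσ : σ = 1 ∨ σ = -1) (hm : 0 < m) (hd0 : 0 < d)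
    (hdP : 2 * d ≤ P) (hb : ∀ s ∈ Icc (s0 - d) (s0 + d), z (t, s) = 1 ∧ m ≤ σ * dS u (t, s))
    (h1 : 2 * ε ≤ σ * u (t, s0 + d)) (h2 : σ * u (t, s0 - d) ≤ -(2 * ε)) :
    m ≤ ∫ s in (0 : ℝ)..P,
      deriv (deriv φ) (u (t, s)) * (dT u (t, s) ^ 2 + dS u (t, s) ^ 2) * z (t, s) := by
  have s2 := hu.comp (cd_deriv hc.smφ)
  have s3 := hu.comp (cd_deriv (cd_deriv hc.smφ))
  have sH := (s3.mul ((hu.dT.pow 2).add (hu.dS.pow 2))).mul hz
  have d0 : ∀ r, r < ε → deriv φ r = 0 := by
    intro r hr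
    have : φ =ᶠ[𝓝 r] fun _ => 0 := by
      filter_upwards [gt_mem_nhds hr] with y hy using hc.zero y hy.le
    simp [this.deriv_eq]
  have j1 := sH.2.int_shift t (s0 - d)
  have j2 := intervalIntegral.integral_mono_interval (μ := MeasureTheory.volume)
    (a := s0 - d) (b := s0 + d) (c := s0 - d) (d := s0 - d + P) le_rfl (by linarith) (by linarith)
    (Eventually.of_forall fun s =>
      mul_nonneg (mul_nonneg (hc.conv _) (by positivity)) (z0 _)) (ii_lev sH.cont t _ _)
  have sF := (s3.mul hu.dS).cmul (m * σ)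
  have j3 := intervalIntegral.integral_mono_on (μ := MeasureTheory.volume)
    (a := s0 - d) (b := s0 + d) (by linarith) (ii_lev sF.cont t _ _) (ii_lev sH.cont t _ _)
    (fun s hs => by
      obtain ⟨a1, a2⟩ := hb s hs
      have a3 := hc.conv (u (t, s))
      have a4 : m * (σ * dS u (t, s)) ≤ dT u (t, s) ^ 2 + dS u (t, s) ^ 2 := by
        have a5 : (σ * dS u (t, s)) ^ 2 = dS u (t, s) ^ 2 := by
          rcases hσ with rfl | rfl <;> ring
        nlinarith [sq_nonneg (dT u (t, s))]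
      have := mul_le_mul_of_nonneg_left a4 a3
      simp only [a1]
      linarith)
  have j4 := intervalIntegral.integral_eq_sub_of_hasDerivAt (a := s0 - d) (b := s0 + d)
    (f := fun s => m * σ * deriv φ (u (t, s)))
    (f' := fun s => m * σ * (deriv (deriv φ) (u (t, s)) * dS u (t, s)))
    (fun s _ => ((hd (cd_deriv hc.smφ) _).comp s (hasS (hu.diff (t, s)))).const_mul (m * σ))
    (ii_lev sF.cont t _ _)
  have j5 : m * σ * deriv φ (u (t, s0 + d)) - m * σ * deriv φ (u (t, s0 - d)) = m := by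
    rcases hσ with rfl | rfl
    · rw [hc.one _ (by linarith), d0 _ (by linarith)]
      ring
    · rw [d0 _ (by linarith), hc.one _ (by linarith)]
      ring
  linarith

end EdgeAux

open EdgeAux in
theorem p_EDGE :
    S_EDGE := by
  intro T P W K u e N hT hP hW hK hu he hu0 hS hN
  obtain ⟨r, hr, hrN⟩ := Metric.mem_nhdsWithin_iff.1 hN
  obtain ⟨z, hz, z0, z1, zs⟩ := bump hP e hr
  obtain ⟨C, hC, hest⟩ := est hT hP hW hK hu hz
  obtain ⟨σ, hσ, hσ0⟩ : ∃ σ : ℝ, (σ = 1 ∨ σ = -1) ∧ 0 < σ * dS u e := by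
    rcases lt_or_gt_of_ne hS with h | h
    · exact ⟨-1, Or.inr rfl, by linarith⟩
    · exact ⟨1, Or.inl rfl, by linarith⟩
  set m : ℝ := σ * dS u e / 2 with hm
  have m0 : 0 < m := by positivity
  have ev : ∀ᶠ p in 𝓝 e, m < σ * dS u p :=
    ((hu.sm.dS.cmul σ).cont.tendsto e).eventually (lt_mem_nhds (by linarith))
  obtain ⟨ρ, hρ, hball⟩ := Metric.eventually_nhds_iff.1 (z1.and ev)
  set d : ℝ := min (ρ / 2) (P / 2) with hd
  have d0 : 0 < d := by positivity
  have d1 : d ≤ ρ / 2 := min_le_left _ _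
  have d2 : d ≤ P / 2 := min_le_right _ _
  have box : ∀ t s, |t - e.1| ≤ d → s ∈ Icc (e.2 - d) (e.2 + d) →
      z (t, s) = 1 ∧ m ≤ σ * dS u (t, s) := by
    intro t s ht hs
    have := hball (y := (t, s)) (by
      rw [Prod.dist_eq, max_lt_iff, Real.dist_eq, Real.dist_eq]
      exact ⟨by simp only; linarith, by
        simp only
        rw [abs_lt]
        constructor <;> linarith [hs.1, hs.2]⟩)
    exact ⟨this.1, this.2.le⟩
  have slope : ∀ t a b, |t - e.1| ≤ d → e.2 - d ≤ a → a < b → b ≤ e.2 + d →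
      m * (b - a) ≤ σ * u (t, b) - σ * u (t, a) := by
    intro t a b ht ha hab hb
    obtain ⟨c, hc, hc'⟩ := exists_hasDerivAt_eq_slope (fun s => σ * u (t, s))
      (fun s => σ * dS u (t, s)) hab
      (fun s _ => ((hasS (hu.sm.diff (t, s))).const_mul σ).continuousAt.continuousWithinAt)
      (fun s _ => (hasS (hu.sm.diff (t, s))).const_mul σ)
    have := (box t c ht ⟨by linarith [hc.1], by linarith [hc.2]⟩).2
    rw [hc', le_div_iff₀ (by linarith)] at this
    exact this
  have ct : Continuous fun t => |σ * u (t, e.2)| := by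
    have := hu.sm.cont
    fun_prop
  obtain ⟨η, hη, hsm⟩ := Metric.eventually_nhds_iff.1 ((ct.tendsto e.1).eventually
    (gt_mem_nhds (show |σ * u (e.1, e.2)| < m * d / 2 by
      rw [show u (e.1, e.2) = 0 from hu0, mul_zero, abs_zero]
      positivity)))
  set d' : ℝ := min d (η / 2) with hd'
  have d'0 : 0 < d' := by positivity
  have d'1 : d' ≤ d := min_le_left _ _
  have d'2 : d' ≤ η / 2 := min_le_right _ _
  have t12 : max (-T) (e.1 - d') < min T (e.1 + d') := by
    rw [max_lt_iff, lt_min_iff, lt_min_iff]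
    refine ⟨⟨?_, ?_⟩, ?_, ?_⟩ <;> linarith [he.1, he.2]
  refine ⟨z, m * (min T (e.1 + d') - max (-T) (e.1 - d')), C, m * d / 4, hz,
    mul_pos m0 (sub_pos.2 t12), hC, by positivity, fun p hp hne => ?_,
    fun ε φ ψ hε hε0 hc => ?_⟩
  · obtain ⟨n, hn⟩ := zs p hne
    exact ⟨n, hrN ⟨hn, hp⟩⟩
  · refine (hest ε φ ψ hε hc).trans (add_le_add_left (neg_le_neg ?_) _)
    have s3 := hu.sm.comp (cd_deriv (cd_deriv hc.smφ))
    have sH := (s3.mul ((hu.sm.dT.pow 2).add (hu.sm.dS.pow 2))).mul hz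
    have cH := cont_int sH.cont 0 P
    have j1 := intervalIntegral.integral_mono_interval (μ := MeasureTheory.volume)
      (le_max_left (-T) (e.1 - d')) t12.le (min_le_left T (e.1 + d'))
      (Eventually.of_forall fun t => intervalIntegral.integral_nonneg hP.le fun s _ =>
        mul_nonneg (mul_nonneg (hc.conv (u (t, s))) (by positivity)) (z0 (t, s)))
      (cH.intervalIntegrable _ _)
    have j2 := intervalIntegral.integral_mono_on (μ := MeasureTheory.volume) (f := fun _ => m)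
      t12.le intervalIntegrable_const (cH.intervalIntegrable _ _) (fun t ht => by
        have a1 : |t - e.1| ≤ d' := by
          rw [abs_le]
          constructor
          · linarith [ht.1, le_max_right (-T) (e.1 - d')]
          · linarith [ht.2, min_le_right T (e.1 + d')]
        have a2 := hsm (y := t) (by rw [Real.dist_eq]; linarith)
        have a3 := slope t e.2 (e.2 + d) (a1.trans d'1) (by linarith) (by linarith) le_rfl
        have a4 := slope t (e.2 - d) e.2 (a1.trans d'1) le_rfl (by linarith) (by linarith)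
        rw [abs_lt] at a2
        exact inner hu.sm hz z0 hε hc hσ m0 d0 (by linarith)
          (fun s hs => box t s (a1.trans d'1) hs) (by linarith [a2.1]) (by linarith [a2.2]))
    rw [intervalIntegral.integral_const, smul_eq_mul, mul_comm] at j2
    exact j2.trans j1

end Pool.Agent.P.MP_785924_gt
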