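import Pool.Agent.P.MP_785924_gt.B.Tb2

/-! Statements of the two-dimensional steps. -/

namespace Pool.Agent.P.MP_785924_gt

open scoped ContDiff
open Set Filter Topology

-- deps:
def S_CUT : Prop := ∀ ε : ℝ, 0 < ε → ∃ φ ψ : ℝ → ℝ, Cut ε φ ψ

-- deps:
def S_PIECE : Prop :=
  ∀ (T P ε : ℝ) (u k : ℝ × ℝ → ℝ) (φ : ℝ → ℝ), 0 < T → 0 < P → 0 < ε → Sm P u → Adm T P u k →
    ContDiff ℝ ∞ φ → (∀ r, |r| ≤ ε → φ r = 0) →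
    ∃ v, Sm P v ∧ ∀ p ∈ strip T, v p = k p * φ (u p) ∧
      dT v p = k p * (deriv φ (u p) * dT u p) ∧ dS v p = k p * (deriv φ (u p) * dS u p)

-- deps: PIECE
def S_SMALL : Prop :=
  ∀ (T P : ℝ) (W K u : ℝ × ℝ → ℝ), 0 < T → 0 < P → Sm P W → Sm P K → Jac T P W K u →
    (∃ C : ℝ, 0 ≤ C ∧ ∀ (ε B : ℝ) (φ ψ : ℝ → ℝ) (k v : ℝ × ℝ → ℝ), 0 < ε → ε ≤ 1 → Cut ε φ ψ →
      Adm T P u k → (∀ p, |k p| ≤ B) → Sm P v →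
      (∀ p ∈ strip T, v p = k p * odd φ (u p) ∧ dT v p = k p * (deriv (odd φ) (u p) * dT u p) ∧
        dS v p = k p * (deriv (odd φ) (u p) * dS u p)) →
      |Bf T P W K v v| ≤ C * B ^ 2 * ε) ∧
    ∀ z, Sm P z → ∃ C : ℝ, 0 ≤ C ∧ ∀ (ε : ℝ) (φ ψ : ℝ → ℝ), 0 < ε → Cut ε φ ψ →
      |Bf T P W K (fun p => odd φ (u p)) z| ≤ C * ε

-- deps:
def S_EDGE : Prop :=
  ∀ (T P : ℝ) (W K u : ℝ × ℝ → ℝ) (e : ℝ × ℝ) (N : Set (ℝ × ℝ)), 0 < T → 0 < P → Sm P W →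
    Sm P K → Jac T P W K u → e ∈ strip T → u e = 0 → dS u e ≠ 0 → N ∈ 𝓝[strip T] e →
    ∃ (z : ℝ × ℝ → ℝ) (β C ε0 : ℝ), Sm P z ∧ 0 < β ∧ 0 ≤ C ∧ 0 < ε0 ∧
      (∀ p ∈ strip T, (z p ≠ 0 ∨ dT z p ≠ 0 ∨ dS z p ≠ 0) → ∃ n : ℤ, (p.1, p.2 + n * P) ∈ N) ∧
      ∀ (ε : ℝ) (φ ψ : ℝ → ℝ), 0 < ε → ε ≤ ε0 → Cut ε φ ψ →
        Bf T P W K (fun p => φ (u p)) z ≤ -β + C * ε

-- deps: CUT PIECE SMALL EDGE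
def S_NEG1 : Prop :=
  ∀ (T P : ℝ) (W K u : ℝ × ℝ → ℝ) (k : Fin 5 → ℝ × ℝ → ℝ) (n : ℕ) (e : Fin n → ℝ × ℝ)
    (kp km : Fin n → Fin 5 → ℝ), 0 < T → 0 < P → Sm P W → Sm P K → Jac T P W K u →
    (∀ i, Adm T P u (k i)) →
    (∀ j, e j ∈ strip T ∧ u (e j) = 0 ∧ dS u (e j) ≠ 0 ∧ ∀ᶠ q in 𝓝[strip T] (e j),
      ∀ i, (0 < u q → k i q = kp j i) ∧ (u q < 0 → k i q = km j i)) →
    (∀ a : Fin 5 → ℝ, (∀ j, ∑ i, a i * kp j i = ∑ i, a i * km j i) → a = 0) →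
    Neg5 T P W K

-- deps: CUT PIECE SMALL
def S_NEG2 : Prop :=
  ∀ (T P : ℝ) (V G K u l1 l2 : ℝ × ℝ → ℝ) (k : Fin 3 → ℝ × ℝ → ℝ), 0 < T → 0 < P → Sm P V →
    Sm P G → Sm P K → (∀ p ∈ strip T, 0 < G p) → Jac T P V K u → Jac T P V K l1 →
    Jac T P V K l2 → (∀ i, Adm T P u (k i)) →
    (∀ (a : Fin 3 → ℝ) (b1 b2 : ℝ),
      (∀ p ∈ strip T, (∑ i, a i * k i p) * u p + b1 * l1 p + b2 * l2 p = 0) →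
        a = 0 ∧ b1 = 0 ∧ b2 = 0) →
    Neg5 T P (fun p => V p - G p) K

-- deps:
def S_CLS : Prop :=
  ∀ (T P : ℝ) (u : ℝ × ℝ → ℝ), 0 < T → 0 < P → Sm P u →
    (∀ p ∈ UZ T u, Rel P (UZ T u) p p) ∧
    (∀ p q, Rel P (UZ T u) p q → Rel P (UZ T u) q p) ∧
    (∀ p q r, Rel P (UZ T u) p q → Rel P (UZ T u) q r → Rel P (UZ T u) p r) ∧
    (∀ p q, Rel P (UZ T u) p q → p ∈ UZ T u ∧ q ∈ UZ T u ∧ 0 < u p * u q) ∧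
    (∀ p t s, Rel P (UZ T u) p (t, s + P) ↔ Rel P (UZ T u) p (t, s)) ∧
    (∀ p ∈ UZ T u, ∀ᶠ q in 𝓝[strip T] p, Rel P (UZ T u) p q) ∧
    (∀ r, Adm T P u (ind P (UZ T u) r)) ∧
    (∀ t ∈ Icc (-T) T, ∀ a b, a ≤ b → (∀ s ∈ Icc a b, u (t, s) ≠ 0) →
      Rel P (UZ T u) (t, a) (t, b)) ∧
    ∀ e ∈ strip T, u e = 0 → dS u e ≠ 0 → ∀ η : ℝ, 0 < η → ∃ δ : ℝ, 0 < δ ∧ δ < η ∧
      u (e.1, e.2 + δ) * u (e.1, e.2 - δ) < 0 ∧ ∀ᶠ q in 𝓝[strip T] e,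
        (0 < u q * u (e.1, e.2 + δ) → Rel P (UZ T u) (e.1, e.2 + δ) q) ∧
        (0 < u q * u (e.1, e.2 - δ) → Rel P (UZ T u) (e.1, e.2 - δ) q)

-- deps: CLS NC COMB NEG1
def S_NOD6 : Prop :=
  ∀ (T P : ℝ) (W K u : ℝ × ℝ → ℝ), 0 < T → 0 < P → Sm P W → Sm P K → Jac T P W K u →
    Alt6 P (lev T u) → Alt6 P (lev (-T) u) → Neg5 T P W K

-- deps:
def S_LIN : Prop :=
  ∀ (c ρ C0 T P : ℝ) (w : ℝ × ℝ → ℝ) (x e1 e2 ν : Fin 4 → ℝ × ℝ → ℝ) (d : Fin 3 → ℝ) (p : ℝ × ℝ),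
    Frame c ρ C0 T P w x e1 e2 ν → p ∈ strip T → (∀ᶠ q in 𝓝[strip T] p, cmp4 d x q = 0) → d = 0

-- deps:
def S_JACX : Prop :=
  ∀ (c ρ C0 T P : ℝ) (w : ℝ × ℝ → ℝ) (x e1 e2 ν : Fin 4 → ℝ × ℝ → ℝ),
    Frame c ρ C0 T P w x e1 e2 ν →
    (∀ a, ∀ p ∈ strip T, dT (dT (x a)) p + dS (dS (x a)) p = W0 c w p * x a p) ∧
    (∀ d, Jac T P (W0 c w) (KB ρ C0 w) (cmp4 d x)) ∧ Jac T P (WJ c w) (KB ρ C0 w) (dS w)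

-- deps: CLS NC NEG2 LIN JACX
def S_TPG : Prop :=
  ∀ (c ρ C0 T P σ : ℝ) (w : ℝ × ℝ → ℝ) (x e1 e2 ν : Fin 4 → ℝ × ℝ → ℝ),
    Frame c ρ C0 T P w x e1 e2 ν → ¬ NegQ c ρ C0 T P w → (σ = T ∨ σ = -T) → TP P (lev3 σ x)

-- deps:
def S_CURVE : Prop :=
  ∀ (c ρ C0 T P σ : ℝ) (w : ℝ × ℝ → ℝ) (x e1 e2 ν : Fin 4 → ℝ × ℝ → ℝ),
    Frame c ρ C0 T P w x e1 e2 ν → (σ = T ∨ σ = -T) →
    Curve ρ P (lev σ w) (lev3 σ x) (lev3 σ ν) (lev3 σ e2)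

-- deps:
-- imports: Pool.Agent.P.MP_785924_gt.A.Tb
def S_UCP : Prop :=
  ∀ (T P σ : ℝ) (W v : ℝ × ℝ → ℝ), 0 < T → 0 < P → Sm P W → Sm P v →
    (∀ p ∈ strip T, dT (dT v) p + dS (dS v) p = W p * v p) → (σ = T ∨ σ = -T) →
    (∀ s, v (σ, s) = 0 ∧ dT v (σ, s) = 0) → ∀ p ∈ strip T, v p = 0

-- deps:
-- imports: Pool.Agent.P.MP_785924_gt.A.Tb
def S_UQ4 : Prop :=
  ∀ (c μ T : ℝ) (w f g l1 l2 : ℝ × ℝ → ℝ), ContDiff ℝ ∞ w → Sys4 c μ T w f g l1 l2 →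
    (∀ p ∈ strip T, f p = 0 → g p = 0 → l1 p = 0 → l2 p = 0 →
      ∀ q ∈ strip T, f q = 0 ∧ g q = 0 ∧ l1 q = 0 ∧ l2 q = 0) ∧
    (∀ f' g' l1' l2', Sys4 c μ T w f' g' l1' l2' → ∀ p ∈ strip T, ∀ q ∈ strip T,
      form4 c μ f g l1 l2 f' g' l1' l2' p = form4 c μ f g l1 l2 f' g' l1' l2' q) ∧
    ∀ P : ℝ, Per P w → Sys4 c μ T w (fun p => f (p.1, p.2 + P)) (fun p => g (p.1, p.2 + P))
      (fun p => l1 (p.1, p.2 + P)) (fun p => l2 (p.1, p.2 + P))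

-- deps: ODEEX ODEPAR
-- imports: Pool.Agent.P.MP_785924_gt.A.Tb
def S_TRANS : Prop :=
  ∀ (c ρ C0 T P μ t0 : ℝ) (w : ℝ × ℝ → ℝ) (f0 g0 a0 b0 : ℝ → ℝ), Intr c ρ C0 T P w →
    t0 ∈ Icc (-T) T → SysL c μ w t0 f0 g0 a0 b0 →
    ∃ f g l1 l2, Sys4 c μ T w f g l1 l2 ∧
      (∀ s, f (t0, s) = f0 s ∧ g (t0, s) = g0 s ∧ l1 (t0, s) = a0 s ∧ l2 (t0, s) = b0 s) ∧
      (Function.Periodic f0 P → Function.Periodic g0 P → Function.Periodic a0 P →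
        Function.Periodic b0 P → Per4 P f g l1 l2)

-- deps:
def S_JACU : Prop :=
  ∀ (c μ T : ℝ) (w f g l1 l2 f' g' l1' l2' : ℝ × ℝ → ℝ), 0 < T → ContDiff ℝ ∞ w →
    Sys4 c μ T w f g l1 l2 → Sys4 c μ T w f' g' l1' l2' → ∀ p ∈ strip T,
      dT (dT fun q => l1 q * l2' q - l2 q * l1' q) p + dS (dS fun q => l1 q * l2' q - l2 q * l1' q) p
        = WJ c w p * (l1 p * l2' p - l2 p * l1' p) ∧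
      dT (fun q => l1 q * l2' q - l2 q * l1' q) p
        = Real.exp (w p) * ((-(c * f p) + μ * g p) * l2' p - l2 p * (-(c * f' p) + μ * g' p))
          + ((g p - μ * f p) * l2' p - l2 p * (g' p - μ * f' p)) / Real.exp (w p)

-- deps: TRANS UQ4 SQ1 SQ4
-- imports: Pool.Agent.P.MP_785924_gt.A.Tb
def S_ORAA : Prop :=
  ∀ (c ρ C0 T P κ : ℝ) (w : ℝ × ℝ → ℝ), Intr c ρ C0 T P w → 1 < κ →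
    ScalR ρ P (lev T w) κ → ScalR ρ P (lev (-T) w) κ

-- deps: TRANS UQ4 JACU SQ1 SQ2 SQ3 ALT NOD6
-- imports: Pool.Agent.P.MP_785924_gt.A.Tb
def S_ORAB : Prop :=
  ∀ (c ρ C0 T P κ : ℝ) (w : ℝ × ℝ → ℝ) (φ1 φ2 : ℝ → ℝ), Intr c ρ C0 T P w → 1 < κ →
    AllGE ρ P (lev (-T) w) κ (3 * Real.pi) → AllGE ρ P (lev T w) κ (3 * Real.pi) →
    Sol ρ (lev (-T) w) κ φ1 φ2 → PM P φ1 φ2 → ¬ ScalR ρ P (lev (-T) w) κ → NegQ c ρ C0 T P w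

-- deps:
def S_FLIP : Prop :=
  ∀ (c ρ C0 T P : ℝ) (w : ℝ × ℝ → ℝ), Intr c ρ C0 T P w →
    Intr c ρ C0 T P (fl w) ∧ (NegQ c ρ C0 T P (fl w) → NegQ c ρ C0 T P w)

-- deps: UCP JACU JACX
def S_KILL : Prop :=
  ∀ (c ρ C0 T P : ℝ) (w : ℝ × ℝ → ℝ) (x e1 e2 ν : Fin 4 → ℝ × ℝ → ℝ) (b : Fin 3 → ℝ),
    Frame c ρ C0 T P w x e1 e2 ν →
    (∀ s, deriv (lev (-T) w) s = c * ρ * cmp b (lev3 (-T) e2) s) → Kill T w e1 e2 b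

-- deps: JACU
def S_WEN0 : Prop :=
  ∀ (c ρ C0 T P : ℝ) (w : ℝ × ℝ → ℝ) (x e1 e2 ν : Fin 4 → ℝ × ℝ → ℝ) (b : Fin 3 → ℝ),
    Frame c ρ C0 T P w x e1 e2 ν → Kill T w e1 e2 b → ∀ p ∈ strip T,
      dT w p * dS w p = -(c * Real.exp (w p) * (x 0 p * cmp4 b e2 p - cmp4 b x p * e2 0 p))
        - (ν 0 p * cmp4 b e2 p - cmp4 b ν p * e2 0 p) / Real.exp (w p) ∧
      dT (dS w) p = (ν 0 p * cmp4 b e2 p - cmp4 b ν p * e2 0 p) / Real.exp (w p)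
        - c * Real.exp (w p) * (x 0 p * cmp4 b e2 p - cmp4 b x p * e2 0 p)

-- deps: WEN0
-- imports: Pool.Agent.P.MP_785924_gt.A.Tb
def S_WEN1 : Prop :=
  ∀ (c ρ C0 T P : ℝ) (w : ℝ × ℝ → ℝ) (x e1 e2 ν : Fin 4 → ℝ × ℝ → ℝ) (b : Fin 3 → ℝ),
    Frame c ρ C0 T P w x e1 e2 ν → Kill T w e1 e2 b → ∀ t ∈ Icc (-T) T,
      (∀ s0 s, e2 0 (t, s) * dS w (t, s0) = e2 0 (t, s0) * dS w (t, s) ∧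
        cmp4 b e2 (t, s) * dS w (t, s0) = cmp4 b e2 (t, s0) * dS w (t, s)) ∧
      (Good w t → ∀ s, dS w (t, s) = 0 → dS (dS w) (t, s) ≠ 0)

-- deps: WEN0 WEN1
-- imports: Pool.Agent.P.MP_785924_gt.A.Tb
def S_LINE : Prop :=
  ∀ (c ρ C0 T P : ℝ) (w : ℝ × ℝ → ℝ) (x e1 e2 ν : Fin 4 → ℝ × ℝ → ℝ) (b : Fin 3 → ℝ),
    Frame c ρ C0 T P w x e1 e2 ν → Kill T w e1 e2 b → ∀ t1 t2 : ℝ, -T ≤ t1 → t2 ≤ T →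
      (∀ t ∈ Icc t1 t2, Good w t) → ∀ s, ∀ t ∈ Icc t1 t2, ∀ t' ∈ Icc t1 t2,
        dS w (t, s) = 0 → dS w (t', s) = 0

-- deps: WEN1 LINE NEG1 JACX
def S_F1 : Prop :=
  ∀ (c ρ C0 T P : ℝ) (w : ℝ × ℝ → ℝ) (x e1 e2 ν : Fin 4 → ℝ × ℝ → ℝ) (b : Fin 3 → ℝ),
    Frame c ρ C0 T P w x e1 e2 ν → ¬ NegQ c ρ C0 T P w → Kill T w e1 e2 b →
    Z4 P (lev T (dS w)) → Z4 P (lev (-T) (dS w)) → ∀ t ∈ Icc (-T) T, Good w t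

-- deps: WEN1 LINE JACX
def S_ETA : Prop :=
  ∀ (ρ C0 T P : ℝ) (w : ℝ × ℝ → ℝ) (x e1 e2 ν : Fin 4 → ℝ × ℝ → ℝ) (b : Fin 3 → ℝ),
    Frame (-1) ρ C0 T P w x e1 e2 ν → Kill T w e1 e2 b → (∀ t ∈ Icc (-T) T, Good w t) →
    Z4 P (lev (-T) (dS w)) →
    ∀ t ∈ Ioo (-T) T, ∀ s, dS w (t, s) ≠ 0 → e2 0 (t, s) * dS w (t, s) < 0

-- deps: WEN0 WEN1 LINE
-- imports: Pool.Agent.P.MP_785924_gt.A.Tb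
def S_WEN2 : Prop :=
  ∀ (ρ C0 T P : ℝ) (w : ℝ × ℝ → ℝ) (x e1 e2 ν : Fin 4 → ℝ × ℝ → ℝ) (b : Fin 3 → ℝ),
    Frame (-1) ρ C0 T P w x e1 e2 ν → Kill T w e1 e2 b → (∀ t ∈ Icc (-T) T, Good w t) →
    (∀ t ∈ Ioo (-T) T, ∀ s, dS w (t, s) ≠ 0 → e2 0 (t, s) * dS w (t, s) < 0) →
    ∃ n h α β n' h' α' β' Wa Wb W3 : ℝ → ℝ,
      (∀ t ∈ Icc (-T) T, HasDerivAt n (n' t) t ∧ HasDerivAt h (h' t) t ∧ HasDerivAt α (α' t) t ∧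
        HasDerivAt β (β' t) t ∧ HasDerivAt Wa (2 * β t * n t) t ∧
        HasDerivAt Wb (-(2 * α t * n t)) t ∧ HasDerivAt W3 (2 * β t * h t) t ∧
        Wa t = α' t * n t - α t * n' t ∧ Wb t = β' t * n t - β t * n' t ∧
        h' t * n t - h t * n' t = 1) ∧
      (∀ t ∈ Ioo (-T) T, 0 < n t ∧ 0 < Wa t) ∧
      Wa T = Wa (-T) ∧ Wb T = 0 ∧ Wb (-T) = 0 ∧ β T = 0 ∧ β (-T) = 0 ∧
      BOde ρ (-(W3 T / ρ)) (β' T) (lev T w) ∧ BOde ρ (W3 (-T) / ρ) (β' (-T)) (lev (-T) w)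

-- deps:
def S_WEN3 : Prop :=
  ∀ (T : ℝ) (n h α β n' h' α' β' Wa Wb W3 : ℝ → ℝ), 0 < T →
    (∀ t ∈ Icc (-T) T, HasDerivAt n (n' t) t ∧ HasDerivAt h (h' t) t ∧ HasDerivAt α (α' t) t ∧
      HasDerivAt β (β' t) t ∧ HasDerivAt Wa (2 * β t * n t) t ∧
      HasDerivAt Wb (-(2 * α t * n t)) t ∧ HasDerivAt W3 (2 * β t * h t) t ∧
      Wa t = α' t * n t - α t * n' t ∧ Wb t = β' t * n t - β t * n' t ∧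
      h' t * n t - h t * n' t = 1) →
    (∀ t ∈ Ioo (-T) T, 0 < n t ∧ 0 < Wa t) →
    Wa T = Wa (-T) → Wb T = 0 → Wb (-T) = 0 → β T = 0 → β (-T) = 0 →
    β' T ≤ 0 ∧ β' (-T) ≤ 0 ∧ W3 (-T) < W3 T

-- deps: JACX LIN
def S_SIG : Prop :=
  ∀ (c ρ C0 T P : ℝ) (w v : ℝ × ℝ → ℝ) (x e1 e2 ν : Fin 4 → ℝ × ℝ → ℝ),
    Frame c ρ C0 T P w x e1 e2 ν → ¬ NegQ c ρ C0 T P w → Sm P v →
    (∫ s in (0 : ℝ)..P, (Real.exp (w (T, s)) * v (T, s) + Real.exp (w (-T, s)) * v (-T, s))) = 0 →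
    0 ≤ Bf T P (W0 c w) (KB ρ C0 w) v v

-- deps: JACX SIG
def S_WENS : Prop :=
  ∀ (ρ C0 T P : ℝ) (w : ℝ × ℝ → ℝ) (x e1 e2 ν : Fin 4 → ℝ × ℝ → ℝ),
    Frame 1 ρ C0 T P w x e1 e2 ν → ¬ NegQ 1 ρ C0 T P w →
    (∀ i : Fin 3, (∫ s in (0 : ℝ)..P, Real.exp (w (T, s)) ^ 2 * e2 i.succ (T, s)) = 0) →
    (∀ i : Fin 3, (∫ s in (0 : ℝ)..P, Real.exp (w (-T, s)) ^ 2 * e2 i.succ (-T, s)) = 0) →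
    ∀ p ∈ strip T, dS w p = 0

-- deps:
def S_FR1A : Prop :=
  ∀ (M : Model) (R T P : ℝ) (x ν : Fin 4 → ℝ × ℝ → ℝ), M.Radius R → 0 < T → 0 < P →
    FBAnnulus M R T P x ν →
    (M.curv = 1 ∨ M.curv = -1) ∧ 0 < M.sn R ∧ 0 < M.cs R ∧ M.cs R ^ 2 + M.curv * M.sn R ^ 2 = 1 ∧
    ∃ (w : ℝ × ℝ → ℝ) (e1 e2 : Fin 4 → ℝ × ℝ → ℝ), Sm P w ∧
      Alg M.curv (M.sn R) (M.cs R) T P x e1 e2 ν ∧ ∀ p ∈ strip T, gE M x p = Real.exp (w p) ^ 2 ∧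
        ∀ a, dT (x a) p = Real.exp (w p) * e1 a p ∧ dS (x a) p = Real.exp (w p) * e2 a p

-- deps:
def S_FR1B : Prop :=
  ∀ (c ρ C0 T P : ℝ) (w : ℝ × ℝ → ℝ) (x e1 e2 ν : Fin 4 → ℝ × ℝ → ℝ), (c = 1 ∨ c = -1) → 0 < ρ →
    0 < C0 → C0 ^ 2 + c * ρ ^ 2 = 1 → 0 < T → 0 < P → Sm P w → Alg c ρ C0 T P x e1 e2 ν →
    (∀ p ∈ strip T, ∀ a, dT (x a) p = Real.exp (w p) * e1 a p ∧
      dS (x a) p = Real.exp (w p) * e2 a p) →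
    (∀ p ∈ strip T, ip c (vec (vT (vT x)) p) (vec ν p) + ip c (vec (vS (vS x)) p) (vec ν p) = 0) →
    PreFrame c ρ C0 T P w (hA c x ν) (hB c x ν) x e1 e2 ν

-- deps:
def S_FR2A : Prop :=
  ∀ (c ρ C0 T P : ℝ) (w A B : ℝ × ℝ → ℝ) (x e1 e2 ν : Fin 4 → ℝ × ℝ → ℝ),
    PreFrame c ρ C0 T P w A B x e1 e2 ν →
    GaussH c ρ C0 T w (fun p => A p ^ 2 + B p ^ 2) ∧
    (∀ p ∈ strip T, dT A p = -dS B p ∧ dS A p = dT B p) ∧ ∀ s, B (T, s) = 0 ∧ B (-T, s) = 0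

-- deps: FR2A
def S_FR2B : Prop :=
  ∀ (c ρ C0 T P : ℝ) (w A B : ℝ × ℝ → ℝ) (x e1 e2 ν : Fin 4 → ℝ × ℝ → ℝ),
    PreFrame c ρ C0 T P w A B x e1 e2 ν →
    ∃ h : ℝ, h ≠ 0 ∧ ∀ p ∈ strip T, A p = h ∧ B p = 0

-- deps: FR2A
def S_SC1 : Prop :=
  ∀ (c ρ C0 T P h r σ : ℝ) (w A B : ℝ × ℝ → ℝ) (x e1 e2 ν : Fin 4 → ℝ × ℝ → ℝ),
    PreFrame c ρ C0 T P w A B x e1 e2 ν → (∀ p ∈ strip T, A p = h ∧ B p = 0) → 0 < r →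
    (σ = 1 ∨ σ = -1) → σ * h = r ^ 2 →
    Frame c ρ C0 (r * T) (r * P) (fun p => sc r w p - Real.log r) (fun a => sc r (x a))
      (fun a => sc r (e1 a)) (fun a => sc r (e2 a)) (fun a p => σ * sc r (ν a) p)

-- deps:
def S_SC2 : Prop :=
  ∀ (M : Model) (R T P r : ℝ) (w : ℝ × ℝ → ℝ) (x ν : Fin 4 → ℝ × ℝ → ℝ), 0 < T → 0 < P → 0 < r →
    Sm P w → (∀ p ∈ strip T, gE M x p = Real.exp (w p) ^ 2 ∧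
      normA2 M x ν p = 2 * r ^ 4 / Real.exp (w p) ^ 4) →
    NegQ M.curv (M.sn R) (M.cs R) (r * T) (r * P) (fun p => sc r w p - Real.log r) →
    IndexGE M R T P x ν 5

-- deps: UQ4
-- imports: Pool.Agent.P.MP_785924_gt.A.Tb
def S_ROT : Prop :=
  ∀ (c ρ C0 T P : ℝ) (w : ℝ × ℝ → ℝ) (x e1 e2 ν : Fin 4 → ℝ × ℝ → ℝ),
    Frame c ρ C0 T P w x e1 e2 ν → (∀ p ∈ strip T, dS w p = 0) → Rotational T x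

end Pool.Agent.P.MP_785924_gt
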