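import Pool.Agent.P.MP_785924_gt.B.IfaceB

/-! Step JACU of the free boundary annulus project. -/

namespace Pool.Agent.P.MP_785924_gt

open scoped ContDiff
open Set Filter Topology

namespace JacuAux

variable {c μ T : ℝ} {w f g l1 l2 : ℝ × ℝ → ℝ} {p : ℝ × ℝ}

/-- The combination `a + ε b`. -/
noncomputable def ab (ε c μ : ℝ) (w f g : ℝ × ℝ → ℝ) (q : ℝ × ℝ) : ℝ :=
  Real.exp (w q) * (-(c * f q) + μ * g q) + ε * ((g q - μ * f q) / Real.exp (w q))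

theorem cd_ab (ε : ℝ) (hw : ContDiff ℝ ∞ w) (h : Sys4 c μ T w f g l1 l2) :
    ContDiff ℝ ∞ (ab ε c μ w f g) :=
  (hw.exp.mul ((contDiff_const.mul h.sf).neg.add (contDiff_const.mul h.sg))).add
    (contDiff_const.mul ((h.sg.sub (contDiff_const.mul h.sf)).div hw.exp
      fun _ => Real.exp_ne_zero _))

theorem dT_ab (hw : ContDiff ℝ ∞ w) (h : Sys4 c μ T w f g l1 l2) (hp : p ∈ strip T) :
    dT (ab 1 c μ w f g) p = dT w p * ab (-1) c μ w f g p
      - (c * Real.exp (w p) ^ 2 + 1 / Real.exp (w p) ^ 2 + 2 * μ) * l1 p := by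
  obtain ⟨a1, a2, -, -⟩ := h.eT p hp
  obtain ⟨t, s⟩ := p
  have hW := (hasT (cd_diff hw (t, s))).exp
  have hf := hasT (cd_diff h.sf (t, s))
  have hg := hasT (cd_diff h.sg (t, s))
  have h0 := Real.exp_ne_zero (w (t, s))
  refine dT_eq (cd_diff (cd_ab 1 hw h) _) (((hW.fun_mul ((hf.const_mul c).fun_neg.fun_add
    (hg.const_mul μ))).fun_add (((hg.fun_sub (hf.const_mul μ)).fun_div hW h0).const_mul
      1)).congr_deriv ?_)
  rw [a1, a2, ab]
  field_simp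
  ring

theorem dS_ab (hw : ContDiff ℝ ∞ w) (h : Sys4 c μ T w f g l1 l2) (hp : p ∈ strip T) :
    dS (ab (-1) c μ w f g) p = dS w p * ab 1 c μ w f g p
      - (c * Real.exp (w p) ^ 2 + 1 / Real.exp (w p) ^ 2 - 2 * μ) * l2 p := by
  obtain ⟨a1, a2, -, -⟩ := h.eS p hp
  obtain ⟨t, s⟩ := p
  have hW := (hasS (cd_diff hw (t, s))).exp
  have hf := hasS (cd_diff h.sf (t, s))
  have hg := hasS (cd_diff h.sg (t, s))
  have h0 := Real.exp_ne_zero (w (t, s))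
  refine dS_eq (cd_diff (cd_ab (-1) hw h) _) (((hW.fun_mul ((hf.const_mul c).fun_neg.fun_add
    (hg.const_mul μ))).fun_add (((hg.fun_sub (hf.const_mul μ)).fun_div hW h0).const_mul
      (-1))).congr_deriv ?_)
  rw [a1, a2, ab]
  field_simp
  ring

end JacuAux

open JacuAux in
theorem p_JACU :
    S_JACU := by
  intro c μ T w f g l1 l2 f' g' l1' l2' hT hw h h' p hp
  have d1 := cd_diff h.s1
  have d2 := cd_diff h.s2
  have d1' := cd_diff h'.s1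
  have d2' := cd_diff h'.s2
  have dA := fun ε => cd_diff (cd_ab ε hw h)
  have dA' := fun ε => cd_diff (cd_ab ε hw h')
  have hU : ContDiff ℝ ∞ fun q => l1 q * l2' q - l2 q * l1' q :=
    (h.s1.mul h'.s2).sub (h.s2.mul h'.s1)
  have eT : ∀ q ∈ strip T, dT (fun q => l1 q * l2' q - l2 q * l1' q) q
      = ab 1 c μ w f g q * l2' q - l2 q * ab 1 c μ w f' g' q := fun q hq => by
    obtain ⟨-, -, a3, a4⟩ := h.eT q hq
    obtain ⟨-, -, b3, b4⟩ := h'.eT q hq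
    rw [dT_sub ((d1 q).fun_mul (d2' q)) ((d2 q).fun_mul (d1' q)), dT_mul (d1 q) (d2' q),
      dT_mul (d2 q) (d1' q), a3, a4, b3, b4, ab, ab]
    ring
  have eS : ∀ q ∈ strip T, dS (fun q => l1 q * l2' q - l2 q * l1' q) q
      = l1 q * ab (-1) c μ w f' g' q - ab (-1) c μ w f g q * l1' q := fun q hq => by
    obtain ⟨-, -, a3, a4⟩ := h.eS q hq
    obtain ⟨-, -, b3, b4⟩ := h'.eS q hq
    rw [dS_sub ((d1 q).fun_mul (d2' q)) ((d2 q).fun_mul (d1' q)), dS_mul (d1 q) (d2' q),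
      dS_mul (d2 q) (d1' q), a3, a4, b3, b4, ab, ab]
    ring
  refine ⟨?_, by rw [eT p hp, ab, ab]; ring⟩
  rw [dT_congr hT hp (cd_diff (cd_dT hU) p)
      (((dA 1 p).fun_mul (d2' p)).fun_sub ((d2 p).fun_mul (dA' 1 p))) eT,
    dS_congr hT hp (cd_diff (cd_dS hU) p)
      (((d1 p).fun_mul (dA' (-1) p)).fun_sub ((dA (-1) p).fun_mul (d1' p))) eS,
    dT_sub ((dA 1 p).fun_mul (d2' p)) ((d2 p).fun_mul (dA' 1 p)),
    dS_sub ((d1 p).fun_mul (dA' (-1) p)) ((dA (-1) p).fun_mul (d1' p)),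
    dT_mul (dA 1 p) (d2' p), dT_mul (d2 p) (dA' 1 p), dS_mul (d1 p) (dA' (-1) p),
    dS_mul (dA (-1) p) (d1' p), dT_ab hw h hp, dT_ab hw h' hp, dS_ab hw h hp, dS_ab hw h' hp,
    (h.eT p hp).2.2.2, (h'.eT p hp).2.2.2, (h.eS p hp).2.2.1, (h'.eS p hp).2.2.1, WJ]
  ring

end Pool.Agent.P.MP_785924_gt
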