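import Pool.Agent.P.MP_785924_gt.B.IfaceB

/-! Step SIG of the free boundary annulus project. -/

namespace Pool.Agent.P.MP_785924_gt

open scoped ContDiff
open Set Filter Topology

namespace SIGAux

variable {c ρ C0 T P : ℝ} {w z : ℝ × ℝ → ℝ} {x e1 e2 ν : Fin 4 → ℝ × ℝ → ℝ}

theorem q_x0 (hJ : S_JACX) (h : Frame c ρ C0 T P w x e1 e2 ν) (hz : Sm P z) :
    Bf T P (W0 c w) (KB ρ C0 w) (x 0) z = -(1 / ρ) *
      ∫ s in (0 : ℝ)..P, (Real.exp (w (T, s)) * z (T, s) + Real.exp (w (-T, s)) * z (-T, s)) := by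
  have hT := h.intr.hT
  have hρ := h.intr.hρ.ne'
  have hC : C0 ^ 2 = 1 - c * ρ ^ 2 := by linarith [h.intr.hCρ]
  rw [green (h.alg.smx 0) hz (sm_W0 h.intr.sm c).cont (sm_KB h.intr.sm ρ C0).cont,
    Int2_congr (g := fun _ => 0) hT (fun p hp => by
      rw [(hJ c ρ C0 T P w x e1 e2 ν h).1 0 p hp]; ring), Int2_const, mul_zero, zero_add,
    ← intervalIntegral.integral_const_mul]
  congr 1
  funext s
  have a1 := ((h.sys 0).eT _ (top_mem hT s)).1
  have a2 := ((h.sys 0).eT _ (bot_mem hT s)).1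
  rw [a1, a2, (h.alg.top s).1, (h.alg.bot s).1, (h.alg.top s).2.2.2.1, (h.alg.bot s).2.2.2.1]
  unfold KB
  field_simp
  rw [hC]; ring

theorem q_x0_x0 (hJ : S_JACX) (h : Frame c ρ C0 T P w x e1 e2 ν) :
    Bf T P (W0 c w) (KB ρ C0 w) (x 0) (x 0) < 0 := by
  rw [q_x0 hJ h (h.alg.smx 0)]
  refine mul_neg_of_neg_of_pos (neg_lt_zero.2 (one_div_pos.2 h.intr.hρ)) ?_
  have c1 := h.intr.sm.cont
  have c2 := (h.alg.smx 0).cont
  refine intervalIntegral.intervalIntegral_pos_of_pos_on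
    (Continuous.intervalIntegrable (by fun_prop) _ _) (fun s _ => ?_) h.intr.hP
  rw [(h.alg.top s).1, (h.alg.bot s).1]
  have := h.intr.hC
  positivity

end SIGAux

open SIGAux in
theorem p_SIG (hJACX : S_JACX) (hLIN : S_LIN) :
    S_SIG := by
  intro c ρ C0 T P w v x e1 e2 ν h hN hv hint
  by_contra hneg
  push Not at hneg
  apply hN
  have hT := h.intr.hT
  have hW := (sm_W0 h.intr.sm c).cont
  have hK := (sm_KB h.intr.sm ρ C0).cont
  have hx := h.alg.smx
  refine ⟨![x 0, v, x 1, x 2, x 3], fun i => by fin_cases i <;> simp [hx, hv], fun a ha => ?_⟩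
  set d : Fin 3 → ℝ := ![a 2, a 3, a 4] with hd
  have hy : (fun p => ∑ i, a i * (![x 0, v, x 1, x 2, x 3] : Fin 5 → ℝ × ℝ → ℝ) i p)
      = fun p => (a 0 * x 0 p + a 1 * v p) + cmp4 d x p := by
    funext p
    simp [Fin.sum_univ_five, cmp4, hd]; ring
  have s1 := ((hx 0).cmul (a 0)).add (hv.cmul (a 1))
  have s2 := Sm.cmp4 hx d
  have sy := s1.add s2
  have hG : Sm P fun p => 2 / Real.exp (w p) ^ 2 :=
    (Sm.const P 2).div (h.intr.sm.exp.pow 2) fun q => by positivity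
  have hJ := ((hJACX c ρ C0 T P w x e1 e2 ν h).2.1 d)
  have e0 : Bf T P (W0 c w) (KB ρ C0 w) (x 0) v = 0 := by rw [q_x0 hJACX h hv, hint, mul_zero]
  have n0 := q_x0_x0 hJACX h
  rw [hy, show WJ c w = fun p => W0 c w p - 2 / Real.exp (w p) ^ 2 from rfl,
    Bf_sub_pot sy.1 sy.1 hW hG.cont, Bf_add_left s1.1 s2.1 sy.1 hW hK, hJ.null hT sy hW hK,
    Bf_add_right s1.1 s1.1 s2.1 hW hK, Bf_symm _ _ _ _ _ (cmp4 d x), hJ.null hT s1 hW hK,
    Bf_add_left ((hx 0).cmul _).1 (hv.cmul _).1 s1.1 hW hK, Bf_cmul_left _ (hx 0).1,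
    Bf_cmul_left _ hv.1, Bf_add_right (hx 0).1 ((hx 0).cmul _).1 (hv.cmul _).1 hW hK,
    Bf_add_right hv.1 ((hx 0).cmul _).1 (hv.cmul _).1 hW hK, Bf_cmul_right _ (hx 0).1,
    Bf_cmul_right _ hv.1, Bf_cmul_right _ (hx 0).1, Bf_cmul_right _ hv.1,
    Bf_symm _ _ _ _ v (x 0), e0]
  have nn : ∀ p ∈ strip T, 0 ≤ 2 / Real.exp (w p) ^ 2 * ((a 0 * x 0 p + a 1 * v p + cmp4 d x p)
      * (a 0 * x 0 p + a 1 * v p + cmp4 d x p)) := fun p _ =>
    mul_nonneg (by positivity) (mul_self_nonneg _)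
  have i0 := Int2_nonneg (P := P) hT h.intr.hP nn
  have b0 := mul_nonpos_of_nonneg_of_nonpos (mul_self_nonneg (a 0)) n0.le
  have b1 := mul_nonpos_of_nonneg_of_nonpos (mul_self_nonneg (a 1)) hneg.le
  by_cases h0 : a 0 = 0
  · by_cases h1 : a 1 = 0
    · have : 0 < Int2 T P fun p => 2 / Real.exp (w p) ^ 2 *
          ((a 0 * x 0 p + a 1 * v p + cmp4 d x p) * (a 0 * x 0 p + a 1 * v p + cmp4 d x p)) := by
        by_contra hc
        have z := zero_of_Int2 hT h.intr.hP (hG.mul (sy.mul sy)).cont (hG.mul (sy.mul sy)).2 nn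
          (not_lt.1 hc)
        have := hLIN c ρ C0 T P w x e1 e2 ν d _ h (top_mem hT 0) (by
          filter_upwards [self_mem_nhdsWithin] with q hq
          have := (mul_eq_zero.1 (z q hq)).resolve_left (by positivity)
          simpa [h0, h1] using this)
        apply ha
        funext i
        have d0 := congrFun this 0
        have d1 := congrFun this 1
        have d2 := congrFun this 2
        simp only [hd, Matrix.cons_val_zero, Matrix.cons_val_one, Matrix.cons_val] at d0 d1 d2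
        fin_cases i <;> simp_all
      nlinarith
    · nlinarith [mul_neg_of_pos_of_neg (mul_self_pos.2 h1) hneg]
  · nlinarith [mul_neg_of_pos_of_neg (mul_self_pos.2 h0) n0]

end Pool.Agent.P.MP_785924_gt
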